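import Pool.Agent.Lib.MP_a3a416_nt.SJ5.GDefs
import Pool.Agent.Lib.MP_a3a416_nt.SJ.FPS

/-! # SJ5-FSum: prime sums with hinge weights -/

set_option autoImplicit false

namespace MP_a3a416_nt.SJ5

open Finset Filter Asymptotics MP_a3a416_nt.SJ

theorem prs_union (x y z : ℕ) (hxy : x ≤ y) (hyz : y ≤ z) (f : ℕ → ℝ) :
    ∑ p ∈ prs x z, f p = ∑ p ∈ prs x y, f p + ∑ p ∈ prs y z, f p := by
  unfold prs
  rw [← Ioc_union_Ioc_eq_Ioc hxy hyz, filter_union, sum_union]
  rw [disjoint_left]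
  intro a ha hb
  simp only [mem_filter, mem_Ioc] at ha hb
  omega

theorem sum_log_prs_nonneg (x y : ℕ) : 0 ≤ ∑ p ∈ prs x y, Real.log (p : ℝ) :=
  sum_nonneg fun p _ => Real.log_natCast_nonneg p

theorem sum_log_prs_le (x y : ℕ) : ∑ p ∈ prs x y, Real.log (p : ℝ) ≤ Real.log 4 * y := by
  refine le_trans ?_ (Chebyshev.theta_le_log4_mul_x (x := (y : ℝ)) (by positivity))
  unfold Chebyshev.theta
  rw [Nat.floor_natCast]
  unfold prs
  refine sum_le_sum_of_subset_of_nonneg ?_ fun i _ _ => Real.log_natCast_nonneg i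
  refine filter_subset_filter _ fun i hi => ?_
  rw [mem_Ioc] at hi ⊢
  omega

theorem sum_log_asy (a b : ℕ) :
    Asy (fun m : ℕ => ∑ p ∈ prs (a * m) (b * m), Real.log (p : ℝ)) 0 0 := by
  refine Asy.of_isLittleO ?_
  have h1 : (fun m : ℕ => ∑ p ∈ prs (a * m) (b * m), Real.log (p : ℝ)) =O[atTop]
      (fun m : ℕ => (m : ℝ)) := by
    refine IsBigO.of_bound (Real.log 4 * b) (Eventually.of_forall fun m => ?_)
    rw [Real.norm_eq_abs, abs_of_nonneg (sum_log_prs_nonneg _ _), Real.norm_eq_abs,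
      abs_of_nonneg (Nat.cast_nonneg m)]
    have := sum_log_prs_le (a * m) (b * m)
    push_cast at this
    linarith
  refine h1.trans_isLittleO ?_
  have h2 : (fun x : ℝ => x ^ 1) =o[atTop] (fun x : ℝ => x ^ 2) := isLittleO_pow_pow_atTop_of_lt
    (by norm_num)
  have h3 := h2.comp_tendsto tendsto_natCast_atTop_atTop
  simpa [Function.comp_def] using h3

theorem prsum_nat (α β : ℝ) (a b : ℕ) (hab : a ≤ b) :
    Asy (fun m : ℕ => ∑ p ∈ prs (a * m) (b * m), (α * m + β * p) * Real.log (p : ℝ)) 0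
      (α * (b - a) + β * (b ^ 2 - a ^ 2) / 2) := by
  have h := prsum_asy α β (a : ℝ) (b : ℝ) (by positivity) (by exact_mod_cast hab)
  refine h.congr (Eventually.of_forall fun m => ?_)
  have e1 : ⌊(a : ℝ) * m⌋₊ = a * m := by rw [← Nat.cast_mul, Nat.floor_natCast]
  have e2 : ⌊(b : ℝ) * m⌋₊ = b * m := by rw [← Nat.cast_mul, Nat.floor_natCast]
  simp only [e1, e2]

/-- hinge weights -/
theorem hinge (a b al y : ℕ) (hy : 0 < y) (h1 : a * y ≤ al) (h2 : al ≤ b * y) :
    Asy (fun m : ℕ => ∑ p ∈ prs (a * m) (b * m),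
      ((max 0 ((al * m : ℤ) - y * p) : ℤ) : ℝ) * Real.log p) 0
      (((al : ℝ) - a * y) ^ 2 / (2 * y)) := by
  have hy0 : (0 : ℝ) < y := by exact_mod_cast hy
  have h1' : (a : ℝ) * y ≤ al := by exact_mod_cast h1
  have h2' : (al : ℝ) ≤ b * y := by exact_mod_cast h2
  have hab : (a : ℝ) ≤ al / y := by
    rw [le_div_iff₀ hy0]
    exact h1'
  have hb : (al : ℝ) / y ≤ b := by
    rw [div_le_iff₀ hy0]
    exact h2'
  refine ((prsum_asy (al : ℝ) (-(y : ℝ)) a ((al : ℝ) / y) (by positivity) hab).congr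
    (Eventually.of_forall fun m => ?_)).cast rfl ?_
  · have hfl : ⌊(a : ℝ) * m⌋₊ = a * m := by
      have : (a : ℝ) * m = ((a * m : ℕ) : ℝ) := by push_cast; ring
      rw [this, Nat.floor_natCast]
    have hfl2 : ⌊(al : ℝ) / y * m⌋₊ ≤ b * m := by
      have h : (al : ℝ) / y * m ≤ ((b * m : ℕ) : ℝ) := by
        push_cast
        exact mul_le_mul_of_nonneg_right hb (Nat.cast_nonneg m)
      have := Nat.floor_le_floor h
      rwa [Nat.floor_natCast] at this
    rw [hfl]
    have hsub : prs (a * m) ⌊(al : ℝ) / y * m⌋₊ ⊆ prs (a * m) (b * m) := by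
      intro p hp
      rw [prs, mem_filter, mem_Ioc] at hp ⊢
      exact ⟨⟨hp.1.1, le_trans hp.1.2 hfl2⟩, hp.2⟩
    refine Eq.trans ?_ (Finset.sum_subset hsub fun p hp hp' => ?_)
    · refine Finset.sum_congr rfl fun p hp => ?_
      rw [prs, mem_filter, mem_Ioc] at hp
      have hle : (p : ℝ) ≤ (al : ℝ) / y * m :=
        le_trans (Nat.cast_le.2 hp.1.2) (Nat.floor_le (by positivity))
      have hle2 : (y : ℝ) * p ≤ al * m := by
        have h := mul_le_mul_of_nonneg_left hle hy0.le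
        have h3 : (y : ℝ) * ((al : ℝ) / y * m) = al * m := by
          field_simp
        linarith
      have hle3 : (y * p : ℤ) ≤ al * m := by exact_mod_cast hle2
      rw [max_eq_right (by linarith)]
      push_cast
      ring
    · rw [prs, mem_filter, mem_Ioc] at hp hp'
      have hlt : ⌊(al : ℝ) / y * m⌋₊ < p := by
        by_contra hcon
        push Not at hcon
        exact hp' ⟨⟨hp.1.1, hcon⟩, hp.2⟩
      have hlt2 : (al : ℝ) / y * m < p := (Nat.floor_lt (by positivity)).1 hlt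
      have hlt3 : (al : ℝ) * m ≤ y * p := by
        have h := mul_lt_mul_of_pos_left hlt2 hy0
        have h3 : (y : ℝ) * ((al : ℝ) / y * m) = al * m := by
          field_simp
        linarith
      have hlt4 : (al * m : ℤ) ≤ y * p := by exact_mod_cast hlt3
      rw [max_eq_left (by linarith)]
      simp
  · field_simp
    ring

theorem f2_ge : ∃ h : ℕ → ℝ, Asy h 0 (13877 / 42) ∧
    ∀ m : ℕ, 1 ≤ m → h m ≤ ∑ p ∈ prs (12 * m) (20 * m), (f2 m p : ℝ) * Real.log p := by
  have a5 := hinge 12 20 90 5 (by norm_num) (by norm_num) (by norm_num)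
  have a6 := hinge 12 20 90 6 (by norm_num) (by norm_num) (by norm_num)
  have a7 := hinge 12 20 90 7 (by norm_num) (by norm_num) (by norm_num)
  have b1 := (hinge 12 20 15 1 (by norm_num) (by norm_num) (by norm_num)).const_mul (-2)
  have b3 := (hinge 12 20 55 3 (by norm_num) (by norm_num) (by norm_num)).const_mul (-1)
  have c1 := prsum_nat (-365) 25 12 20 (by norm_num)
  have c2 := (sum_log_asy 12 20).const_mul (-415)
  refine ⟨_, ((((((a5.add a6).add a7).add b1).add b3).add c1).add c2).cast (by norm_num)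
    (by norm_num), fun m hm => ?_⟩
  rw [← sum_add_distrib, ← sum_add_distrib, mul_sum, ← sum_add_distrib, mul_sum,
    ← sum_add_distrib, ← sum_add_distrib, mul_sum, ← sum_add_distrib]
  refine sum_le_sum fun p hp => ?_
  have hp1 := (mem_Ioc.mp (mem_filter.mp hp).1)
  have key : max 0 (((90 : ℕ) * m : ℤ) - (5 : ℕ) * p) + max 0 (((90 : ℕ) * m : ℤ) - (6 : ℕ) * p) +
      max 0 (((90 : ℕ) * m : ℤ) - (7 : ℕ) * p) - 2 * max 0 (((15 : ℕ) * m : ℤ) - (1 : ℕ) * p) -
      max 0 (((55 : ℕ) * m : ℤ) - (3 : ℕ) * p) + (-365 * m + 25 * p) - 415 ≤ f2 m p := by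
    unfold f2
    push_cast
    omega
  have key' : ((max 0 (((90 : ℕ) * m : ℤ) - (5 : ℕ) * p) + max 0 (((90 : ℕ) * m : ℤ) - (6 : ℕ) * p) +
      max 0 (((90 : ℕ) * m : ℤ) - (7 : ℕ) * p) - 2 * max 0 (((15 : ℕ) * m : ℤ) - (1 : ℕ) * p) -
      max 0 (((55 : ℕ) * m : ℤ) - (3 : ℕ) * p) + (-365 * m + 25 * p) - 415 : ℤ) : ℝ) ≤ (f2 m p : ℝ) := by
    exact_mod_cast key
  have hl : 0 ≤ Real.log (p : ℝ) := Real.log_natCast_nonneg p
  refine le_trans (le_of_eq ?_) (mul_le_mul_of_nonneg_right key' hl)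
  push_cast
  ring

theorem f3_ge : ∃ h : ℕ → ℝ, Asy h 0 7725 ∧
    ∀ m : ℕ, 10 ≤ m → h m ≤ ∑ p ∈ prs (20 * m) (160 * m), (f3 m p : ℝ) * Real.log p := by
  have h1 := prsum_nat 145 (-1) 20 35 (by norm_num)
  have h1' := hinge 20 35 90 4 (by norm_num) (by norm_num) (by norm_num)
  have h2 := prsum_nat 180 (-2) 35 45 (by norm_num)
  have h3 := prsum_nat 90 0 45 55 (by norm_num)
  have h4 := prsum_nat 145 (-1) 55 145 (by norm_num)
  have g := (sum_log_asy 20 160).const_mul (-200)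
  refine ⟨_, (((((h1.add h1').add h2).add h3).add h4).add g).cast (by norm_num)
    (by norm_num), fun m hm => ?_⟩
  rw [prs_union (20 * m) (35 * m) (160 * m) (by omega) (by omega),
    prs_union (35 * m) (45 * m) (160 * m) (by omega) (by omega),
    prs_union (45 * m) (55 * m) (160 * m) (by omega) (by omega),
    prs_union (55 * m) (145 * m) (160 * m) (by omega) (by omega),
    prs_union (20 * m) (35 * m) (160 * m) (by omega) (by omega),
    prs_union (35 * m) (45 * m) (160 * m) (by omega) (by omega),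
    prs_union (45 * m) (55 * m) (160 * m) (by omega) (by omega),
    prs_union (55 * m) (145 * m) (160 * m) (by omega) (by omega)]
  have k1 : ∑ p ∈ prs (20 * m) (35 * m), ((145 : ℝ) * m + -1 * p) * Real.log p +
      ∑ p ∈ prs (20 * m) (35 * m),
        ((max 0 (((90 : ℕ) * m : ℤ) - (4 : ℕ) * p) : ℤ) : ℝ) * Real.log p +
      -200 * ∑ p ∈ prs (20 * m) (35 * m), Real.log p ≤
      ∑ p ∈ prs (20 * m) (35 * m), (f3 m p : ℝ) * Real.log p := by
    rw [mul_sum, ← sum_add_distrib, ← sum_add_distrib]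
    refine sum_le_sum fun p hp => ?_
    have hp1 := (mem_Ioc.mp (mem_filter.mp hp).1)
    rw [← add_mul, ← add_mul]
    refine mul_le_mul_of_nonneg_right ?_ (Real.log_natCast_nonneg p)
    have h5 : (145 : ℤ) * m - p + max 0 (((90 : ℕ) * m : ℤ) - (4 : ℕ) * p) - 200 ≤ f3 m p := by
      have h6 : 35 * m + p ≤ 90 * m - 100 := by omega
      unfold f3
      rw [if_pos h6]
      unfold f3a
      push_cast
      omega
    have h' : (((145 : ℤ) * m - p + max 0 (((90 : ℕ) * m : ℤ) - (4 : ℕ) * p) - 200 : ℤ) : ℝ) ≤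
      (f3 m p : ℝ) := by exact_mod_cast h5
    push_cast at h' ⊢
    linarith
  have k2 : ∑ p ∈ prs (35 * m) (45 * m), ((180 : ℝ) * m + -2 * p) * Real.log p +
      -200 * ∑ p ∈ prs (35 * m) (45 * m), Real.log p ≤
      ∑ p ∈ prs (35 * m) (45 * m), (f3 m p : ℝ) * Real.log p := by
    rw [mul_sum, ← sum_add_distrib]
    refine sum_le_sum fun p hp => ?_
    have hp1 := (mem_Ioc.mp (mem_filter.mp hp).1)
    rw [← add_mul]
    refine mul_le_mul_of_nonneg_right ?_ (Real.log_natCast_nonneg p)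
    have h5 : (180 : ℤ) * m - 2 * p - 200 ≤ f3 m p := by
      have h6 : 35 * m + p ≤ 90 * m - 100 := by omega
      unfold f3
      rw [if_pos h6]
      unfold f3a
      omega
    have h' : (((180 : ℤ) * m - 2 * p - 200 : ℤ) : ℝ) ≤ (f3 m p : ℝ) := by exact_mod_cast h5
    push_cast at h' ⊢
    linarith
  have k3 : ∑ p ∈ prs (45 * m) (55 * m), ((90 : ℝ) * m + 0 * p) * Real.log p +
      -200 * ∑ p ∈ prs (45 * m) (55 * m), Real.log p ≤
      ∑ p ∈ prs (45 * m) (55 * m), (f3 m p : ℝ) * Real.log p := by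
    rw [mul_sum, ← sum_add_distrib]
    refine sum_le_sum fun p hp => ?_
    have hp1 := (mem_Ioc.mp (mem_filter.mp hp).1)
    rw [← add_mul]
    refine mul_le_mul_of_nonneg_right ?_ (Real.log_natCast_nonneg p)
    have h5 : (90 : ℤ) * m - 200 ≤ f3 m p := by
      unfold f3 f3b
      omega
    have h' : (((90 : ℤ) * m - 200 : ℤ) : ℝ) ≤ (f3 m p : ℝ) := by exact_mod_cast h5
    push_cast at h' ⊢
    linarith
  have k4 : ∑ p ∈ prs (55 * m) (145 * m), ((145 : ℝ) * m + -1 * p) * Real.log p +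
      -200 * ∑ p ∈ prs (55 * m) (145 * m), Real.log p ≤
      ∑ p ∈ prs (55 * m) (145 * m), (f3 m p : ℝ) * Real.log p := by
    rw [mul_sum, ← sum_add_distrib]
    refine sum_le_sum fun p hp => ?_
    have hp1 := (mem_Ioc.mp (mem_filter.mp hp).1)
    rw [← add_mul]
    refine mul_le_mul_of_nonneg_right ?_ (Real.log_natCast_nonneg p)
    have h5 : (145 : ℤ) * m - p - 200 ≤ f3 m p := by
      unfold f3 f3b
      omega
    have h' : (((145 : ℤ) * m - p - 200 : ℤ) : ℝ) ≤ (f3 m p : ℝ) := by exact_mod_cast h5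
    push_cast at h' ⊢
    linarith
  have k5 : -200 * ∑ p ∈ prs (145 * m) (160 * m), Real.log p ≤
      ∑ p ∈ prs (145 * m) (160 * m), (f3 m p : ℝ) * Real.log p := by
    rw [mul_sum]
    refine sum_le_sum fun p hp => ?_
    refine mul_le_mul_of_nonneg_right ?_ (Real.log_natCast_nonneg p)
    have h5 : (-200 : ℤ) ≤ f3 m p := by
      unfold f3
      omega
    exact_mod_cast h5
  linarith

end MP_a3a416_nt.SJ5
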