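import Pool.Agent.Lib.MP_a3a416_nt.SJ.PL

/-! # SJ5-BernInt: `p`-integrality of the Bernoulli numbers `B_m`, `m < 2p - 2`
Strong induction on `m` with the recursion `∑_{k ≤ m} (m+1).choose k * B_k = 0` for `m ≥ 1` (Mathlib `sum_bernoulli`). -/

set_option autoImplicit false

namespace MP_a3a416_nt.SJ5

open MP_a3a416_nt.SJ

private theorem bern_all {p : ℕ} (hp : p.Prime) (m : ℕ) : m + 2 < 2 * p →
    val p (_root_.bernoulli m) (if m = p - 1 then -1 else 0) := by
  have : Fact p.Prime := ⟨hp⟩
  have hp2 := hp.two_le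
  induction m using Nat.strong_induction_on with
  | _ m ih =>
  intro hm
  rcases Nat.eq_zero_or_pos m with rfl | hm0
  · rw [if_neg (by omega), _root_.bernoulli_zero]
    exact val.one
  have hs := sum_bernoulli (m + 1)
  rw [if_neg (by omega), Finset.sum_range_succ, Nat.choose_succ_self_right] at hs
  set S : ℚ := ∑ k ∈ Finset.range m, ((m + 1).choose k : ℚ) * _root_.bernoulli k with hS
  have hSv : val p S 0 := by
    refine val.sum (fun k hk => ?_)
    have hkm := Finset.mem_range.1 hk
    have hik := ih k hkm (by omega)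
    by_cases hkp : k = p - 1
    · rw [if_pos hkp] at hik
      have hd : p ∣ (m + 1).choose k :=
        Nat.Prime.dvd_choose hp (by omega) (by omega) (by omega)
      have h1 : val p (((m + 1).choose k : ℤ) : ℚ) ((1 : ℕ) : ℤ) :=
        val.of_dvd (by rw [pow_one]; exact_mod_cast hd)
      have h2 := h1.mul hik
      simpa using h2
    · rw [if_neg hkp] at hik
      have h2 := (val.nat (p := p) ((m + 1).choose k)).mul hik
      simpa using h2
  have hB : _root_.bernoulli m = -S * ((((m + 1 : ℕ) : ℤ) : ℚ))⁻¹ := by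
    have hne : ((m + 1 : ℕ) : ℚ) ≠ 0 := by positivity
    have : ((m + 1 : ℕ) : ℚ) * _root_.bernoulli m = -S := by linarith
    rw [← this]
    field_simp
    push_cast
    ring
  by_cases hmp : m = p - 1
  · rw [if_pos hmp, hB]
    have h1 : (((m + 1 : ℕ) : ℤ) : ℚ) = (p : ℚ) := by
      have : m + 1 = p := by omega
      rw [this]; simp
    rw [h1]
    have h2 := hSv.neg.mul (val.p_zpow (p := p) (-1))
    simpa using h2
  · rw [if_neg hmp, hB]
    have h1 : ¬ (p : ℤ) ∣ ((m + 1 : ℕ) : ℤ) := by
      intro h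
      have h2 : p ∣ m + 1 := by exact_mod_cast h
      obtain ⟨c, hc⟩ := h2
      have hc1 : c ≠ 0 := by rintro rfl; omega
      have hc2 : c ≠ 1 := by rintro rfl; omega
      have hc3 : 2 ≤ c := by omega
      have : p * 2 ≤ p * c := Nat.mul_le_mul_left p hc3
      omega
    have h2 := hSv.neg.mul (val.inv_of_not_dvd (p := p) h1)
    simpa using h2

theorem val_bern {p m : ℕ} (hp : p.Prime) (hm : m + 1 < p) : val p (_root_.bernoulli m) 0 := by
  have h := bern_all hp m (by omega)
  rwa [if_neg (by omega)] at h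

theorem val_bern_pred {p : ℕ} (hp : p.Prime) : val p (_root_.bernoulli (p - 1)) (-1) := by
  have hp2 := hp.two_le
  have h := bern_all hp (p - 1) (by omega)
  rwa [if_pos rfl] at h

theorem val_bern_two {p m : ℕ} (hp : p.Prime) (hm : m + 2 < 2 * p) (hm2 : m ≠ p - 1) :
    val p (_root_.bernoulli m) 0 := by
  have h := bern_all hp m hm
  rwa [if_neg hm2] at h

end MP_a3a416_nt.SJ5
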