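import Pool.Agent.Lib.MP_a3a416_nt.SJ5.ArDefs
import Pool.Agent.Lib.MP_a3a416_nt.SJ.ArEven

/-! # SJ5-ArCols: the products of the column and row weights
PROOF. Adapt `SJ/ArCols.lean` and `SJ/ArRows.lean` (`EE M`, `VE M = ∏_{x ∈ EE M} ppr (EE M) x`, `M` even). -/

set_option autoImplicit false

open Polynomial Finset

namespace MP_a3a416_nt.SJ5

open MP_a3a416_nt.SJ

private theorem ArCols_block {N M L : ℕ} (hM : Even M) (hL : M + 1 ≤ L) :
    ∏ j : Fin L, (if (j : ℕ) < M + 1 then Cst N / (ppr (EE M) (ev M j) : ℚ)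
      else Cst N * ((N : ℚ) / 2) ^ ((j : ℕ) - (M + 1))) =
    Cst N ^ L * (VE M)⁻¹ * ((N : ℚ) / 2) ^ (∑ i ∈ range (L - (M + 1)), i) := by
  rw [Fin.prod_univ_eq_prod_range (fun j : ℕ => if j < M + 1 then
    Cst N / (ppr (EE M) (ev M j) : ℚ) else Cst N * ((N : ℚ) / 2) ^ (j - (M + 1))) L]
  obtain ⟨R, rfl⟩ := Nat.exists_eq_add_of_le hL
  rw [prod_range_add]
  have h1 : ∏ j ∈ range (M + 1), (if j < M + 1 then
      Cst N / (ppr (EE M) (ev M j) : ℚ) else Cst N * ((N : ℚ) / 2) ^ (j - (M + 1))) =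
      Cst N ^ (M + 1) * (VE M)⁻¹ := by
    rw [prod_congr rfl (g := fun j => Cst N / (ppr (EE M) (ev M j) : ℚ))
      (fun j hj => if_pos (mem_range.1 hj)), prod_div_distrib, prod_const, card_range,
      div_eq_mul_inv]
    congr 2
    unfold VE
    rw [prod_EE M hM (fun x => (ppr (EE M) x : ℚ)),
      Fin.prod_univ_eq_prod_range (fun j : ℕ => (ppr (EE M) (ev M j) : ℚ)) (M + 1)]
  have h2 : ∏ x ∈ range R, (if M + 1 + x < M + 1 then
      Cst N / (ppr (EE M) (ev M (M + 1 + x)) : ℚ)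
      else Cst N * ((N : ℚ) / 2) ^ (M + 1 + x - (M + 1))) =
      Cst N ^ R * ((N : ℚ) / 2) ^ (∑ i ∈ range R, i) := by
    rw [prod_congr rfl (g := fun x => Cst N * ((N : ℚ) / 2) ^ x) (fun x _ => by
      rw [if_neg (by omega), Nat.add_sub_cancel_left]), prod_mul_distrib, prod_const, card_range,
      prod_pow_eq_pow_sum]
  rw [h1, h2, Nat.add_sub_cancel_left, pow_add _ (M + 1) R]
  ring

theorem prod_cw (c : ℚ) {N M K L D c0 : ℕ} (hM : Even M) (hK : M + 1 ≤ K) (hL : M + 1 ≤ L)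
    (hD : M + 1 ≤ D) :
    ∏ x, cw c N M K L D c0 x = (1 + |c|) ^ (D + L) *
      Cst N ^ (Fintype.card (Col K L D ⊕ Fin c0)) * (VE M ^ 5)⁻¹ *
      ∏ β : Blk, ((N : ℚ) / 2) ^ (∑ i ∈ range (len K L D β - (M + 1)), i) := by
  rw [Fintype.prod_sum_type, Fintype.prod_sigma]
  have hlen : ∀ β : Blk, M + 1 ≤ len K L D β := by
    intro β
    cases β <;> simp only [len] <;> omega
  have h1 : ∀ β : Blk, ∏ j : Fin (len K L D β), cw c N M K L D c0 (Sum.inl ⟨β, j⟩) =
      cf c β ^ (len K L D β) * (Cst N ^ (len K L D β) * (VE M)⁻¹ *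
        ((N : ℚ) / 2) ^ (∑ i ∈ range (len K L D β - (M + 1)), i)) := by
    intro β
    rw [← ArCols_block hM (hlen β)]
    have : (cf c β) ^ (len K L D β) = ∏ j : Fin (len K L D β), cf c β := by
      rw [prod_const, card_univ, Fintype.card_fin]
    rw [this, ← prod_mul_distrib]
    rfl
  have h2 : ∏ j : Fin c0, cw c N M K L D c0 (Sum.inr j) = Cst N ^ c0 := by
    simp [cw]
  have h3 : Fintype.card Blk = 5 := rfl
  have h4 : ∏ β : Blk, cf c β ^ (len K L D β) = (1 + |c|) ^ (D + L) := by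
    have : (Finset.univ : Finset Blk) = {.z, .u, .w, .f, .g} := rfl
    rw [this]
    simp [Finset.prod_insert, cf, len]
    ring
  rw [prod_congr rfl (fun β _ => h1 β), h2, prod_mul_distrib, h4, prod_mul_distrib,
    prod_mul_distrib,
    prod_pow_eq_pow_sum, prod_const, card_univ, h3, Fintype.card_sum, Fintype.card_sigma,
    Fintype.card_fin, pow_add, inv_pow,
    sum_congr rfl (fun β _ => (Fintype.card_fin (len K L D β)).symm)]
  ring

theorem prod_rows (N M : ℕ) : ∏ ρ : Row N, (ppr (EE M) (node ρ) : ℚ) = WM N M ^ 5 := by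
  rw [Fintype.prod_prod_type]
  have h1 : ∀ x : Fin (2 * N + 1), ∏ y : Fin 5, (ppr (EE M) (node ((x, y) : Row N)) : ℚ) =
      (ppr (EE M) (((x : ℕ) : ℤ) - N) : ℚ) ^ 5 := by
    intro x
    simp only [node]
    rw [Finset.prod_const, Finset.card_univ, Fintype.card_fin]
  rw [Finset.prod_congr rfl (fun x _ => h1 x), Finset.prod_pow, WM]
  congr 1
  apply Finset.prod_bij (fun (x : Fin (2 * N + 1)) _ => ((x : ℕ) : ℤ) - N)
  · intro x _
    have := x.2
    rw [Finset.mem_Icc]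
    constructor <;> omega
  · intro x _ y _ h
    apply Fin.ext
    omega
  · intro n hn
    rw [Finset.mem_Icc] at hn
    refine ⟨⟨(n + N).toNat, by omega⟩, Finset.mem_univ _, ?_⟩
    simp only
    omega
  · intro x _
    rfl

end MP_a3a416_nt.SJ5
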