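import Pool.Agent.Lib.MP_a3a416_nt.SJ5.Defs
import Pool.Agent.Lib.MP_a3a416_nt.SJ.ArDefs

/-! # SJ5-ArDefs: definitions for the archimedean bound
The node set of the Lagrange basis is `EE M` (even `e`, `|e| ≤ M`, `M = 16 m`), the nodes are `|n| ≤ N` (`N = 20 m`); `SJ.EE, SJ.ppr, SJ.npoly, SJ.lag, SJ.ev, SJ.bas, SJ.mid, SJ.ChebOK, SJ.VE` are
the definitions of `SJ/ArDefs.lean` (used as `bas t M`, `ChebOK N t`). -/

set_option autoImplicit false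

open Polynomial

namespace MP_a3a416_nt.SJ5

open MP_a3a416_nt.SJ

/-- `∏_{|n| ≤ N} ∏_{e ∈ EE M, e ≠ n} |n - e|` -/
noncomputable def WM (N M : ℕ) : ℚ := ∏ n ∈ Finset.Icc (-(N : ℤ)) N, (ppr (EE M) n : ℚ)

/-- the constant for the entries -/
noncomputable def Cst (N : ℕ) : ℚ :=
  50 * (15 * (N : ℚ) + 2) * ((N : ℚ) + 1) ^ 4 * (10 * (N : ℚ)) ^ 8

/-- the factor `1 + |c|` for the blocks `f`, `g` -/
noncomputable def cf (c : ℚ) : Blk → ℚ
  | .z => 1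
  | .u => 1
  | .w => 1
  | .f => 1 + |c|
  | .g => 1 + |c|

/-- the column weights -/
noncomputable def cw (c : ℚ) (N M K L D c0 : ℕ) : (Col K L D ⊕ Fin c0) → ℚ :=
  Sum.elim (fun x => cf c x.1 * (if (x.2 : ℕ) < M + 1 then Cst N / ppr (EE M) (ev M x.2)
    else Cst N * ((N : ℚ) / 2) ^ ((x.2 : ℕ) - (M + 1)))) (fun _ => Cst N)

end MP_a3a416_nt.SJ5
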