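import Pool.Agent.Lib.MP_a3a416_nt.SJ5.Defs

/-! # SJ5-BlkChange: change of bases in the blocks
PROOF. Adapt `SJ/BlkChange.lean` (there `Col K A`, here `Col K L D`; `VP` is `MS (colf ...)`, use `VP_inl`, `VP_inr`, `J_eq_sum`). -/

set_option autoImplicit false

open Polynomial

namespace MP_a3a416_nt.SJ5

open MP_a3a416_nt.SJ

private theorem J_sum_blk {ι : Type*} (s : Finset ι) (c : ℚ) (β : Blk) (a : ι → ℚ) (P : ι → ℚ[X])
    (n : ℤ) (k : ℕ) : J c β (∑ i ∈ s, C (a i) * P i) n k = ∑ i ∈ s, a i * J c β (P i) n k := by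
  simp only [J_eq_sum]
  have h : ∀ j : ℕ, (taylor (n : ℚ) (∑ i ∈ s, C (a i) * P i)).coeff j
      = ∑ i ∈ s, a i * (taylor (n : ℚ) (P i)).coeff j := by
    intro j
    simp only [← smul_eq_C_mul, map_sum, map_smul, finsetSum_coeff, coeff_smul, smul_eq_mul]
  simp only [h, Finset.sum_mul, Finset.mul_sum]
  rw [Finset.sum_comm]
  refine Finset.sum_congr rfl fun i _ => Finset.sum_congr rfl fun j _ => ?_
  ring

/-- the block matrix of a change of bases in the blocks -/
private noncomputable def bmat {K L D : ℕ} (c0 : ℕ)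
    (T : ∀ β : Blk, Matrix (Fin (len K L D β)) (Fin (len K L D β)) ℚ) :
    Matrix (Col K L D ⊕ Fin c0) (Col K L D ⊕ Fin c0) ℚ :=
  Matrix.fromBlocks (Matrix.blockDiagonal' T) 0 0 1

private def blkIdx : Blk → ℕ
  | .z => 0
  | .u => 1
  | .w => 2
  | .f => 3
  | .g => 4

private theorem blkIdx_inj : Function.Injective blkIdx := by
  intro a b h
  cases a <;> cases b <;> simp_all [blkIdx]

private theorem det_blockDiagonal'_aux {o : Type*} [Fintype o] [DecidableEq o] [LinearOrder o]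
    {m : o → Type*} [∀ i, Fintype (m i)] [∀ i, DecidableEq (m i)]
    (T : ∀ i : o, Matrix (m i) (m i) ℚ) :
    (Matrix.blockDiagonal' T).det = ∏ i, (T i).det := by
  rw [(Matrix.blockTriangular_blockDiagonal' T).det_fintype]
  refine Finset.prod_congr rfl fun k _ => ?_
  let e : m k ≃ { x : Σ i, m i // Sigma.fst x = k } :=
    { toFun := fun y => ⟨⟨k, y⟩, rfl⟩
      invFun := fun x => cast (by rw [x.2]) x.1.2
      left_inv := fun y => rfl
      right_inv := by
        rintro ⟨⟨i, y⟩, rfl⟩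
        rfl }
  rw [← Matrix.det_submatrix_equiv_self e]
  congr 1
  ext i j
  simp [Matrix.toSquareBlock, Matrix.toSquareBlockProp, e, Matrix.blockDiagonal'_apply]

private theorem det_bmat {K L D : ℕ} (c0 : ℕ)
    (T : ∀ β : Blk, Matrix (Fin (len K L D β)) (Fin (len K L D β)) ℚ) :
    (bmat c0 T).det = ∏ β, (T β).det := by
  rw [bmat, Matrix.det_fromBlocks_zero₂₁, Matrix.det_one, mul_one]
  let _ : LinearOrder Blk := LinearOrder.lift' blkIdx blkIdx_inj
  exact det_blockDiagonal'_aux T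

private theorem VP_change (c : ℚ) {N K L D c0 : ℕ} (rr : Fin c0 → Row N) (P Q : Blk → ℕ → ℚ[X])
    (T : ∀ β : Blk, Matrix (Fin (len K L D β)) (Fin (len K L D β)) ℚ)
    (h : ∀ (β : Blk) (j : Fin (len K L D β)),
      Q β j = ∑ i : Fin (len K L D β), C (T β i j) * P β i) :
    VP c K L D Q rr = VP c K L D P rr * bmat c0 T := by
  ext r x
  rw [Matrix.mul_apply, Fintype.sum_sum_type]
  rcases x with ⟨β, j⟩ | x
  · have h2 : ∑ a₂ : Fin c0, VP c K L D P rr r (Sum.inr a₂) *
        bmat c0 T (Sum.inr a₂) (Sum.inl ⟨β, j⟩) = 0 := by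
      refine Finset.sum_eq_zero fun i _ => ?_
      simp [bmat]
    rw [h2, add_zero, Fintype.sum_sigma]
    rw [Finset.sum_eq_single β]
    · simp only [VP_inl, bmat, Matrix.fromBlocks_apply₁₁, Matrix.blockDiagonal'_apply_eq]
      rw [h β j, J_sum_blk]
      refine Finset.sum_congr rfl fun i _ => ?_
      ring
    · intro γ _ hγ
      refine Finset.sum_eq_zero fun i _ => ?_
      rw [bmat, Matrix.fromBlocks_apply₁₁, Matrix.blockDiagonal'_apply_ne _ _ _ hγ, mul_zero]
    · intro hh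
      exact absurd (Finset.mem_univ _) hh
  · have h1 : ∑ a₁ : Col K L D, VP c K L D P rr r (Sum.inl a₁) *
        bmat c0 T (Sum.inl a₁) (Sum.inr x) = 0 := by
      refine Finset.sum_eq_zero fun i _ => ?_
      simp [bmat]
    rw [h1, zero_add, Finset.sum_eq_single x]
    · simp [VP_inr, bmat]
    · intro y _ hy
      rw [bmat, Matrix.fromBlocks_apply₂₂, Matrix.one_apply_ne hy, mul_zero]
    · intro hh
      exact absurd (Finset.mem_univ _) hh

theorem sdet_change (c : ℚ) {N K L D c0 : ℕ} (rr : Fin c0 → Row N)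
    (e : (Col K L D ⊕ Fin c0) ≃ Row N) (P Q : Blk → ℕ → ℚ[X])
    (T : ∀ β : Blk, Matrix (Fin (len K L D β)) (Fin (len K L D β)) ℚ)
    (h : ∀ (β : Blk) (j : Fin (len K L D β)),
      Q β j = ∑ i : Fin (len K L D β), C (T β i j) * P β i) :
    sdet e (VP c K L D Q rr) = sdet e (VP c K L D P rr) * ∏ β, (T β).det := by
  rw [VP_change c rr P Q T h, sdet, sdet, ← det_bmat c0 T, ← Matrix.det_mul]
  congr 1

end MP_a3a416_nt.SJ5
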