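import Pool.Agent.Lib.MP_a3a416_nt.SJ5.Defs

/-! # SJ5-ColOp: unitriangular column operations
PROOF. `Vh = MS(J_β(X^i))`.  By linearity of `JS c β` in the polynomial, `P β i = ∑_{l ≤ i} coeff l X^l` (monic of degree `i`)
and `Q β i γ = ∑_{l < len γ} coeff l X^l`, the new matrix is `Vh * U` with
`U (inl ⟨γ,l⟩) (inl ⟨β,i⟩) = (if γ = β then (P β i).coeff l else 0) - (Q β i γ).coeff l`, `U (inr j) (inr j') = if j = j' then 1 else 0`, other entries `0`.
`U` is unitriangular for the order given by the injective function `f (inl ⟨β,i⟩) = ordB β * (K+L+D+1) + i`, `f (inr j) = 5 * (K+L+D+1) + j`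
(`U x y = 0` if `f y < f x`, `U x x = 1`): put `LinearOrder.lift' f` on the index type and use `Matrix.det_of_upperTriangular` (compare `SJ/BlkChange.lean`, `SJ/ColChange.lean`).
Then `sdet_mul_right` (SJ/SDet).  If `Q β i γ ≠ 0` then `ordB γ < ordB β`, so `γ ≠ β`. -/

set_option autoImplicit false

open Polynomial

namespace MP_a3a416_nt.SJ5

open MP_a3a416_nt.SJ

/-- order of the blocks for the column operations -/
def ordB : Blk → ℕ
  | .z => 0
  | .u => 1
  | .w => 2
  | .g => 3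
  | .f => 4

/-- determinant of a matrix which is unitriangular with respect to an injective rank function -/
private theorem det_unitri {κ α : Type*} [Fintype κ] [DecidableEq κ] [LinearOrder α] (f : κ → α)
    (hf : Function.Injective f) (U : Matrix κ κ ℚ) (h1 : ∀ x, U x x = 1)
    (h : ∀ y x, f x < f y → U y x = 0) : U.det = 1 := by
  let _ : LinearOrder κ := LinearOrder.lift' f hf
  have h2 : U.det = ∏ i, U i i := by
    have := Matrix.det_of_isUpperTriangular (M := U) (fun y x hxy => h y x hxy)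
    convert this using 1
  rw [h2]
  exact Finset.prod_eq_one fun x _ => h1 x

section

variable {ρ B : Type*} [Fintype B] [DecidableEq B] {len : B → ℕ} {c0 : ℕ}

/-- matrix whose columns are given by linear functionals on the polynomials, one for each block. -/
private noncomputable def VM (Jf : ρ → B → ℚ[X] →ₗ[ℚ] ℚ) (w : ρ → Fin c0 → ℚ)
    (Q : (Σ β : B, Fin (len β)) → B → ℚ[X]) :
    Matrix ρ ((Σ β : B, Fin (len β)) ⊕ Fin c0) ℚ :=
  fun r x => Sum.elim (fun y => ∑ γ, Jf r γ (Q y γ)) (fun j => w r j) x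

/-- the monomials -/
private noncomputable def QX (len : B → ℕ) : (Σ β : B, Fin (len β)) → B → ℚ[X] :=
  fun y γ => if γ = y.1 then X ^ (y.2 : ℕ) else 0

private theorem VM_QX_inl (Jf : ρ → B → ℚ[X] →ₗ[ℚ] ℚ) (w : ρ → Fin c0 → ℚ) (r : ρ)
    (y : Σ β : B, Fin (len β)) :
    VM Jf w (QX len) r (Sum.inl y) = Jf r y.1 (X ^ (y.2 : ℕ)) := by
  show ∑ γ, Jf r γ (QX len y γ) = _
  rw [Finset.sum_eq_single y.1]
  · simp [QX]
  · intro γ _ hγ
    simp [QX, hγ]
  · intro h
    exact absurd (Finset.mem_univ _) h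

/-- the matrix of the column operations -/
private noncomputable def UM (Q : (Σ β : B, Fin (len β)) → B → ℚ[X]) :
    Matrix ((Σ β : B, Fin (len β)) ⊕ Fin c0) ((Σ β : B, Fin (len β)) ⊕ Fin c0) ℚ :=
  Matrix.fromBlocks (Matrix.of fun z y => (Q y z.1).coeff z.2) 0 0 1

private theorem VM_eq_mul (Jf : ρ → B → ℚ[X] →ₗ[ℚ] ℚ) (w : ρ → Fin c0 → ℚ)
    (Q : (Σ β : B, Fin (len β)) → B → ℚ[X])
    (hdeg : ∀ y γ, Q y γ = 0 ∨ (Q y γ).natDegree < len γ) :
    VM Jf w Q = VM Jf w (QX len) * UM (c0 := c0) Q := by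
  refine Matrix.ext fun r x => ?_
  rw [Matrix.mul_apply, Fintype.sum_sum_type]
  rcases x with y | j
  · have h2 : ∑ j : Fin c0, VM Jf w (QX len) r (Sum.inr j) * UM Q (Sum.inr j) (Sum.inl y) = 0 := by
      refine Finset.sum_eq_zero fun i _ => ?_
      simp [UM]
    rw [h2, add_zero]
    show ∑ γ, Jf r γ (Q y γ) = _
    rw [Fintype.sum_sigma]
    refine Finset.sum_congr rfl fun γ _ => ?_
    have h3 : ∀ l : Fin (len γ), VM Jf w (QX len) r (Sum.inl ⟨γ, l⟩) * UM (c0 := c0) Q
        (Sum.inl ⟨γ, l⟩) (Sum.inl y) = Jf r γ (X ^ (l : ℕ)) * (Q y γ).coeff l := by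
      intro l
      rw [VM_QX_inl, UM, Matrix.fromBlocks_apply₁₁]
      rfl
    rw [Finset.sum_congr rfl fun l _ => h3 l]
    rcases hdeg y γ with h0 | h0
    · simp [h0]
    · have h4 := (Q y γ).as_sum_range_C_mul_X_pow' h0
      conv_lhs => rw [h4]
      rw [map_sum, Finset.sum_range]
      refine Finset.sum_congr rfl fun l _ => ?_
      rw [← smul_eq_C_mul, map_smul, smul_eq_mul, mul_comm]
  · have h1 : ∑ y : (Σ β : B, Fin (len β)), VM Jf w (QX len) r (Sum.inl y) *
        UM Q (Sum.inl y) (Sum.inr j) = 0 := by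
      refine Finset.sum_eq_zero fun i _ => ?_
      simp [UM]
    rw [h1, zero_add, Finset.sum_eq_single j]
    · simp [VM, UM]
    · intro k _ hk
      rw [UM, Matrix.fromBlocks_apply₂₂, Matrix.one_apply_ne hk, mul_zero]
    · intro hh
      exact absurd (Finset.mem_univ _) hh

private theorem det_UM (rk : B → ℕ) (hrk : Function.Injective rk)
    (Q : (Σ β : B, Fin (len β)) → B → ℚ[X])
    (hmon : ∀ y, (Q y y.1).Monic ∧ (Q y y.1).natDegree = (y.2 : ℕ))
    (htri : ∀ y γ, rk y.1 < rk γ → Q y γ = 0) :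
    (UM (c0 := c0) Q).det = 1 := by
  rw [UM, Matrix.det_fromBlocks_zero₂₁, Matrix.det_one, mul_one]
  refine det_unitri (α := ℕ ×ₗ ℕ)
    (fun z : (Σ β : B, Fin (len β)) => toLex (rk z.1, (z.2 : ℕ))) ?_ _ ?_ ?_
  · rintro ⟨β, i⟩ ⟨γ, j⟩ h
    have h' := (toLex.injective h)
    rw [Prod.mk.injEq] at h'
    obtain ⟨h1, h2⟩ := h'
    have h3 : β = γ := hrk h1
    subst h3
    have h4 : i = j := Fin.ext h2
    rw [h4]
  · intro y
    obtain ⟨h1, h2⟩ := hmon y
    rw [Monic, leadingCoeff, h2] at h1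
    exact h1
  · rintro y x h
    rw [Prod.Lex.toLex_lt_toLex] at h
    rcases h with h | ⟨h1, h2⟩
    · show (Q x y.1).coeff y.2 = 0
      rw [htri x y.1 h, coeff_zero]
    · have h3 : x.1 = y.1 := hrk h1
      show (Q x y.1).coeff y.2 = 0
      apply coeff_eq_zero_of_natDegree_lt
      have h4 := (hmon x).2
      have h5 : (Q x y.1).natDegree = (x.2 : ℕ) := by
        rw [← h4, h3]
      rw [h5]
      exact h2

private theorem sdet_colopV [Fintype ρ] [DecidableEq ρ] (e : ((Σ β : B, Fin (len β)) ⊕ Fin c0) ≃ ρ)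
    (Jf : ρ → B → ℚ[X] →ₗ[ℚ] ℚ) (w : ρ → Fin c0 → ℚ)
    (rk : B → ℕ) (hrk : Function.Injective rk)
    (Q : (Σ β : B, Fin (len β)) → B → ℚ[X])
    (hdeg : ∀ y γ, Q y γ = 0 ∨ (Q y γ).natDegree < len γ)
    (hmon : ∀ y, (Q y y.1).Monic ∧ (Q y y.1).natDegree = (y.2 : ℕ))
    (htri : ∀ y γ, rk y.1 < rk γ → Q y γ = 0) :
    sdet e (VM Jf w Q) = sdet e (VM Jf w (QX len)) := by
  rw [VM_eq_mul Jf w Q hdeg, sdet_mul_right, det_UM rk hrk Q hmon htri, mul_one]

end

/-- the linear functional of a row and a block -/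
private noncomputable def Jf {N : ℕ} (c : ℚ) (r : Row N) (β : Blk) : ℚ[X] →ₗ[ℚ] ℚ where
  toFun P := PowerSeries.coeff r.2 (JS c β P (node r))
  map_add' P Q := by rw [JS_eq, tp_add, add_mul, map_add, JS_eq, JS_eq]
  map_smul' a P := by
    rw [JS_eq, smul_eq_C_mul, tp_mul, tp_C, mul_assoc, PowerSeries.coeff_C_mul, JS_eq]
    rfl

private theorem ordB_inj : Function.Injective ordB := by
  intro a b h
  cases a <;> cases b <;> first | rfl | (exfalso; revert h; decide)

theorem sdet_colop (c : ℚ) {N K L D c0 : ℕ} (rr : Fin c0 → Row N)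
    (e : (Col K L D ⊕ Fin c0) ≃ Row N) (P : Blk → ℕ → ℚ[X])
    (hP : ∀ β i, (P β i).Monic ∧ (P β i).natDegree = i) (Q : Blk → ℕ → Blk → ℚ[X])
    (hQ : ∀ β i γ, i < len K L D β →
      Q β i γ = 0 ∨ (ordB γ < ordB β ∧ (Q β i γ).natDegree < len K L D γ)) :
    sdet e (MS (colf (fun (y : Col K L D) n => JS c y.1 (P y.1 y.2) n
      - ∑ γ, JS c γ (Q y.1 y.2 γ) n) rr)) = sdet e (Vh c K L D rr) := by
  classical
  set Q' : (Σ β : Blk, Fin (len K L D β)) → Blk → ℚ[X] := fun y γ =>
    (if γ = y.1 then P y.1 y.2 else 0) - Q y.1 y.2 γ with hQ'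
  have hself : ∀ y : (Σ β : Blk, Fin (len K L D β)), Q' y y.1 = P y.1 y.2 := by
    intro y
    have h0 : Q y.1 y.2 y.1 = 0 := by
      rcases hQ y.1 y.2 y.1 y.2.2 with h | h
      · exact h
      · exact absurd h.1 (lt_irrefl _)
    rw [hQ']
    simp only [if_true]
    rw [h0, sub_zero]
  have hother : ∀ (y : (Σ β : Blk, Fin (len K L D β))) (γ : Blk), γ ≠ y.1 →
      Q' y γ = - Q y.1 y.2 γ := by
    intro y γ h
    rw [hQ']
    simp only [if_neg h]
    rw [zero_sub]
  have key := sdet_colopV (len := len K L D) e (Jf c) (fun r j => if r = rr j then (1 : ℚ) else 0)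
    ordB ordB_inj Q' ?_ ?_ ?_
  · have e1 : (MS (colf (fun (y : Col K L D) n => JS c y.1 (P y.1 y.2) n
        - ∑ γ, JS c γ (Q y.1 y.2 γ) n) rr) : Matrix (Row N) (Col K L D ⊕ Fin c0) ℚ) =
        VM (Jf c) (fun r j => if r = rr j then (1 : ℚ) else 0) Q' := by
      refine Matrix.ext fun r x => ?_
      rcases x with y | j
      · show PowerSeries.coeff r.2 (JS c y.1 (P y.1 y.2) (node r) -
          ∑ γ, JS c γ (Q y.1 y.2 γ) (node r)) = ∑ γ, Jf c r γ (Q' y γ)
        have e2 : ∀ γ, Jf c r γ (Q' y γ) = (if γ = y.1 then Jf c r γ (P y.1 y.2) else 0) -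
            Jf c r γ (Q y.1 y.2 γ) := by
          intro γ
          rw [hQ']
          simp only [map_sub]
          congr 1
          split_ifs
          · rfl
          · rw [map_zero]
        rw [Finset.sum_congr rfl fun γ _ => e2 γ, Finset.sum_sub_distrib, Finset.sum_ite_eq',
          if_pos (Finset.mem_univ _), map_sub, map_sum]
        rfl
      · exact coeff_uc r (rr j)
    have e3 : (Vh c K L D rr : Matrix (Row N) (Col K L D ⊕ Fin c0) ℚ) =
        VM (Jf c) (fun r j => if r = rr j then (1 : ℚ) else 0) (QX (len K L D)) := by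
      refine Matrix.ext fun r x => ?_
      rcases x with y | j
      · rw [VM_QX_inl]
        rfl
      · exact coeff_uc r (rr j)
    rw [e1, e3]
    exact key
  · intro y γ
    by_cases h : γ = y.1
    · subst h
      right
      rw [hself, (hP y.1 y.2).2]
      exact y.2.2
    · rw [hother y γ h]
      rcases hQ y.1 y.2 γ y.2.2 with h1 | h1
      · left
        rw [h1, neg_zero]
      · right
        rw [natDegree_neg]
        exact h1.2
  · intro y
    rw [hself]
    exact hP y.1 y.2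
  · intro y γ h
    have hne : γ ≠ y.1 := by
      rintro rfl
      exact lt_irrefl _ h
    rw [hother y γ hne]
    rcases hQ y.1 y.2 γ y.2.2 with h1 | h1
    · rw [h1, neg_zero]
    · exact absurd h1.1 (by omega)

theorem sdet_VP_eq (c : ℚ) {N K L D c0 : ℕ} (rr : Fin c0 → Row N)
    (e : (Col K L D ⊕ Fin c0) ≃ Row N) (P : Blk → ℕ → ℚ[X])
    (hP : ∀ β i, (P β i).Monic ∧ (P β i).natDegree = i) :
    sdet e (VP c K L D P rr) = sdet e (Vh c K L D rr) := by
  have h := sdet_colop c rr e P hP (fun _ _ _ => 0) (fun _ _ _ _ => Or.inl rfl)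
  rw [← h]
  unfold VP
  congr 2
  congr 1
  funext y n
  simp [JS, tp_zero]

end MP_a3a416_nt.SJ5
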