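import Pool.Agent.Lib.MP_a3a416_nt.SJ5.ArEntry
import Pool.Agent.Lib.MP_a3a416_nt.SJ5.ArCols
import Pool.Agent.Lib.MP_a3a416_nt.SJ5.BlkChange
import Pool.Agent.Lib.MP_a3a416_nt.SJ5.ColOp
import Pool.Agent.Lib.MP_a3a416_nt.SJ.ArLeib
import Pool.Agent.Lib.MP_a3a416_nt.SJ.ArVander
import Pool.Agent.Lib.MP_a3a416_nt.SJ.ArBlockT
import Pool.Agent.Lib.MP_a3a416_nt.SJ.ArMid

/-! # SJ5-ArDet: determinant in the new basis -/

set_option autoImplicit false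

open Polynomial Finset

namespace MP_a3a416_nt.SJ5

open MP_a3a416_nt.SJ

theorem abs_sdet_bas_le (c : ℚ) {N M K L D c0 : ℕ} (h2 : 2 ≤ N) (hM : Even M) (hMN : M ≤ N)
    (hK : M + 1 ≤ K) (hL : M + 1 ≤ L) (hD : M + 1 ≤ D) (hK8 : K ≤ 10 * N) (hL8 : L ≤ 10 * N)
    (hD8 : D ≤ 10 * N) (t : ℕ → ℚ[X]) (ht : ChebOK N t) (rr : Fin c0 → Row N)
    (e : (Col K L D ⊕ Fin c0) ≃ Row N) :
    |sdet e (VP c K L D (fun _ => bas t M) rr)| ≤
      (Nat.factorial (10 * N + 5) : ℚ) * WM N M ^ 5 *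
      ((1 + |c|) ^ (D + L) * Cst N ^ (10 * N + 5) * (VE M ^ 5)⁻¹ *
      ∏ β : Blk, ((N : ℚ) / 2) ^ (∑ i ∈ range (len K L D β - (M + 1)), i)) := by
  have h := MP_a3a416_nt.SJ.abs_sdet_le e (VP c K L D (fun _ => bas t M) rr)
    (fun ρ => (ppr (EE M) (node ρ) : ℚ)) (cw c N M K L D c0)
    (fun ρ x => entry_le c h2 hM hMN hK8 hL8 hD8 t ht rr ρ x)
  have hcard : Fintype.card (Row N) = 10 * N + 5 := by
    rw [card_row]
    ring
  have hcard2 : Fintype.card (Col K L D ⊕ Fin c0) = 10 * N + 5 := by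
    rw [Fintype.card_congr e, hcard]
  rw [prod_rows, prod_cw c hM hK hL hD, hcard, hcard2] at h
  exact h

theorem sdet_bas (c : ℚ) {N M K L D c0 : ℕ} (hM : Even M) (hK : M + 1 ≤ K) (hL : M + 1 ≤ L)
    (hD : M + 1 ≤ D) (t : ℕ → ℚ[X]) (ht : ∀ i, (t i).Monic ∧ (t i).natDegree = i)
    (rr : Fin c0 → Row N) (e : (Col K L D ⊕ Fin c0) ≃ Row N) :
    sdet e (Vh c K L D rr) ^ 2 = sdet e (VP c K L D (fun _ => bas t M) rr) ^ 2 * VE M ^ 5 := by
  have hl : ∀ β : Blk, M + 1 ≤ len K L D β := by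
    intro β
    cases β <;> simp only [len] <;> assumption
  choose T hT1 hT2 using fun β : Blk => exists_T t M (len K L D β) hM (hl β)
  have h1 : sdet e (VP c K L D (fun _ => mid t M) rr)
      = sdet e (VP c K L D (fun _ => bas t M) rr) * ∏ β, (T β).det :=
    sdet_change c rr e (fun _ => bas t M) (fun _ => mid t M) T hT2
  have h2 : sdet e (VP c K L D (fun _ => mid t M) rr) = sdet e (Vh c K L D rr) :=
    sdet_VP_eq c rr e (fun _ => mid t M) (fun _ i => mid_monic M hM t ht i)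
  have h3 : (∏ β, (T β).det) ^ 2 = VE M ^ 5 := by
    rw [← Finset.prod_pow, Finset.prod_congr rfl (fun β _ => (hT1 β).trans (vander_sq M hM)),
      Finset.prod_const]
    rfl
  rw [← h2, h1, mul_pow, h3]

end MP_a3a416_nt.SJ5
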