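import Pool.Agent.Lib.MP_a3a416_nt.SJ5.VS

/-!
# Single index 5: definitions for the local bounds at the flat primes.
-/

open Polynomial

namespace MP_a3a416_nt.SJ5

open MP_a3a416_nt.SJ

/-! ## regular parts (the terms `p ∣ b` dropped) -/

/-- `h_r(n)` without the terms divisible by `p`. -/
noncomputable def hr (p r : ℕ) (n : ℤ) : ℚ :=
  ∑ b ∈ (Finset.Ioc 0 n).filter (fun b => ¬ (p : ℤ) ∣ b), ((b : ℚ)⁻¹) ^ r
    - ∑ b ∈ (Finset.Ioo n 0).filter (fun b => ¬ (p : ℤ) ∣ b), ((b : ℚ)⁻¹) ^ r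

/-- the regular part of `f_2(n) - c u^4` -/
noncomputable def FR2 (c : ℚ) (p : ℕ) (n : ℤ) : PowerSeries ℚ := PowerSeries.mk fun j =>
  (-1) ^ j * ((j : ℚ) + 1) * hr p (1 + j) n - (if j = 4 then c else 0)

/-- the regular part of `f_3(n) + 2 c u^3` -/
noncomputable def FR3 (c : ℚ) (p : ℕ) (n : ℤ) : PowerSeries ℚ := PowerSeries.mk fun j =>
  (-1) ^ j * (((j : ℚ) + 1) * ((j : ℚ) + 2) / 2) * hr p (2 + j) n + (if j = 3 then 2 * c else 0)

/-- the polynomial of Faulhaber: `SS k (x) - SS k (x-1) = x^k`, `SS k (0) = 0` (`k ≥ 1`). -/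
noncomputable def SS (k : ℕ) : ℚ[X] :=
  C (((k : ℚ) + 1)⁻¹) * (Polynomial.bernoulli (k + 1) - C (_root_.bernoulli (k + 1))) + X ^ k

/-- `y = x - x^p` -/
noncomputable def Yp (p : ℕ) : ℚ[X] := X - X ^ p

/-! ## polar parts -/

/-- the sign of a node. -/
def sg (n : ℤ) : ℚ := if 0 ≤ n then 1 else -1

/-- the nodes with a polar part (`|n| < 2 p`). -/
def InO (p : ℕ) (n : ℤ) : Prop := (p : ℤ) ≤ n ∨ n < -(p : ℤ)

instance (p : ℕ) (n : ℤ) : Decidable (InO p n) := by unfold InO; infer_instance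

/-- `p / (p + s u)^2` -/
noncomputable def pi2 (p : ℕ) (s : ℚ) : PowerSeries ℚ := PowerSeries.mk fun j =>
  (-s) ^ j * ((j : ℚ) + 1) * ((p : ℚ)⁻¹) ^ (1 + j)

/-- `s p / (p + s u)^3` -/
noncomputable def pi3 (p : ℕ) (s : ℚ) : PowerSeries ℚ := PowerSeries.mk fun j =>
  s * (-s) ^ j * (((j : ℚ) + 1) * ((j : ℚ) + 2) / 2) * ((p : ℚ)⁻¹) ^ (2 + j)

/-- the number of nodes with a polar part, `|n| ≤ N < 2 p`. -/
def nO (N p : ℕ) : ℤ := if p ≤ N then 2 * ((N : ℤ) - p) + 1 else 0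

/-! ## the row operation at a node with a polar part -/

/-- `(1 + s v)^3 f(p v)` as a power series in `v`. -/
noncomputable def RS (p : ℕ) (s : ℚ) (f : PowerSeries ℚ) : PowerSeries ℚ :=
  (1 + PowerSeries.C s * PowerSeries.X) ^ 3 * PowerSeries.rescale (p : ℚ) f

/-- `[v^k] (1 + s v)^3 f(p v)`, `k < 5`, has valuation at least `k - 3 + b`. -/
def RV (p : ℕ) (s : ℚ) (b : ℤ) (f : PowerSeries ℚ) : Prop :=
  ∀ k < 5, val p (PowerSeries.coeff k (RS p s f)) ((k : ℤ) - 3 + b)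

/-- the local condition on a column at the node `n`. -/
def LC (p : ℕ) (n : ℤ) (b : ℤ) (f : PowerSeries ℚ) : Prop :=
  if InO p n then RV p (sg n) b f else VS p b f

end MP_a3a416_nt.SJ5
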