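import Pool.Agent.Lib.MP_a3a416_nt.SJ5.ArGBound
import Pool.Agent.Lib.MP_a3a416_nt.SJ5.Defs2
import Pool.Agent.Lib.MP_a3a416_nt.SJ.ArEntry

/-! # SJ5-ArEntry: bounds for the entries -/

set_option autoImplicit false

open Polynomial Finset

namespace MP_a3a416_nt.SJ5

open MP_a3a416_nt.SJ

private theorem AE_lag (M N j : ℕ) (hM : Even M) (hMN : M ≤ N) (hj : j < M + 1) (n : ℤ) (k : ℕ)
    (hk : k < 5) :
    |(taylor (n : ℚ) (lag (EE M) (ev M j))).coeff k|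
      ≤ ((N : ℚ) + 1) ^ 4 * ppr (EE M) n / ppr (EE M) (ev M j) := by
  have h := coeff_lag_le (EE M) (ev M j) (ev_mem M j hM hj) n k
  rw [card_EE M hM] at h
  push_cast at h
  refine h.trans ?_
  have hN0 : (0 : ℚ) ≤ N := Nat.cast_nonneg N
  have hM0 : (0 : ℚ) ≤ M := Nat.cast_nonneg M
  have hMN' : (M : ℚ) ≤ N := by exact_mod_cast hMN
  have h1 : (0 : ℚ) < ppr (EE M) (ev M j) := by exact_mod_cast ppr_pos _ _
  have h2 : (0 : ℚ) < ppr (EE M) n := by exact_mod_cast ppr_pos _ _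
  have h3 : ((M : ℚ) + 1) ^ k ≤ ((N : ℚ) + 1) ^ 4 :=
    (pow_le_pow_left₀ (by linarith) (by linarith) k).trans
      (pow_le_pow_right₀ (by linarith) (by omega))
  gcongr

private theorem AE_Ut (M N : ℕ) (hM : Even M) (hMN : M ≤ N) (t : ℕ → ℚ[X]) (ht : ChebOK N t)
    (i : ℕ) (hi : i + 1 ≤ 10 * N) (n : ℤ) (hn : |n| ≤ N) (k : ℕ) (hk : k < 5) :
    |(taylor (n : ℚ) (npoly (EE M) * t i)).coeff k|
      ≤ 10 * ((N : ℚ) + 1) ^ 4 * (10 * (N : ℚ)) ^ 8 * ppr (EE M) n * ((N : ℚ) / 2) ^ i := by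
  rw [taylor_mul, coeff_mul]
  have hN0 : (0 : ℚ) ≤ N := Nat.cast_nonneg N
  have hM0 : (0 : ℚ) ≤ M := Nat.cast_nonneg M
  have hMN' : (M : ℚ) ≤ N := by exact_mod_cast hMN
  have h2 : (0 : ℚ) < ppr (EE M) n := by exact_mod_cast ppr_pos _ _
  have hi' : (i : ℚ) + 1 ≤ 10 * N := by exact_mod_cast hi
  have h8 : (1 : ℚ) ≤ 10 * N := by
    have : (0 : ℚ) ≤ i := Nat.cast_nonneg i
    linarith
  have key : ∀ x ∈ antidiagonal k,
      |(taylor (n : ℚ) (npoly (EE M))).coeff x.1 * (taylor (n : ℚ) (t i)).coeff x.2| ≤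
        2 * ((N : ℚ) + 1) ^ 4 * (10 * (N : ℚ)) ^ 8 * ppr (EE M) n * ((N : ℚ) / 2) ^ i := by
    intro x hx
    rw [HasAntidiagonal.mem_antidiagonal] at hx
    rw [abs_mul]
    have h3 := coeff_npoly_le (EE M) n x.1
    rw [card_EE M hM] at h3
    push_cast at h3
    have h4 : |(taylor (n : ℚ) (npoly (EE M))).coeff x.1| ≤ ((N : ℚ) + 1) ^ 4 * ppr (EE M) n := by
      refine h3.trans ?_
      have : ((M : ℚ) + 1) ^ x.1 ≤ ((N : ℚ) + 1) ^ 4 :=
        (pow_le_pow_left₀ (by linarith) (by linarith) _).trans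
          (pow_le_pow_right₀ (by linarith) (by omega))
      gcongr
    have h5 : |(taylor (n : ℚ) (t i)).coeff x.2| ≤ 2 * (10 * (N : ℚ)) ^ 8 * ((N : ℚ) / 2) ^ i := by
      refine (ht.2 i x.2 n hn).trans ?_
      have h6 : ((i : ℚ) + 1) ^ (2 * x.2) ≤ (10 * (N : ℚ)) ^ 8 := by
        calc ((i : ℚ) + 1) ^ (2 * x.2) ≤ (10 * (N : ℚ)) ^ (2 * x.2) :=
              pow_le_pow_left₀ (by positivity) hi' _
          _ ≤ (10 * (N : ℚ)) ^ 8 := pow_le_pow_right₀ h8 (by omega)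
      gcongr
    calc |(taylor (n : ℚ) (npoly (EE M))).coeff x.1| * |(taylor (n : ℚ) (t i)).coeff x.2|
        ≤ (((N : ℚ) + 1) ^ 4 * ppr (EE M) n) * (2 * (10 * (N : ℚ)) ^ 8 * ((N : ℚ) / 2) ^ i) :=
          mul_le_mul h4 h5 (abs_nonneg _) (by positivity)
      _ = _ := by ring
  refine (abs_sum_le_sum_abs _ _).trans ?_
  refine (Finset.sum_le_sum key).trans ?_
  rw [Finset.sum_const, Finset.Nat.card_antidiagonal, nsmul_eq_mul]
  have hk' : ((k + 1 : ℕ) : ℚ) ≤ 5 := by exact_mod_cast (by omega : k + 1 ≤ 5)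
  have hpos : (0 : ℚ) ≤ 2 * ((N : ℚ) + 1) ^ 4 * (10 * (N : ℚ)) ^ 8 * ppr (EE M) n *
      ((N : ℚ) / 2) ^ i := by positivity
  calc ((k + 1 : ℕ) : ℚ) * (2 * ((N : ℚ) + 1) ^ 4 * (10 * (N : ℚ)) ^ 8 * ppr (EE M) n *
      ((N : ℚ) / 2) ^ i) ≤ 5 * (2 * ((N : ℚ) + 1) ^ 4 * (10 * (N : ℚ)) ^ 8 * ppr (EE M) n *
      ((N : ℚ) / 2) ^ i) := mul_le_mul_of_nonneg_right hk' hpos
    _ = _ := by ring

private theorem AE_cf (c : ℚ) (β : Blk) : 0 ≤ cf c β := by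
  have hc := abs_nonneg c
  cases β <;> simp only [cf] <;> linarith

theorem entry_le (c : ℚ) {N M K L D c0 : ℕ} (h2 : 2 ≤ N) (hM : Even M) (hMN : M ≤ N)
    (hK : K ≤ 10 * N) (hL : L ≤ 10 * N) (hD : D ≤ 10 * N) (t : ℕ → ℚ[X]) (ht : ChebOK N t)
    (rr : Fin c0 → Row N) (ρ : Row N) (x : Col K L D ⊕ Fin c0) :
    |VP c K L D (fun _ => bas t M) rr ρ x| ≤ ppr (EE M) (node ρ) * cw c N M K L D c0 x := by
  have hN0 : (2 : ℚ) ≤ N := by exact_mod_cast h2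
  have hp : (1 : ℚ) ≤ ppr (EE M) (node ρ) := by exact_mod_cast ppr_pos _ _
  have hnode : |node ρ| ≤ N := by
    have := ρ.1.2
    rw [node, abs_le]
    constructor <;> omega
  have hN3 : (1 : ℚ) ≤ ((N : ℚ) + 1) ^ 4 := one_le_pow₀ (by linarith)
  have hN6 : (1 : ℚ) ≤ (10 * (N : ℚ)) ^ 8 := one_le_pow₀ (by linarith)
  rcases x with ⟨β, j⟩ | i
  · have hj : (j : ℕ) + 1 ≤ 10 * N := by
      have h1 := j.2
      have h3 : len K L D β ≤ 10 * N := by
        cases β <;> simp only [len] <;> omega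
      omega
    have hcf := AE_cf c β
    rw [VP_inl]
    show |J c β (bas t M j) (node ρ) (ρ.2 : ℕ)| ≤ ppr (EE M) (node ρ) *
      (cf c β * (if (j : ℕ) < M + 1 then Cst N / ppr (EE M) (ev M j)
        else Cst N * ((N : ℚ) / 2) ^ ((j : ℕ) - (M + 1))))
    by_cases hjN : (j : ℕ) < M + 1
    · rw [if_pos hjN]
      have hpe : (0 : ℚ) < ppr (EE M) (ev M j) := by exact_mod_cast ppr_pos _ _
      have hb : bas t M j = lag (EE M) (ev M j) := by rw [bas, if_pos hjN]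
      rw [hb]
      refine (abs_J_le c β _ (node ρ) N hnode ρ.2 ρ.2.2
        (((N : ℚ) + 1) ^ 4 * ppr (EE M) (node ρ) / ppr (EE M) (ev M j))
        (fun i hi => AE_lag M N j hM hMN hjN (node ρ) i (by have := ρ.2.2; omega))).trans ?_
      have hgoal : 5 * (15 * (N : ℚ) + 2) *
          (((N : ℚ) + 1) ^ 4 * ppr (EE M) (node ρ) / ppr (EE M) (ev M j)) ≤
          ppr (EE M) (node ρ) * (Cst N / ppr (EE M) (ev M j)) := by
        rw [Cst]
        rw [← mul_div_assoc, ← mul_div_assoc]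
        apply div_le_div_of_nonneg_right _ hpe.le
        have h5 : (0 : ℚ) ≤ 5 * (15 * (N : ℚ) + 2) * (((N : ℚ) + 1) ^ 4 *
          ppr (EE M) (node ρ)) := by positivity
        calc 5 * (15 * (N : ℚ) + 2) * (((N : ℚ) + 1) ^ 4 * ppr (EE M) (node ρ))
            = 5 * (15 * (N : ℚ) + 2) * (((N : ℚ) + 1) ^ 4 * ppr (EE M) (node ρ)) * 1 := by
              ring
          _ ≤ 5 * (15 * (N : ℚ) + 2) * (((N : ℚ) + 1) ^ 4 * ppr (EE M) (node ρ)) *
              (10 * (10 * (N : ℚ)) ^ 8) := by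
              apply mul_le_mul_of_nonneg_left _ h5
              linarith
          _ = _ := by ring
      exact (mul_le_mul_of_nonneg_left hgoal hcf).trans (le_of_eq (by ring))
    · rw [if_neg hjN]
      have hb : bas t M j = npoly (EE M) * t (j - (M + 1)) := by rw [bas, if_neg hjN]
      rw [hb]
      refine (abs_J_le c β _ (node ρ) N hnode ρ.2 ρ.2.2
        (10 * ((N : ℚ) + 1) ^ 4 * (10 * (N : ℚ)) ^ 8 * ppr (EE M) (node ρ) *
          ((N : ℚ) / 2) ^ ((j : ℕ) - (M + 1)))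
        (fun i hi => AE_Ut M N hM hMN t ht _ (by omega) (node ρ) hnode i
          (by have := ρ.2.2; omega))).trans ?_
      rw [Cst]
      apply le_of_eq
      ring
  · rw [VP_inr]
    show |(if ρ = rr i then (1 : ℚ) else 0)| ≤ ppr (EE M) (node ρ) * Cst N
    have h1 : |(if ρ = rr i then (1 : ℚ) else 0)| ≤ 1 := by
      split_ifs <;> simp
    refine h1.trans ?_
    have h3 : (1 : ℚ) ≤ Cst N := by
      rw [Cst]
      have h4 : (1 : ℚ) ≤ 50 * (15 * (N : ℚ) + 2) := by linarith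
      exact one_le_mul_of_one_le_of_one_le (one_le_mul_of_one_le_of_one_le h4 hN3) hN6
    exact one_le_mul_of_one_le_of_one_le hp h3

end MP_a3a416_nt.SJ5
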