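import Pool.Agent.Lib.MP_a3a416_nt.SJ5.ArDefs

/-! # SJ5-ArErr: the error term
PROOF. Adapt `SJ/ArErr.lean`: `log (10N+5)! ≤ (10N+5) log (10N+5)`, `Cst N ≤ A N^13`. -/

set_option autoImplicit false

namespace MP_a3a416_nt.SJ5

open MP_a3a416_nt.SJ

theorem log_err : ∃ B : ℝ, ∀ N : ℕ, 2 ≤ N →
    Real.log (Nat.factorial (10 * N + 5)) + (10 * N + 5) * Real.log ((Cst N : ℚ) : ℝ)
      ≤ B * N * Real.log N := by
  set K : ℝ := 50 * 16 * 2 ^ 4 * 10 ^ 8 with hK
  have hK1 : 1 ≤ K := by rw [hK]; norm_num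
  refine ⟨65 + 13 * (13 + Real.log K / Real.log 2), fun N hN => ?_⟩
  have hN' : (2 : ℝ) ≤ N := by exact_mod_cast hN
  have hN0 : (0 : ℝ) < N := by linarith
  have hlog2 : 0 < Real.log 2 := Real.log_pos (by norm_num)
  have hlogN : Real.log 2 ≤ Real.log N := Real.log_le_log (by norm_num) hN'
  have hlogN0 : 0 < Real.log N := lt_of_lt_of_le hlog2 hlogN
  have hlogK : 0 ≤ Real.log K := Real.log_nonneg hK1
  -- the factorial
  have h1 : Real.log (Nat.factorial (10 * N + 5)) ≤ 65 * N * Real.log N := by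
    have e1 : ((Nat.factorial (10 * N + 5) : ℕ) : ℝ) ≤ ((10 * N + 5 : ℕ) : ℝ) ^ (10 * N + 5) := by
      exact_mod_cast Nat.factorial_le_pow (10 * N + 5)
    have e2 : Real.log (Nat.factorial (10 * N + 5)) ≤
        (10 * N + 5 : ℝ) * Real.log (10 * N + 5 : ℝ) := by
      have := Real.log_le_log (by positivity) e1
      rw [Real.log_pow] at this
      push_cast at this
      exact this
    have e3 : Real.log (10 * N + 5 : ℝ) ≤ 5 * Real.log N := by
      have : Real.log ((N : ℝ) ^ 5) = 5 * Real.log N := by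
        rw [Real.log_pow]; norm_num
      rw [← this]
      apply Real.log_le_log (by positivity)
      have h4 : (16 : ℝ) ≤ (N : ℝ) ^ 4 := by
        have := pow_le_pow_left₀ (by norm_num : (0:ℝ) ≤ 2) hN' 4
        norm_num at this
        exact this
      have : (N : ℝ) ^ 5 = N ^ 4 * N := by ring
      rw [this]
      nlinarith
    have e4 : (0 : ℝ) ≤ 10 * N + 5 := by positivity
    calc Real.log (Nat.factorial (10 * N + 5)) ≤
        (10 * N + 5 : ℝ) * Real.log (10 * N + 5 : ℝ) := e2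
      _ ≤ (10 * N + 5 : ℝ) * (5 * Real.log N) := mul_le_mul_of_nonneg_left e3 e4
      _ ≤ (13 * N) * (5 * Real.log N) := by
          apply mul_le_mul_of_nonneg_right _ (by positivity)
          linarith
      _ = 65 * N * Real.log N := by ring
  -- the constant
  have hCst : ((Cst N : ℚ) : ℝ) ≤ K * (N : ℝ) ^ 13 := by
    have e0 : ((Cst N : ℚ) : ℝ)
        = 50 * (15 * (N : ℝ) + 2) * ((N : ℝ) + 1) ^ 4 * (10 * (N : ℝ)) ^ 8 := by
      unfold Cst
      push_cast
      rfl
    rw [e0]
    have a1 : 15 * (N : ℝ) + 2 ≤ 16 * N := by linarith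
    have a2 : ((N : ℝ) + 1) ^ 4 ≤ (2 * N) ^ 4 := by
      apply pow_le_pow_left₀ (by positivity)
      linarith
    calc 50 * (15 * (N : ℝ) + 2) * ((N : ℝ) + 1) ^ 4 * (10 * (N : ℝ)) ^ 8
        ≤ 50 * (16 * N) * (2 * N) ^ 4 * (10 * (N : ℝ)) ^ 8 := by
          gcongr
      _ = K * (N : ℝ) ^ 13 := by rw [hK]; ring
  have hCpos : (0 : ℝ) < ((Cst N : ℚ) : ℝ) := by
    have : (0 : ℚ) < Cst N := by
      have : (0 : ℚ) < N := by exact_mod_cast (by omega : 0 < N)
      unfold Cst
      positivity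
    exact_mod_cast this
  have h2 : Real.log ((Cst N : ℚ) : ℝ) ≤ (13 + Real.log K / Real.log 2) * Real.log N := by
    have e1 := Real.log_le_log hCpos hCst
    rw [Real.log_mul (by positivity) (by positivity), Real.log_pow] at e1
    have e2 : Real.log K ≤ Real.log K / Real.log 2 * Real.log N := by
      rw [div_mul_eq_mul_div, le_div_iff₀ hlog2]
      exact mul_le_mul_of_nonneg_left hlogN hlogK
    push_cast at e1
    rw [add_mul]
    clear_value K
    clear hCst hK
    linarith
  have h3 : 0 ≤ (13 + Real.log K / Real.log 2) * Real.log N := by positivity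
  have h4 : (10 * N + 5 : ℝ) * Real.log ((Cst N : ℚ) : ℝ)
      ≤ 13 * N * ((13 + Real.log K / Real.log 2) * Real.log N) := by
    calc (10 * N + 5 : ℝ) * Real.log ((Cst N : ℚ) : ℝ)
        ≤ (10 * N + 5 : ℝ) * ((13 + Real.log K / Real.log 2) * Real.log N) :=
          mul_le_mul_of_nonneg_left h2 (by positivity)
      _ ≤ 13 * N * ((13 + Real.log K / Real.log 2) * Real.log N) := by
          apply mul_le_mul_of_nonneg_right _ h3
          linarith
  calc Real.log (Nat.factorial (10 * N + 5)) + (10 * N + 5) * Real.log ((Cst N : ℚ) : ℝ)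
      ≤ 65 * N * Real.log N + 13 * N * ((13 + Real.log K / Real.log 2) * Real.log N) :=
        add_le_add h1 h4
    _ = (65 + 13 * (13 + Real.log K / Real.log 2)) * N * Real.log N := by ring

end MP_a3a416_nt.SJ5
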