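import Pool.Agent.Lib.MP_a3a416_nt.SJ5.ArDefs

/-! # SJ5-ArGBound: bounds for the local functions and the jets -/

set_option autoImplicit false

open Polynomial

namespace MP_a3a416_nt.SJ5

open MP_a3a416_nt.SJ

private theorem ArGBound_sum (r : ℕ) (S : Finset ℤ) (h : (0 : ℤ) ∉ S) :
    |∑ b ∈ S, ((b : ℚ)⁻¹) ^ r| ≤ S.card := by
  refine le_trans (Finset.abs_sum_le_sum_abs _ _) ?_
  have h1 : ∀ b ∈ S, |((b : ℚ)⁻¹) ^ r| ≤ 1 := by
    intro b hb
    rw [abs_pow, abs_inv]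
    have hb0 : b ≠ 0 := fun h0 => h (h0 ▸ hb)
    have h2 : (1 : ℚ) ≤ |(b : ℚ)| := by
      have h3 : (1 : ℤ) ≤ |b| := Int.one_le_abs hb0
      exact_mod_cast h3
    exact pow_le_one₀ (by positivity) (inv_le_one_of_one_le₀ h2)
  refine le_trans (Finset.sum_le_sum h1) ?_
  simp

private theorem ArGBound_hh (r : ℕ) (n : ℤ) : |hh r n| ≤ |(n : ℚ)| := by
  unfold hh
  have h1 := ArGBound_sum r (Finset.Ioc 0 n) (by simp)
  have h2 := ArGBound_sum r (Finset.Ioo n 0) (by simp)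
  have h5 : ((Finset.Ioc 0 n).card : ℤ) + ((Finset.Ioo n 0).card : ℤ) ≤ |n| := by
    rw [Int.card_Ioc, Int.card_Ioo]
    rcases le_total 0 n with h | h
    · rw [abs_of_nonneg h]
      omega
    · rw [abs_of_nonpos h]
      omega
  have h6 : ((Finset.Ioc 0 n).card : ℚ) + ((Finset.Ioo n 0).card : ℚ) ≤ |(n : ℚ)| := by
    exact_mod_cast h5
  refine le_trans (abs_sub _ _) ?_
  linarith

private theorem ArGBound_c2 (c : ℚ) (n : ℤ) (M : ℚ) (hn : |(n : ℚ)| ≤ M) (j : ℕ) (hj : j < 5) :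
    |c2 c n j| ≤ 5 * M + |c| := by
  unfold c2
  have h1 : |(-1 : ℚ) ^ j * ((j : ℚ) + 1) * hh (1 + j) n| ≤ 5 * M := by
    rw [abs_mul, abs_mul, abs_pow, abs_neg, abs_one, one_pow, one_mul]
    have h2 : |(j : ℚ) + 1| ≤ 5 := by
      rw [abs_of_nonneg (by positivity)]
      have : (j : ℚ) ≤ 4 := by exact_mod_cast Nat.lt_succ_iff.1 hj
      linarith
    have h3 : |hh (1 + j) n| ≤ M := le_trans (ArGBound_hh _ _) hn
    exact mul_le_mul h2 h3 (abs_nonneg _) (by norm_num)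
  have h2 : |if j = 4 then c else 0| ≤ |c| := by
    split_ifs
    · exact le_rfl
    · simp
  refine le_trans (abs_sub _ _) ?_
  linarith

private theorem ArGBound_c3 (c : ℚ) (n : ℤ) (M : ℚ) (hn : |(n : ℚ)| ≤ M) (j : ℕ) (hj : j < 5) :
    |c3 c n j| ≤ 15 * M + 2 * |c| := by
  unfold c3
  have h1 : |(-1 : ℚ) ^ j * (((j : ℚ) + 1) * ((j : ℚ) + 2) / 2) * hh (2 + j) n| ≤ 15 * M := by
    rw [abs_mul, abs_mul, abs_pow, abs_neg, abs_one, one_pow, one_mul]
    have h2 : |((j : ℚ) + 1) * ((j : ℚ) + 2) / 2| ≤ 15 := by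
      rw [abs_of_nonneg (by positivity)]
      have h0 : (0 : ℚ) ≤ j := by positivity
      have : (j : ℚ) ≤ 4 := by exact_mod_cast Nat.lt_succ_iff.1 hj
      nlinarith
    have h3 : |hh (2 + j) n| ≤ M := le_trans (ArGBound_hh _ _) hn
    exact mul_le_mul h2 h3 (abs_nonneg _) (by norm_num)
  have h2 : |if j = 3 then 2 * c else 0| ≤ 2 * |c| := by
    split_ifs
    · rw [abs_mul, abs_of_pos (by norm_num : (0 : ℚ) < 2)]
    · simp
  refine le_trans (abs_add_le _ _) ?_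
  linarith

theorem abs_gj_le (c : ℚ) (β : Blk) (n : ℤ) (N : ℕ) (hn : |n| ≤ N) (j : ℕ) (hj : j < 5) :
    |gj c β n j| ≤ cf c β * (15 * (N : ℚ) + 2) := by
  have hN : (0 : ℚ) ≤ N := by positivity
  have hc := abs_nonneg c
  have hnQ : |(n : ℚ)| ≤ N := by exact_mod_cast hn
  have hcN : 0 ≤ |c| * N := mul_nonneg hc hN
  cases β with
  | z =>
    simp only [gj, cf, gser, PowerSeries.coeff_one]
    split_ifs
    · rw [abs_one]; linarith
    · rw [abs_zero]; linarith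
  | u =>
    simp only [gj, cf, gser, PowerSeries.coeff_X]
    split_ifs
    · rw [abs_one]; linarith
    · rw [abs_zero]; linarith
  | w =>
    simp only [gj, cf, gser, PowerSeries.coeff_X_pow]
    split_ifs
    · rw [abs_one]; linarith
    · rw [abs_zero]; linarith
  | f =>
    simp only [gj, cf, gser, PowerSeries.coeff_mk]
    have := ArGBound_c2 c n N hnQ j hj
    nlinarith
  | g =>
    simp only [gj, cf, gser, PowerSeries.coeff_mk]
    have := ArGBound_c3 c n N hnQ j hj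
    nlinarith

theorem abs_J_le (c : ℚ) (β : Blk) (P : ℚ[X]) (n : ℤ) (N : ℕ) (hn : |n| ≤ N) (k : ℕ) (hk : k < 5)
    (b : ℚ) (hb : ∀ i ≤ k, |(taylor (n : ℚ) P).coeff i| ≤ b) :
    |J c β P n k| ≤ cf c β * (5 * (15 * (N : ℚ) + 2) * b) := by
  have hb0 : 0 ≤ b := le_trans (abs_nonneg _) (hb 0 (Nat.zero_le _))
  have hcf : 0 ≤ cf c β := by
    have hc := abs_nonneg c
    cases β <;> simp only [cf] <;> linarith
  have hM : (0 : ℚ) ≤ cf c β * (15 * (N : ℚ) + 2) := mul_nonneg hcf (by positivity)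
  rw [J_eq_sum]
  refine le_trans (Finset.abs_sum_le_sum_abs _ _) ?_
  have h1 : ∀ i ∈ Finset.range (k + 1), |(taylor (n : ℚ) P).coeff i * gj c β n (k - i)| ≤
      b * (cf c β * (15 * (N : ℚ) + 2)) := by
    intro i hi
    rw [Finset.mem_range] at hi
    rw [abs_mul]
    exact mul_le_mul (hb i (by omega)) (abs_gj_le c β n N hn (k - i) (by omega)) (abs_nonneg _) hb0
  refine le_trans (Finset.sum_le_sum h1) ?_
  rw [Finset.sum_const, Finset.card_range, nsmul_eq_mul]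
  have h2 : ((k + 1 : ℕ) : ℚ) ≤ 5 := by exact_mod_cast hk
  have h3 : 0 ≤ b * (cf c β * (15 * (N : ℚ) + 2)) := mul_nonneg hb0 hM
  calc ((k + 1 : ℕ) : ℚ) * (b * (cf c β * (15 * (N : ℚ) + 2)))
      ≤ 5 * (b * (cf c β * (15 * (N : ℚ) + 2))) := mul_le_mul_of_nonneg_right h2 h3
    _ = cf c β * (5 * (15 * (N : ℚ) + 2) * b) := by ring

end MP_a3a416_nt.SJ5
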