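import Pool.Agent.Lib.MP_a3a416_nt.SJ5.ArDet
import Pool.Agent.Lib.MP_a3a416_nt.SJ5.ArErr
import Pool.Agent.Lib.MP_a3a416_nt.SJ.ArCheb

/-! # SJ5-ArchBound: the archimedean bound
PROOF. Adapt `SJ/ArchBound.lean`: `log |D| = log |D'| + (5/2) log VE M` (`sdet_bas`), `log |D'|` by `abs_sdet_bas_le`, `5 log WM - 5 log VE + ...`; Gauss sums
`∑_{i < l-(M+1)} i ≤ (l - M)^2 / 2`, `log (N/2) ≥ 0`. Here nothing is done with `WM`, `VE` (see ArAsy). -/

set_option autoImplicit false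

open Polynomial Finset

namespace MP_a3a416_nt.SJ5

open MP_a3a416_nt.SJ

private theorem VE_pos (N : ℕ) : 0 < VE N := by
  unfold VE
  exact prod_pos fun x _ => by exact_mod_cast ppr_pos (EE N) x

private theorem WM_pos (N M : ℕ) : 0 < WM N M := by
  unfold WM
  exact prod_pos fun x _ => by exact_mod_cast ppr_pos (EE M) x

private theorem Cst_pos (N : ℕ) (hN : 2 ≤ N) : 0 < Cst N := by
  unfold Cst
  have : (0 : ℚ) < N := by exact_mod_cast (by omega : 0 < N)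
  positivity

private theorem gauss_le (l N : ℕ) (h : N + 1 ≤ l) :
    ((∑ i ∈ range (l - (N + 1)), i : ℕ) : ℝ) ≤ ((l : ℝ) - N) ^ 2 / 2 := by
  obtain ⟨k, rfl⟩ := Nat.exists_eq_add_of_le h
  have h1 : N + 1 + k - (N + 1) = k := by omega
  rw [h1]
  have h2 := Finset.sum_range_id_mul_two k
  have h3 : ((∑ i ∈ range k, i : ℕ) : ℝ) * 2 = (k : ℝ) * ((k - 1 : ℕ) : ℝ) := by exact_mod_cast h2
  have h4 : ((k - 1 : ℕ) : ℝ) ≤ k := by exact_mod_cast Nat.sub_le k 1
  have h5 : (0 : ℝ) ≤ k := by positivity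
  push_cast
  push_cast at h3
  nlinarith [mul_le_mul_of_nonneg_left h4 h5]

private theorem sum_blk5 (f : Blk → ℝ) :
    ∑ β : Blk, f β = f .z + f .u + f .w + f .f + f .g := by
  have h : (Finset.univ : Finset Blk) = {Blk.z, Blk.u, Blk.w, Blk.f, Blk.g} := by decide
  rw [h, sum_insert (by decide), sum_insert (by decide), sum_insert (by decide),
    sum_insert (by decide), sum_singleton]
  ring

theorem arch_bound : ∃ C : ℝ, ∀ (c : ℚ) (N M K L D c0 : ℕ) (rr : Fin c0 → Row N)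
    (e : (Col K L D ⊕ Fin c0) ≃ Row N), 2 ≤ N → Even M → M ≤ N → M + 1 ≤ K → M + 1 ≤ L →
    M + 1 ≤ D → K ≤ 10 * N → L ≤ 10 * N → D ≤ 10 * N → sdet e (Vh c K L D rr) ≠ 0 →
    Real.log |((sdet e (Vh c K L D rr) : ℚ) : ℝ)| ≤
      5 * Real.log ((WM N M : ℚ) : ℝ) - 5 / 2 * Real.log ((VE M : ℚ) : ℝ)
      + (((K : ℝ) - M) ^ 2 / 2 + 2 * (((L : ℝ) - M) ^ 2 / 2) + 2 * (((D : ℝ) - M) ^ 2 / 2))
          * Real.log ((N : ℝ) / 2)
      + (D + L) * Real.log (1 + |(c : ℝ)|)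
      + C * N * Real.log N := by
  obtain ⟨B1, hB1⟩ := log_err
  refine ⟨B1, fun c N M K L A c0 rr e h2 hev hMN hK hL hA hK8 hL8 hA8 hD => ?_⟩
  obtain ⟨t, ht⟩ := exists_cheb N (by omega)
  set D := sdet e (Vh c K L A rr) with hDdef
  set D' := sdet e (VP c K L A (fun _ => bas t M) rr) with hD'def
  have hsq : D ^ 2 = D' ^ 2 * VE M ^ 5 := sdet_bas c hev hK hL hA t ht.1 rr e
  have hV := VE_pos M
  have hW := WM_pos N M
  have hC := Cst_pos N h2
  have hD' : D' ≠ 0 := by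
    rintro h0
    rw [h0] at hsq
    apply hD
    have : D ^ 2 = 0 := by rw [hsq]; ring
    exact pow_eq_zero_iff (by norm_num) |>.mp this
  have hVr : (0 : ℝ) < ((VE M : ℚ) : ℝ) := by exact_mod_cast hV
  have hWr : (0 : ℝ) < ((WM N M : ℚ) : ℝ) := by exact_mod_cast hW
  have hCr : (0 : ℝ) < ((Cst N : ℚ) : ℝ) := by exact_mod_cast hC
  have hDr : (D : ℝ) ≠ 0 := by exact_mod_cast hD
  have hD'r : (D' : ℝ) ≠ 0 := by exact_mod_cast hD'
  -- log |D| = log |D'| + 5/2 log VE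
  have hlog1 : Real.log |(D : ℝ)| = Real.log |(D' : ℝ)| + 5 / 2 * Real.log ((VE M : ℚ) : ℝ) := by
    have h3 : (D : ℝ) ^ 2 = (D' : ℝ) ^ 2 * ((VE M : ℚ) : ℝ) ^ 5 := by exact_mod_cast hsq
    have h4 := congrArg Real.log h3
    rw [Real.log_mul (pow_ne_zero _ hD'r) (pow_ne_zero _ hVr.ne'), Real.log_pow, Real.log_pow,
      Real.log_pow] at h4
    rw [Real.log_abs, Real.log_abs]
    push_cast at h4
    linarith
  -- the bound for D'
  have hb := abs_sdet_bas_le c h2 hev hMN hK hL hA hK8 hL8 hA8 t ht rr e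
  have hbr : |(D' : ℝ)| ≤ (Nat.factorial (10 * N + 5) : ℝ) * ((WM N M : ℚ) : ℝ) ^ 5 *
      ((1 + |(c : ℝ)|) ^ (A + L) * ((Cst N : ℚ) : ℝ) ^ (10 * N + 5) * (((VE M : ℚ) : ℝ) ^ 5)⁻¹ *
      ∏ β : Blk, ((N : ℝ) / 2) ^ (∑ i ∈ range (len K L A β - (M + 1)), i)) := by
    have := (Rat.cast_le (K := ℝ)).mpr hb
    push_cast at this
    rw [hD'def]
    exact this
  have hNr : (0 : ℝ) < (N : ℝ) / 2 := by
    have : (0 : ℝ) < N := by exact_mod_cast (by omega : 0 < N)
    positivity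
  have hc1 : (0 : ℝ) < 1 + |(c : ℝ)| := by positivity
  have hfac : (0 : ℝ) < (Nat.factorial (10 * N + 5) : ℝ) := by exact_mod_cast Nat.factorial_pos _
  have hlog2 := Real.log_le_log (abs_pos.mpr hD'r) hbr
  have hprod : (0 : ℝ) < ∏ β : Blk, ((N : ℝ) / 2) ^ (∑ i ∈ range (len K L A β - (M + 1)), i) :=
    prod_pos fun β _ => pow_pos hNr _
  rw [Real.log_mul (by positivity) (by positivity), Real.log_mul (by positivity) (by positivity),
    Real.log_mul (by positivity) hprod.ne', Real.log_mul (by positivity) (by positivity),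
    Real.log_mul (by positivity) (by positivity), Real.log_inv, Real.log_pow, Real.log_pow,
    Real.log_pow, Real.log_pow, Real.log_prod (fun β _ => (pow_pos hNr _).ne'), sum_blk5] at hlog2
  simp only [Real.log_pow] at hlog2
  -- Gauss sums
  have hlN : 0 ≤ Real.log ((N : ℝ) / 2) := by
    apply Real.log_nonneg
    have : (2 : ℝ) ≤ N := by exact_mod_cast h2
    linarith
  have hgK := mul_le_mul_of_nonneg_right (gauss_le K M hK) hlN
  have hgL := mul_le_mul_of_nonneg_right (gauss_le L M hL) hlN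
  have hgA := mul_le_mul_of_nonneg_right (gauss_le A M hA) hlN
  have e1 := hB1 N h2
  have l1 : len K L A Blk.z = K := rfl
  have l2 : len K L A Blk.u = L := rfl
  have l3 : len K L A Blk.w = A := rfl
  have l4 : len K L A Blk.f = A := rfl
  have l5 : len K L A Blk.g = L := rfl
  rw [l1, l2, l3, l4, l5] at hlog2
  push_cast at hlog2 e1
  push_cast at hgK hgA hgL
  rw [hlog1]
  nlinarith [hlog2, e1, hgK, hgA, hgL]

end MP_a3a416_nt.SJ5
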