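import Pool.Agent.Lib.MP_a3a416_nt.SJ5.Defs2
import Pool.Agent.Lib.MP_a3a416_nt.SJ5.ColOp

/-! # SJ5-ColDefs: the column operations at a flat prime -/

set_option autoImplicit false

open Polynomial

namespace MP_a3a416_nt.SJ5

open MP_a3a416_nt.SJ

/-- the monic bases of the blocks -/
noncomputable def Pc (p : ℕ) : Blk → ℕ → ℚ[X]
  | .z, i => (X ^ p - X) ^ (i / p) * X ^ (i % p)
  | _, i => X ^ i

/-- the polynomials of the column operations; `A0, A1, A2` as in `R2` -/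
noncomputable def Qc (p m1 m2 m3 : ℕ) (A0 A1 : ℚ[X]) (A2 : ℚ) : Blk → ℕ → Blk → ℚ[X]
  | .u, i, .z => X ^ i * Yp p
  | .w, i, .z => if i < m1 then -(X ^ i * Yp p ^ 2) else if i < m3 then X ^ i * Yp p ^ 2 else 0
  | .w, i, .u => if i < m1 then C 2 * (X ^ i * Yp p) else 0
  | .g, i, .z => X ^ i * SS (p - 3)
  | .g, i, .u => -(C ((SS (p - 3)).coeff 1) * X ^ i)
  | .f, i, .g => if i < m2 then X ^ i * Yp p else 0
  | .f, i, .z => if i < m2 then X ^ i * A0 else X ^ i * SS (p - 2)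
  | .f, i, .u => if i < m2 then X ^ i * A1 else 0
  | .f, i, .w => if i < m2 then C A2 * X ^ i else -(C ((SS (p - 2)).coeff 2) * X ^ i)
  | _, _, _ => 0

/-- the column potentials -/
def bc (p m1 m2 m3 : ℕ) : Blk → ℕ → ℤ
  | .z, i => ((i / p - 4 : ℕ) : ℤ)
  | .u, _ => 1
  | .w, i => if i < m1 then 2 else if i < m3 then 1 else 0
  | .g, _ => 1
  | .f, i => if i < m2 then 2 else 1

/-- the relation modulo `p^2` -/
def RelA (c : ℚ) (p : ℕ) (A0 A1 : ℚ[X]) (A2 : ℚ) : Prop := ∀ n : ℤ,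
  VS p 2 (FR2 c p n - tp (Yp p) n * FR3 c p n - tp A0 n - tp A1 n * PowerSeries.X
    - PowerSeries.C A2 * PowerSeries.X ^ 2)

/-- the new column `(β, i)` as a power series at the node `n` -/
noncomputable def NC (c : ℚ) (p m1 m2 m3 : ℕ) (A0 A1 : ℚ[X]) (A2 : ℚ) (β : Blk) (i : ℕ) (n : ℤ) :
    PowerSeries ℚ :=
  JS c β (Pc p β i) n - ∑ γ, JS c γ (Qc p m1 m2 m3 A0 A1 A2 β i γ) n

end MP_a3a416_nt.SJ5
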