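import Pool.Agent.Lib.MP_a3a416_nt.SJ5.Defs2
import Pool.Agent.Lib.MP_a3a416_nt.SJ5.BernInt

/-! # SJ5-Faul: the polynomials of Faulhaber `SS k`
`SS k = (B_{k+1}(X) - B_{k+1})/(k+1) + X^k` with `Polynomial.bernoulli`; `B_{k+1}(1+x) = B_{k+1}(x) + (k+1) x^k`. -/

set_option autoImplicit false

open Polynomial

namespace MP_a3a416_nt.SJ5

open MP_a3a416_nt.SJ

private theorem faul_coeff (k j : ℕ) : (SS k).coeff j =
    ((k : ℚ) + 1)⁻¹ * ((if j ≤ k + 1 then _root_.bernoulli (k + 1 - j) * ((k + 1).choose j : ℚ) else 0)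
      - (if j = 0 then _root_.bernoulli (k + 1) else 0)) + (if j = k then 1 else 0) := by
  rw [SS, coeff_add, coeff_C_mul, coeff_sub, Polynomial.coeff_bernoulli, coeff_C, coeff_X_pow]

theorem SS_coeff_zero {k : ℕ} (hk : 1 ≤ k) : (SS k).coeff 0 = 0 := by
  rw [faul_coeff, if_pos (Nat.zero_le _), if_pos rfl, if_neg (by omega)]
  simp

theorem SS_coeff {k j : ℕ} (hj : 1 ≤ j) (hjk : j < k) :
    (SS k).coeff j = ((k + 1).choose j : ℚ) * _root_.bernoulli (k + 1 - j) / ((k : ℚ) + 1) := by
  rw [faul_coeff, if_pos (by omega), if_neg (by omega), if_neg (by omega)]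
  have : ((k : ℚ) + 1) ≠ 0 := by positivity
  field_simp
  ring

theorem SS_natDegree (k : ℕ) : (SS k).natDegree ≤ k + 1 := by
  rw [Polynomial.natDegree_le_iff_coeff_eq_zero]
  intro j hj
  rw [faul_coeff, if_neg (by omega), if_neg (by omega), if_neg (by omega)]
  simp

private theorem faul_bern (k : ℕ) : Polynomial.bernoulli (k + 1) =
    (Polynomial.bernoulli (k + 1)).comp (X - 1) + C ((k : ℚ) + 1) * (X - 1) ^ k := by
  have h := congrArg (fun P : ℚ[X] => P.comp (X - 1)) (Polynomial.bernoulli_comp_one_add_X (k + 1))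
  simp only [Polynomial.comp_assoc, Polynomial.add_comp, Polynomial.smul_comp, Polynomial.pow_comp,
    Polynomial.X_comp, Polynomial.one_comp, Nat.add_sub_cancel] at h
  rw [add_sub_cancel, Polynomial.comp_X] at h
  refine h.trans ?_
  congr 1
  rw [nsmul_eq_mul]
  push_cast
  simp

private theorem faul_step (k : ℕ) : SS k = (SS k).comp (X - 1) + X ^ k := by
  have h := faul_bern k
  set Q := (Polynomial.bernoulli (k + 1)).comp (X - 1) with hQ
  have h1 : (SS k).comp (X - 1) = C (((k : ℚ) + 1)⁻¹) * (Q - C (_root_.bernoulli (k + 1))) + (X - 1) ^ k := by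
    rw [SS]
    simp only [Polynomial.add_comp, Polynomial.mul_comp, Polynomial.sub_comp, Polynomial.pow_comp,
      Polynomial.X_comp, Polynomial.C_comp, ← hQ]
  have h2 : (C (((k : ℚ) + 1)⁻¹) * C ((k : ℚ) + 1) : ℚ[X]) = 1 := by
    rw [← C_mul, inv_mul_cancel₀ (by positivity), C_1]
  rw [h1, SS, h]
  linear_combination ((X - 1) ^ k : ℚ[X]) * h2

theorem SS_step {k : ℕ} (_hk : 1 ≤ k) (n : ℤ) :
    tp (SS k) n = tp (SS k) (n - 1) + tp (X ^ k) n := by
  have h1 : tp ((SS k).comp (X - 1)) n = tp (SS k) (n - 1) := by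
    unfold tp
    congr 1
    rw [taylor_apply, taylor_apply, Polynomial.comp_assoc]
    congr 1
    simp only [Polynomial.sub_comp, Polynomial.X_comp, Polynomial.one_comp]
    push_cast
    rw [C_sub, C_1]
    ring
  have h2 := congrArg (fun P : ℚ[X] => tp P n) (faul_step k)
  simp only [tp_add, h1] at h2
  exact h2

theorem SS_val {p k : ℕ} (hp : p.Prime) (hk1 : 1 ≤ k) (hk : k + 2 ≤ p) (j : ℕ) :
    val p ((SS k).coeff j) 0 := by
  have : Fact p.Prime := ⟨hp⟩
  rcases Nat.eq_zero_or_pos j with rfl | hj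
  · rw [SS_coeff_zero hk1]; exact val.zero 0
  rw [faul_coeff, if_neg (by omega : ¬ j = 0), sub_zero]
  refine val.add ?_ ?_
  · have h1 : ¬ (p : ℤ) ∣ ((k + 1 : ℕ) : ℤ) := by
      intro h
      have h2 : p ∣ k + 1 := by exact_mod_cast h
      have := Nat.le_of_dvd (by omega) h2
      omega
    have h2 : val p (((k : ℚ) + 1)⁻¹) 0 := by
      have := val.inv_of_not_dvd (p := p) h1
      simpa using this
    have h3 : val p (if j ≤ k + 1 then _root_.bernoulli (k + 1 - j) * ((k + 1).choose j : ℚ) else 0) 0 := by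
      split_ifs with hjk
      · have := (val_bern hp (m := k + 1 - j) (by omega)).mul (val.nat (p := p) ((k + 1).choose j))
        simpa using this
      · exact val.zero 0
    have := h2.mul h3
    simpa using this
  · split_ifs
    · exact val.one
    · exact val.zero 0

end MP_a3a416_nt.SJ5
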