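import Pool.Agent.Lib.MP_a3a416_nt.SJ5.ColDefs
import Pool.Agent.Lib.MP_a3a416_nt.SJ5.Faul

/-! # SJ5-ColDeg: degrees in the column operations -/

set_option autoImplicit false

open Polynomial

namespace MP_a3a416_nt.SJ5

open MP_a3a416_nt.SJ

theorem Pc_monic {p : ℕ} (hp : 2 ≤ p) (β : Blk) (i : ℕ) :
    (Pc p β i).Monic ∧ (Pc p β i).natDegree = i := by
  have hX : (X ^ i : ℚ[X]).Monic ∧ (X ^ i : ℚ[X]).natDegree = i :=
    ⟨monic_X_pow i, natDegree_X_pow i⟩
  cases β with
  | z =>
    show ((X ^ p - X) ^ (i / p) * X ^ (i % p) : ℚ[X]).Monic ∧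
      ((X ^ p - X) ^ (i / p) * X ^ (i % p) : ℚ[X]).natDegree = i
    have hd : (X : ℚ[X]).degree < (X ^ p : ℚ[X]).degree := by
      rw [degree_X, degree_X_pow]
      exact_mod_cast (by omega : 1 < p)
    have h1 : (X ^ p - X : ℚ[X]).Monic := (monic_X_pow p).sub_of_left hd
    have h2 : (X ^ p - X : ℚ[X]).natDegree = p := by
      rw [natDegree_sub_eq_left_of_natDegree_lt, natDegree_X_pow]
      rw [natDegree_X, natDegree_X_pow]
      omega
    refine ⟨(h1.pow _).mul (monic_X_pow _), ?_⟩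
    rw [(h1.pow _).natDegree_mul (monic_X_pow _), h1.natDegree_pow, h2, natDegree_X_pow,
      mul_comm]
    exact Nat.div_add_mod i p
  | u => exact hX
  | w => exact hX
  | f => exact hX
  | g => exact hX

private theorem Yp_deg {p : ℕ} (hp : 1 ≤ p) : (Yp p).natDegree ≤ p := by
  unfold Yp
  refine (natDegree_sub_le _ _).trans ?_
  rw [natDegree_X, natDegree_X_pow]
  omega

private theorem Xmul {i a : ℕ} {Q : ℚ[X]} (h : Q.natDegree ≤ a) :
    (X ^ i * Q : ℚ[X]).natDegree ≤ i + a :=
  natDegree_mul_le_of_le (natDegree_X_pow_le i) h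

private theorem CX (a : ℚ) (i : ℕ) : (C a * X ^ i : ℚ[X]).natDegree ≤ i :=
  (natDegree_C_mul_le _ _).trans (natDegree_X_pow_le i)

theorem Qc_deg {p K L D m1 m2 m3 : ℕ} {A0 A1 : ℚ[X]} {A2 : ℚ} (hp : 11 ≤ p) (hDL : D ≤ L)
    (hLK : L + p ≤ K) (h13 : m1 ≤ m3) (h3K : m3 = 0 ∨ m3 + 2 * p ≤ K) (h1L : m1 = 0 ∨ m1 + p ≤ L)
    (h2 : m2 = 0 ∨ (m2 + p ≤ L ∧ m2 + 4 * p ≤ K)) (hA0 : A0.natDegree ≤ 4 * p)
    (hA1 : A1.natDegree ≤ p) (β : Blk) (i : ℕ) (γ : Blk) (hi : i < len K L D β) :
    Qc p m1 m2 m3 A0 A1 A2 β i γ = 0 ∨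
      (ordB γ < ordB β ∧ (Qc p m1 m2 m3 A0 A1 A2 β i γ).natDegree < len K L D γ) := by
  have hY : (Yp p).natDegree ≤ p := Yp_deg (by omega)
  have hY2 : (Yp p ^ 2).natDegree ≤ 2 * p := by
    refine (natDegree_pow_le).trans ?_
    exact Nat.mul_le_mul_left 2 hY
  cases β with
  | z => exact Or.inl (by cases γ <;> rfl)
  | u =>
    have hi' : i < L := hi
    cases γ with
    | z =>
      refine Or.inr ⟨by decide, ?_⟩
      show (X ^ i * Yp p : ℚ[X]).natDegree < K
      have := Xmul (i := i) hY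
      omega
    | u => exact Or.inl rfl
    | w => exact Or.inl rfl
    | f => exact Or.inl rfl
    | g => exact Or.inl rfl
  | w =>
    have hi' : i < D := hi
    cases γ with
    | z =>
      show (if i < m1 then -(X ^ i * Yp p ^ 2) else if i < m3 then X ^ i * Yp p ^ 2 else 0 : ℚ[X])
        = 0 ∨ (_ ∧ (if i < m1 then -(X ^ i * Yp p ^ 2) else
          if i < m3 then X ^ i * Yp p ^ 2 else 0 : ℚ[X]).natDegree < K)
      have h := Xmul (i := i) hY2
      split_ifs with h1 h3
      · refine Or.inr ⟨by decide, ?_⟩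
        rw [natDegree_neg]
        omega
      · refine Or.inr ⟨by decide, ?_⟩
        omega
      · exact Or.inl rfl
    | u =>
      show (if i < m1 then C 2 * (X ^ i * Yp p) else 0 : ℚ[X])
        = 0 ∨ (_ ∧ (if i < m1 then C 2 * (X ^ i * Yp p) else 0 : ℚ[X]).natDegree < L)
      have h := Xmul (i := i) hY
      split_ifs with h1
      · refine Or.inr ⟨by decide, ?_⟩
        have h4 := natDegree_C_mul_le (2 : ℚ) (X ^ i * Yp p)
        omega
      · exact Or.inl rfl
    | w => exact Or.inl rfl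
    | f => exact Or.inl rfl
    | g => exact Or.inl rfl
  | f =>
    have hi' : i < D := hi
    cases γ with
    | z =>
      show (if i < m2 then X ^ i * A0 else X ^ i * SS (p - 2) : ℚ[X])
        = 0 ∨ (_ ∧ (if i < m2 then X ^ i * A0 else X ^ i * SS (p - 2) : ℚ[X]).natDegree < K)
      refine Or.inr ⟨by decide, ?_⟩
      split_ifs with h1
      · have h := Xmul (i := i) hA0
        omega
      · have h := Xmul (i := i) (SS_natDegree (p - 2))
        omega
    | u =>
      show (if i < m2 then X ^ i * A1 else 0 : ℚ[X])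
        = 0 ∨ (_ ∧ (if i < m2 then X ^ i * A1 else 0 : ℚ[X]).natDegree < L)
      split_ifs with h1
      · refine Or.inr ⟨by decide, ?_⟩
        have h := Xmul (i := i) hA1
        omega
      · exact Or.inl rfl
    | w =>
      show (if i < m2 then C A2 * X ^ i else -(C ((SS (p - 2)).coeff 2) * X ^ i) : ℚ[X])
        = 0 ∨ (_ ∧ (if i < m2 then C A2 * X ^ i else
          -(C ((SS (p - 2)).coeff 2) * X ^ i) : ℚ[X]).natDegree < D)
      refine Or.inr ⟨by decide, ?_⟩
      split_ifs with h1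
      · have h := CX A2 i
        omega
      · rw [natDegree_neg]
        have h := CX ((SS (p - 2)).coeff 2) i
        omega
    | f => exact Or.inl rfl
    | g =>
      show (if i < m2 then X ^ i * Yp p else 0 : ℚ[X])
        = 0 ∨ (_ ∧ (if i < m2 then X ^ i * Yp p else 0 : ℚ[X]).natDegree < L)
      split_ifs with h1
      · refine Or.inr ⟨by decide, ?_⟩
        have h := Xmul (i := i) hY
        omega
      · exact Or.inl rfl
  | g =>
    have hi' : i < L := hi
    cases γ with
    | z =>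
      refine Or.inr ⟨by decide, ?_⟩
      show (X ^ i * SS (p - 3) : ℚ[X]).natDegree < K
      have := Xmul (i := i) (SS_natDegree (p - 3))
      omega
    | u =>
      refine Or.inr ⟨by decide, ?_⟩
      show (-(C ((SS (p - 3)).coeff 1) * X ^ i) : ℚ[X]).natDegree < L
      rw [natDegree_neg]
      have := CX ((SS (p - 3)).coeff 1) i
      omega
    | w => exact Or.inl rfl
    | f => exact Or.inl rfl
    | g => exact Or.inl rfl

end MP_a3a416_nt.SJ5
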