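import Pool.Agent.Lib.MP_a3a416_nt.SJ5.Defs2

/-! # SJ5-PolRow: the polar parts after the row operation
PROOF. `rescale p (pi2 p s) = p⁻¹ / (1 + s v)^2`: i.e. `(1+sv)^2 * rescale p (pi2 p s) = C p⁻¹` (coefficients `p⁻¹ (-s)^j (j+1)`; multiply twice by `1 + s v`), hence
`RS p s (pi2 p s) = C p⁻¹ * (1 + C s X)`; `(1+sv)^3 * rescale p (pi3 p s) = C (s p⁻¹ p⁻¹)` (coefficients `s p⁻² (-s)^j (j+1)(j+2)/2`).
`RV_pi2`: coefficient 0 has `v ≥ -1 ≥ -2`, coefficient 1 `v ≥ -1`, the others are 0.  `RV_pi3`: coefficient 0 has `v ≥ -2`, the others 0.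
`RV_pi23`: `RS (pi2 - Y pi3) = p⁻¹ (1 + s X) - s p⁻² rescale p (tp (Yp p) n)`, `tp (Yp p) n = C n + X - tp (X^p) n`, coefficients (`coeff_tp_X_pow`):
 k=0: `p⁻¹ - s p⁻² (n - n^p)`, `v ≥ -1` (`p ∣ n - n^p`); k=1: `s p⁻¹ - s p⁻² p (1 - p n^(p-1)) = s n^(p-1)`, `v ≥ 0`;
 2 ≤ k < 5: `s p⁻² p^k C(p,k) n^(p-k)`, `v ≥ k - 1` (`p ∣ C(p,k)`, `0 < k < p`).  (`p ≥ 5`.) -/

set_option autoImplicit false

open Polynomial

namespace MP_a3a416_nt.SJ5

open MP_a3a416_nt.SJ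

private theorem PolRow_aux (s : ℚ) (f : ℕ → ℚ) (k : ℕ) :
    PowerSeries.coeff (k + 1) ((1 + PowerSeries.C s * PowerSeries.X) * PowerSeries.mk f)
      = f (k + 1) + s * f k := by
  have h : (1 + PowerSeries.C s * PowerSeries.X) * PowerSeries.mk f
      = PowerSeries.mk f + PowerSeries.C s * (PowerSeries.X * PowerSeries.mk f) := by ring
  rw [h, map_add, PowerSeries.coeff_mk, PowerSeries.coeff_C_mul, PowerSeries.coeff_succ_X_mul,
    PowerSeries.coeff_mk]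

private theorem PolRow_aux0 (s : ℚ) (f : ℕ → ℚ) :
    PowerSeries.coeff 0 ((1 + PowerSeries.C s * PowerSeries.X) * PowerSeries.mk f) = f 0 := by
  have h : (1 + PowerSeries.C s * PowerSeries.X) * PowerSeries.mk f
      = PowerSeries.mk f + PowerSeries.C s * (PowerSeries.X * PowerSeries.mk f) := by ring
  rw [h, map_add, PowerSeries.coeff_mk, PowerSeries.coeff_C_mul, PowerSeries.coeff_zero_X_mul,
    mul_zero, add_zero]

private theorem PolRow_g1 (s : ℚ) : (1 + PowerSeries.C s * PowerSeries.X) *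
    PowerSeries.mk (fun j => (-s) ^ j) = (1 : PowerSeries ℚ) := by
  ext k
  cases k with
  | zero => rw [PolRow_aux0]; simp
  | succ k =>
    rw [PolRow_aux, PowerSeries.coeff_one, if_neg (Nat.succ_ne_zero k)]
    ring

private theorem PolRow_g2 (s : ℚ) : (1 + PowerSeries.C s * PowerSeries.X) *
    PowerSeries.mk (fun j => (-s) ^ j * ((j : ℚ) + 1)) = PowerSeries.mk (fun j => (-s) ^ j) := by
  ext k
  cases k with
  | zero => rw [PolRow_aux0]; simp
  | succ k =>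
    rw [PolRow_aux, PowerSeries.coeff_mk]
    push_cast
    ring

private theorem PolRow_g3 (s : ℚ) : (1 + PowerSeries.C s * PowerSeries.X) *
    PowerSeries.mk (fun j => (-s) ^ j * (((j : ℚ) + 1) * ((j : ℚ) + 2) / 2))
      = PowerSeries.mk (fun j => (-s) ^ j * ((j : ℚ) + 1)) := by
  ext k
  cases k with
  | zero => rw [PolRow_aux0]; simp
  | succ k =>
    rw [PolRow_aux, PowerSeries.coeff_mk]
    push_cast
    ring

theorem RS_pi2 {p : ℕ} (hp : p ≠ 0) (s : ℚ) :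
    RS p s (pi2 p s) = PowerSeries.C ((p : ℚ)⁻¹) * (1 + PowerSeries.C s * PowerSeries.X) := by
  have hp' : (p : ℚ) ≠ 0 := by exact_mod_cast hp
  have h : PowerSeries.rescale (p : ℚ) (pi2 p s)
      = PowerSeries.C ((p : ℚ)⁻¹) * PowerSeries.mk (fun j => (-s) ^ j * ((j : ℚ) + 1)) := by
    ext k
    rw [PowerSeries.coeff_rescale, pi2, PowerSeries.coeff_mk, PowerSeries.coeff_C_mul,
      PowerSeries.coeff_mk, pow_add, pow_one, inv_pow]
    have h1 : (p : ℚ) ^ k * ((p : ℚ) ^ k)⁻¹ = 1 := mul_inv_cancel₀ (pow_ne_zero k hp')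
    linear_combination ((-s) ^ k * ((k : ℚ) + 1) * (p : ℚ)⁻¹) * h1
  rw [RS, h]
  calc _ = PowerSeries.C ((p : ℚ)⁻¹) * (1 + PowerSeries.C s * PowerSeries.X) *
        ((1 + PowerSeries.C s * PowerSeries.X) * ((1 + PowerSeries.C s * PowerSeries.X) *
          PowerSeries.mk (fun j => (-s) ^ j * ((j : ℚ) + 1)))) := by ring
    _ = _ := by rw [PolRow_g2, PolRow_g1, mul_one]

theorem RS_pi3 {p : ℕ} (hp : p ≠ 0) (s : ℚ) :
    RS p s (pi3 p s) = PowerSeries.C (s * (p : ℚ)⁻¹ ^ 2) := by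
  have hp' : (p : ℚ) ≠ 0 := by exact_mod_cast hp
  have h : PowerSeries.rescale (p : ℚ) (pi3 p s)
      = PowerSeries.C (s * (p : ℚ)⁻¹ ^ 2) *
        PowerSeries.mk (fun j => (-s) ^ j * (((j : ℚ) + 1) * ((j : ℚ) + 2) / 2)) := by
    ext k
    rw [PowerSeries.coeff_rescale, pi3, PowerSeries.coeff_mk, PowerSeries.coeff_C_mul,
      PowerSeries.coeff_mk, pow_add, inv_pow (p : ℚ) k]
    have h1 : (p : ℚ) ^ k * ((p : ℚ) ^ k)⁻¹ = 1 := mul_inv_cancel₀ (pow_ne_zero k hp')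
    linear_combination (s * (-s) ^ k * (((k : ℚ) + 1) * ((k : ℚ) + 2) / 2) * (p : ℚ)⁻¹ ^ 2) * h1
  rw [RS, h]
  calc _ = PowerSeries.C (s * (p : ℚ)⁻¹ ^ 2) * ((1 + PowerSeries.C s * PowerSeries.X) *
        ((1 + PowerSeries.C s * PowerSeries.X) * ((1 + PowerSeries.C s * PowerSeries.X) *
          PowerSeries.mk (fun j => (-s) ^ j * (((j : ℚ) + 1) * ((j : ℚ) + 2) / 2))))) := by ring
    _ = _ := by rw [PolRow_g3, PolRow_g2, PolRow_g1, mul_one]

private theorem PolRow_coeff (x s : ℚ) (k : ℕ) :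
    PowerSeries.coeff k (PowerSeries.C x * (1 + PowerSeries.C s * PowerSeries.X))
      = if k = 0 then x else if k = 1 then x * s else 0 := by
  rw [PowerSeries.coeff_C_mul, map_add, PowerSeries.coeff_one, PowerSeries.coeff_C_mul,
    PowerSeries.coeff_X]
  by_cases h0 : k = 0
  · subst h0; simp
  · by_cases h1 : k = 1
    · subst h1; simp
    · simp [h0, h1]

variable {p : ℕ} [hp : Fact p.Prime]

private theorem PolRow_val_inv : val p ((p : ℚ)⁻¹) (-1) := by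
  have := val.p_zpow (p := p) (-1)
  rwa [zpow_neg_one] at this

theorem RV_pi2 {s : ℚ} (hs : val p s 0) : RV p s 1 (pi2 p s) := by
  intro k hk
  rw [RS_pi2 hp.out.ne_zero, PolRow_coeff]
  by_cases h0 : k = 0
  · rw [if_pos h0, h0]
    exact PolRow_val_inv.mono (by norm_num)
  · rw [if_neg h0]
    by_cases h1 : k = 1
    · rw [if_pos h1, h1]
      exact (PolRow_val_inv.mul hs).mono (by norm_num)
    · rw [if_neg h1]
      exact val.zero _

theorem RV_pi3 {s : ℚ} (hs : val p s 0) : RV p s 1 (pi3 p s) := by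
  intro k hk
  rw [RS_pi3 hp.out.ne_zero, PowerSeries.coeff_C]
  by_cases h0 : k = 0
  · rw [if_pos h0, h0]
    exact (hs.mul (PolRow_val_inv.pow 2)).mono (by norm_num)
  · rw [if_neg h0]
    exact val.zero _

omit hp in
private theorem PolRow_RS_sub (s : ℚ) (f g : PowerSeries ℚ) :
    RS p s (f - g) = RS p s f - RS p s g := by
  simp only [RS, map_sub, mul_sub]

omit hp in
private theorem PolRow_RS_mul (s : ℚ) (f g : PowerSeries ℚ) :
    RS p s (f * g) = PowerSeries.rescale (p : ℚ) f * RS p s g := by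
  simp only [RS, map_mul]
  ring

theorem RV_pi23 (hp5 : 5 ≤ p) {s : ℚ} (hs : val p s 0) (n : ℤ) :
    RV p s 2 (pi2 p s - tp (Yp p) n * pi3 p s) := by
  have hpp := hp.out
  have hp0 : (p : ℚ) ≠ 0 := by exact_mod_cast hpp.ne_zero
  intro k hk
  rw [PolRow_RS_sub, PolRow_RS_mul, RS_pi2 hpp.ne_zero, RS_pi3 hpp.ne_zero, map_sub, PolRow_coeff,
    mul_comm (PowerSeries.rescale (p : ℚ) _), PowerSeries.coeff_C_mul, PowerSeries.coeff_rescale, Yp, tp_sub, tp_X, map_sub,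
    map_add, coeff_tp_X_pow, PowerSeries.coeff_C, PowerSeries.coeff_X]
  rcases Nat.lt_or_ge k 2 with h2 | h2
  · interval_cases k
    · -- k = 0
      have hd : (p : ℤ) ^ 1 ∣ n - n ^ p := by
        rw [pow_one]
        have h3 : (p : ℤ) ∣ n ^ p - n := by
          rw [← ZMod.intCast_zmod_eq_zero_iff_dvd]
          push_cast
          rw [ZMod.pow_card, sub_self]
        rw [← neg_sub]
        exact h3.neg_right
      have hv := val.of_dvd hd
      have e : (if (0 : ℕ) = 0 then (p : ℚ)⁻¹ else if (0 : ℕ) = 1 then (p : ℚ)⁻¹ * s else 0) -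
          s * (p : ℚ)⁻¹ ^ 2 * ((p : ℚ) ^ 0 * ((if (0 : ℕ) = 0 then (n : ℚ) else 0) +
            (if (0 : ℕ) = 1 then 1 else 0) - (n : ℚ) ^ (p - 0) * (p.choose 0 : ℚ)))
          = (p : ℚ)⁻¹ - s * (p : ℚ)⁻¹ ^ 2 * ((n - n ^ p : ℤ) : ℚ) := by
        simp
      rw [e]
      refine (PolRow_val_inv.mono (by norm_num)).sub ?_
      refine ((hs.mul (PolRow_val_inv.pow 2)).mul hv).mono (by norm_num)
    · -- k = 1
      have e : (if (1 : ℕ) = 0 then (p : ℚ)⁻¹ else if (1 : ℕ) = 1 then (p : ℚ)⁻¹ * s else 0) -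
          s * (p : ℚ)⁻¹ ^ 2 * ((p : ℚ) ^ 1 * ((if (1 : ℕ) = 0 then (n : ℚ) else 0) +
            (if (1 : ℕ) = 1 then 1 else 0) - (n : ℚ) ^ (p - 1) * (p.choose 1 : ℚ)))
          = s * ((n ^ (p - 1) : ℤ) : ℚ) := by
        simp
        field_simp
        ring
      rw [e]
      exact (hs.mul (val.int _)).mono (by norm_num)
  · have hk0 : k ≠ 0 := by omega
    have hk1 : k ≠ 1 := by omega
    have hd : (p : ℤ) ^ 1 ∣ ((p.choose k : ℕ) : ℤ) := by
      rw [pow_one]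
      exact_mod_cast hpp.dvd_choose_self hk0 (by omega)
    have hv := val.of_dvd hd
    rw [if_neg hk0, if_neg hk1, if_neg hk0, if_neg hk1]
    have e : (0 : ℚ) - s * (p : ℚ)⁻¹ ^ 2 * ((p : ℚ) ^ k * (0 + 0 - (n : ℚ) ^ (p - k) *
        (p.choose k : ℚ))) = s * (p : ℚ)⁻¹ ^ 2 * (p : ℚ) ^ (k : ℤ) * ((n ^ (p - k) : ℤ) : ℚ) *
          (((p.choose k : ℕ) : ℤ) : ℚ) := by
      push_cast
      rw [zpow_natCast]
      ring
    rw [e]
    refine ((((hs.mul (PolRow_val_inv.pow 2)).mul (val.p_zpow (k : ℤ))).mul (val.int _)).mul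
      hv).mono ?_
    push_cast
    linarith

end MP_a3a416_nt.SJ5
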