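import Pool.Agent.Lib.MP_a3a416_nt.SJ5.Defs2

/-! # SJ5-Polar: the polar parts of the local functions for `|n| < 2p`
PROOF. Adapt `SJ/MidPol.lean` (no parity here). For `-2p ≤ n < 2p`: `hh r n - hr p r n` is the sum over the multiples of `p`: `(1/p)^r` for `p ≤ n`, `-((-p)⁻¹)^r` for `n < -p`, `0` otherwise.
Coefficient of `u^j`: `n ≥ p`: `(-1)^j (j+1) p^(-1-j)`; `n < -p`: `-(-1)^j (j+1) (-p)^(-1-j) = (j+1) p^(-1-j)`: this is `pi2 p (sg n)`; the same for `f_3`:
`n < -p`: `-(-1)^j ((j+1)(j+2)/2) (-p)^(-2-j) = -((j+1)(j+2)/2) p^(-2-j)`, which is `pi3 p (-1)`. -/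

set_option autoImplicit false

open Polynomial

namespace MP_a3a416_nt.SJ5

open MP_a3a416_nt.SJ

private theorem hh_sub_hr {p : ℕ} (hp : 0 < p) (n : ℤ) (h1 : -(2 * (p : ℤ)) ≤ n)
    (h2 : n < 2 * p) (r : ℕ) :
    hh r n = hr p r n +
      if InO p n then (if 0 ≤ n then ((p : ℚ)⁻¹) ^ r else -((-(p : ℚ))⁻¹) ^ r) else 0 := by
  have hp0 : 0 < (p : ℤ) := by exact_mod_cast hp
  have hdiv : ∀ b : ℤ, -(2 * p : ℤ) < b → b < 2 * p → b ≠ 0 → (p : ℤ) ∣ b →
      (b = p ∨ b = -p) := by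
    rintro b hb1 hb2 hb0 ⟨q, rfl⟩
    have hq1 : -2 < q := by
      by_contra h
      push Not at h
      nlinarith
    have hq2 : q < 2 := by
      by_contra h
      push Not at h
      nlinarith
    have hq0 : q ≠ 0 := by
      rintro rfl
      simp at hb0
    have : q = 1 ∨ q = -1 := by omega
    rcases this with h | h
    · left; rw [h]; ring
    · right; rw [h]; ring
  have hsplit : ∀ s : Finset ℤ,
      ∑ b ∈ s, ((b : ℚ)⁻¹) ^ r =
      ∑ b ∈ s.filter (fun b => ¬ (p : ℤ) ∣ b), ((b : ℚ)⁻¹) ^ r +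
      ∑ b ∈ s.filter (fun b => (p : ℤ) ∣ b), ((b : ℚ)⁻¹) ^ r := by
    intro s
    rw [← Finset.sum_filter_add_sum_filter_not s (fun b => ¬ (p : ℤ) ∣ b)]
    simp only [not_not]
  unfold hh hr
  rw [hsplit (Finset.Ioc 0 n), hsplit (Finset.Ioo n 0)]
  by_cases hO : InO p n
  · rw [if_pos hO]
    rcases hO with h | h
    · have e1 : (Finset.Ioc 0 n).filter (fun b => (p : ℤ) ∣ b) = {(p : ℤ)} := by
        ext b
        simp only [Finset.mem_filter, Finset.mem_Ioc, Finset.mem_singleton]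
        constructor
        · rintro ⟨⟨a1, a2⟩, a4⟩
          rcases hdiv b (by omega) (by omega) (by omega) a4 with h' | h' <;> omega
        · rintro rfl
          exact ⟨⟨hp0, h⟩, dvd_rfl⟩
      have e2 : (Finset.Ioo n 0).filter (fun b => (p : ℤ) ∣ b) = ∅ := by
        ext b
        simp only [Finset.mem_filter, Finset.mem_Ioo, Finset.notMem_empty, iff_false]
        rintro ⟨⟨a1, a2⟩, a4⟩
        omega
      rw [e1, e2, if_pos (by omega), Finset.sum_singleton, Finset.sum_empty]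
      push_cast
      ring
    · have e1 : (Finset.Ioc 0 n).filter (fun b => (p : ℤ) ∣ b) = ∅ := by
        ext b
        simp only [Finset.mem_filter, Finset.mem_Ioc, Finset.notMem_empty, iff_false]
        rintro ⟨⟨a1, a2⟩, a4⟩
        omega
      have e2 : (Finset.Ioo n 0).filter (fun b => (p : ℤ) ∣ b) = {-(p : ℤ)} := by
        ext b
        simp only [Finset.mem_filter, Finset.mem_Ioo, Finset.mem_singleton]
        constructor
        · rintro ⟨⟨a1, a2⟩, a4⟩
          rcases hdiv b (by omega) (by omega) (by omega) a4 with h' | h' <;> omega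
        · rintro rfl
          exact ⟨⟨h, by omega⟩, by simp⟩
      rw [e1, e2, if_neg (by omega), Finset.sum_empty, Finset.sum_singleton]
      push_cast
      ring
  · rw [if_neg hO]
    have e1 : (Finset.Ioc 0 n).filter (fun b => (p : ℤ) ∣ b) = ∅ := by
      ext b
      simp only [Finset.mem_filter, Finset.mem_Ioc, Finset.notMem_empty, iff_false]
      rintro ⟨⟨a1, a2⟩, a4⟩
      apply hO
      rcases hdiv b (by omega) (by omega) (by omega) a4 with h' | h'
      · exact Or.inl (by omega)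
      · omega
    have e2 : (Finset.Ioo n 0).filter (fun b => (p : ℤ) ∣ b) = ∅ := by
      ext b
      simp only [Finset.mem_filter, Finset.mem_Ioo, Finset.notMem_empty, iff_false]
      rintro ⟨⟨a1, a2⟩, a4⟩
      apply hO
      rcases hdiv b (by omega) (by omega) (by omega) a4 with h' | h'
      · omega
      · exact Or.inr (by omega)
    rw [e1, e2, Finset.sum_empty]
    ring

private theorem neg_one_sq_pow (j : ℕ) : ((-1 : ℚ)) ^ j * (-1) ^ j = 1 := by
  rw [← mul_pow]
  norm_num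

theorem gser_f_eq (c : ℚ) {p : ℕ} (hp : 0 < p) (n : ℤ) (h1 : -(2 * (p : ℤ)) ≤ n)
    (h2 : n < 2 * p) :
    gser c .f n = FR2 c p n + (if InO p n then pi2 p (sg n) else 0) := by
  ext j
  rw [map_add]
  simp only [gser, FR2, PowerSeries.coeff_mk, c2]
  rw [hh_sub_hr hp n h1 h2 (1 + j)]
  by_cases hO : InO p n
  · rw [if_pos hO, if_pos hO]
    simp only [pi2, PowerSeries.coeff_mk, sg]
    by_cases hn : 0 ≤ n
    · rw [if_pos hn, if_pos hn]
      ring
    · rw [if_neg hn, if_neg hn, neg_neg, one_pow, inv_neg, neg_pow, pow_add]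
      linear_combination (((j : ℚ) + 1) * (p : ℚ)⁻¹ ^ (1 + j)) * neg_one_sq_pow j
  · rw [if_neg hO, if_neg hO, map_zero]
    ring

theorem gser_g_eq (c : ℚ) {p : ℕ} (hp : 0 < p) (n : ℤ) (h1 : -(2 * (p : ℤ)) ≤ n)
    (h2 : n < 2 * p) :
    gser c .g n = FR3 c p n + (if InO p n then pi3 p (sg n) else 0) := by
  ext j
  rw [map_add]
  simp only [gser, FR3, PowerSeries.coeff_mk, c3]
  rw [hh_sub_hr hp n h1 h2 (2 + j)]
  by_cases hO : InO p n
  · rw [if_pos hO, if_pos hO]
    simp only [pi3, PowerSeries.coeff_mk, sg]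
    by_cases hn : 0 ≤ n
    · rw [if_pos hn, if_pos hn]
      ring
    · rw [if_neg hn, if_neg hn, neg_neg, one_pow, inv_neg, neg_pow, pow_add]
      linear_combination (-(((j : ℚ) + 1) * ((j : ℚ) + 2) / 2 * (p : ℚ)⁻¹ ^ (2 + j))) *
        neg_one_sq_pow j
  · rw [if_neg hO, if_neg hO, map_zero]
    ring

end MP_a3a416_nt.SJ5
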