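import Pool.Agent.Lib.MP_a3a416_nt.SJ5.Defs2

/-! # SJ5-RVCalc: calculus of the local condition `LC`
PROOF. `RS p s` is additive; `RS p s (f * g) = rescale p f * RS p s g` (`PowerSeries.rescale` is a ring homomorphism), `coeff k (rescale p f) = p^k coeff k f`
(`PowerSeries.coeff_rescale`).  `(1 + s v)^3` has `p`-integral coefficients `C(3,i) s^i`, zero for `i > 3`.
`RV_of_VS`: `coeff k (RS f) = ∑_{i ≤ 3} C(3,i) s^i p^(k-i) coeff (k-i) f`, so `v ≥ (k-3)^+ + b ≥ k - 3 + b`.
`RV_mul`: `coeff k = ∑_{i+j=k} (p^i coeff i f) * coeff j (RS g)`, `v ≥ i + (j - 3 + b)`. -/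

set_option autoImplicit false

open Polynomial

namespace MP_a3a416_nt.SJ5

open MP_a3a416_nt.SJ

variable {p : ℕ} [hp : Fact p.Prime] {s : ℚ} {a b : ℤ} {f g : PowerSeries ℚ} {n : ℤ}

theorem val_sg (n : ℤ) : val p (sg n) 0 := by
  unfold sg
  split_ifs
  · exact val.one
  · exact val.one.neg

theorem sg_mul_self (n : ℤ) : sg n * sg n = 1 := by
  unfold sg
  split_ifs <;> norm_num

theorem RS_add (f g : PowerSeries ℚ) : RS p s (f + g) = RS p s f + RS p s g := by
  unfold RS; rw [map_add, mul_add]

theorem RS_mul (f g : PowerSeries ℚ) :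
    RS p s (f * g) = PowerSeries.rescale (p : ℚ) f * RS p s g := by
  unfold RS; rw [map_mul]; ring

/-- the coefficients of `(1 + s v)^3` -/
private theorem coeff_cube (s : ℚ) (i : ℕ) :
    PowerSeries.coeff i ((1 + PowerSeries.C s * PowerSeries.X : PowerSeries ℚ) ^ 3) =
      if i = 0 then 1 else if i = 1 then 3 * s else if i = 2 then 3 * s ^ 2 else
        if i = 3 then s ^ 3 else 0 := by
  have h1 : (1 + PowerSeries.C s * PowerSeries.X : PowerSeries ℚ) ^ 3 =
      1 + PowerSeries.C (3 * s) * PowerSeries.X + PowerSeries.C (3 * s ^ 2) * PowerSeries.X ^ 2 +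
        PowerSeries.C (s ^ 3) * PowerSeries.X ^ 3 := by
    simp only [map_mul, map_pow]
    have h3 : (PowerSeries.C (3 : ℚ) : PowerSeries ℚ) = 3 := map_ofNat _ 3
    rw [h3]
    ring
  rw [h1]
  simp only [map_add, PowerSeries.coeff_C_mul, PowerSeries.coeff_one, PowerSeries.coeff_X,
    PowerSeries.coeff_X_pow]
  by_cases h0 : i = 0
  · subst h0
    norm_num
  · by_cases h1 : i = 1
    · subst h1
      norm_num
    · by_cases h2 : i = 2
      · subst h2
        norm_num
      · by_cases h3 : i = 3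
        · subst h3
          norm_num
        · simp [h0, h1, h2, h3]

private theorem val_cube (hs : val p s 0) (i : ℕ) :
    val p (PowerSeries.coeff i ((1 + PowerSeries.C s * PowerSeries.X : PowerSeries ℚ) ^ 3)) 0 := by
  rw [coeff_cube]
  split_ifs
  · exact val.one
  · have := hs.int_mul 3
    exact_mod_cast this
  · have h1 := (hs.pow 2).int_mul 3
    have h2 : ((3 : ℤ) : ℚ) = 3 := by norm_num
    rw [h2] at h1
    exact h1.mono (by simp)
  · exact (hs.pow 3).mono (by simp)
  · exact val.zero _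

private theorem coeff_cube_zero (s : ℚ) (i : ℕ) (hi : 3 < i) :
    PowerSeries.coeff i ((1 + PowerSeries.C s * PowerSeries.X : PowerSeries ℚ) ^ 3) = 0 := by
  rw [coeff_cube, if_neg (by omega), if_neg (by omega), if_neg (by omega), if_neg (by omega)]

theorem RV_of_VS (hs : val p s 0) (h : VS p b f) : RV p s b f := by
  intro k hk
  unfold RS
  rw [PowerSeries.coeff_mul]
  apply val.sum
  intro x hx
  rw [Finset.HasAntidiagonal.mem_antidiagonal] at hx
  rcases Nat.lt_or_ge 3 x.1 with h3 | h3
  · rw [coeff_cube_zero s x.1 h3, zero_mul]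
    exact val.zero _
  · rw [PowerSeries.coeff_rescale]
    have h1 := (val.p_zpow (p := p) (x.2 : ℤ)).mul (h x.2 (by omega))
    rw [zpow_natCast] at h1
    refine ((val_cube hs x.1).mul h1).mono ?_
    omega

theorem RV_mul (hf : ∀ k < 5, val p (PowerSeries.coeff k f) 0) (hg : RV p s b g) :
    RV p s b (f * g) := by
  intro k hk
  rw [RS_mul, PowerSeries.coeff_mul]
  apply val.sum
  intro x hx
  rw [Finset.HasAntidiagonal.mem_antidiagonal] at hx
  rw [PowerSeries.coeff_rescale]
  have h1 := (val.p_zpow (p := p) (x.1 : ℤ)).mul (hf x.1 (by omega))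
  rw [zpow_natCast] at h1
  refine (h1.mul (hg x.2 (by omega))).mono ?_
  omega

theorem LC.mono (h : LC p n a f) (hab : b ≤ a) : LC p n b f := by
  unfold LC at h ⊢
  split_ifs at h ⊢ with hI
  · intro k hk
    exact (h k hk).mono (by linarith)
  · exact VS.mono h hab

theorem LC.add (hf : LC p n a f) (hg : LC p n a g) : LC p n a (f + g) := by
  unfold LC at hf hg ⊢
  split_ifs at hf hg ⊢ with hI
  · intro k hk
    rw [RS_add, map_add]
    exact (hf k hk).add (hg k hk)
  · exact VS.add hf hg

theorem LC.neg (hf : LC p n a f) : LC p n a (-f) := by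
  unfold LC at hf ⊢
  split_ifs at hf ⊢ with hI
  · intro k hk
    have h1 : RS p (sg n) (-f) = -RS p (sg n) f := by
      unfold RS
      rw [map_neg, mul_neg]
    rw [h1, map_neg]
    exact (hf k hk).neg
  · exact VS.neg hf

theorem LC.sub (hf : LC p n a f) (hg : LC p n a g) : LC p n a (f - g) := by
  rw [sub_eq_add_neg]; exact hf.add hg.neg

/-- a column without polar part -/
theorem LC.of_VS (h : VS p a f) : LC p n a f := by
  unfold LC
  split_ifs with hI
  · exact RV_of_VS (val_sg n) h
  · exact h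

theorem LC.mul_tp (i : ℕ) (m : ℤ) (h : LC p n a f) : LC p n a (tp (X ^ i) m * f) := by
  unfold LC at h ⊢
  split_ifs at h ⊢ with hI
  · exact RV_mul (fun k _ => val_coeff_tp_X_pow i m k) h
  · exact VS.mul_left (VS_tp_X_pow i m) h

/-- a column with a polar part -/
theorem LC.of_polar (π : PowerSeries ℚ) (h : VS p a f) (hπ : RV p (sg n) a π) :
    LC p n a (f + (if InO p n then π else 0)) := by
  unfold LC
  split_ifs with hI
  · intro k hk
    rw [RS_add, map_add]
    exact (RV_of_VS (val_sg n) h k hk).add (hπ k hk)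
  · rw [add_zero]
    exact h

end MP_a3a416_nt.SJ5
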