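import Pool.Agent.Lib.MP_a3a416_nt.SJ5.RegStep
import Pool.Agent.Lib.MP_a3a416_nt.SJ5.Faul

/-! # SJ5-RelOne: the relations modulo `p` (R1)
PROOF. Write `x = tp X n`, `u = PowerSeries.X`.  Let `T(n) = FR2 c p n - tp (SS (p-2)) n`.  Step: `T(n) - T(n-1)` has `VS p 1` for every `n`:
* `p ∣ n`: it is `-x^(p-2)` (`FR2_step_dvd`, `SS_step`), `VS_tp_pow_of_dvd`;
* `p ∤ n`: with `g x = 1`, `g` integral (`VS_inv`): `FR2 n - FR2 (n-1) = n g^2` and `n g^2 - x^(p-2) = g^2 (n - x^p)`, `VS_z`.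
Induction on `n : ℤ` in both directions (`Int.induction_on`) gives `VS p 1 (T(n) - T(0))`.  `T(0) = -c u^4 - SS (p-2)(u)` (`FR2_zero`; `tp P 0 = P`).
Coefficients of `T(0) + C((SS (p-2)).coeff 2) u^2`: `k = 0`: `SS_coeff_zero`; `k = 1`, `3`: `B_{p-2} = 0`, `B_{p-4} = 0` (odd index `> 1`: `bernoulli_eq_zero_of_odd`/`bernoulli'_odd_eq_zero`, `bernoulli_eq_bernoulli'_of_ne_one`);
`k = 2`: 0; `k = 4`: `-c - (p-1).choose 4 * B_{p-5}/(p-1)`; `B_{p-5} ≡ c` (flatness: `v(B_{p-5} - c) ≥ 1` because `p` divides its numerator, `p ∤ c.den`) and `(p-1).choose 4/(p-1) = (p-2)(p-3)(p-4)/24 ≡ -1`: so `≡ -c + c = 0`.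
(here `c`, `B_{p-5}` are `p`-integral.)  The same for `FR3`: `n g^3 - x^(p-3) = g^3 (n - x^p)`, `T3(0) = 2 c u^3 - SS (p-3)(u)`; coefficients of `T3(0) + C((SS (p-3)).coeff 1) u`:
`k = 0`: 0, `k = 1`: 0, `k = 2`: `B_{p-4} = 0`, `k = 3`: `2c - (p-2).choose 3 B_{p-5}/(p-2)`, `(p-2).choose 3/(p-2) = (p-3)(p-4)/6 ≡ 2`: `≡ 0`; `k = 4`: `B_{p-6} = 0`. -/

set_option autoImplicit false

open Polynomial

namespace MP_a3a416_nt.SJ5

open MP_a3a416_nt.SJ

private theorem ro_flat_val {c : ℚ} {p : ℕ} (hp : p.Prime) (hpc : ¬ p ∣ c.den) (hf : Flat c p) :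
    val p (_root_.bernoulli (p - 5) - c) 1 ∧ val p c 0 ∧ val p (_root_.bernoulli (p - 5)) 0 := by
  haveI : Fact p.Prime := ⟨hp⟩
  have h1 : val p (_root_.bernoulli (p - 5) - c) 1 := by
    set q := _root_.bernoulli (p - 5) - c with hq
    have hqf : (p : ℤ) ∣ q.num := hf
    by_cases h0 : q = 0
    · exact Or.inl h0
    · have hden : ¬ (p : ℤ) ∣ (q.den : ℤ) := by
        intro h
        have h2 : p ∣ q.num.natAbs := Int.natCast_dvd.mp hqf
        have h3 : p ∣ q.den := by exact_mod_cast h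
        have h4 := Nat.dvd_gcd h2 h3
        rw [q.reduced] at h4
        exact hp.one_lt.ne' (Nat.dvd_one.mp h4)
      have h5 : q = (q.num : ℚ) * (((q.den : ℤ) : ℚ))⁻¹ := by
        conv_lhs => rw [← Rat.num_div_den q]
        rw [div_eq_mul_inv]
        push_cast
        rfl
      rw [h5]
      have h6 : val p (q.num : ℚ) ((1 : ℕ) : ℤ) := val.of_dvd (by rw [pow_one]; exact hqf)
      have h7 := h6.mul (val.inv_of_not_dvd hden)
      simpa using h7
  have h2 : val p c 0 := by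
    have hden : ¬ (p : ℤ) ∣ (c.den : ℤ) := by
      intro h
      exact hpc (by exact_mod_cast h)
    have h5 : c = (c.num : ℚ) * (((c.den : ℤ) : ℚ))⁻¹ := by
      conv_lhs => rw [← Rat.num_div_den c]
      rw [div_eq_mul_inv]
      push_cast
      rfl
    rw [h5]
    have h7 := (val.int (p := p) c.num).mul (val.inv_of_not_dvd hden)
    simpa using h7
  refine ⟨h1, h2, ?_⟩
  have h3 : _root_.bernoulli (p - 5) = (_root_.bernoulli (p - 5) - c) + c := by ring
  rw [h3]
  exact (h1.mono (by norm_num)).add h2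

private theorem ro_tp_zero (P : ℚ[X]) (k : ℕ) : PowerSeries.coeff k (tp P 0) = P.coeff k := by
  rw [coeff_tp]
  simp [taylor_apply]

private theorem ro_ind {p : ℕ} (hp : p.Prime) (T : ℤ → PowerSeries ℚ) (h0 : VS p 1 (T 0))
    (hs : ∀ n, VS p 1 (T n - T (n - 1))) (n : ℤ) : VS p 1 (T n) := by
  haveI : Fact p.Prime := ⟨hp⟩
  induction n using Int.induction_on with
  | zero => exact h0
  | succ i ih =>
    have h1 := hs ((i : ℤ) + 1)
    rw [add_sub_cancel_right] at h1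
    have h2 := ih.add h1
    rwa [add_sub_cancel] at h2
  | pred i ih =>
    have h1 := hs (-(i : ℤ))
    have h2 := ih.sub h1
    rwa [sub_sub_cancel] at h2

private theorem ro_stepf (c : ℚ) {p : ℕ} (hp : p.Prime) (hp11 : 11 ≤ p) (n : ℤ) :
    VS p 1 (FR2 c p n - FR2 c p (n - 1) - tp (X ^ (p - 2)) n) := by
  haveI : Fact p.Prime := ⟨hp⟩
  by_cases h : (p : ℤ) ∣ n
  · rw [FR2_step_dvd c h, sub_self, zero_sub]
    exact ((VS_tp_pow_of_dvd (by omega) h).mono (by norm_num)).neg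
  · obtain ⟨g, hg, hgi⟩ := VS_inv (p := p) h
    have hst := FR2_step c h
    have hx : tp (X ^ (p - 2)) n = g ^ 2 * tp (X ^ p) n := by
      have e : p = 2 + (p - 2) := by omega
      conv_rhs => rw [e]
      rw [tp_pow, tp_pow, pow_add]
      calc tp X n ^ (p - 2) = (tp X n * g) ^ 2 * tp X n ^ (p - 2) := by rw [hg]; ring
        _ = g ^ 2 * (tp X n ^ 2 * tp X n ^ (p - 2)) := by ring
    have hd : FR2 c p n - FR2 c p (n - 1) = g ^ 2 * PowerSeries.C (n : ℚ) := by
      rw [← hst]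
      calc FR2 c p n - FR2 c p (n - 1)
          = (tp X n * g) ^ 2 * (FR2 c p n - FR2 c p (n - 1)) := by rw [hg]; ring
        _ = g ^ 2 * (tp X n ^ 2 * (FR2 c p n - FR2 c p (n - 1))) := by ring
    rw [hd, hx, ← mul_sub]
    have hg2 : VS p 0 (g ^ 2) := by
      have : VS p 0 g := fun k _ => hgi k
      simpa using this.pow 2
    exact hg2.mul_left (VS_z (by omega) n)

private theorem ro_stepg (c : ℚ) {p : ℕ} (hp : p.Prime) (hp11 : 11 ≤ p) (n : ℤ) :
    VS p 1 (FR3 c p n - FR3 c p (n - 1) - tp (X ^ (p - 3)) n) := by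
  haveI : Fact p.Prime := ⟨hp⟩
  by_cases h : (p : ℤ) ∣ n
  · rw [FR3_step_dvd c h, sub_self, zero_sub]
    exact ((VS_tp_pow_of_dvd (by omega) h).mono (by norm_num)).neg
  · obtain ⟨g, hg, hgi⟩ := VS_inv (p := p) h
    have hst := FR3_step c h
    have hx : tp (X ^ (p - 3)) n = g ^ 3 * tp (X ^ p) n := by
      have e : p = 3 + (p - 3) := by omega
      conv_rhs => rw [e]
      rw [tp_pow, tp_pow, pow_add]
      calc tp X n ^ (p - 3) = (tp X n * g) ^ 3 * tp X n ^ (p - 3) := by rw [hg]; ring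
        _ = g ^ 3 * (tp X n ^ 3 * tp X n ^ (p - 3)) := by ring
    have hd : FR3 c p n - FR3 c p (n - 1) = g ^ 3 * PowerSeries.C (n : ℚ) := by
      rw [← hst]
      calc FR3 c p n - FR3 c p (n - 1)
          = (tp X n * g) ^ 3 * (FR3 c p n - FR3 c p (n - 1)) := by rw [hg]; ring
        _ = g ^ 3 * (tp X n ^ 3 * (FR3 c p n - FR3 c p (n - 1))) := by ring
    rw [hd, hx, ← mul_sub]
    have hg2 : VS p 0 (g ^ 3) := by
      have : VS p 0 g := fun k _ => hgi k
      simpa using this.pow 3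
    exact hg2.mul_left (VS_z (by omega) n)

private theorem ro_choose4 {p : ℕ} (hp11 : 11 ≤ p) :
    (((p - 1).choose 4 : ℕ) : ℚ) * 24
      = ((p : ℚ) - 1) * ((p : ℚ) - 2) * ((p : ℚ) - 3) * ((p : ℚ) - 4) := by
  obtain ⟨q, rfl⟩ : ∃ q, p = q + 5 := ⟨p - 5, by omega⟩
  have h := Nat.descFactorial_eq_factorial_mul_choose (q + 5 - 1) 4
  have e : q + 5 - 1 = q + 4 := by omega
  rw [e] at h ⊢
  simp only [Nat.descFactorial_succ, Nat.descFactorial_zero, Nat.factorial] at h
  have h2 : (q + 4 - 3) * ((q + 4 - 2) * ((q + 4 - 1) * ((q + 4 - 0) * 1)))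
      = 24 * (q + 4).choose 4 := by
    rw [h]
  have e1 : q + 4 - 3 = q + 1 := by omega
  have e2 : q + 4 - 2 = q + 2 := by omega
  have e3 : q + 4 - 1 = q + 3 := by omega
  rw [e1, e2, e3, Nat.sub_zero] at h2
  have h3 : (((q + 1) * ((q + 2) * ((q + 3) * ((q + 4) * 1))) : ℕ) : ℚ)
      = ((24 * (q + 4).choose 4 : ℕ) : ℚ) := by exact_mod_cast h2
  push_cast at h3 ⊢
  linarith [h3, show ((q : ℚ) + 5 - 1) * (q + 5 - 2) * (q + 5 - 3) * (q + 5 - 4)
    = (q + 1) * ((q + 2) * ((q + 3) * ((q + 4) * 1))) by ring]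

private theorem ro_choose3 {p : ℕ} (hp11 : 11 ≤ p) :
    (((p - 2).choose 3 : ℕ) : ℚ) * 6
      = ((p : ℚ) - 2) * ((p : ℚ) - 3) * ((p : ℚ) - 4) := by
  obtain ⟨q, rfl⟩ : ∃ q, p = q + 5 := ⟨p - 5, by omega⟩
  have h := Nat.descFactorial_eq_factorial_mul_choose (q + 5 - 2) 3
  have e : q + 5 - 2 = q + 3 := by omega
  rw [e] at h ⊢
  simp only [Nat.descFactorial_succ, Nat.descFactorial_zero, Nat.factorial] at h
  have h2 : (q + 3 - 2) * ((q + 3 - 1) * ((q + 3 - 0) * 1))
      = 6 * (q + 3).choose 3 := by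
    rw [h]
  have e1 : q + 3 - 2 = q + 1 := by omega
  have e2 : q + 3 - 1 = q + 2 := by omega
  rw [e1, e2, Nat.sub_zero] at h2
  have h3 : (((q + 1) * ((q + 2) * ((q + 3) * 1)) : ℕ) : ℚ)
      = ((6 * (q + 3).choose 3 : ℕ) : ℚ) := by exact_mod_cast h2
  push_cast at h3 ⊢
  linarith [h3, show ((q : ℚ) + 5 - 2) * (q + 5 - 3) * (q + 5 - 4)
    = (q + 1) * ((q + 2) * ((q + 3) * 1)) by ring]

private theorem ro_unit {p : ℕ} (hp : p.Prime) (hp11 : 11 ≤ p) (m : ℤ) (d : ℤ) (hd : 0 < d)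
    (hd2 : d < 11 ∨ d = 24) : val p ((p : ℚ) * m * ((d : ℚ))⁻¹) 1 := by
  haveI : Fact p.Prime := ⟨hp⟩
  have hnd : ¬ (p : ℤ) ∣ d := by
    intro h
    rcases hd2 with h1 | h1
    · have := Int.le_of_dvd hd h
      omega
    · rw [h1] at h
      have h2 : p ∣ 24 := by exact_mod_cast h
      have h3 : p ≤ 24 := Nat.le_of_dvd (by norm_num) h2
      interval_cases p <;> first | (revert hp; norm_num; done) | (revert h2; norm_num; done)
  have h1 : val p (p : ℚ) 1 := by
    have := val.of_dvd (p := p) (n := (p : ℤ)) (k := 1) (by rw [pow_one])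
    simpa using this
  have h2 := (h1.mul (val.int (p := p) m)).mul (val.inv_of_not_dvd hnd)
  simpa using h2

theorem R1f (c : ℚ) {p : ℕ} (hp : p.Prime) (hp11 : 11 ≤ p) (hpc : ¬ p ∣ c.den) (hf : Flat c p)
    (n : ℤ) :
    VS p 1 (FR2 c p n - tp (SS (p - 2)) n
      + PowerSeries.C ((SS (p - 2)).coeff 2) * PowerSeries.X ^ 2) := by
  haveI : Fact p.Prime := ⟨hp⟩
  have hpodd : Odd p := hp.odd_of_ne_two (by omega)
  obtain ⟨hB1, hc0, hB0⟩ := ro_flat_val hp hpc hf
  refine ro_ind hp (fun n => FR2 c p n - tp (SS (p - 2)) n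
    + PowerSeries.C ((SS (p - 2)).coeff 2) * PowerSeries.X ^ 2) ?_ ?_ n
  · intro k hk
    show val p (PowerSeries.coeff k (FR2 c p 0 - tp (SS (p - 2)) 0
      + PowerSeries.C ((SS (p - 2)).coeff 2) * PowerSeries.X ^ 2)) 1
    rw [map_add, map_sub, ro_tp_zero, FR2_zero, map_neg, PowerSeries.coeff_C_mul,
      PowerSeries.coeff_C_mul, PowerSeries.coeff_X_pow, PowerSeries.coeff_X_pow]
    have hk2 : ((p - 2 : ℕ) : ℚ) + 1 = (p : ℚ) - 1 := by
      rw [Nat.cast_sub (by omega)]; push_cast; ring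
    have hk3 : p - 2 + 1 = p - 1 := by omega
    interval_cases k
    · rw [SS_coeff_zero (by omega)]
      simpa using val.zero (p := p) 1
    · rw [SS_coeff (by omega) (by omega), hk3,
        bernoulli_eq_zero_of_odd (show Odd (p - 1 - 1) by
          obtain ⟨t, ht⟩ := hpodd; exact ⟨t - 1, by omega⟩) (by omega)]
      simpa using val.zero (p := p) 1
    · simpa using val.zero (p := p) 1
    · rw [SS_coeff (by omega) (by omega), hk3,
        bernoulli_eq_zero_of_odd (show Odd (p - 1 - 3) by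
          obtain ⟨t, ht⟩ := hpodd; exact ⟨t - 2, by omega⟩) (by omega)]
      simpa using val.zero (p := p) 1
    · rw [SS_coeff (by omega) (by omega), hk3, hk2]
      have e5 : p - 1 - 4 = p - 5 := by omega
      rw [e5]
      have hch := ro_choose4 hp11
      have hp1 : (p : ℚ) - 1 ≠ 0 := by
        have : (11 : ℚ) ≤ p := by exact_mod_cast hp11
        linarith
      have hmain : -(c * (if 4 = 4 then (1 : ℚ) else 0))
          - ((p - 1).choose 4 : ℚ) * _root_.bernoulli (p - 5) / ((p : ℚ) - 1)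
          + (SS (p - 2)).coeff 2 * (if 4 = 2 then (1 : ℚ) else 0)
          = (_root_.bernoulli (p - 5) - c) - _root_.bernoulli (p - 5)
            * ((p : ℚ) * (((p : ℤ) ^ 2 - 9 * p + 26 : ℤ) : ℚ) * (((24 : ℤ) : ℚ))⁻¹) := by
        have hch2 : ((p - 1).choose 4 : ℚ)
            = ((p : ℚ) - 1) * ((p : ℚ) - 2) * ((p : ℚ) - 3) * ((p : ℚ) - 4) / 24 := by
          rw [← hch]; ring
        rw [hch2]
        push_cast
        field_simp
        norm_num
        ring
      rw [hmain]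
      refine hB1.sub ?_
      have h24 := hB0.mul (ro_unit hp hp11 ((p : ℤ) ^ 2 - 9 * p + 26) 24 (by norm_num) (Or.inr rfl))
      rwa [zero_add] at h24
  · intro m
    have hst := SS_step (k := p - 2) (by omega) m
    have := ro_stepf c hp hp11 m
    refine this.congr ?_
    show _ = (FR2 c p m - tp (SS (p - 2)) m + PowerSeries.C ((SS (p - 2)).coeff 2)
      * PowerSeries.X ^ 2) - (FR2 c p (m - 1) - tp (SS (p - 2)) (m - 1)
        + PowerSeries.C ((SS (p - 2)).coeff 2) * PowerSeries.X ^ 2)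
    rw [hst]
    ring

theorem R1g (c : ℚ) {p : ℕ} (hp : p.Prime) (hp11 : 11 ≤ p) (hpc : ¬ p ∣ c.den) (hf : Flat c p)
    (n : ℤ) :
    VS p 1 (FR3 c p n - tp (SS (p - 3)) n
      + PowerSeries.C ((SS (p - 3)).coeff 1) * PowerSeries.X) := by
  haveI : Fact p.Prime := ⟨hp⟩
  have hpodd : Odd p := hp.odd_of_ne_two (by omega)
  obtain ⟨hB1, hc0, hB0⟩ := ro_flat_val hp hpc hf
  refine ro_ind hp (fun n => FR3 c p n - tp (SS (p - 3)) n
    + PowerSeries.C ((SS (p - 3)).coeff 1) * PowerSeries.X) ?_ ?_ n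
  · intro k hk
    show val p (PowerSeries.coeff k (FR3 c p 0 - tp (SS (p - 3)) 0
      + PowerSeries.C ((SS (p - 3)).coeff 1) * PowerSeries.X)) 1
    rw [map_add, map_sub, ro_tp_zero, FR3_zero, PowerSeries.coeff_C_mul,
      PowerSeries.coeff_C_mul, PowerSeries.coeff_X_pow, PowerSeries.coeff_X]
    have hk2 : ((p - 3 : ℕ) : ℚ) + 1 = (p : ℚ) - 2 := by
      rw [Nat.cast_sub (by omega)]; push_cast; ring
    have hk3 : p - 3 + 1 = p - 2 := by omega
    interval_cases k
    · rw [SS_coeff_zero (by omega)]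
      simpa using val.zero (p := p) 1
    · simpa using val.zero (p := p) 1
    · rw [SS_coeff (by omega) (by omega), hk3,
        bernoulli_eq_zero_of_odd (show Odd (p - 2 - 2) by
          obtain ⟨t, ht⟩ := hpodd; exact ⟨t - 2, by omega⟩) (by omega)]
      simpa using val.zero (p := p) 1
    · rw [SS_coeff (by omega) (by omega), hk3, hk2]
      have e5 : p - 2 - 3 = p - 5 := by omega
      rw [e5]
      have hch := ro_choose3 hp11
      have hp1 : (p : ℚ) - 2 ≠ 0 := by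
        have : (11 : ℚ) ≤ p := by exact_mod_cast hp11
        linarith
      have hmain : 2 * c * (if 3 = 3 then (1 : ℚ) else 0)
          - ((p - 2).choose 3 : ℚ) * _root_.bernoulli (p - 5) / ((p : ℚ) - 2)
          + (SS (p - 3)).coeff 1 * (if 3 = 1 then (1 : ℚ) else 0)
          = _root_.bernoulli (p - 5)
            * ((p : ℚ) * ((7 - p : ℤ) : ℚ) * (((6 : ℤ) : ℚ))⁻¹)
            - 2 * (_root_.bernoulli (p - 5) - c) := by
        have hch2 : ((p - 2).choose 3 : ℚ)
            = ((p : ℚ) - 2) * ((p : ℚ) - 3) * ((p : ℚ) - 4) / 6 := by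
          rw [← hch]; ring
        rw [hch2]
        push_cast
        field_simp
        norm_num
        ring
      rw [hmain]
      have h6 := hB0.mul (ro_unit hp hp11 (7 - p) 6 (by norm_num) (Or.inl (by norm_num)))
      rw [zero_add] at h6
      refine h6.sub ?_
      have h7 := hB1.int_mul 2
      simpa using h7
    · rw [SS_coeff (by omega) (by omega), hk3,
        bernoulli_eq_zero_of_odd (show Odd (p - 2 - 4) by
          obtain ⟨t, ht⟩ := hpodd; exact ⟨t - 3, by omega⟩) (by omega)]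
      simpa using val.zero (p := p) 1
  · intro m
    have hst := SS_step (k := p - 3) (by omega) m
    have := ro_stepg c hp hp11 m
    refine this.congr ?_
    show _ = (FR3 c p m - tp (SS (p - 3)) m + PowerSeries.C ((SS (p - 3)).coeff 1)
      * PowerSeries.X) - (FR3 c p (m - 1) - tp (SS (p - 3)) (m - 1)
        + PowerSeries.C ((SS (p - 3)).coeff 1) * PowerSeries.X)
    rw [hst]
    ring

end MP_a3a416_nt.SJ5
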