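import Pool.Agent.Lib.MP_a3a416_nt.SJ5.ColDefs
import Pool.Agent.Lib.MP_a3a416_nt.SJ5.RVCalc
import Pool.Agent.Lib.MP_a3a416_nt.SJ5.PolRow
import Pool.Agent.Lib.MP_a3a416_nt.SJ5.Polar
import Pool.Agent.Lib.MP_a3a416_nt.SJ5.RelOne

/-! # SJ5-ColFG: the new columns of the blocks `f_2`, `f_3`
PROOF. `u = PowerSeries.X`, `x^i = tp (X^i) n`, `y = tp (Yp p) n`.  Insert `gser_f_eq`, `gser_g_eq` (polar parts `π2 = pi2 p (sg n)`, `π3 = pi3 p (sg n)` at the nodes in `InO p`).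
`NC .g i = x^i ( [FR3 - tp (SS (p-3)) n + C e1 u] + (if InO p n then π3 else 0) )`: `R1g`, `RV_pi3`, `LC.of_polar`, `LC.mul_tp`.
`NC .f i`, `i ≥ m2`: `x^i ( [FR2 - tp (SS (p-2)) n + C c2 u^2] + (if InO p n then π2 else 0) )`: `R1f`, `RV_pi2`.
`NC .f i`, `i < m2`: `x^i ( [FR2 - y FR3 - tp A0 n - tp A1 n u - C A2 u^2] + (if InO p n then π2 - y π3 else 0) )`: the hypothesis `RelA`, `RV_pi23`.
(`val p (sg n) 0`: `val_sg`; `sum_blk` to expand `∑ γ`.) -/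

set_option autoImplicit false

open Polynomial

namespace MP_a3a416_nt.SJ5

open MP_a3a416_nt.SJ

private theorem JS_zero (c : ℚ) (β : Blk) (n : ℤ) : JS c β 0 n = 0 := by rw [JS_eq, tp_zero, zero_mul]

theorem LC_colg (c : ℚ) {p : ℕ} (hp : p.Prime) (hp11 : 11 ≤ p) (hpc : ¬ p ∣ c.den)
    (hf : Flat c p) (m1 m2 m3 : ℕ) (A0 A1 : ℚ[X]) (A2 : ℚ) (i : ℕ) (n : ℤ)
    (h1 : -(2 * (p : ℤ)) ≤ n) (h2 : n < 2 * p) :
    LC p n (bc p m1 m2 m3 .g i) (NC c p m1 m2 m3 A0 A1 A2 .g i n) := by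
  have : Fact p.Prime := ⟨hp⟩
  have h3 : NC c p m1 m2 m3 A0 A1 A2 .g i n = tp (X ^ i) n * ((FR3 c p n - tp (SS (p - 3)) n
      + PowerSeries.C ((SS (p - 3)).coeff 1) * PowerSeries.X) + (if InO p n then pi3 p (sg n) else 0)) := by
    unfold NC
    rw [sum_blk]
    simp only [Qc, Pc, JS_zero]
    rw [JS_eq, JS_eq, JS_eq, gser_g_eq c hp.pos n h1 h2, tp_neg, tp_mul, tp_mul, tp_C]
    simp only [gser]
    ring
  rw [h3]
  exact LC.mul_tp i n (LC.of_polar _ (R1g c hp hp11 hpc hf n) (RV_pi3 (val_sg n)))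

theorem LC_colf (c : ℚ) {p : ℕ} (hp : p.Prime) (hp11 : 11 ≤ p) (hpc : ¬ p ∣ c.den)
    (hf : Flat c p) (m1 m2 m3 : ℕ) {A0 A1 : ℚ[X]} {A2 : ℚ} (hA : RelA c p A0 A1 A2) (i : ℕ) (n : ℤ)
    (h1 : -(2 * (p : ℤ)) ≤ n) (h2 : n < 2 * p) :
    LC p n (bc p m1 m2 m3 .f i) (NC c p m1 m2 m3 A0 A1 A2 .f i n) := by
  have : Fact p.Prime := ⟨hp⟩
  by_cases hi : i < m2
  · have h3 : NC c p m1 m2 m3 A0 A1 A2 .f i n = tp (X ^ i) n * ((FR2 c p n - tp (Yp p) n * FR3 c p n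
        - tp A0 n - tp A1 n * PowerSeries.X - PowerSeries.C A2 * PowerSeries.X ^ 2)
        + (if InO p n then (pi2 p (sg n) - tp (Yp p) n * pi3 p (sg n)) else 0)) := by
      unfold NC
      rw [sum_blk]
      simp only [Qc, Pc, JS_zero, if_pos hi]
      rw [JS_eq, JS_eq, JS_eq, JS_eq, JS_eq, gser_g_eq c hp.pos n h1 h2, gser_f_eq c hp.pos n h1 h2, tp_mul, tp_mul,
        tp_mul, tp_mul, tp_C]
      simp only [gser]
      split_ifs <;> ring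
    rw [h3]
    have h4 : bc p m1 m2 m3 .f i = 2 := by simp only [bc, if_pos hi]
    rw [h4]
    exact LC.mul_tp i n (LC.of_polar _ (hA n) (RV_pi23 (by omega) (val_sg n) n))
  · have h3 : NC c p m1 m2 m3 A0 A1 A2 .f i n = tp (X ^ i) n * ((FR2 c p n - tp (SS (p - 2)) n
        + PowerSeries.C ((SS (p - 2)).coeff 2) * PowerSeries.X ^ 2)
        + (if InO p n then pi2 p (sg n) else 0)) := by
      unfold NC
      rw [sum_blk]
      simp only [Qc, Pc, JS_zero, if_neg hi]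
      rw [JS_eq, JS_eq, JS_eq, gser_f_eq c hp.pos n h1 h2, tp_neg, tp_mul, tp_mul, tp_C]
      simp only [gser]
      ring
    rw [h3]
    have h4 : bc p m1 m2 m3 .f i = 1 := by simp only [bc, if_neg hi]
    rw [h4]
    exact LC.mul_tp i n (LC.of_polar _ (R1f c hp hp11 hpc hf n) (RV_pi2 (val_sg n)))

end MP_a3a416_nt.SJ5
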