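import Pool.Agent.Lib.MP_a3a416_nt.SJ5.ColDefs
import Pool.Agent.Lib.MP_a3a416_nt.SJ5.RVCalc

/-! # SJ5-ColUW: the new columns of the blocks `u`, `u^2` -/

set_option autoImplicit false

open Polynomial

namespace MP_a3a416_nt.SJ5

open MP_a3a416_nt.SJ

private theorem JS_zero' (c : ℚ) (β : Blk) (n : ℤ) : JS c β 0 n = 0 := by
  rw [JS, tp_zero, zero_mul]

private theorem tp_Yp (p : ℕ) (n : ℤ) :
    tp (Yp p) n = PowerSeries.X + (PowerSeries.C (n : ℚ) - tp (X ^ p) n) := by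
  unfold Yp
  rw [tp_sub, tp_X]
  ring

theorem LC_colu (c : ℚ) {p : ℕ} (hp : p.Prime) (hp11 : 11 ≤ p) (m1 m2 m3 : ℕ) (A0 A1 : ℚ[X])
    (A2 : ℚ) (i : ℕ) (n : ℤ) :
    LC p n (bc p m1 m2 m3 .u i) (NC c p m1 m2 m3 A0 A1 A2 .u i n) := by
  haveI : Fact p.Prime := ⟨hp⟩
  have hz := VS_z (p := p) (by omega) n
  have e : NC c p m1 m2 m3 A0 A1 A2 .u i n =
      -(tp (X ^ i) n * (PowerSeries.C (n : ℚ) - tp (X ^ p) n)) := by
    unfold NC
    rw [sum_blk]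
    have h1 : Qc p m1 m2 m3 A0 A1 A2 .u i .z = X ^ i * Yp p := rfl
    have h2 : Qc p m1 m2 m3 A0 A1 A2 .u i .u = 0 := rfl
    have h3 : Qc p m1 m2 m3 A0 A1 A2 .u i .w = 0 := rfl
    have h4 : Qc p m1 m2 m3 A0 A1 A2 .u i .f = 0 := rfl
    have h5 : Qc p m1 m2 m3 A0 A1 A2 .u i .g = 0 := rfl
    have h6 : Pc p .u i = X ^ i := rfl
    rw [h1, h2, h3, h4, h5, h6]
    simp only [JS_zero', add_zero]
    rw [JS_eq, JS_eq, tp_mul, tp_Yp]
    show tp (X ^ i) n * PowerSeries.X - _ * 1 = _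
    ring
  rw [e]
  apply LC.of_VS
  exact ((VS_tp_X_pow i n).mul_left hz).neg

theorem LC_colw (c : ℚ) {p : ℕ} (hp : p.Prime) (hp11 : 11 ≤ p) (m1 m2 m3 : ℕ) (A0 A1 : ℚ[X])
    (A2 : ℚ) (i : ℕ) (n : ℤ) :
    LC p n (bc p m1 m2 m3 .w i) (NC c p m1 m2 m3 A0 A1 A2 .w i n) := by
  haveI : Fact p.Prime := ⟨hp⟩
  have hz := VS_z (p := p) (by omega) n
  have hx := VS_tp_X_pow (p := p) i n
  have h4 : Qc p m1 m2 m3 A0 A1 A2 .w i .f = 0 := rfl
  have h5 : Qc p m1 m2 m3 A0 A1 A2 .w i .g = 0 := rfl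
  have h3 : Qc p m1 m2 m3 A0 A1 A2 .w i .w = 0 := rfl
  have h6 : Pc p .w i = X ^ i := rfl
  apply LC.of_VS
  unfold NC
  rw [sum_blk, h3, h4, h5, h6]
  simp only [JS_zero', add_zero]
  have h1 : Qc p m1 m2 m3 A0 A1 A2 .w i .z =
      if i < m1 then -(X ^ i * Yp p ^ 2) else if i < m3 then X ^ i * Yp p ^ 2 else 0 := rfl
  have h2 : Qc p m1 m2 m3 A0 A1 A2 .w i .u = if i < m1 then C 2 * (X ^ i * Yp p) else 0 := rfl
  have hb : bc p m1 m2 m3 .w i = if i < m1 then 2 else if i < m3 then 1 else 0 := rfl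
  rw [h1, h2, hb]
  by_cases hi1 : i < m1
  · rw [if_pos hi1, if_pos hi1, if_pos hi1]
    have e : JS c .w (X ^ i) n - (JS c .z (-(X ^ i * Yp p ^ 2)) n +
        JS c .u (C 2 * (X ^ i * Yp p)) n) =
        tp (X ^ i) n * (PowerSeries.C (n : ℚ) - tp (X ^ p) n) ^ 2 := by
      rw [JS_eq, JS_eq, JS_eq, tp_neg, tp_mul, tp_mul, tp_mul, tp_pow (Yp p), tp_Yp, tp_C]
      show tp (X ^ i) n * PowerSeries.X ^ 2 - (_ * 1 + _ * PowerSeries.X) = _
      rw [map_ofNat]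
      ring
    rw [e]
    have h7 := hz.pow 2
    exact hx.mul_left (h7.mono (by norm_num))
  · rw [if_neg hi1, if_neg hi1, if_neg hi1]
    by_cases hi3 : i < m3
    · rw [if_pos hi3, if_pos hi3]
      have e : JS c .w (X ^ i) n - (JS c .z (X ^ i * Yp p ^ 2) n + JS c .u 0 n) =
          -(tp (X ^ i) n * ((PowerSeries.C (n : ℚ) - tp (X ^ p) n) *
            (PowerSeries.X + tp (Yp p) n))) := by
        rw [JS_zero', add_zero, JS_eq, JS_eq, tp_mul, tp_pow (Yp p), tp_Yp]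
        show tp (X ^ i) n * PowerSeries.X ^ 2 - _ * 1 = _
        ring
      rw [e]
      have hy : VS p 0 (PowerSeries.X + tp (Yp p) n) := by
        rw [tp_Yp]
        exact VS.X.add (VS.X.add (hz.mono (by norm_num)))
      exact (hx.mul_left (hz.mul_right hy)).neg
    · rw [if_neg hi3, if_neg hi3, JS_zero', JS_zero', add_zero, sub_zero, JS_eq]
      exact hx.mul_left (VS.X_pow 2)

end MP_a3a416_nt.SJ5
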