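import Pool.Agent.Lib.MP_a3a416_nt.SJ5.ColDefs
import Pool.Agent.Lib.MP_a3a416_nt.SJ5.RVCalc

/-! # SJ5-ColZ: the new columns of the block `1`
PROOF. `NC .z i = tp ((X^p - X)^j X^r) n = tp (X^p - X) n ^ j * tp (X^r) n`, `j = i / p`, `r = i % p` (all `Qc .z` are `0`, `gser .z = 1`).  Put `z = C n - tp (X^p) n` (`VS_z`: `VS p 1 z`);
`tp (X^p - X) n = -(z + u)`, `u = PowerSeries.X`.
Regular node: `(z+u)^j = ∑_i C(j,i) z^(j-i) u^i` (`add_pow`); the coefficient of `u^k`, `k ≤ 4`, only involves `i ≤ k`, where `z^(j-i)` has `VS p (j-i)`: `v ≥ j - k ≥ j - 4`; so `VS p (j - 4)`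
(for `j ≤ 4` use `VS p 0`: the potential is `(j - 4 : ℕ)`).
Node in `InO p`: all coefficients `< 5` of `rescale p (tp (X^p - X) n)` have `v ≥ 1`: k=0: `n^p - n`; k=1: `p (p n^(p-1) - 1)`; k ≥ 2: `p^k C(p,k) n^(p-k)`.  Hence those of its `j`-th power have `v ≥ j`
(`VS.pow`), those of `(1 + s v)^3` and of `rescale p (tp (X^r) n)` have `v ≥ 0`: `coeff k (RS ...)` has `v ≥ j ≥ k - 3 + (j - 4 : ℕ)` for `k ≤ 4` (if `j ≥ 4`; for `j < 4` the column is a polynomial with
integral coefficients: `LC.of_VS`). -/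

set_option autoImplicit false

open Polynomial

namespace MP_a3a416_nt.SJ5

open MP_a3a416_nt.SJ

/-- the coefficients of `rescale p ((n+u)^p - (n+u))` are divisible by `p` -/
private theorem val_rescale_yp {p : ℕ} [hp : Fact p.Prime] (hp5 : 5 ≤ p) (n : ℤ) :
    VS p 1 (PowerSeries.rescale (p : ℚ) (tp (X ^ p - X) n)) := by
  intro k hk
  rw [PowerSeries.coeff_rescale, tp_sub, map_sub, coeff_tp_X_pow, tp_X, map_add, PowerSeries.coeff_C,
    PowerSeries.coeff_X]
  rcases Nat.eq_zero_or_pos k with h0 | h0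
  · subst h0
    rw [if_pos rfl, if_neg (by norm_num), Nat.sub_zero, Nat.choose_zero_right, Nat.cast_one, mul_one, pow_zero,
      one_mul, add_zero]
    have h3 : (p : ℤ) ^ 1 ∣ n ^ p - n := by
      rw [pow_one, ← ZMod.intCast_zmod_eq_zero_iff_dvd]
      push_cast
      rw [ZMod.pow_card, sub_self]
    have := val.of_dvd h3
    push_cast at this
    exact this
  · rw [if_neg h0.ne', zero_add]
    have h3 : (p : ℤ) ^ 1 ∣ (p : ℤ) ^ k * (n ^ (p - k) * ((p.choose k : ℕ) : ℤ) - (if k = 1 then 1 else 0)) := by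
      apply Dvd.dvd.mul_right
      exact pow_dvd_pow _ h0
    have := val.of_dvd h3
    push_cast at this
    convert this using 2

private theorem VS_rescale_tp {p : ℕ} [hp : Fact p.Prime] (i : ℕ) (n : ℤ) :
    VS p 0 (PowerSeries.rescale (p : ℚ) (tp (X ^ i) n)) := by
  intro k hk
  rw [PowerSeries.coeff_rescale]
  have h1 := (val.nat (p := p) p).pow k
  have h2 := h1.mul (val_coeff_tp_X_pow (p := p) i n k)
  simpa using h2

private theorem VS_zu {p : ℕ} [hp : Fact p.Prime] (hp5 : 5 ≤ p) (n : ℤ) (j : ℕ) (k : ℕ) (hk : k < 5) :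
    val p (PowerSeries.coeff k (tp (X ^ p - X) n ^ j)) ((j : ℤ) - k) := by
  have hz := VS_z hp5 n
  set z := PowerSeries.C (n : ℚ) - tp (X ^ p) n with hzdef
  have h1 : tp (X ^ p - X) n = -z + -PowerSeries.X := by
    rw [tp_sub, tp_X, hzdef]
    ring
  rw [h1, add_comm, add_pow, map_sum]
  apply val.sum
  intro i hi
  rw [Finset.mem_range] at hi
  have h2 : (-PowerSeries.X : PowerSeries ℚ) ^ i * (-z) ^ (j - i) * ((j.choose i : ℕ) : PowerSeries ℚ) =
      PowerSeries.X ^ i * (PowerSeries.C ((-1) ^ i * (j.choose i : ℚ)) * (-z) ^ (j - i)) := by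
    rw [neg_pow, map_mul, map_pow, map_neg, map_one, map_natCast]
    ring
  rw [h2]
  rcases Nat.lt_or_ge k i with h3 | h3
  · rw [PowerSeries.coeff_X_pow_mul', if_neg (by omega)]
    exact val.zero _
  · rw [PowerSeries.coeff_X_pow_mul', if_pos h3, PowerSeries.coeff_C_mul]
    have h4 := (hz.neg.pow (j - i)) (k - i) (by omega)
    have h5 : ((-1 : ℚ)) ^ i * (j.choose i : ℚ) = (((-1) ^ i * (j.choose i : ℤ) : ℤ) : ℚ) := by push_cast; ring
    rw [h5]
    refine (h4.int_mul _).mono ?_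
    rw [mul_one]
    omega

theorem LC_colz (c : ℚ) {p : ℕ} (hp : p.Prime) (hp11 : 11 ≤ p) (m1 m2 m3 : ℕ) (A0 A1 : ℚ[X])
    (A2 : ℚ) (i : ℕ) (n : ℤ) :
    LC p n (bc p m1 m2 m3 .z i) (NC c p m1 m2 m3 A0 A1 A2 .z i n) := by
  have : Fact p.Prime := ⟨hp⟩
  set j := i / p with hj
  set r := i % p with hr
  have h3 : NC c p m1 m2 m3 A0 A1 A2 .z i n = tp (X ^ r) n * tp (X ^ p - X) n ^ j := by
    unfold NC
    rw [sum_blk]
    simp only [Qc, Pc]
    rw [JS_eq, JS_eq, JS_eq, JS_eq, JS_eq, JS_eq, tp_zero, tp_mul, tp_pow]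
    simp only [gser]
    ring
  have h4 : bc p m1 m2 m3 .z i = ((j - 4 : ℕ) : ℤ) := rfl
  rw [h3, h4]
  refine LC.mul_tp r n ?_
  -- integrality
  have hint : VS p 0 (tp (X ^ p - X) n ^ j) := by
    have h5 : VS p 0 (tp (X ^ p - X) n) := by
      rw [tp_sub]
      exact (VS_tp_X_pow p n).sub (VS_tp_X n)
    simpa using h5.pow j
  by_cases hj4 : j ≤ 4
  · have h5 : (j - 4 : ℕ) = 0 := by omega
    rw [h5]
    exact LC.of_VS hint
  · push Not at hj4
    unfold LC
    split_ifs with hO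
    · intro k hk
      have h5 : VS p j (PowerSeries.rescale (p : ℚ) (tp (X ^ p - X) n ^ j)) := by
        rw [map_pow]
        simpa using (val_rescale_yp (p := p) (by omega) n).pow j
      have h6 : VS p 0 ((1 + PowerSeries.C (sg n) * PowerSeries.X) ^ 3 : PowerSeries ℚ) := by
        have h7 : VS p 0 (1 + PowerSeries.C (sg n) * PowerSeries.X : PowerSeries ℚ) := by
          refine VS.one.add ?_
          exact VS.mul_left (VS.C (val_sg n)) VS.X
        simpa using h7.pow 3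
      have h8 := (VS.mul_left h6 h5) k hk
      refine h8.mono ?_
      omega
    · intro k hk
      refine (VS_zu (p := p) (by omega) n j k hk).mono ?_
      omega

end MP_a3a416_nt.SJ5
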