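import Pool.Agent.Lib.MP_a3a416_nt.SJ.SDet

/-!
# Single index 5 (helper53): definitions.

Reference text: `/team-store/SJ5_proof.md`.  `c`-flat primes are the primes `p ∣ num (B_{p-5} - c)`.
Five blocks `1, u, u^2, f_2 - c u^4, f_3 + 2 c u^3` of lengths `K, L, D, D, L`, order 5 at the nodes `|n| ≤ N`.
All columns are families of power series in `u`, indexed by the node.
-/

open Polynomial

namespace MP_a3a416_nt.SJ5

open MP_a3a416_nt.SJ

/-- the harmonic sums `h_r(n)` -/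
noncomputable def hh (r : ℕ) (n : ℤ) : ℚ :=
  ∑ b ∈ Finset.Ioc 0 n, ((b : ℚ)⁻¹) ^ r - ∑ b ∈ Finset.Ioo n 0, ((b : ℚ)⁻¹) ^ r

/-- coefficient of `u^j` of `f_2(n)(u) - c u^4` -/
noncomputable def c2 (c : ℚ) (n : ℤ) (j : ℕ) : ℚ :=
  (-1) ^ j * ((j : ℚ) + 1) * hh (1 + j) n - (if j = 4 then c else 0)

/-- coefficient of `u^j` of `f_3(n)(u) + 2 c u^3` -/
noncomputable def c3 (c : ℚ) (n : ℤ) (j : ℕ) : ℚ :=
  (-1) ^ j * (((j : ℚ) + 1) * ((j : ℚ) + 2) / 2) * hh (2 + j) n + (if j = 3 then 2 * c else 0)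

/-- the five blocks: `1`, `u`, `u^2`, `f_2(n)`, `f_3(n)`. -/
inductive Blk
  | z | u | w | f | g
  deriving DecidableEq, Fintype

/-- the local function `g_β(n)(u)` as a power series. -/
noncomputable def gser (c : ℚ) : Blk → ℤ → PowerSeries ℚ
  | .z, _ => 1
  | .u, _ => PowerSeries.X
  | .w, _ => PowerSeries.X ^ 2
  | .f, n => PowerSeries.mk (c2 c n)
  | .g, n => PowerSeries.mk (c3 c n)

/-- the expansion `P(n+u)` -/
noncomputable def tp (P : ℚ[X]) (n : ℤ) : PowerSeries ℚ :=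
  ((taylor (n : ℚ) P : ℚ[X]) : PowerSeries ℚ)

/-- the jet `P(n+u) g_β(n)(u)` -/
noncomputable def JS (c : ℚ) (β : Blk) (P : ℚ[X]) (n : ℤ) : PowerSeries ℚ := tp P n * gser c β n

/-- `J_β(P)(n,k) = [u^k] P(n+u) g_β(n)(u)`. -/
noncomputable def J (c : ℚ) (β : Blk) (P : ℚ[X]) (n : ℤ) (k : ℕ) : ℚ :=
  PowerSeries.coeff k (JS c β P n)

/-- rows `(n, k)`, `|n| ≤ N`, `k < 5`. -/
abbrev Row (N : ℕ) := Fin (2 * N + 1) × Fin 5

/-- the node of a row. -/
def node {N : ℕ} (r : Row N) : ℤ := ((r.1 : ℕ) : ℤ) - N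

/-- lengths of the blocks. -/
def len (K L D : ℕ) : Blk → ℕ
  | .z => K
  | .u => L
  | .w => D
  | .f => D
  | .g => L

/-- columns `x^i g_β`. -/
abbrev Col (K L D : ℕ) := Σ β : Blk, Fin (len K L D β)

/-- the matrix of a family of columns (power series at every node). -/
noncomputable def MS {N : ℕ} {κ : Type*} (Φ : κ → ℤ → PowerSeries ℚ) : Matrix (Row N) κ ℚ :=
  fun r x => PowerSeries.coeff r.2 (Φ x (node r))

/-- the unit column of the row `ρ`. -/
noncomputable def uc {N : ℕ} (ρ : Row N) (n : ℤ) : PowerSeries ℚ :=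
  if n = node ρ then PowerSeries.X ^ (ρ.2 : ℕ) else 0

/-- the columns `Ψ` of the blocks and `c0` unit columns. -/
noncomputable def colf {N K L D c0 : ℕ} (Ψ : Col K L D → ℤ → PowerSeries ℚ) (rr : Fin c0 → Row N) :
    Col K L D ⊕ Fin c0 → ℤ → PowerSeries ℚ :=
  Sum.elim Ψ (fun i => uc (rr i))

/-- the matrix with columns `J_β(P β i)`, `i < len β`, and `c0` unit columns. -/
noncomputable def VP (c : ℚ) {N : ℕ} (K L D : ℕ) {c0 : ℕ} (P : Blk → ℕ → ℚ[X])
    (rr : Fin c0 → Row N) : Matrix (Row N) (Col K L D ⊕ Fin c0) ℚ :=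
  MS (colf (fun y n => JS c y.1 (P y.1 y.2) n) rr)

/-- the matrix `Vh = [V | e_{rr 0} ... e_{rr (c0-1)}]`: the family of the monomials. -/
noncomputable def Vh (c : ℚ) {N : ℕ} (K L D : ℕ) {c0 : ℕ} (rr : Fin c0 → Row N) :
    Matrix (Row N) (Col K L D ⊕ Fin c0) ℚ :=
  VP c K L D (fun _ i => X ^ i) rr

/-- `p` is `c`-flat: `B_{p-5} ≡ c` modulo `p`. -/
def Flat (c : ℚ) (p : ℕ) : Prop := (p : ℤ) ∣ (_root_.bernoulli (p - 5) - c).num

/-! ## Basic facts -/

theorem sum_blk {M : Type*} [AddCommMonoid M] (f : Blk → M) :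
    ∑ β, f β = f .z + f .u + f .w + f .f + f .g := by
  have : (Finset.univ : Finset Blk) = {.z, .u, .w, .f, .g} := rfl
  rw [this]
  simp [Finset.sum_insert, add_assoc]

theorem card_col (K L D : ℕ) : Fintype.card (Col K L D) = K + 2 * L + 2 * D := by
  rw [Fintype.card_sigma, Finset.sum_congr rfl (fun β _ => Fintype.card_fin _), sum_blk]
  show K + L + D + D + L = K + 2 * L + 2 * D
  ring

theorem card_row (N : ℕ) : Fintype.card (Row N) = 5 * (2 * N + 1) := by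
  simp [Row, Fintype.card_prod]
  ring

theorem node_bd {N : ℕ} (ρ : Row N) : -(N : ℤ) ≤ node ρ ∧ node ρ ≤ N := by
  have h := ρ.1.2
  unfold node
  omega

theorem row_ext {N : ℕ} {r ρ : Row N} (h1 : node r = node ρ) (h2 : r.2 = ρ.2) : r = ρ := by
  have h3 : (r.1 : ℕ) = ρ.1 := by
    unfold node at h1
    omega
  exact Prod.ext (Fin.ext h3) h2

theorem coeff_uc {N : ℕ} (r ρ : Row N) :
    PowerSeries.coeff r.2 (uc ρ (node r)) = if r = ρ then (1 : ℚ) else 0 := by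
  unfold uc
  by_cases h : r = ρ
  · subst h
    simp [PowerSeries.coeff_X_pow]
  · rw [if_neg h]
    split_ifs with h1
    · rw [PowerSeries.coeff_X_pow, if_neg]
      intro h2
      exact h (row_ext h1 (Fin.ext h2))
    · simp

theorem VP_inl (c : ℚ) {N K L D c0 : ℕ} (P : Blk → ℕ → ℚ[X]) (rr : Fin c0 → Row N) (r : Row N)
    (y : Col K L D) : VP c K L D P rr r (Sum.inl y) = J c y.1 (P y.1 y.2) (node r) r.2 := rfl

theorem VP_inr (c : ℚ) {N K L D c0 : ℕ} (P : Blk → ℕ → ℚ[X]) (rr : Fin c0 → Row N) (r : Row N)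
    (i : Fin c0) : VP c K L D P rr r (Sum.inr i) = if r = rr i then 1 else 0 := coeff_uc r (rr i)

/-! ## `tp` is a ring homomorphism in `P` -/

theorem tp_add (P Q : ℚ[X]) (n : ℤ) : tp (P + Q) n = tp P n + tp Q n := by simp [tp]
theorem tp_sub (P Q : ℚ[X]) (n : ℤ) : tp (P - Q) n = tp P n - tp Q n := by
  rw [eq_sub_iff_add_eq, ← tp_add, sub_add_cancel]
theorem tp_neg (P : ℚ[X]) (n : ℤ) : tp (-P) n = - tp P n := by
  rw [eq_neg_iff_add_eq_zero, ← tp_add, neg_add_cancel]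
  simp [tp]
theorem tp_mul (P Q : ℚ[X]) (n : ℤ) : tp (P * Q) n = tp P n * tp Q n := by
  simp [tp, taylor_mul]
theorem tp_zero (n : ℤ) : tp 0 n = 0 := by simp [tp]
theorem tp_one (n : ℤ) : tp 1 n = 1 := by simp [tp, taylor_one]
theorem tp_C (a : ℚ) (n : ℤ) : tp (C a) n = PowerSeries.C a := by simp [tp]
theorem tp_X (n : ℤ) : tp X n = PowerSeries.C (n : ℚ) + PowerSeries.X := by
  rw [tp, taylor_X, Polynomial.coe_add, Polynomial.coe_X, Polynomial.coe_C, add_comm]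
theorem tp_pow (P : ℚ[X]) (k : ℕ) (n : ℤ) : tp (P ^ k) n = tp P n ^ k := by
  induction k with
  | zero => simp [tp_one]
  | succ k ih => rw [pow_succ, tp_mul, ih, pow_succ]
theorem tp_sum {ι : Type*} (s : Finset ι) (f : ι → ℚ[X]) (n : ℤ) :
    tp (∑ i ∈ s, f i) n = ∑ i ∈ s, tp (f i) n := by
  classical
  induction s using Finset.induction_on with
  | empty => simp [tp_zero]
  | insert i s hi ih => rw [Finset.sum_insert hi, Finset.sum_insert hi, tp_add, ih]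

theorem JS_eq (c : ℚ) (β : Blk) (P : ℚ[X]) (n : ℤ) : JS c β P n = tp P n * gser c β n := rfl

theorem JS_mul (c : ℚ) (β : Blk) (P Q : ℚ[X]) (n : ℤ) : JS c β (P * Q) n = tp P n * JS c β Q n := by
  rw [JS, JS, tp_mul, mul_assoc]

theorem coeff_tp (P : ℚ[X]) (n : ℤ) (k : ℕ) :
    PowerSeries.coeff k (tp P n) = (taylor (n : ℚ) P).coeff k := by
  simp [tp]

/-- coefficients of `u^j` of the local functions -/
noncomputable def gj (c : ℚ) (β : Blk) (n : ℤ) (j : ℕ) : ℚ := PowerSeries.coeff j (gser c β n)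

theorem J_eq_sum (c : ℚ) (β : Blk) (P : ℚ[X]) (n : ℤ) (k : ℕ) :
    J c β P n k = ∑ i ∈ Finset.range (k + 1), (taylor (n : ℚ) P).coeff i * gj c β n (k - i) := by
  rw [J, JS, PowerSeries.coeff_mul, Finset.Nat.sum_antidiagonal_eq_sum_range_succ_mk]
  simp [coeff_tp, gj]

end MP_a3a416_nt.SJ5
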