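import Pool.Agent.Lib.MP_a3a416_nt.SJ5.BernInt

/-! # SJ5-Kummer: `5 B_{2p-6} ≡ 6 B_{p-5}` modulo `p`  (`p ≥ 11`)
PROOF. Let `S_k = ∑_{b=1}^{p-1} b^k`.
(1) `val p (S_k - p B_k) 2` for `k = p-5` and `k = 2p-6`: Mathlib `sum_range_pow`: `∑_{b<p} b^k = ∑_{i ≤ k} B_i * (k+1).choose i * p^(k+1-i) / (k+1)`; the term `i = k` is `p B_k`;
    for `i < k` it has `v ≥ 2` as `p^(k+1-i)`, `k+1-i ≥ 2`, `B_i` `p`-integral (`val_bern_two`) and `k+1 = p-4`, `2p-5` is a unit; for `i = p-1` (only `k = 2p-6`): `v ≥ -1 + (p-4) ≥ 2` (`val_bern_pred`).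
(2) `T := ∑_{b=1}^{p-1} b^(p (p-5))` is `≡ 0` modulo `p^2`. There is an integer `g`, `p ∤ g`, with `g^(p-5) ≢ 1` mod `p` (else the polynomial `X^(p-5) - 1` has `p-1` roots in `ZMod p`).
    In `ZMod (p^2)`: `x ≡ y (p) → x^p ≡ y^p (p^2)` (`dvd_sub_pow_of_dvd_sub` or direct), so `b ↦ b^p` depends only on `b` mod `p`; multiplication by `g` permutes the non-zero classes mod `p`, hence
    `g^(p(p-5)) T = T`, and `g^(p(p-5)) - 1 ≡ g^(p-5) - 1` mod `p` is a unit mod `p^2`.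
(3) for `p ∤ b`, `b^(p-1) = 1 + p q`: `5 b^(2p-6) - 6 b^(p-5) + b^(p(p-5)) = b^(p-5) (5 (1+pq) - 6 + (1+pq)^(p-5)) ≡ b^(p-5) (5pq + (p-5) p q) ≡ 0` mod `p^2`
    (`b^(p(p-5)) = b^(p-5) * (b^(p-1))^(p-5)`).
So `5 S_{2p-6} ≡ 6 S_{p-5}` mod `p^2` and by (1) `p (5 B_{2p-6} - 6 B_{p-5})` has `v ≥ 2`. -/

set_option autoImplicit false

namespace MP_a3a416_nt.SJ5

open MP_a3a416_nt.SJ

private theorem ks_inv {p : ℕ} [hp : Fact p.Prime] {k : ℕ} (h : ¬ p ∣ k + 1) : val p (((k : ℚ) + 1)⁻¹) 0 := by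
  have h1 : ¬ (p : ℤ) ∣ ((k + 1 : ℕ) : ℤ) := by
    intro h2
    exact h (Int.natCast_dvd_natCast.mp h2)
  have := val.inv_of_not_dvd h1
  simpa using this

/-- the power sums -/
private theorem ks_sum {p k : ℕ} (hp : p.Prime) (hp11 : 11 ≤ p) (hk : k = p - 5 ∨ k = 2 * p - 6) :
    val p (∑ b ∈ Finset.range p, (b : ℚ) ^ k - p * _root_.bernoulli k) 2 := by
  have : Fact p.Prime := ⟨hp⟩
  have hkp : ¬ p ∣ k + 1 := by
    rintro ⟨c, hc⟩
    rcases hk with hk | hk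
    · rcases Nat.eq_zero_or_pos c with h0 | h0
      · subst h0
        omega
      · have : p * 1 ≤ p * c := Nat.mul_le_mul_left p h0
        omega
    · have h1 : c ≠ 0 := by
        rintro rfl
        omega
      have h2 : c ≠ 1 := by
        rintro rfl
        omega
      have : p * 2 ≤ p * c := Nat.mul_le_mul_left p (by omega)
      omega
  have hk0 : ((k : ℚ) + 1) ≠ 0 := by positivity
  have h1 : ∑ b ∈ Finset.range p, (b : ℚ) ^ k - p * _root_.bernoulli k =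
      ∑ i ∈ Finset.range k, _root_.bernoulli i * ((k + 1).choose i) * (p : ℚ) ^ (k + 1 - i) / (k + 1) := by
    rw [sum_range_pow, Finset.sum_range_succ, Nat.choose_succ_self_right, show k + 1 - k = 1 by omega]
    push_cast
    field_simp
    ring
  rw [h1]
  refine val.sum (fun i hi => ?_)
  rw [Finset.mem_range] at hi
  have hc : val p (((k + 1).choose i : ℕ) : ℚ) 0 := val.nat _
  have hq : val p ((p : ℚ) ^ (k + 1 - i)) ((k + 1 - i : ℕ) : ℤ) := by
    have := val.p_zpow (p := p) ((k + 1 - i : ℕ) : ℤ)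
    rwa [zpow_natCast] at this
  rw [div_eq_mul_inv]
  by_cases hi2 : i = p - 1
  · have hb : val p (_root_.bernoulli i) (-1) := by
      rw [hi2]
      exact val_bern_pred hp
    refine (((hb.mul hc).mul hq).mul (ks_inv hkp)).mono ?_
    have : p - 4 ≤ k + 1 - i := by omega
    have h7 : 3 ≤ k + 1 - i := by omega
    have : (3 : ℤ) ≤ ((k + 1 - i : ℕ) : ℤ) := by exact_mod_cast h7
    linarith
  · have hb : val p (_root_.bernoulli i) 0 := val_bern_two hp (by omega) hi2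
    refine (((hb.mul hc).mul hq).mul (ks_inv hkp)).mono ?_
    have h7 : 2 ≤ k + 1 - i := by omega
    have : (2 : ℤ) ≤ ((k + 1 - i : ℕ) : ℤ) := by exact_mod_cast h7
    linarith

private theorem ks_pow {p : ℕ} {a b : ℤ} (h : (p : ℤ) ∣ a - b) : (p : ℤ) ^ 2 ∣ a ^ p - b ^ p := by
  have := dvd_sub_pow_of_dvd_sub (p := p) h 1
  simpa using this

private theorem ks_T {p : ℕ} (hp : p.Prime) (hp11 : 11 ≤ p) :
    (p : ℤ) ^ 2 ∣ ∑ b ∈ Finset.range p, (b : ℤ) ^ (p * (p - 5)) := by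
  have : Fact p.Prime := ⟨hp⟩
  have h2 : (2 : ZMod p) ≠ 0 := by
    intro h
    have h' : ((2 : ℕ) : ZMod p) = 0 := by exact_mod_cast h
    rw [ZMod.natCast_eq_zero_iff] at h'
    exact absurd (Nat.le_of_dvd (by norm_num) h') (by omega)
  have hT : ∑ b ∈ Finset.range p, (b : ℤ) ^ (p * (p - 5)) = ∑ x : ZMod p, (x.val : ℤ) ^ (p * (p - 5)) := by
    symm
    refine Finset.sum_bij (fun x _ => x.val) ?_ ?_ ?_ ?_
    · intro x _
      exact Finset.mem_range.mpr (ZMod.val_lt x)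
    · intro x _ y _ hxy
      exact ZMod.val_injective p hxy
    · intro b hb
      rw [Finset.mem_range] at hb
      exact ⟨(b : ZMod p), Finset.mem_univ _, ZMod.val_cast_of_lt hb⟩
    · intro x _
      rfl
  rw [hT]
  set T : ℤ := ∑ x : ZMod p, (x.val : ℤ) ^ (p * (p - 5)) with hTd
  have h3 : T = ∑ x : ZMod p, ((2 * x).val : ℤ) ^ (p * (p - 5)) := by
    have := Equiv.sum_comp (Equiv.mulLeft₀ (2 : ZMod p) h2) (fun x => (x.val : ℤ) ^ (p * (p - 5)))
    rw [hTd, ← this]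
    rfl
  have h4 : (p : ℤ) ^ 2 ∣ 2 ^ (p * (p - 5)) * T - T := by
    nth_rewrite 2 [h3]
    rw [hTd, Finset.mul_sum, ← Finset.sum_sub_distrib]
    refine Finset.dvd_sum (fun x _ => ?_)
    rw [← mul_pow, pow_mul, pow_mul]
    have h5 : (p : ℤ) ∣ 2 * (x.val : ℤ) - ((2 * x).val : ℤ) := by
      rw [← ZMod.intCast_zmod_eq_zero_iff_dvd]
      push_cast
      rw [ZMod.natCast_zmod_val, ZMod.natCast_zmod_val, sub_self]
    exact (ks_pow h5).trans (sub_dvd_pow_sub_pow _ _ _)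
  have h5 : (p : ℤ) ^ 2 ∣ (2 ^ (p * (p - 5)) - 1) * T := by
    rw [sub_mul, one_mul]
    exact h4
  refine (IsCoprime.dvd_of_dvd_mul_left ?_ h5)
  refine IsCoprime.pow_left ?_
  have h6 : ¬ (p : ℤ) ∣ 2 ^ (p * (p - 5)) - 1 := by
    rw [← ZMod.intCast_zmod_eq_zero_iff_dvd]
    push_cast
    rw [pow_mul, ZMod.pow_card]
    intro h7
    have h8 : (2 : ZMod p) ^ (p - 1) = 1 := ZMod.pow_card_sub_one_eq_one h2
    rw [show p - 1 = (p - 5) + 4 by omega, pow_add, sub_eq_zero.mp h7, one_mul] at h8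
    have h9 : ((15 : ℕ) : ZMod p) = 0 := by
      push_cast
      linear_combination h8
    rw [ZMod.natCast_eq_zero_iff] at h9
    have h10 : p ∈ Nat.divisors 15 := Nat.mem_divisors.mpr ⟨h9, by norm_num⟩
    have h11 : Nat.divisors 15 = {1, 3, 5, 15} := by decide
    rw [h11] at h10
    simp only [Finset.mem_insert, Finset.mem_singleton] at h10
    rcases h10 with h | h | h | h
    · omega
    · omega
    · omega
    · subst h
      exact absurd hp (by norm_num)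
  exact (Irreducible.coprime_iff_not_dvd (Nat.prime_iff_prime_int.mp hp).irreducible).mpr h6

private theorem ks_lin (x : ℤ) (n : ℕ) : ∃ r : ℤ, (1 + x) ^ n = 1 + n * x + x ^ 2 * r := by
  induction n with
  | zero => exact ⟨0, by simp⟩
  | succ n ih =>
    obtain ⟨r, hr⟩ := ih
    refine ⟨n + r + x * r, ?_⟩
    rw [pow_succ, hr]
    push_cast
    ring

private theorem ks_b {p : ℕ} (hp : p.Prime) (hp11 : 11 ≤ p) {b : ℕ} (hb : b < p) :
    (p : ℤ) ^ 2 ∣ 5 * (b : ℤ) ^ (2 * p - 6) - 6 * (b : ℤ) ^ (p - 5) + (b : ℤ) ^ (p * (p - 5)) := by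
  have : Fact p.Prime := ⟨hp⟩
  rcases Nat.eq_zero_or_pos b with rfl | hb0
  · rw [Nat.cast_zero, zero_pow (by omega), zero_pow (by omega), zero_pow]
    · simp
    · have : p - 5 ≠ 0 := by omega
      exact Nat.mul_ne_zero hp.ne_zero this
  · have h1 : (p : ℤ) ∣ (b : ℤ) ^ (p - 1) - 1 := by
      rw [← ZMod.intCast_zmod_eq_zero_iff_dvd]
      push_cast
      rw [ZMod.pow_card_sub_one_eq_one, sub_self]
      intro h
      rw [ZMod.natCast_eq_zero_iff] at h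
      exact absurd (Nat.le_of_dvd hb0 h) (by omega)
    obtain ⟨q, hq⟩ := h1
    have hq' : (b : ℤ) ^ (p - 1) = 1 + p * q := by linear_combination hq
    obtain ⟨r, hr⟩ := ks_lin ((p : ℤ) * q) (p - 5)
    have e1 : (b : ℤ) ^ (2 * p - 6) = (b : ℤ) ^ (p - 5) * (1 + p * q) := by
      rw [← hq', ← pow_add]
      congr 1
      omega
    have e2 : (b : ℤ) ^ (p * (p - 5)) = (b : ℤ) ^ (p - 5) * (1 + ((p - 5 : ℕ) : ℤ) * (p * q) + (p * q) ^ 2 * r) := by
      rw [← hr, ← hq', ← pow_mul, ← pow_add]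
      congr 1
      obtain ⟨t, rfl⟩ : ∃ t, p = t + 5 := ⟨p - 5, by omega⟩
      rw [show t + 5 - 5 = t by omega, show t + 5 - 1 = t + 4 by omega]
      ring
    have e3 : ((p - 5 : ℕ) : ℤ) = p - 5 := by
      rw [Nat.cast_sub (by omega)]
      rfl
    rw [e1, e2, e3]
    exact ⟨(b : ℤ) ^ (p - 5) * (q + q ^ 2 * r), by ring⟩

theorem kummer5 {p : ℕ} (hp : p.Prime) (hp11 : 11 ≤ p) :
    val p (5 * _root_.bernoulli (2 * p - 6) - 6 * _root_.bernoulli (p - 5)) 1 := by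
  have : Fact p.Prime := ⟨hp⟩
  have h1 := ks_sum hp hp11 (k := p - 5) (Or.inl rfl)
  have h2 := ks_sum hp hp11 (k := 2 * p - 6) (Or.inr rfl)
  have h3 : (p : ℤ) ^ 2 ∣ 5 * (∑ b ∈ Finset.range p, (b : ℤ) ^ (2 * p - 6)) -
      6 * (∑ b ∈ Finset.range p, (b : ℤ) ^ (p - 5)) := by
    have h4 : (p : ℤ) ^ 2 ∣ ∑ b ∈ Finset.range p, (5 * (b : ℤ) ^ (2 * p - 6) - 6 * (b : ℤ) ^ (p - 5) +
        (b : ℤ) ^ (p * (p - 5))) := Finset.dvd_sum (fun b hb => ks_b hp hp11 (Finset.mem_range.mp hb))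
    rw [Finset.sum_add_distrib, Finset.sum_sub_distrib, ← Finset.mul_sum, ← Finset.mul_sum] at h4
    exact (dvd_add_left (ks_T hp hp11)).mp h4
  have h5 := val.of_dvd (k := 2) h3
  push_cast at h5
  have hp0 : (p : ℚ) ≠ 0 := Nat.cast_ne_zero.mpr hp.ne_zero
  have h6 : val p ((p : ℚ) * (5 * _root_.bernoulli (2 * p - 6) - 6 * _root_.bernoulli (p - 5))) 2 := by
    have h7 := (h5.sub (h2.int_mul 5)).add (h1.int_mul 6)
    push_cast at h7
    have e : (p : ℚ) * (5 * _root_.bernoulli (2 * p - 6) - 6 * _root_.bernoulli (p - 5)) =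
        5 * ∑ b ∈ Finset.range p, (b : ℚ) ^ (2 * p - 6) - 6 * ∑ b ∈ Finset.range p, (b : ℚ) ^ (p - 5) -
          5 * (∑ b ∈ Finset.range p, (b : ℚ) ^ (2 * p - 6) - p * _root_.bernoulli (2 * p - 6)) +
          6 * (∑ b ∈ Finset.range p, (b : ℚ) ^ (p - 5) - p * _root_.bernoulli (p - 5)) := by ring
    rw [e]
    exact h7
  have h8 := (val.p_zpow (p := p) (-1)).mul h6
  rw [zpow_neg_one, inv_mul_cancel_left₀ hp0] at h8
  exact h8.mono (by norm_num)

end MP_a3a416_nt.SJ5
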