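import Pool.Agent.Lib.MP_a3a416_nt.SJ5.RelOne
import Pool.Agent.Lib.MP_a3a416_nt.SJ5.Kummer

/-! # SJ5-RelTwo: the relation modulo `p^2` (R2)
PROOF (helper16's form). Write `x = tp X n`, `u = PowerSeries.X`, `n = x - u`, `z = C n - x^p` (`VS p 1 z`), `tp (Yp p) n = x - x^p = z + u`.
Put `T(n) = FR2 n - u FR3 n - (2 tp (SS (p-2)) n - 2 u tp (SS (p-3)) n - tp (SS (2p-3)) n)`.
(a) `VS p 2 (T(n) - T(n-1))` for all `n`: the bracket changes by `2 x^(p-2) - 2 u x^(p-3) - x^(2p-3) = 2 n x^(p-3) - x^(2p-3)` (`SS_step`).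
    `p ∣ n`: `FR2, FR3` do not change and `x^(p-3)`, `x^(2p-3)` are `VS p 2` (`VS_tp_pow_of_dvd`, `p - 3 ≥ 6`).
    `p ∤ n`: with `g x = 1` (`VS_inv`), `FR2 n - FR2 (n-1) = n g^2`, `FR3 n - FR3 (n-1) = n g^3`, `n g^2 - u n g^3 = n g^3 (x - u) = n^2 g^3`, and
    `n^2 g^3 - 2 n x^(p-3) + x^(2p-3) = g^3 (n - x^p)^2`  (`x^(p-3) = g^3 x^p`, `x^(2p-3) = g^3 x^(2p)`).
    By induction in both directions `VS p 2 (T(n) - T(0))`.
(b) `T(0) = -3 c u^4 - 2 SS (p-2)(u) + 2 u SS (p-3)(u) + SS (2p-3)(u)`, `g_j := [u^j] T(0)`: `g_0 = 0`, `g_1 = 0` (`B_{p-2} = B_{2p-3} = 0`; not needed), `g_3 = 0` (`B_{p-4} = 0`, `B_{2p-5} = 0`),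
    `g_4 = -3c - 2 (p-1).choose 4 B_{p-5}/(p-1) + 2 (p-2).choose 3 B_{p-5}/(p-2) + (2p-2).choose 4 B_{2p-6}/(2p-2)`; modulo `p`:
    `(p-1).choose 4/(p-1) = (p-2)(p-3)(p-4)/24 ≡ -1`, `(p-2).choose 3/(p-2) = (p-3)(p-4)/6 ≡ 2`, `(2p-2).choose 4/(2p-2) = (2p-3)(2p-4)(2p-5)/24 ≡ -5/2`, `5 B_{2p-6} ≡ 6 B_{p-5}` (`kummer5`), `B_{p-5} ≡ c`:
    `g_4 ≡ -3c + 2c + 4c - 3c = 0`, i.e. `val p g_4 1`.
(c) `FR2 n - tp (Yp p) n FR3 n = (FR2 n - u FR3 n) - z FR3 n`, and `z (FR3 n - (tp (SS (p-3)) n - e1 u))` is `VS p 2`, `e1 = (SS (p-3)).coeff 1` (`R1g`, `VS p 1 z`).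
    `T(0) ≡ g_0 + g_1 u + g_2 u^2 + g_3 u^3 + g_4 u^4` mod `u^5`, `g_3 = 0` and `g_4 u^4 ≡ g_4 y^4` mod `p^2` (`val p g_4 1`, `y - u = z`, `y^4 - u^4 = z (...)`).
    With `z = y - u`:  `A0 = 2 SS (p-2) - SS (2p-3) + C g_0 + C g_4 * Yp^4 - Yp * SS (p-3)`, `A1 = -SS (p-3) + C g_1 + C e1 * Yp`, `A2 = g_2 - e1`.
    [`-z (S - e1 u) = -y S + u S + e1 y u - e1 u^2`, `S = SS (p-3)`.]   Degrees: `4 p`, `p` (`SS_natDegree`; `2p-2 ≤ 4p`, `p + p-2 ≤ 4p`).
Equivalent variants of this computation are fine; only the statement matters. -/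

set_option autoImplicit false

open Polynomial

namespace MP_a3a416_nt.SJ5

open MP_a3a416_nt.SJ

private theorem r2_ch3 (q : ℕ) (hq : 2 ≤ q) :
    (q.choose 3 : ℚ) = (q : ℚ) * ((q : ℚ) - 1) * ((q : ℚ) - 2) / 6 := by
  have h1 := Nat.choose_succ_right_eq q 1
  have h2 := Nat.choose_succ_right_eq q 2
  have h1' : ((q.choose 2 : ℕ) : ℚ) * 2 = (q : ℚ) * ((q : ℚ) - 1) := by
    rw [Nat.choose_one_right] at h1
    have : ((q.choose (1 + 1) * (1 + 1) : ℕ) : ℚ) = ((q * (q - 1) : ℕ) : ℚ) := by rw [h1]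
    rw [Nat.cast_mul, Nat.cast_mul, Nat.cast_sub (by omega)] at this
    norm_num at this
    exact this
  have h2' : ((q.choose 3 : ℕ) : ℚ) * 3 = ((q.choose 2 : ℕ) : ℚ) * ((q : ℚ) - 2) := by
    have : ((q.choose (2 + 1) * (2 + 1) : ℕ) : ℚ) = ((q.choose 2 * (q - 2) : ℕ) : ℚ) := by rw [h2]
    rw [Nat.cast_mul, Nat.cast_mul, Nat.cast_sub (by omega)] at this
    norm_num at this
    exact this
  linear_combination (1 / 3 : ℚ) * h2' + (((q : ℚ) - 2) / 6) * h1'

private theorem r2_ch4 (q : ℕ) (hq : 3 ≤ q) :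
    (q.choose 4 : ℚ) = (q : ℚ) * ((q : ℚ) - 1) * ((q : ℚ) - 2) * ((q : ℚ) - 3) / 24 := by
  have h3 := Nat.choose_succ_right_eq q 3
  have h3' : ((q.choose 4 : ℕ) : ℚ) * 4 = ((q.choose 3 : ℕ) : ℚ) * ((q : ℚ) - 3) := by
    have : ((q.choose (3 + 1) * (3 + 1) : ℕ) : ℚ) = ((q.choose 3 * (q - 3) : ℕ) : ℚ) := by rw [h3]
    rw [Nat.cast_mul, Nat.cast_mul, Nat.cast_sub (by omega)] at this
    norm_num at this
    exact this
  have h2 := r2_ch3 q (by omega)
  linear_combination (1 / 4 : ℚ) * h3' + (((q : ℚ) - 3) / 4) * h2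

/-- `T(n)` -/
private noncomputable def r2T (c : ℚ) (p : ℕ) (n : ℤ) : PowerSeries ℚ :=
  FR2 c p n - PowerSeries.X * FR3 c p n - (PowerSeries.C 2 * tp (SS (p - 2)) n -
    PowerSeries.X * (PowerSeries.C 2 * tp (SS (p - 3)) n) - tp (SS (2 * p - 3)) n)

private theorem r2_VS_two {p : ℕ} : VS p 0 (PowerSeries.C (2 : ℚ)) := by
  refine VS.C ?_
  have := val.int (p := p) 2
  push_cast at this
  exact this

private theorem r2_step (c : ℚ) {p : ℕ} [hp : Fact p.Prime] (hp11 : 11 ≤ p) (n : ℤ) :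
    VS p 2 (r2T c p n - r2T c p (n - 1)) := by
  have s1 := SS_step (show 1 ≤ p - 2 by omega) n
  have s2 := SS_step (show 1 ≤ p - 3 by omega) n
  have s3 := SS_step (show 1 ≤ 2 * p - 3 by omega) n
  by_cases h : (p : ℤ) ∣ n
  · have e1 := FR2_step_dvd c h
    have e2 := FR3_step_dvd c h
    have h1 := VS_tp_pow_of_dvd (p := p) (show 6 ≤ p - 2 by omega) h
    have h2 := VS_tp_pow_of_dvd (p := p) (show 6 ≤ p - 3 by omega) h
    have h3 := VS_tp_pow_of_dvd (p := p) (show 6 ≤ 2 * p - 3 by omega) h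
    have e : -(PowerSeries.C 2 * tp (X ^ (p - 2)) n -
        PowerSeries.X * (PowerSeries.C 2 * tp (X ^ (p - 3)) n) - tp (X ^ (2 * p - 3)) n) =
        r2T c p n - r2T c p (n - 1) := by
      unfold r2T
      rw [e1, e2, s1, s2, s3]
      ring
    refine VS.congr ?_ e
    exact (((r2_VS_two.mul_left h1).sub (VS.X.mul_left (r2_VS_two.mul_left h2))).sub h3).neg
  · obtain ⟨g, hg, hgi⟩ := VS_inv (p := p) h
    have hgV : VS p 0 g := fun k _ => hgi k
    have e1 := FR2_step c h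
    have e2 := FR3_step c h
    set x := tp X n with hx
    set N : PowerSeries ℚ := PowerSeries.C (n : ℚ) with hN
    have hxN : x = N + PowerSeries.X := tp_X n
    have p1 : tp (X ^ (p - 2)) n = x ^ (p - 2) := tp_pow _ _ _
    have p2 : tp (X ^ (p - 3)) n = x ^ (p - 3) := tp_pow _ _ _
    have p3 : tp (X ^ (2 * p - 3)) n = x ^ (2 * p - 3) := tp_pow _ _ _
    have p4 : tp (X ^ p) n = x ^ p := tp_pow _ _ _
    have d2 : FR2 c p n - FR2 c p (n - 1) = N * g ^ 2 := by
      calc FR2 c p n - FR2 c p (n - 1) = (x * g) ^ 2 * (FR2 c p n - FR2 c p (n - 1)) := by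
            rw [hg]; ring
        _ = g ^ 2 * (x ^ 2 * (FR2 c p n - FR2 c p (n - 1))) := by ring
        _ = N * g ^ 2 := by rw [e1]; ring
    have d3 : FR3 c p n - FR3 c p (n - 1) = N * g ^ 3 := by
      calc FR3 c p n - FR3 c p (n - 1) = (x * g) ^ 3 * (FR3 c p n - FR3 c p (n - 1)) := by
            rw [hg]; ring
        _ = g ^ 3 * (x ^ 3 * (FR3 c p n - FR3 c p (n - 1))) := by ring
        _ = N * g ^ 3 := by rw [e2]; ring
    have q3 : x ^ (p - 3) = g ^ 3 * x ^ p := by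
      calc x ^ (p - 3) = (x * g) ^ 3 * x ^ (p - 3) := by rw [hg]; ring
        _ = g ^ 3 * (x ^ (p - 3) * x ^ 3) := by ring
        _ = g ^ 3 * x ^ p := by rw [← pow_add, show p - 3 + 3 = p by omega]
    have q2 : x ^ (p - 2) = x * x ^ (p - 3) := by
      rw [← pow_succ', show p - 3 + 1 = p - 2 by omega]
    have q1 : x ^ (2 * p - 3) = x ^ (p - 3) * x ^ p := by
      rw [← pow_add, show p - 3 + p = 2 * p - 3 by omega]
    have hC2 : (PowerSeries.C (2 : ℚ)) = (2 : PowerSeries ℚ) := by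
      rw [map_ofNat]
    have e : g ^ 3 * ((N - x ^ p) * (N - x ^ p)) = r2T c p n - r2T c p (n - 1) := by
      have hu : (PowerSeries.X : PowerSeries ℚ) = x - N := by rw [hxN]; ring
      have : r2T c p n - r2T c p (n - 1) = (FR2 c p n - FR2 c p (n - 1)) -
          PowerSeries.X * (FR3 c p n - FR3 c p (n - 1)) - (2 * x ^ (p - 2) -
            PowerSeries.X * (2 * x ^ (p - 3)) - x ^ (2 * p - 3)) := by
        unfold r2T
        rw [s1, s2, s3, p1, p2, p3, hC2]
        ring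
      rw [this, d2, d3, hu, q1, q2, q3]
      linear_combination (N * g ^ 2) * hg
    refine VS.congr ?_ e
    have hz := VS_z (p := p) (by omega) n
    rw [p4] at hz
    have hz2 : VS p 2 ((N - x ^ p) * (N - x ^ p)) := (hz.mul hz).mono (by norm_num)
    have hg3 : VS p 0 (g ^ 3) := by
      have := hgV.pow 3
      simpa using this
    exact hg3.mul_left hz2

private theorem r2_all (c : ℚ) {p : ℕ} [hp : Fact p.Prime] (hp11 : 11 ≤ p) (n : ℤ) :
    VS p 2 (r2T c p n - r2T c p 0) := by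
  induction n using Int.induction_on with
  | zero => rw [sub_self]; exact VS.zero 2
  | succ i ih =>
    have h := (r2_step c hp11 ((i : ℤ) + 1)).add ih
    rw [add_sub_cancel_right] at h
    exact h.congr (by ring)
  | pred i ih =>
    have h := ih.sub (r2_step c hp11 (-(i : ℤ)))
    exact h.congr (by ring)

private theorem r2_tp_zero (P : ℚ[X]) (k : ℕ) : PowerSeries.coeff k (tp P 0) = P.coeff k := by
  rw [coeff_tp]
  simp

private theorem r2_T0 (c : ℚ) (p : ℕ) (k : ℕ) : PowerSeries.coeff (k + 1) (r2T c p 0) =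
    (if k = 3 then -(3 * c) else 0) - (2 * (SS (p - 2)).coeff (k + 1) - 2 * (SS (p - 3)).coeff k -
      (SS (2 * p - 3)).coeff (k + 1)) := by
  unfold r2T
  rw [FR2_zero, FR3_zero]
  simp only [map_sub, map_neg, PowerSeries.coeff_succ_X_mul, PowerSeries.coeff_C_mul, r2_tp_zero,
    PowerSeries.coeff_X_pow]
  by_cases h : k = 3
  · subst h
    norm_num
    ring
  · rw [if_neg (by omega), if_neg h, if_neg h]
    ring

private theorem r2_c3 (c : ℚ) {p : ℕ} (hp : p.Prime) (hp11 : 11 ≤ p) :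
    PowerSeries.coeff 3 (r2T c p 0) = 0 := by
  have hodd : Odd p := hp.odd_of_ne_two (by omega)
  obtain ⟨r, hr⟩ := hodd
  have b1 : _root_.bernoulli (p - 4) = 0 :=
    bernoulli_eq_zero_of_odd ⟨r - 2, by omega⟩ (by omega)
  have b2 : _root_.bernoulli (2 * p - 5) = 0 :=
    bernoulli_eq_zero_of_odd ⟨p - 3, by omega⟩ (by omega)
  have h := r2_T0 c p 2
  rw [SS_coeff (by omega) (by omega), SS_coeff (by omega) (by omega),
    SS_coeff (by omega) (by omega), show p - 2 + 1 - (2 + 1) = p - 4 by omega,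
    show p - 3 + 1 - 2 = p - 4 by omega, show 2 * p - 3 + 1 - (2 + 1) = 2 * p - 5 by omega,
    b1, b2] at h
  rw [show (3 : ℕ) = 2 + 1 from rfl, h]
  norm_num

private theorem r2_c4 (c : ℚ) {p : ℕ} (hp : p.Prime) (hp11 : 11 ≤ p) (hpc : ¬ p ∣ c.den)
    (hf : Flat c p) : val p (PowerSeries.coeff 4 (r2T c p 0)) 1 := by
  have : Fact p.Prime := ⟨hp⟩
  have h := r2_T0 c p 3
  set B := _root_.bernoulli (p - 5) with hB
  set B' := _root_.bernoulli (2 * p - 6) with hB'
  have vB : val p B 0 := val_bern hp (by omega)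
  have vB' : val p B' 0 := val_bern_two hp (by omega) (by omega)
  have k5 := kummer5 hp hp11
  have hBc : val p (B - c) 1 := by
    have h1 : val p (((B - c).num : ℤ) : ℚ) ((1 : ℕ) : ℤ) := val.of_dvd (by rw [pow_one]; exact hf)
    have hnd : ¬ (p : ℤ) ∣ ((B - c).den : ℤ) := by
      intro hd
      have h2 : p ∣ (B - c).num.natAbs := Int.natCast_dvd.1 hf
      have h3 : p ∣ (B - c).den := by exact_mod_cast hd
      exact hp.one_lt.ne' (Nat.dvd_one.1 ((B - c).reduced ▸ Nat.dvd_gcd h2 h3))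
    have h2 := h1.mul (val.inv_of_not_dvd hnd)
    have h3 : (((B - c).num : ℤ) : ℚ) * ((((B - c).den : ℤ) : ℚ))⁻¹ = B - c := by
      rw [← div_eq_mul_inv]
      push_cast
      exact (B - c).num_div_den
    rw [h3] at h2
    exact h2.mono (by norm_num)
  rw [SS_coeff (by omega) (by omega), SS_coeff (by omega) (by omega),
    SS_coeff (by omega) (by omega), show p - 2 + 1 - (3 + 1) = p - 5 by omega,
    show p - 3 + 1 - 3 = p - 5 by omega, show 2 * p - 3 + 1 - (3 + 1) = 2 * p - 6 by omega,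
    show p - 2 + 1 = p - 1 by omega, show p - 3 + 1 = p - 2 by omega,
    show 2 * p - 3 + 1 = 2 * p - 2 by omega, r2_ch4 _ (by omega), r2_ch3 _ (by omega),
    r2_ch4 _ (by omega), Nat.cast_sub (by omega : 1 ≤ p), Nat.cast_sub (by omega : 2 ≤ p),
    Nat.cast_sub (by omega : 3 ≤ p), Nat.cast_sub (by omega : 2 ≤ 2 * p),
    Nat.cast_sub (by omega : 3 ≤ 2 * p), ← hB, ← hB'] at h
  set P : ℚ := (p : ℚ) with hP
  have hP11 : (11 : ℚ) ≤ P := by rw [hP]; exact_mod_cast hp11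
  have n1 : P - 1 ≠ 0 := by intro h0; linarith
  have n2 : P - 2 ≠ 0 := by intro h0; linarith
  have n3 : 2 * P - 2 ≠ 0 := by intro h0; linarith
  have e : PowerSeries.coeff 4 (r2T c p 0) = (((24 : ℤ) : ℚ))⁻¹ * (72 * (B - c) -
      12 * (5 * B' - 6 * B) + P * ((-2 * P ^ 2 + 26 * P - 108) * B +
        (8 * P ^ 2 - 48 * P + 94) * B')) := by
    rw [show (4 : ℕ) = 3 + 1 from rfl, h, if_pos rfl]
    push_cast
    rw [show P - 2 + 1 = P - 1 by ring, show P - 3 + 1 = P - 2 by ring,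
      show 2 * P - 3 + 1 = 2 * P - 2 by ring]
    field_simp
    ring
  rw [e]
  have v24 : val p ((((24 : ℤ) : ℚ))⁻¹) 0 := by
    refine val.inv_of_not_dvd ?_
    intro hd
    have h1 : p ∣ 24 := by exact_mod_cast hd
    have h2 : p ∣ 2 ^ 3 * 3 := by simpa using h1
    rcases (hp.dvd_mul).1 h2 with h3 | h3
    · have := Nat.le_of_dvd (by norm_num) (hp.dvd_of_dvd_pow h3)
      omega
    · have := Nat.le_of_dvd (by norm_num) h3
      omega
  have vP : val p P 1 := by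
    have := val.of_dvd (p := p) (n := (p : ℤ)) (k := 1) (by rw [pow_one])
    push_cast at this
    exact this
  have v1 : val p (72 * (B - c)) 1 := by
    have := hBc.int_mul 72
    push_cast at this
    exact this
  have v2 : val p (12 * (5 * B' - 6 * B)) 1 := by
    have := k5.int_mul 12
    push_cast at this
    exact this
  have v3 : val p ((-2 * P ^ 2 + 26 * P - 108) * B) 0 := by
    have := vB.int_mul (-2 * (p : ℤ) ^ 2 + 26 * (p : ℤ) - 108)
    push_cast at this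
    exact this
  have v4 : val p ((8 * P ^ 2 - 48 * P + 94) * B') 0 := by
    have := vB'.int_mul (8 * (p : ℤ) ^ 2 - 48 * (p : ℤ) + 94)
    push_cast at this
    exact this
  have v5 := vP.mul (v3.add v4)
  exact (v24.mul ((v1.sub v2).add v5)).mono (by norm_num)


theorem R2 (c : ℚ) {p : ℕ} (hp : p.Prime) (hp11 : 11 ≤ p) (hpc : ¬ p ∣ c.den) (hf : Flat c p) :
    ∃ (A0 A1 : ℚ[X]) (A2 : ℚ), A0.natDegree ≤ 4 * p ∧ A1.natDegree ≤ p ∧ ∀ n : ℤ,
      VS p 2 (FR2 c p n - tp (Yp p) n * FR3 c p n - tp A0 n - tp A1 n * PowerSeries.X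
        - PowerSeries.C A2 * PowerSeries.X ^ 2) := by
  have : Fact p.Prime := ⟨hp⟩
  set g0 := PowerSeries.coeff 0 (r2T c p 0) with hg0
  set g1 := PowerSeries.coeff 1 (r2T c p 0) with hg1
  set g2 := PowerSeries.coeff 2 (r2T c p 0) with hg2
  set g4 := PowerSeries.coeff 4 (r2T c p 0) with hg4
  set e1 := (SS (p - 3)).coeff 1 with he1
  have hYdeg : (Yp p).natDegree ≤ p := by
    unfold Yp
    refine (Polynomial.natDegree_sub_le _ _).trans ?_
    rw [Polynomial.natDegree_X_pow, Polynomial.natDegree_X]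
    exact max_le (by omega) le_rfl
  have d1 := SS_natDegree (p - 2)
  have d2 := SS_natDegree (p - 3)
  have d3 := SS_natDegree (2 * p - 3)
  refine ⟨C 2 * SS (p - 2) - SS (2 * p - 3) + C g0 + C g4 * Yp p ^ 4 - Yp p * SS (p - 3),
    -SS (p - 3) + C g1 + C e1 * Yp p, g2 - e1, ?_, ?_, fun n => ?_⟩
  · refine natDegree_sub_le_of_le (natDegree_add_le_of_degree_le (natDegree_add_le_of_degree_le
      (natDegree_sub_le_of_le ?_ ?_ |>.trans (max_self (4 * p)).le) ?_) ?_) ?_ |>.trans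
        (max_self (4 * p)).le
    · exact (natDegree_C_mul_le _ _).trans (by omega)
    · omega
    · rw [natDegree_C]; omega
    · exact (natDegree_C_mul_le _ _).trans ((natDegree_pow_le).trans (by omega))
    · exact natDegree_mul_le.trans (by omega)
  · refine natDegree_add_le_of_degree_le (natDegree_add_le_of_degree_le ?_ ?_) ?_
    · rw [natDegree_neg]; omega
    · rw [natDegree_C]; omega
    · exact (natDegree_C_mul_le _ _).trans hYdeg
  · have hz := VS_z (p := p) (by omega) n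
    set z : PowerSeries ℚ := PowerSeries.C (n : ℚ) - tp (X ^ p) n with hzdef
    have hy : tp (Yp p) n = z + PowerSeries.X := by
      rw [Yp, tp_sub, tp_X, hzdef]
      ring
    have hC2 : (PowerSeries.C (2 : ℚ)) = (2 : PowerSeries ℚ) := by
      rw [map_ofNat]
    have hR := R1g c hp hp11 hpc hf n
    rw [← he1] at hR
    have hT := r2_all c hp11 n
    have h4 := r2_c4 c hp hp11 hpc hf
    rw [← hg4] at h4
    have h3 := r2_c3 c hp hp11
    have hT0 : VS p 2 (r2T c p 0 - (PowerSeries.C g0 + PowerSeries.C g1 * PowerSeries.X +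
        PowerSeries.C g2 * PowerSeries.X ^ 2 + PowerSeries.C g4 * PowerSeries.X ^ 4)) := by
      intro k hk
      have : PowerSeries.coeff k (r2T c p 0 - (PowerSeries.C g0 + PowerSeries.C g1 * PowerSeries.X +
        PowerSeries.C g2 * PowerSeries.X ^ 2 + PowerSeries.C g4 * PowerSeries.X ^ 4)) = 0 := by
        simp only [map_sub, map_add, PowerSeries.coeff_C_mul, PowerSeries.coeff_X_pow,
          PowerSeries.coeff_X, PowerSeries.coeff_C]
        interval_cases k
        · simp [← hg0]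
        · simp [← hg1]
        · simp [← hg2]
        · simp [h3]
        · simp [← hg4]
      rw [this]
      exact val.zero 2
    have hU : VS p 0 (PowerSeries.X : PowerSeries ℚ) := VS.X
    have hz0 : VS p 0 z := hz.mono (by norm_num)
    have hw : VS p 0 (z ^ 3 + 4 * z ^ 2 * PowerSeries.X + 6 * z * PowerSeries.X ^ 2 +
        4 * PowerSeries.X ^ 3) := by
      have t : ∀ a : ℤ, VS p 0 (PowerSeries.C (a : ℚ)) := fun a => VS.C (val.int a)
      have t4 := t 4
      have t6 := t 6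
      push_cast at t4 t6
      rw [map_ofNat] at t4 t6
      have z2 : VS p 0 (z ^ 2) := by simpa using hz0.pow 2
      have z3 : VS p 0 (z ^ 3) := by simpa using hz0.pow 3
      exact ((z3.add ((t4.mul_left z2).mul_left hU)).add
        ((t6.mul_left hz0).mul_left (VS.X_pow 2))).add (t4.mul_left (VS.X_pow 3))
    have hy4 : VS p 2 (PowerSeries.C g4 * (z * (z ^ 3 + 4 * z ^ 2 * PowerSeries.X +
        6 * z * PowerSeries.X ^ 2 + 4 * PowerSeries.X ^ 3))) := by
      have := (VS.C h4).mul (hz.mul_right hw)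
      exact this.mono (by norm_num)
    have hzR : VS p 2 (z * (FR3 c p n - tp (SS (p - 3)) n + PowerSeries.C e1 * PowerSeries.X)) :=
      (hz.mul hR).mono (by norm_num)
    refine (((hT.add hT0).sub hy4).sub hzR).congr ?_
    have hTn : r2T c p n = FR2 c p n - PowerSeries.X * FR3 c p n - (2 * tp (SS (p - 2)) n -
        PowerSeries.X * (2 * tp (SS (p - 3)) n) - tp (SS (2 * p - 3)) n) := by
      unfold r2T
      rw [hC2]
    rw [hTn]
    simp only [tp_sub, tp_add, tp_neg, tp_mul, tp_pow, tp_C, map_sub, hy, hC2]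
    ring

end MP_a3a416_nt.SJ5
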