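import Pool.Agent.Lib.MP_a3a416_nt.SJ5.Defs2

/-! # SJ5-RowOp: the row operation at the nodes with a polar part. -/

set_option autoImplicit false

open Polynomial

namespace MP_a3a416_nt.SJ5

open MP_a3a416_nt.SJ

/-- multiplication of a jet in `v = u / p` by `(1 + s v)^3`. -/
noncomputable def Bmat (p : ℕ) (s : ℚ) : Matrix (Fin 5) (Fin 5) ℚ := fun l j =>
  if (j : ℕ) ≤ l then
    PowerSeries.coeff ((l : ℕ) - j) ((1 + PowerSeries.C s * PowerSeries.X) ^ 3 : PowerSeries ℚ)
      * (p : ℚ) ^ (j : ℕ)
  else 0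

/-- the block at the node `n`. -/
noncomputable def Bn (p : ℕ) (n : ℤ) : Matrix (Fin 5) (Fin 5) ℚ := if InO p n then Bmat p (sg n) else 1

/-- the row operation. -/
noncomputable def Bop (p N : ℕ) : Matrix (Row N) (Row N) ℚ := fun r r' =>
  if r.1 = r'.1 then Bn p (node r) r.2 r'.2 else 0

private theorem RowOp_det_Bmat (p : ℕ) (s : ℚ) : (Bmat p s).det = (p : ℚ) ^ 10 := by
  rw [Matrix.det_of_isLowerTriangular]
  · have h : ∀ i : Fin 5, Bmat p s i i = (p : ℚ) ^ (i : ℕ) := by
      intro i
      simp [Bmat]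
    simp only [h]
    rw [Fin.prod_univ_five]
    simp
    ring
  · intro i j hij
    have hij' : (i : ℕ) < j := hij
    unfold Bmat
    rw [if_neg (by omega)]

private theorem RowOp_det (p N : ℕ) : (Bop p N).det = ∏ i : Fin (2 * N + 1),
    (if InO p (((i : ℕ) : ℤ) - N) then (p : ℚ) ^ 10 else 1) := by
  have h : Bop p N = (Matrix.blockDiagonal
      (fun i : Fin (2 * N + 1) => Bn p (((i : ℕ) : ℤ) - N))).submatrix
        (Equiv.prodComm _ _) (Equiv.prodComm _ _) := by
    ext r r'
    simp only [Bop, Matrix.submatrix_apply, Matrix.blockDiagonal_apply, Equiv.prodComm_apply,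
      Prod.snd_swap, Prod.fst_swap, node]
  rw [h, Matrix.det_submatrix_equiv_self, Matrix.det_blockDiagonal]
  apply Finset.prod_congr rfl
  intro i _
  unfold Bn
  split_ifs with h1
  · exact RowOp_det_Bmat _ _
  · exact Matrix.det_one

private theorem RowOp_card (p N : ℕ) :
    (((Finset.univ.filter (fun i : Fin (2 * N + 1) => InO p (((i : ℕ) : ℤ) - N))).card : ℕ) : ℤ)
      = nO N p := by
  have h1 : (Finset.univ.filter (fun i : Fin (2 * N + 1) => InO p (((i : ℕ) : ℤ) - N))).card =
      ((Finset.range (2 * N + 1)).filter (fun i : ℕ => InO p ((i : ℤ) - N))).card := by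
    rw [Finset.card_filter, Finset.card_filter]
    exact Fin.sum_univ_eq_sum_range (fun i : ℕ => if InO p ((i : ℤ) - N) then 1 else 0) _
  rw [h1]
  unfold nO
  split_ifs with hpN
  · have h2 : (Finset.range (2 * N + 1)).filter (fun i : ℕ => InO p ((i : ℤ) - N)) =
        Finset.range (N - p) ∪ Finset.Ico (N + p) (2 * N + 1) := by
      ext i
      rw [Finset.mem_filter, Finset.mem_range, Finset.mem_union, Finset.mem_range,
        Finset.mem_Ico]
      unfold InO
      omega
    rw [h2, Finset.card_union_of_disjoint, Finset.card_range, Nat.card_Ico]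
    · omega
    · rw [Finset.disjoint_left]
      intro i
      simp only [Finset.mem_range, Finset.mem_Ico]
      omega
  · have h2 : (Finset.range (2 * N + 1)).filter (fun i : ℕ => InO p ((i : ℤ) - N)) = ∅ := by
      rw [Finset.filter_eq_empty_iff]
      intro i hi
      simp only [Finset.mem_range] at hi
      simp only [InO]
      omega
    rw [h2]
    simp

theorem det_Bop {p : ℕ} (hp : p.Prime) (N : ℕ) :
    (Bop p N).det ≠ 0 ∧ padicValRat p (Bop p N).det = 10 * nO N p := by
  have : Fact p.Prime := ⟨hp⟩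
  have hp0 : (p : ℚ) ≠ 0 := by exact_mod_cast hp.ne_zero
  have h : (Bop p N).det = (p : ℚ) ^ (10 *
      (Finset.univ.filter (fun i : Fin (2 * N + 1) => InO p (((i : ℕ) : ℤ) - N))).card) := by
    rw [RowOp_det, Finset.prod_ite, Finset.prod_const, Finset.prod_const_one, mul_one, ← pow_mul]
  refine ⟨by rw [h]; exact pow_ne_zero _ hp0, ?_⟩
  rw [h, padicValRat.pow, padicValRat.self hp.one_lt, ← RowOp_card]
  push_cast
  ring

theorem Bop_MS {p N : ℕ} {κ : Type*} (Φ : κ → ℤ → PowerSeries ℚ) (r : Row N) (x : κ) :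
    (Bop p N * (MS Φ : Matrix (Row N) κ ℚ)) r x = PowerSeries.coeff r.2
      (if InO p (node r) then RS p (sg (node r)) (Φ x (node r)) else Φ x (node r)) := by
  have h0 : (Bop p N * (MS Φ : Matrix (Row N) κ ℚ)) r x
      = ∑ j : Fin 5, Bn p (node r) r.2 j * PowerSeries.coeff (j : ℕ) (Φ x (node r)) := by
    rw [Matrix.mul_apply, Fintype.sum_prod_type]
    rw [Finset.sum_eq_single r.1]
    · apply Finset.sum_congr rfl
      intro j _
      simp [Bop, MS, node]
    · intro i _ hi
      apply Finset.sum_eq_zero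
      intro j _
      simp only [Bop]
      rw [if_neg (fun h => hi h.symm), zero_mul]
    · intro h
      exact absurd (Finset.mem_univ _) h
  rw [h0]
  unfold Bn
  split_ifs with h1
  · unfold RS
    rw [PowerSeries.coeff_mul]
    have hl : ((r.2 : Fin 5) : ℕ) < 5 := r.2.isLt
    set l : ℕ := ((r.2 : Fin 5) : ℕ) with hldef
    rw [← Finset.Nat.sum_antidiagonal_swap]
    rw [Finset.Nat.sum_antidiagonal_eq_sum_range_succ_mk]
    simp only [Prod.swap_prod_mk, PowerSeries.coeff_rescale]
    have h2 : ∀ j : Fin 5, Bmat p (sg (node r)) r.2 j * PowerSeries.coeff (j : ℕ) (Φ x (node r))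
        = (fun j : ℕ => if j ≤ l then
            PowerSeries.coeff (l - j) ((1 + PowerSeries.C (sg (node r)) * PowerSeries.X) ^ 3 :
              PowerSeries ℚ) * ((p : ℚ) ^ j * PowerSeries.coeff j (Φ x (node r))) else 0) j := by
      intro j
      simp only [Bmat, ← hldef]
      split_ifs
      · ring
      · ring
    rw [Finset.sum_congr rfl (fun j _ => h2 j)]
    rw [Fin.sum_univ_eq_sum_range (fun j : ℕ => if j ≤ l then
            PowerSeries.coeff (l - j) ((1 + PowerSeries.C (sg (node r)) * PowerSeries.X) ^ 3 :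
              PowerSeries ℚ) * ((p : ℚ) ^ j * PowerSeries.coeff j (Φ x (node r))) else 0) 5]
    rw [← Finset.sum_filter]
    apply Finset.sum_congr
    · ext j
      simp only [Finset.mem_filter, Finset.mem_range]
      omega
    · intro j _
      rfl
  · simp [Matrix.one_apply]

/-- sum of the row potentials -/
theorem sum_apot (p N : ℕ) :
    ∑ r : Row N, (if InO p (node r) then ((r.2 : ℕ) : ℤ) - 3 else 0) = -5 * nO N p := by
  rw [Fintype.sum_prod_type]
  have h : ∀ i : Fin (2 * N + 1),
      ∑ j : Fin 5, (if InO p (node ((i, j) : Row N)) then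
        ((((i, j) : Row N).2 : ℕ) : ℤ) - 3 else 0)
        = if InO p (((i : ℕ) : ℤ) - N) then -5 else 0 := by
    intro i
    by_cases hi : InO p (((i : ℕ) : ℤ) - N)
    · rw [if_pos hi]
      have h5 : ∀ j : Fin 5, (if InO p (node ((i, j) : Row N)) then
        ((((i, j) : Row N).2 : ℕ) : ℤ) - 3 else 0) = ((j : ℕ) : ℤ) - 3 := fun j => if_pos hi
      rw [Finset.sum_congr rfl (fun j _ => h5 j), Fin.sum_univ_five]
      simp
    · rw [if_neg hi]
      exact Finset.sum_eq_zero (fun j _ => if_neg hi)
  rw [Finset.sum_congr rfl (fun i _ => h i), ← Finset.sum_filter, Finset.sum_const, nsmul_eq_mul,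
    RowOp_card]
  ring

end MP_a3a416_nt.SJ5
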