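import Pool.Agent.Lib.MP_a3a416_nt.SJ5.ColDeg
import Pool.Agent.Lib.MP_a3a416_nt.SJ5.ColZ
import Pool.Agent.Lib.MP_a3a416_nt.SJ5.ColUW
import Pool.Agent.Lib.MP_a3a416_nt.SJ5.ColFG
import Pool.Agent.Lib.MP_a3a416_nt.SJ5.RelTwo
import Pool.Agent.Lib.MP_a3a416_nt.SJ5.RowOp

/-! # SJ5-FlatCol: the bound at the flat primes `p > N/2` by column operations
PROOF. Compare the end of `SJ/FlatMid.lean`.  `R2` gives `A0, A1, A2` with `RelA`.  `sdet_colop` with `Pc`, `Qc` (`Pc_monic`, `Qc_deg`): the matrix with columns `NC ... β i` and the unit columns has the same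
determinant.  Multiply by `Bop p N` (`sdet_mul_left`, `det_Bop`).  By `Bop_MS` the entry at the row `r = (n,k)` of the column `x` is `[u^k]` of the column or `[v^k] RS` of it; `LC_colz, ..., LC_colf`
(at the nodes `|n| ≤ N < 2p`) give `val` with the potentials `a_r = if InO p n then k - 3 else 0` and `bc ... β i`; unit columns: `uc ρ n` is `VS p 0`, so `LC.of_VS`, potential `0`.
`val_sdet`; `sum_apot`: `-5 nO`; the determinant of `Bop` costs `10 nO`.  Sum of the column potentials: z: `∑_{i<K} (i/p - 4 : ℕ)`; u: `L`; w: `m1 + m3` (`2 m1 + (m3 - m1)`, `m1 ≤ m3 ≤ D`);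
f: `m2 + D` (`m2 ≤ D`); g: `L`. -/

set_option autoImplicit false

open Polynomial

namespace MP_a3a416_nt.SJ5

open MP_a3a416_nt.SJ

/-- number of `i < D` with `i < m` -/
private theorem sum_ite_lt (D m : ℕ) (h : m ≤ D) :
    ∑ i ∈ Finset.range D, (if i < m then (1 : ℤ) else 0) = m := by
  rw [← Finset.sum_filter, Finset.sum_const, nsmul_eq_mul, mul_one]
  have : (Finset.range D).filter (fun i => i < m) = Finset.range m := by
    ext i
    simp only [Finset.mem_filter, Finset.mem_range]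
    omega
  rw [this, Finset.card_range]

private theorem sum_bc {K L D p m1 m2 m3 c0 : ℕ} (h13 : m1 ≤ m3) (h3D : m3 ≤ D) (h2D : m2 ≤ D) :
    ∑ x : Col K L D ⊕ Fin c0, Sum.elim (fun y : Col K L D => bc p m1 m2 m3 y.1 y.2)
      (fun _ => (0 : ℤ)) x =
      ∑ i ∈ Finset.range K, ((i / p - 4 : ℕ) : ℤ) + 2 * L + D + m3 + m1 + m2 := by
  rw [Fintype.sum_sum_type]
  simp only [Sum.elim_inl, Sum.elim_inr, Finset.sum_const_zero, add_zero]
  rw [Fintype.sum_sigma, sum_blk]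
  have hz : ∑ i : Fin (len K L D .z), bc p m1 m2 m3 .z i =
      ∑ i ∈ Finset.range K, ((i / p - 4 : ℕ) : ℤ) := by
    rw [Finset.sum_range]
    rfl
  have hu : ∑ i : Fin (len K L D .u), bc p m1 m2 m3 .u i = (L : ℤ) := by
    show ∑ i : Fin L, (1 : ℤ) = L
    simp
  have hg : ∑ i : Fin (len K L D .g), bc p m1 m2 m3 .g i = (L : ℤ) := by
    show ∑ i : Fin L, (1 : ℤ) = L
    simp
  have hw : ∑ i : Fin (len K L D .w), bc p m1 m2 m3 .w i = (m1 : ℤ) + m3 := by
    show ∑ i : Fin D, (if (i : ℕ) < m1 then (2 : ℤ) else if (i : ℕ) < m3 then 1 else 0) = _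
    rw [← sum_ite_lt D m1 (h13.trans h3D), ← sum_ite_lt D m3 h3D, ← Finset.sum_add_distrib,
      Finset.sum_range]
    refine Finset.sum_congr rfl fun i _ => ?_
    by_cases h1 : (i : ℕ) < m1
    · rw [if_pos h1, if_pos h1, if_pos (by omega)]
      norm_num
    · rw [if_neg h1, if_neg h1, zero_add]
  have hf : ∑ i : Fin (len K L D .f), bc p m1 m2 m3 .f i = (D : ℤ) + m2 := by
    show ∑ i : Fin D, (if (i : ℕ) < m2 then (2 : ℤ) else 1) = _
    have h1 : (D : ℤ) = ∑ i ∈ Finset.range D, (1 : ℤ) := by simp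
    rw [← sum_ite_lt D m2 h2D]
    conv_rhs => rw [h1]
    rw [← Finset.sum_add_distrib, Finset.sum_range]
    refine Finset.sum_congr rfl fun i _ => ?_
    by_cases h1 : (i : ℕ) < m2
    · rw [if_pos h1, if_pos h1]
      norm_num
    · rw [if_neg h1, if_neg h1, add_zero]
  rw [hz, hu, hg, hw, hf]
  ring

theorem val_flat_col (c : ℚ) {N K L D c0 : ℕ} (rr : Fin c0 → Row N)
    (e : (Col K L D ⊕ Fin c0) ≃ Row N) {p : ℕ} (hp : p.Prime) (hp11 : 11 ≤ p) (hN2 : N < 2 * p)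
    (hpc : ¬ p ∣ c.den) (hf : Flat c p) (m1 m2 m3 : ℕ) (hDL : D ≤ L) (hLK : L + p ≤ K)
    (h13 : m1 ≤ m3) (h3D : m3 ≤ D) (h2D : m2 ≤ D) (h3K : m3 = 0 ∨ m3 + 2 * p ≤ K)
    (h1L : m1 = 0 ∨ m1 + p ≤ L) (h2 : m2 = 0 ∨ (m2 + p ≤ L ∧ m2 + 4 * p ≤ K)) :
    val p (sdet e (Vh c K L D rr))
      (∑ i ∈ Finset.range K, ((i / p - 4 : ℕ) : ℤ) + 2 * L + D + m3 + m1 + m2 - 15 * nO N p) := by
  have : Fact p.Prime := ⟨hp⟩
  obtain ⟨A0, A1, A2, hA0, hA1, hA⟩ := R2 c hp hp11 hpc hf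
  have hA' : RelA c p A0 A1 A2 := hA
  -- the column operations
  have hcol : sdet e (MS (colf (fun (y : Col K L D) n => NC c p m1 m2 m3 A0 A1 A2 y.1 y.2 n) rr)) =
      sdet e (Vh c K L D rr) :=
    sdet_colop c rr e (Pc p) (fun β i => Pc_monic (by omega) β i) (Qc p m1 m2 m3 A0 A1 A2)
      (fun β i γ hi => Qc_deg hp11 hDL hLK h13 h3K h1L h2 hA0 hA1 β i γ hi)
  set Φ : (Col K L D ⊕ Fin c0) → ℤ → PowerSeries ℚ :=
    colf (fun (y : Col K L D) n => NC c p m1 m2 m3 A0 A1 A2 y.1 y.2 n) rr with hΦ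
  set b : (Col K L D ⊕ Fin c0) → ℤ := Sum.elim (fun y : Col K L D => bc p m1 m2 m3 y.1 y.2)
      (fun _ => (0 : ℤ)) with hb
  have hLC : ∀ (r : Row N) (x : Col K L D ⊕ Fin c0), LC p (node r) (b x) (Φ x (node r)) := by
    intro r x
    have hn := node_bd r
    have hn1 : -(2 * (p : ℤ)) ≤ node r := by omega
    have hn2 : node r < 2 * p := by omega
    rcases x with ⟨β, i⟩ | j
    · show LC p (node r) (bc p m1 m2 m3 β i) (NC c p m1 m2 m3 A0 A1 A2 β i (node r))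
      cases β
      · exact LC_colz c hp hp11 m1 m2 m3 A0 A1 A2 i (node r)
      · exact LC_colu c hp hp11 m1 m2 m3 A0 A1 A2 i (node r)
      · exact LC_colw c hp hp11 m1 m2 m3 A0 A1 A2 i (node r)
      · exact LC_colf c hp hp11 hpc hf m1 m2 m3 hA' i (node r) hn1 hn2
      · exact LC_colg c hp hp11 hpc hf m1 m2 m3 A0 A1 A2 i (node r) hn1 hn2
    · show LC p (node r) 0 (uc (rr j) (node r))
      apply LC.of_VS
      unfold uc
      split_ifs
      · exact VS.X_pow _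
      · exact VS.zero _
  have hM : val p (sdet e (Bop p N * (MS Φ : Matrix (Row N) (Col K L D ⊕ Fin c0) ℚ)))
      (∑ r : Row N, (if InO p (node r) then ((r.2 : ℕ) : ℤ) - 3 else 0) + ∑ x, b x) := by
    apply val_sdet e _ (fun r : Row N => if InO p (node r) then ((r.2 : ℕ) : ℤ) - 3 else 0) b
    intro r x
    rw [Bop_MS]
    have h := hLC r x
    unfold LC at h
    by_cases hO : InO p (node r)
    · rw [if_pos hO] at h
      rw [if_pos hO, if_pos hO]
      exact h r.2 r.2.2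
    · rw [if_neg hO] at h
      rw [if_neg hO, if_neg hO, zero_add]
      exact h r.2 r.2.2
  rw [sdet_mul_left, hcol, sum_apot, hb, sum_bc h13 h3D h2D] at hM
  obtain ⟨hB0, hBv⟩ := det_Bop hp N
  by_cases h0 : sdet e (Vh c K L D rr) = 0
  · exact Or.inl h0
  right
  have h1 := hM.le_of_ne (mul_ne_zero hB0 h0)
  rw [padicValRat.mul hB0 h0, hBv] at h1
  linarith

end MP_a3a416_nt.SJ5
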