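import Pool.Agent.Lib.MP_a3a416_nt.SJ5.Polar
import Pool.Agent.Lib.MP_a3a416_nt.SJ5.RelOne

/-! # SJ5-FlatRank: the rank bound at the flat primes `p > N`
PROOF. Compare `val_flat_big` in `SJ/FlatBig.lean`.  For `|n| ≤ N < p` there is no polar part (`gser_f_eq`, `gser_g_eq`, `¬ InO p n`).  Modulo `p` (i.e. `VS p 1` of the difference), with `y = X - X^p = Yp p`, `tp y n - u = z`, `VS p 1 z`:
`JS .u (X^i) ≡ JS .z (X^i y)`; `JS .g (X^i) ≡ JS .z (X^i SS (p-3)) - e1 JS .u (X^i) ≡ JS .z (X^i (SS (p-3) - e1 y))` (`R1g`, `e1 = (SS (p-3)).coeff 1`, `p`-integral by `SS_val`);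
`JS .f (X^i) ≡ JS .z (X^i SS (p-2)) - c2 JS .w (X^i)` (`R1f`, `c2 = (SS (p-2)).coeff 2`).
`val_sdet_of_rank` (SJ/SDet) with `σ = Fin (max K (L+p)) ⊕ Fin D ⊕ Fin c0`: `W` = columns `JS .z (X^l)`, `JS .w (X^i)`, unit columns (all `p`-integral), `Q` = the coefficients
(`p`-integral rationals: coefficients of `X^i`, `X^i y`, `X^i SS (p-2)`, `X^i (SS (p-3) - e1 y)`; degrees `< max K (L+p)`: `i + p < L + p`, and `D ≤ L`).
Number of columns minus number of columns of `W`: `K + 2L + 2D + c0 - max K (L+p) - D - c0 = min (2L + D) (K + L + D - p)`. -/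

set_option autoImplicit false

open Polynomial

namespace MP_a3a416_nt.SJ5

open MP_a3a416_nt.SJ

/-- the polynomial part of a column modulo `p` -/
private noncomputable def frP (p : ℕ) (e1 : ℚ) {K L D c0 : ℕ} : Col K L D ⊕ Fin c0 → ℚ[X]
  | .inl ⟨.z, i⟩ => X ^ (i : ℕ)
  | .inl ⟨.u, i⟩ => X ^ (i : ℕ) * Yp p
  | .inl ⟨.w, _⟩ => 0
  | .inl ⟨.f, i⟩ => X ^ (i : ℕ) * SS (p - 2)
  | .inl ⟨.g, i⟩ => X ^ (i : ℕ) * (SS (p - 3) - C e1 * Yp p)
  | .inr _ => 0

/-- the part `u^2 x^i` of a column modulo `p` -/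
private def frA (d2 : ℚ) {K L D c0 : ℕ} : Col K L D ⊕ Fin c0 → ℕ → ℚ
  | .inl ⟨.z, _⟩, _ => 0
  | .inl ⟨.u, _⟩, _ => 0
  | .inl ⟨.w, i⟩, l => if (i : ℕ) = l then 1 else 0
  | .inl ⟨.f, i⟩, l => if (i : ℕ) = l then -d2 else 0
  | .inl ⟨.g, _⟩, _ => 0
  | .inr _, _ => 0

private theorem fr_Yp_deg (p : ℕ) (hp : 1 ≤ p) : (Yp p).natDegree ≤ p := by
  unfold Yp
  refine (natDegree_sub_le _ _).trans ?_
  rw [natDegree_X_pow, natDegree_X]
  exact max_le (by omega) le_rfl

private theorem fr_deg {p : ℕ} (hp : 3 ≤ p) (e1 : ℚ) {K L D c0 : ℕ} (hDL : D ≤ L)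
    (x : Col K L D ⊕ Fin c0) : (frP p e1 x).natDegree < max K (L + p) := by
  have hpos : 0 < max K (L + p) := lt_max_of_lt_right (by omega)
  have hY := fr_Yp_deg p (by omega)
  have h2 := SS_natDegree (p - 2)
  have h3 := SS_natDegree (p - 3)
  rcases x with ⟨β, i⟩ | j
  · cases β with
    | z =>
      have hi : (i : ℕ) < K := i.2
      simp only [frP, natDegree_X_pow]
      exact lt_max_of_lt_left hi
    | u =>
      have hi : (i : ℕ) < L := i.2
      simp only [frP]
      refine lt_of_le_of_lt natDegree_mul_le ?_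
      rw [natDegree_X_pow]
      exact lt_max_of_lt_right (by omega)
    | w =>
      simp only [frP, natDegree_zero]
      exact hpos
    | f =>
      have hi : (i : ℕ) < D := i.2
      simp only [frP]
      refine lt_of_le_of_lt natDegree_mul_le ?_
      rw [natDegree_X_pow]
      exact lt_max_of_lt_right (by omega)
    | g =>
      have hi : (i : ℕ) < L := i.2
      simp only [frP]
      refine lt_of_le_of_lt natDegree_mul_le ?_
      rw [natDegree_X_pow]
      have h4 : (SS (p - 3) - C e1 * Yp p).natDegree ≤ p := by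
        refine (natDegree_sub_le _ _).trans (max_le (by omega) ?_)
        exact (natDegree_C_mul_le _ _).trans hY
      exact lt_max_of_lt_right (by omega)
  · simp only [frP, natDegree_zero]
    exact hpos

private theorem fr_val_mul {p : ℕ} (i : ℕ) (P : ℚ[X]) (h : ∀ j, val p (P.coeff j) 0) (j : ℕ) :
    val p ((X ^ i * P).coeff j) 0 := by
  rw [coeff_X_pow_mul']
  split_ifs
  · exact h _
  · exact val.zero _

private theorem fr_Yp_val {p : ℕ} (q : ℕ) (j : ℕ) : val p ((Yp q).coeff j) 0 := by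
  have : Yp q = ((X - X ^ q : ℤ[X])).map (Int.castRingHom ℚ) := by
    unfold Yp
    simp
  rw [this, coeff_map]
  exact val.int _

private theorem fr_Yp_tp (p : ℕ) (n : ℤ) : tp (Yp p) n =
    (PowerSeries.C (n : ℚ) - tp (X ^ p) n) + PowerSeries.X := by
  rw [Yp, tp_sub, tp_X]
  ring

private theorem fr_eq_sum (P : ℚ[X]) {M : ℕ} (hP : P.natDegree < M) (n : ℤ) (k : ℕ) :
    PowerSeries.coeff k (tp P n) =
      ∑ l : Fin M, PowerSeries.coeff k (tp (X ^ (l : ℕ)) n) * P.coeff l := by
  conv_lhs => rw [P.as_sum_range' M hP]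
  rw [tp_sum, map_sum, Finset.sum_range]
  refine Finset.sum_congr rfl fun l _ => ?_
  rw [← C_mul_X_pow_eq_monomial, tp_mul, tp_C, PowerSeries.coeff_C_mul, mul_comm]

private theorem fr_sumA {D : ℕ} (i : Fin D) (w : ℕ → ℚ) (b : ℚ) :
    ∑ l : Fin D, w l * (if (i : ℕ) = (l : ℕ) then b else 0) = b * w i := by
  rw [Finset.sum_eq_single i]
  · simp [mul_comm]
  · intro l _ hl
    rw [if_neg (fun h => hl (Fin.ext h.symm)), mul_zero]
  · simp

/-- a column and its approximation -/
private theorem fr_col {c : ℚ} {N K L D c0 : ℕ} {p : ℕ} [hpf : Fact p.Prime] (hp11 : 11 ≤ p)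
    (hpN : N < p) (hpc : ¬ p ∣ c.den) (hf : Flat c p) (rr : Fin c0 → Row N) (r : Row N)
    (x : Col K L D ⊕ Fin c0) :
    val p (Vh c K L D rr r x - (PowerSeries.coeff r.2
        (tp (frP p ((SS (p - 3)).coeff 1) x) (node r)) +
      ∑ l : Fin D, PowerSeries.coeff r.2 (tp (X ^ (l : ℕ)) (node r) * PowerSeries.X ^ 2) *
        frA ((SS (p - 2)).coeff 2) x l +
      ∑ j : Fin c0, (if r = rr j then (1 : ℚ) else 0) * (if x = .inr j then 1 else 0))) 1 := by
  have hp : p.Prime := hpf.out
  have hk : (r.2 : ℕ) < 5 := r.2.2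
  obtain ⟨hn1, hn2⟩ := node_bd r
  set n := node r with hn
  have hO : ¬ InO p n := by
    unfold InO
    omega
  have gf : gser c .f n = FR2 c p n := by
    rw [gser_f_eq c hp.pos n (by omega) (by omega), if_neg hO, add_zero]
  have gg : gser c .g n = FR3 c p n := by
    rw [gser_g_eq c hp.pos n (by omega) (by omega), if_neg hO, add_zero]
  have hz := VS_z (p := p) (by omega) n
  have hzero : ∀ y : Col K L D, ∑ j : Fin c0, (if r = rr j then (1 : ℚ) else 0) *
      (if (Sum.inl y : Col K L D ⊕ Fin c0) = .inr j then 1 else 0) = 0 := by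
    intro y
    refine Finset.sum_eq_zero fun j _ => ?_
    simp
  rcases x with ⟨β, i⟩ | j
  · rw [hzero, add_zero]
    have hV : Vh c K L D rr r (.inl ⟨β, i⟩) =
        PowerSeries.coeff r.2 (tp (X ^ (i : ℕ)) n * gser c β n) := rfl
    rw [hV]
    cases β with
    | z =>
      have h0 : ∑ l : Fin D, PowerSeries.coeff r.2 (tp (X ^ (l : ℕ)) n * PowerSeries.X ^ 2) *
          frA ((SS (p - 2)).coeff 2) (.inl ⟨.z, i⟩ : Col K L D ⊕ Fin c0) l = 0 :=
        Finset.sum_eq_zero fun l _ => by simp [frA]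
      rw [h0]
      left
      simp [frP, gser]
    | u =>
      have h0 : ∑ l : Fin D, PowerSeries.coeff r.2 (tp (X ^ (l : ℕ)) n * PowerSeries.X ^ 2) *
          frA ((SS (p - 2)).coeff 2) (.inl ⟨.u, i⟩ : Col K L D ⊕ Fin c0) l = 0 :=
        Finset.sum_eq_zero fun l _ => by simp [frA]
      rw [h0, add_zero, ← map_sub]
      refine (VS.congr ((VS_tp_X_pow (p := p) (i : ℕ) n).mul_left hz).neg ?_) _ hk
      simp only [frP, gser]
      rw [tp_mul, fr_Yp_tp]
      ring
    | w =>
      have h0 : ∑ l : Fin D, PowerSeries.coeff r.2 (tp (X ^ (l : ℕ)) n * PowerSeries.X ^ 2) *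
          frA ((SS (p - 2)).coeff 2) (.inl ⟨.w, i⟩ : Col K L D ⊕ Fin c0) l =
          1 * PowerSeries.coeff r.2 (tp (X ^ (i : ℕ)) n * PowerSeries.X ^ 2) :=
        fr_sumA i (fun l => PowerSeries.coeff r.2 (tp (X ^ l) n * PowerSeries.X ^ 2)) 1
      rw [h0]
      left
      simp [frP, gser, tp_zero]
    | f =>
      have h0 : ∑ l : Fin D, PowerSeries.coeff r.2 (tp (X ^ (l : ℕ)) n * PowerSeries.X ^ 2) *
          frA ((SS (p - 2)).coeff 2) (.inl ⟨.f, i⟩ : Col K L D ⊕ Fin c0) l =
          (-(SS (p - 2)).coeff 2) *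
            PowerSeries.coeff r.2 (tp (X ^ (i : ℕ)) n * PowerSeries.X ^ 2) :=
        fr_sumA i (fun l => PowerSeries.coeff r.2 (tp (X ^ l) n * PowerSeries.X ^ 2)) _
      rw [h0, ← PowerSeries.coeff_C_mul, ← map_add, ← map_sub]
      refine (VS.congr ((VS_tp_X_pow (p := p) (i : ℕ) n).mul_left
        (R1f c hp hp11 hpc hf n)) ?_) _ hk
      simp only [frP]
      rw [tp_mul, gf, map_neg]
      ring
    | g =>
      have h0 : ∑ l : Fin D, PowerSeries.coeff r.2 (tp (X ^ (l : ℕ)) n * PowerSeries.X ^ 2) *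
          frA ((SS (p - 2)).coeff 2) (.inl ⟨.g, i⟩ : Col K L D ⊕ Fin c0) l = 0 :=
        Finset.sum_eq_zero fun l _ => by simp [frA]
      rw [h0, add_zero, ← map_sub]
      have he1 : VS p 0 (PowerSeries.C ((SS (p - 3)).coeff 1)) :=
        VS.C (SS_val hp (by omega) (by omega) 1)
      refine (VS.congr ((VS_tp_X_pow (p := p) (i : ℕ) n).mul_left
        ((R1g c hp hp11 hpc hf n).add (he1.mul_left hz))) ?_) _ hk
      simp only [frP]
      rw [tp_mul, tp_sub, tp_mul, tp_C, fr_Yp_tp, gg]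
      ring
  · left
    have h0 : ∑ l : Fin D, PowerSeries.coeff r.2 (tp (X ^ (l : ℕ)) n * PowerSeries.X ^ 2) *
        frA ((SS (p - 2)).coeff 2) (.inr j : Col K L D ⊕ Fin c0) l = 0 :=
      Finset.sum_eq_zero fun l _ => by simp [frA]
    have h1 : ∑ j' : Fin c0, (if r = rr j' then (1 : ℚ) else 0) *
        (if (Sum.inr j : Col K L D ⊕ Fin c0) = .inr j' then 1 else 0) =
        if r = rr j then (1 : ℚ) else 0 := by
      rw [Finset.sum_eq_single j]
      · simp
      · intro j' _ hj'
        have : (Sum.inr j : Col K L D ⊕ Fin c0) ≠ .inr j' := fun h => hj' (Sum.inr.inj h).symm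
        simp [this]
      · simp
    rw [h0, h1]
    have hV : Vh c K L D rr r (.inr j) = if r = rr j then (1 : ℚ) else 0 := VP_inr _ _ _ _ _
    rw [hV]
    simp [frP, tp_zero]

theorem val_flat_rank (c : ℚ) {N K L D c0 : ℕ} (rr : Fin c0 → Row N)
    (e : (Col K L D ⊕ Fin c0) ≃ Row N) {p : ℕ} (hp : p.Prime) (hp11 : 11 ≤ p) (hpN : N < p)
    (hpc : ¬ p ∣ c.den) (hf : Flat c p) (hDL : D ≤ L) :
    val p (sdet e (Vh c K L D rr)) (min (2 * (L : ℤ) + D) ((K : ℤ) + L + D - p)) := by
  have : Fact p.Prime := ⟨hp⟩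
  set M := max K (L + p) with hM
  set e1 := (SS (p - 3)).coeff 1 with he1
  set d2 := (SS (p - 2)).coeff 2 with hd2
  have v1 : val p e1 0 := SS_val hp (by omega) (by omega) 1
  have v2 : val p d2 0 := SS_val hp (by omega) (by omega) 2
  set W : Matrix (Row N) (Fin M ⊕ Fin D ⊕ Fin c0) ℚ := fun r y =>
    Sum.elim (fun l : Fin M => PowerSeries.coeff r.2 (tp (X ^ (l : ℕ)) (node r)))
      (Sum.elim (fun l : Fin D =>
          PowerSeries.coeff r.2 (tp (X ^ (l : ℕ)) (node r) * PowerSeries.X ^ 2))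
        (fun j : Fin c0 => if r = rr j then (1 : ℚ) else 0)) y with hW
  set Q : Matrix (Fin M ⊕ Fin D ⊕ Fin c0) (Col K L D ⊕ Fin c0) ℚ := fun y x =>
    Sum.elim (fun l : Fin M => (frP p e1 x).coeff l)
      (Sum.elim (fun l : Fin D => frA d2 x l)
        (fun j : Fin c0 => if x = .inr j then (1 : ℚ) else 0)) y with hQ
  have hmain := val_sdet_of_rank (p := p) e (Vh c K L D rr) W Q ?_ ?_ ?_
  · refine hmain.mono ?_
    rw [Fintype.card_sum, Fintype.card_sum, Fintype.card_sum, card_col, Fintype.card_fin,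
      Fintype.card_fin, Fintype.card_fin]
    push_cast
    rw [hM]
    push_cast
    omega
  · rintro x (l | l | j)
    · exact val_coeff_tp_X_pow _ _ _
    · exact (VS_tp_X_pow (p := p) (l : ℕ) (node x)).mul_left (VS.X_pow 2) _ x.2.2
    · simp only [hW, Sum.elim_inr]
      split_ifs
      · exact val.one
      · exact val.zero _
  · rintro (l | l | j) x
    · simp only [hQ, Sum.elim_inl]
      rcases x with ⟨β, i⟩ | j
      · cases β with
        | z =>
          simp only [frP]
          rw [coeff_X_pow]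
          split_ifs
          · exact val.one
          · exact val.zero _
        | u => exact fr_val_mul _ _ (fr_Yp_val p) _
        | w => simp only [frP, coeff_zero]; exact val.zero _
        | f => exact fr_val_mul _ _ (SS_val hp (by omega) (by omega)) _
        | g =>
          refine fr_val_mul _ _ (fun j => ?_) _
          rw [coeff_sub, coeff_C_mul]
          exact (SS_val hp (by omega) (by omega) j).sub
            ((v1.mul (fr_Yp_val p j)).mono (by norm_num))
      · simp only [frP, coeff_zero]; exact val.zero _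
    · simp only [hQ, Sum.elim_inl, Sum.elim_inr]
      rcases x with ⟨β, i⟩ | j
      · cases β with
        | z => exact val.zero _
        | u => exact val.zero _
        | w =>
          simp only [frA]
          split_ifs
          · exact val.one
          · exact val.zero _
        | f =>
          simp only [frA]
          split_ifs
          · exact v2.neg
          · exact val.zero _
        | g => exact val.zero _
      · exact val.zero _
    · simp only [hQ, Sum.elim_inr]
      split_ifs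
      · exact val.one
      · exact val.zero _
  · intro r y
    have h := fr_col (c := c) (K := K) (L := L) (D := D) hp11 hpN hpc hf rr r y
    refine (congrArg (fun z => val p z 1) ?_).mp h
    rw [Matrix.mul_apply, Fintype.sum_sum_type, Fintype.sum_sum_type]
    simp only [hW, hQ, Sum.elim_inl, Sum.elim_inr]
    rw [fr_eq_sum (frP p ((SS (p - 3)).coeff 1) y) (M := M) (fr_deg (by omega) _ hDL y)]
    ring

end MP_a3a416_nt.SJ5
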