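import Pool.Agent.Lib.MP_a3a416_nt.SJ5.GDefs
import Pool.Agent.Lib.MP_a3a416_nt.SJ.FSL

/-! # SJ5-FArch: asymptotics of the archimedean bound -/

set_option autoImplicit false

namespace MP_a3a416_nt.SJ5

open Finset Filter Asymptotics MP_a3a416_nt.SJ

/-- `sum_{j < M} log (2j)!` and `sum_{i < 2M} log i!` -/
theorem S2_SL (M : ℕ) : |2 * S2 M - SL (2 * M)| ≤ M * Real.log (2 * M) := by
  have h : ∀ M : ℕ, 2 * S2 M - SL (2 * M) = - ∑ j ∈ range M, Real.log (2 * j + 1 : ℕ) := by
    intro M
    induction M with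
    | zero => simp [S2, SL]
    | succ M ih =>
      have e1 : S2 (M + 1) = S2 M + Real.log ((2 * M).factorial : ℝ) := by
        unfold S2
        rw [sum_range_succ]
      have e2 : SL (2 * (M + 1)) = SL (2 * M) + Real.log ((2 * M).factorial : ℝ) +
          Real.log ((2 * M + 1).factorial : ℝ) := by
        unfold SL
        rw [show 2 * (M + 1) = 2 * M + 1 + 1 by ring, sum_range_succ, sum_range_succ]
      have e3 : Real.log ((2 * M + 1).factorial : ℝ) =
          Real.log (2 * M + 1 : ℕ) + Real.log ((2 * M).factorial : ℝ) := by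
        rw [Nat.factorial_succ, Nat.cast_mul,
          Real.log_mul (by positivity) (by exact_mod_cast (2 * M).factorial_ne_zero)]
      rw [sum_range_succ, e1, e2, e3]
      linarith
  rw [h, abs_neg, abs_of_nonneg (sum_nonneg fun j _ => Real.log_natCast_nonneg _)]
  calc ∑ j ∈ range M, Real.log (2 * j + 1 : ℕ) ≤ ∑ j ∈ range M, Real.log (2 * M) := by
        refine sum_le_sum fun j hj => ?_
        rw [mem_range] at hj
        refine Real.log_le_log (by positivity) ?_
        have : 2 * j + 1 ≤ 2 * M := by omega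
        exact_mod_cast this
    _ = M * Real.log (2 * M) := by rw [sum_const, card_range, nsmul_eq_mul]

private theorem mul_log_littleO (a b : ℝ) (ha : 0 < a) :
    (fun m : ℕ => (b * m) * Real.log (a * m)) =o[atTop] (fun m : ℕ => (m : ℝ) ^ 2) := by
  have h1 : (fun x : ℝ => (b * x) * Real.log (a * x)) =o[atTop] (fun x : ℝ => x ^ 2) := by
    have ht : Tendsto (fun x : ℝ => a * x) atTop atTop := tendsto_id.const_mul_atTop ha
    have h8 : (fun x : ℝ => Real.log (a * x)) =o[atTop] (fun x : ℝ => a * x) :=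
      Real.isLittleO_log_id_atTop.comp_tendsto ht
    have h9 : (fun x : ℝ => b * x) =O[atTop] (fun x : ℝ => x) :=
      (isBigO_refl (fun x : ℝ => x) atTop).const_mul_left b
    have h10 := h9.mul_isLittleO h8
    have h11 : (fun x : ℝ => x * (a * x)) =O[atTop] (fun x : ℝ => x ^ 2) := by
      refine ((isBigO_refl (fun x : ℝ => x ^ 2) atTop).const_mul_left a).congr_left
        fun x => ?_
      ring
    exact h10.trans_isBigO h11
  exact h1.comp_tendsto tendsto_natCast_atTop_atTop

theorem lin_littleO (b : ℝ) : (fun m : ℕ => b * (m : ℝ)) =o[atTop] (fun m : ℕ => (m : ℝ) ^ 2) := by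
  have h7 : (fun x : ℝ => b * x) =o[atTop] (fun x : ℝ => x ^ 2) := by
    have h8 := isLittleO_pow_pow_atTop_of_lt (𝕜 := ℝ) (show 1 < 2 by norm_num)
    refine (h8.const_mul_left b).congr_left fun x => ?_
    ring
  exact h7.comp_tendsto tendsto_natCast_atTop_atTop

theorem const_littleO (b : ℝ) : (fun _ : ℕ => b) =o[atTop] (fun m : ℕ => (m : ℝ) ^ 2) := by
  have h7 : (fun _ : ℝ => b) =o[atTop] (fun x : ℝ => x ^ 2) := by
    have h8 := isLittleO_pow_pow_atTop_of_lt (𝕜 := ℝ) (show 0 < 2 by norm_num)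
    refine (h8.const_mul_left b).congr_left fun x => ?_
    simp
  exact h7.comp_tendsto tendsto_natCast_atTop_atTop

theorem S2_asy (c : ℝ) (hc : 0 < c) (M : ℕ → ℕ) (e : ℝ) (he : 0 ≤ e)
    (hM : ∀ m : ℕ, |(M m : ℝ) - c * m| ≤ e) :
    Asy (fun m => S2 (M m)) (c ^ 2) (c ^ 2 * (Real.log (2 * c) - 3 / 2)) := by
  have h1 : Asy (fun m => SL (2 * M m)) ((2 * c) ^ 2 / 2)
      ((2 * c) ^ 2 / 2 * (Real.log (2 * c) - 3 / 2)) := by
    refine SL_asy (2 * c) (by positivity) (fun m => 2 * M m) (2 * e) fun m => ?_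
    push_cast
    have : 2 * (M m : ℝ) - 2 * c * m = 2 * ((M m : ℝ) - c * m) := by ring
    rw [this, abs_mul, abs_of_pos (by norm_num : (0 : ℝ) < 2)]
    linarith [hM m]
  have h2 : Asy (fun m => 2 * S2 (M m) - SL (2 * M m)) 0 0 := by
    refine Asy.of_isLittleO ?_
    have h3 := mul_log_littleO (2 * (c + e)) (c + e) (by positivity)
    refine IsBigO.trans_isLittleO (IsBigO.of_bound 1 ?_) h3
    filter_upwards [eventually_ge_atTop 1] with m hm
    have hmR : (1 : ℝ) ≤ m := by exact_mod_cast hm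
    have hMm : (M m : ℝ) ≤ (c + e) * m := by
      have := (abs_le.mp (hM m)).2
      nlinarith
    rw [Real.norm_eq_abs, Real.norm_eq_abs, one_mul]
    refine (S2_SL (M m)).trans ?_
    rcases Nat.eq_zero_or_pos (M m) with h0 | h0
    · rw [h0]
      simp only [Nat.cast_zero, zero_mul]
      positivity
    · have hM1 : (1 : ℝ) ≤ M m := by exact_mod_cast h0
      refine le_trans ?_ (le_abs_self _)
      have hl : Real.log (2 * (M m : ℝ)) ≤ Real.log (2 * (c + e) * m) := by
        apply Real.log_le_log (by positivity)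
        nlinarith
      have hl0 : 0 ≤ Real.log (2 * (M m : ℝ)) := Real.log_nonneg (by linarith)
      exact mul_le_mul hMm hl hl0 (by positivity)
  have h3 := (h1.add h2).const_mul (1 / 2)
  refine (h3.congr (Eventually.of_forall fun m => by ring)).cast (by ring) (by ring)

theorem UB_asy : Asy UB 5675 (3240 * (Real.log 36 - 3 / 2) - 40 * (Real.log 4 - 3 / 2) -
    640 * Real.log 2 - 640 * (Real.log 16 - 3 / 2) + 3115 * Real.log 10) := by
  have h1 := S2_asy 18 (by norm_num) (fun m => 18 * m + 1) 1 (by norm_num) fun m => by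
    push_cast
    have : 18 * (m : ℝ) + 1 - 18 * m = 1 := by ring
    rw [this]; norm_num
  have h2 := S2_asy 2 (by norm_num) (fun m => 2 * m) 0 (by norm_num) fun m => by
    push_cast
    simp
  have h3 := SL_asy 16 (by norm_num) (fun m => 16 * m + 1) 1 fun m => by
    push_cast
    have : 16 * (m : ℝ) + 1 - 16 * m = 1 := by ring
    rw [this]; norm_num
  -- the quadratic terms
  have h4 : Asy (fun m : ℕ => ((16 * (m : ℝ) + 1) * (16 * m) * Real.log 2)) 0
      (256 * Real.log 2) := by
    unfold Asy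
    refine (lin_littleO (16 * Real.log 2)).congr_left fun m => ?_
    ring
  have h5 : Asy (fun m : ℕ => ((((90 * m : ℝ) - 100) - (16 * m + 1)) ^ 2 / 2 +
      2 * (((35 * m : ℝ) - (16 * m + 1)) ^ 2 / 2) +
      2 * (((20 * m : ℝ) - (16 * m + 1)) ^ 2 / 2)) * Real.log ((20 * m : ℝ) / 2)) 3115
      (3115 * Real.log 10) := by
    unfold Asy
    have g1 := mul_log_littleO 10 1 (by norm_num)
    have g2 : (fun m : ℕ => (-7520 * (m : ℝ) + 10205 / 2)) =O[atTop] (fun m : ℕ => 1 * (m : ℝ)) := by
      apply IsBigO.of_bound 20000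
      filter_upwards [eventually_ge_atTop 1] with m hm
      have hmR : (1 : ℝ) ≤ m := by exact_mod_cast hm
      rw [Real.norm_eq_abs, Real.norm_eq_abs, abs_of_nonneg (by positivity : 0 ≤ 1 * (m : ℝ)), abs_le]
      constructor <;> linarith
    have g3 : (fun m : ℕ => (-7520 * (m : ℝ) + 10205 / 2) * Real.log (10 * m)) =o[atTop]
        (fun m : ℕ => (m : ℝ) ^ 2) :=
      (g2.mul (isBigO_refl _ _)).trans_isLittleO g1
    refine g3.congr' ?_ (EventuallyEq.refl _ _)
    filter_upwards [eventually_ge_atTop 1] with m hm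
    have hm0 : (m : ℝ) ≠ 0 := by
      have : (0 : ℝ) < m := by exact_mod_cast hm
      exact this.ne'
    have e1 : (20 * (m : ℝ)) / 2 = 10 * m := by ring
    have e2 : Real.log (10 * (m : ℝ)) = Real.log 10 + Real.log m := by
      rw [Real.log_mul (by norm_num) hm0]
    rw [e1, e2]
    ring
  have h := ((((h1.sub h2).const_mul 2).const_mul 5).sub
    ((h4.add (h3.const_mul 2)).const_mul (5 / 2))).add h5
  refine (h.congr (Eventually.of_forall fun m => ?_)).cast (by norm_num) ?_
  · simp only [UB]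
  · have e1 : (2 : ℝ) * 18 = 36 := by norm_num
    have e2 : (2 : ℝ) * 2 = 4 := by norm_num
    rw [e1, e2]
    ring

theorem final_num :
    (3240 * (Real.log 36 - 3 / 2) - 40 * (Real.log 4 - 3 / 2) -
      640 * Real.log 2 - 640 * (Real.log 16 - 3 / 2) + 3115 * Real.log 10) + 60 <
    4050 * (Real.log 90 - 3 / 2) + 1225 * (Real.log 35 - 3 / 2) + 400 * (Real.log 20 - 3 / 2) -
      (4954.5 + 18 / 7 + 589.5 + 64) - 415 * 12 + 13877 / 42 + 7725 := by
  have h36 : Real.log 36 = 2 * Real.log 2 + 2 * Real.log 3 := by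
    have : (36 : ℝ) = 2 ^ 2 * 3 ^ 2 := by norm_num
    rw [this, Real.log_mul (by norm_num) (by norm_num), Real.log_pow, Real.log_pow]
    push_cast; ring
  have h4 : Real.log 4 = 2 * Real.log 2 := by
    have : (4 : ℝ) = 2 ^ 2 := by norm_num
    rw [this, Real.log_pow]
    push_cast; ring
  have h16 : Real.log 16 = 4 * Real.log 2 := by
    have : (16 : ℝ) = 2 ^ 4 := by norm_num
    rw [this, Real.log_pow]
    push_cast; ring
  have h10 : Real.log 10 = Real.log 2 + Real.log 5 := by
    have : (10 : ℝ) = 2 * 5 := by norm_num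
    rw [this, Real.log_mul (by norm_num) (by norm_num)]
  have h90 : Real.log 90 = Real.log 2 + 2 * Real.log 3 + Real.log 5 := by
    have : (90 : ℝ) = 2 * 3 ^ 2 * 5 := by norm_num
    rw [this, Real.log_mul (by norm_num) (by norm_num), Real.log_mul (by norm_num) (by norm_num),
      Real.log_pow]
    push_cast; ring
  have h35 : Real.log 35 = Real.log 5 + Real.log 7 := by
    have : (35 : ℝ) = 5 * 7 := by norm_num
    rw [this, Real.log_mul (by norm_num) (by norm_num)]
  have h20 : Real.log 20 = 2 * Real.log 2 + Real.log 5 := by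
    have : (20 : ℝ) = 2 ^ 2 * 5 := by norm_num
    rw [this, Real.log_mul (by norm_num) (by norm_num), Real.log_pow]
    push_cast; ring
  have e1 : 12 * Real.log 3 = 19 * Real.log 2 + Real.log (531441 / 524288) := by
    rw [Real.log_div (by norm_num) (by norm_num)]
    have a1 : (531441 : ℝ) = 3 ^ 12 := by norm_num
    have a2 : (524288 : ℝ) = 2 ^ 19 := by norm_num
    rw [a1, a2, Real.log_pow, Real.log_pow]
    push_cast; ring
  have e2 : Real.log 5 = 4 * Real.log 3 - 4 * Real.log 2 - Real.log (81 / 80) := by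
    rw [Real.log_div (by norm_num) (by norm_num)]
    have a1 : (81 : ℝ) = 3 ^ 4 := by norm_num
    have a2 : (80 : ℝ) = 2 ^ 4 * 5 := by norm_num
    rw [a1, a2, Real.log_mul (by norm_num) (by norm_num), Real.log_pow, Real.log_pow]
    push_cast; ring
  have e3 : 4 * Real.log 7 = 5 * Real.log 2 + Real.log 3 + 2 * Real.log 5 +
      Real.log (2401 / 2400) := by
    rw [Real.log_div (by norm_num) (by norm_num)]
    have a1 : (2401 : ℝ) = 7 ^ 4 := by norm_num
    have a2 : (2400 : ℝ) = 2 ^ 5 * 3 * 5 ^ 2 := by norm_num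
    rw [a1, a2, Real.log_mul (by norm_num) (by norm_num), Real.log_mul (by norm_num) (by norm_num),
      Real.log_pow, Real.log_pow, Real.log_pow]
    push_cast; ring
  have b1 : 1 - (531441 / 524288 : ℝ)⁻¹ ≤ Real.log (531441 / 524288) :=
    Real.one_sub_inv_le_log_of_pos (by norm_num)
  have b1' : Real.log (531441 / 524288) ≤ 531441 / 524288 - 1 :=
    Real.log_le_sub_one_of_pos (by norm_num)
  have b2 : Real.log (81 / 80) ≤ 81 / 80 - 1 := Real.log_le_sub_one_of_pos (by norm_num)
  have b2' : 1 - (81 / 80 : ℝ)⁻¹ ≤ Real.log (81 / 80) :=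
    Real.one_sub_inv_le_log_of_pos (by norm_num)
  have b3 : 1 - (2401 / 2400 : ℝ)⁻¹ ≤ Real.log (2401 / 2400) :=
    Real.one_sub_inv_le_log_of_pos (by norm_num)
  have c1 := Real.log_two_gt_d9
  have c2 := Real.log_two_lt_d9
  rw [h36, h4, h16, h10, h90, h35, h20]
  norm_num at b1 b1' b2 b2' b3 ⊢
  linarith

end MP_a3a416_nt.SJ5
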