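import Pool.Agent.Lib.MP_a3a416_nt.SJ5.GLoss
import Pool.Agent.Lib.MP_a3a416_nt.SJ5.GArch

/-! # SJ5-FMain: the analytic conclusion -/

set_option autoImplicit false

namespace MP_a3a416_nt.SJ5

open Finset Filter Asymptotics MP_a3a416_nt.SJ

private theorem err_littleO :
    (fun m : ℕ => (415 * (m : ℝ) + 10) * Real.sqrt (90 * m) * Real.log (90 * m)) =o[atTop]
      (fun m : ℕ => (m : ℝ) ^ 2) := by
  have h1 : (fun x : ℝ => (415 * x + 10) * Real.sqrt (90 * x) * Real.log (90 * x)) =o[atTop]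
      (fun x : ℝ => x ^ 2) := by
    have h2 : (fun x : ℝ => Real.log x) =o[atTop] (fun x : ℝ => Real.sqrt x) := by
      have := isLittleO_log_rpow_atTop (show (0 : ℝ) < 1 / 2 by norm_num)
      simpa [Real.sqrt_eq_rpow] using this
    have h200 : Tendsto (fun x : ℝ => 90 * x) atTop atTop :=
      tendsto_id.const_mul_atTop (by norm_num)
    have h3 : (fun x : ℝ => Real.log (90 * x)) =o[atTop] (fun x : ℝ => Real.sqrt (90 * x)) :=
      h2.comp_tendsto h200
    have h4 : (fun x : ℝ => 415 * x + 10) =O[atTop] (fun x : ℝ => x) := by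
      apply IsBigO.of_bound 425
      filter_upwards [eventually_ge_atTop (1 : ℝ)] with x hx
      rw [Real.norm_eq_abs, Real.norm_eq_abs, abs_of_nonneg (by linarith), abs_of_nonneg (by linarith)]
      linarith
    have h5 : (fun x : ℝ => Real.sqrt (90 * x) * Real.log (90 * x)) =o[atTop]
        (fun x : ℝ => Real.sqrt (90 * x) * Real.sqrt (90 * x)) :=
      (isBigO_refl _ atTop).mul_isLittleO h3
    have h6 : (fun x : ℝ => Real.sqrt (90 * x) * Real.sqrt (90 * x)) =O[atTop]
        (fun x : ℝ => x) := by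
      apply IsBigO.of_bound 90
      filter_upwards [eventually_ge_atTop (1 : ℝ)] with x hx
      rw [Real.mul_self_sqrt (by linarith), Real.norm_eq_abs, Real.norm_eq_abs,
        abs_of_nonneg (by linarith), abs_of_nonneg (by linarith)]
    have h7 := h4.mul_isLittleO (h5.trans_isBigO h6)
    refine (h7.congr_left fun x => ?_).congr_right fun x => ?_
    · ring
    · ring
  exact h1.comp_tendsto tendsto_natCast_atTop_atTop

/-- MAIN STATEMENT of part F: whatever the set of flat primes, the sum of the local lower bounds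
exceeds the archimedean bound by `60 m^2`, up to `640 m` times the weight of the non-flat primes. -/
theorem F_main :
    ∀ᶠ m : ℕ in atTop, ∀ (flat : ℕ → Prop) [DecidablePred flat],
    UB m + 60 * (m : ℝ) ^ 2 - 640 * m * Th m flat ≤ LBs m flat := by
  obtain ⟨g, hg, hg2⟩ := f2_ge
  obtain ⟨h, hh, hh2⟩ := f3_ge
  -- the lower function
  set ell : ℕ → ℝ := fun m =>
    SL (90 * m - 100) + 2 * SL (35 * m) + 2 * SL (20 * m) -
      ∑ p ∈ prs (12 * m) (90 * m),
        ((∑ y ∈ Icc (1 : ℤ) 7, max 0 ((90 * m : ℤ) - y * p) +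
      2 * (max 0 ((35 * m : ℤ) - p) + max 0 ((35 * m : ℤ) - 2 * p)) +
      2 * max 0 ((20 * m : ℤ) - p) : ℤ) : ℝ)
          * Real.log p -
      (415 * (m : ℝ) + 10) * ∑ p ∈ prs 0 (12 * m), Real.log p -
      (415 * (m : ℝ) + 10) * Real.sqrt (90 * m) * Real.log (90 * m) + g m + h m with hell
  have hellLB : ∀ m : ℕ, 10 ≤ m → ell m ≤ LB0 m := by
    intro m hm
    have hm1 : 1 ≤ m := by omega
    have h3 : ∀ s : Finset ℕ, ∑ p ∈ s, ((SF p (90 * m - 100) : ℝ) + 2 * SF p (35 * m) +
          2 * SF p (20 * m)) *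
          Real.log p = ∑ p ∈ s, (SF p (90 * m - 100) : ℝ) * Real.log p +
          2 * ∑ p ∈ s, (SF p (35 * m) : ℝ) * Real.log p +
          2 * ∑ p ∈ s, (SF p (20 * m) : ℝ) * Real.log p := by
        intro s
        rw [mul_sum, mul_sum, ← sum_add_distrib, ← sum_add_distrib]
        exact sum_congr rfl fun p _ => by ring
    have e2 : ∑ p ∈ prs 0 (12 * m), ((SF p (90 * m - 100) : ℝ) + 2 * SF p (35 * m) +
          2 * SF p (20 * m)) * Real.log p =
        SL (90 * m - 100) + 2 * SL (35 * m) + 2 * SL (20 * m) - ∑ p ∈ prs (12 * m) (90 * m),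
          ((SF p (90 * m - 100) : ℝ) + 2 * SF p (35 * m) + 2 * SF p (20 * m)) * Real.log p := by
      have h1 := sum_SF_log (90 * m - 100) (90 * m) (by omega)
      have h2 := sum_SF_log (35 * m) (90 * m) (by omega)
      have h4 := sum_SF_log (20 * m) (90 * m) (by omega)
      rw [← h1, ← h2, ← h4, prs_union 0 (12 * m) (90 * m) (by omega) (by omega),
        prs_union 0 (12 * m) (90 * m) (by omega) (by omega),
        prs_union 0 (12 * m) (90 * m) (by omega) (by omega)]
      rw [h3, h3]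
      ring
    have e3 : ∑ p ∈ prs (12 * m) (90 * m),
          ((SF p (90 * m - 100) : ℝ) + 2 * SF p (35 * m) + 2 * SF p (20 * m)) * Real.log p ≤
        ∑ p ∈ prs (12 * m) (90 * m),
        ((∑ y ∈ Icc (1 : ℤ) 7, max 0 ((90 * m : ℤ) - y * p) +
      2 * (max 0 ((35 * m : ℤ) - p) + max 0 ((35 * m : ℤ) - 2 * p)) +
      2 * max 0 ((20 * m : ℤ) - p) : ℤ) : ℝ)
          * Real.log p := by
      refine sum_le_sum fun p hp => ?_
      obtain ⟨hp1, hp2⟩ := mem_filter.mp hp
      rw [mem_Ioc] at hp1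
      have h1 := SF_big_K m p hm1 hp2 hp1.1
      have h2 := SF_big_L m p hm1 hp2 hp1.1
      have h2' := SF_big_D m p hm1 hp2 hp1.1
      have h3' : SF p (90 * m - 100) + 2 * SF p (35 * m) + 2 * SF p (20 * m) ≤
          ∑ y ∈ Icc (1 : ℤ) 7, max 0 ((90 * m : ℤ) - y * p) +
      2 * (max 0 ((35 * m : ℤ) - p) + max 0 ((35 * m : ℤ) - 2 * p)) +
      2 * max 0 ((20 * m : ℤ) - p) := by
        linarith
      have h4 : ((SF p (90 * m - 100) : ℝ) + 2 * SF p (35 * m) + 2 * SF p (20 * m)) ≤
          ((∑ y ∈ Icc (1 : ℤ) 7, max 0 ((90 * m : ℤ) - y * p) +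
      2 * (max 0 ((35 * m : ℤ) - p) + max 0 ((35 * m : ℤ) - 2 * p)) +
      2 * max 0 ((20 * m : ℤ) - p) : ℤ) : ℝ) := by
        exact_mod_cast h3'
      exact mul_le_mul_of_nonneg_right h4 (Real.log_natCast_nonneg p)
    have e5 := Lterm m (by omega)
    have e7 : ∑ p ∈ prs 0 (12 * m), (f1 m p : ℝ) * Real.log p =
        ∑ p ∈ prs 0 (12 * m), ((SF p (90 * m - 100) : ℝ) + 2 * SF p (35 * m) +
          2 * SF p (20 * m)) * Real.log p +
        ∑ p ∈ prs 0 (12 * m), ((f1 m p - SF p (90 * m - 100) - 2 * SF p (35 * m) -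
          2 * SF p (20 * m) : ℤ) : ℝ) * Real.log p := by
      rw [← sum_add_distrib]
      refine sum_congr rfl fun p _ => ?_
      push_cast
      ring
    have e8 := hg2 m hm1
    have e9 := hh2 m hm
    simp only [hell]
    unfold LB0
    rw [e7]
    linarith
  -- asymptotics of ell
  have hA1 : Asy (fun m => SL (90 * m - 100)) (90 ^ 2 / 2) (90 ^ 2 / 2 * (Real.log 90 - 3 / 2)) := by
    refine SL_asy 90 (by norm_num) _ 100 fun m => ?_
    rcases Nat.lt_or_ge (90 * m) 100 with h0 | h0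
    · have h1 : 90 * m - 100 = 0 := by omega
      rw [h1]
      have h2 : (90 * (m : ℝ)) < 100 := by exact_mod_cast h0
      have h3 : (0 : ℝ) ≤ 90 * m := by positivity
      rw [abs_le]
      push_cast
      constructor <;> linarith
    · push_cast [Nat.cast_sub h0]
      rw [abs_le]
      constructor <;> linarith
  have hA2 : Asy (fun m => SL (35 * m)) (35 ^ 2 / 2) (35 ^ 2 / 2 * (Real.log 35 - 3 / 2)) := by
    refine SL_asy 35 (by norm_num) _ 0 fun m => ?_
    push_cast
    simp
  have hA3 : Asy (fun m => SL (20 * m)) (20 ^ 2 / 2) (20 ^ 2 / 2 * (Real.log 20 - 3 / 2)) := by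
    refine SL_asy 20 (by norm_num) _ 0 fun m => ?_
    push_cast
    simp
  have hTh : Asy (fun m : ℕ => (415 * (m : ℝ) + 10) * ∑ p ∈ prs 0 (12 * m), Real.log p) 0
      (415 * 12) := by
    have h1 := prsum_nat 415 0 0 12 (by norm_num)
    have h2 := (sum_log_asy 0 12).const_mul 10
    refine ((h1.add h2).congr (Eventually.of_forall fun m => ?_)).cast (by ring) (by norm_num)
    rw [zero_mul, add_mul]
    congr 1
    rw [mul_sum]
    refine sum_congr rfl fun p _ => ?_
    ring
  have herr := Asy.of_isLittleO err_littleO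
  have hellA : Asy ell 5675 (4050 * (Real.log 90 - 3 / 2) + 2 * (35 ^ 2 / 2 * (Real.log 35 - 3 / 2)) +
      2 * (20 ^ 2 / 2 * (Real.log 20 - 3 / 2)) -
      (4954.5 + 18 / 7 + 589.5 + 64) - 415 * 12 - 0 + 13877 / 42 + 7725) := by
    have h1 := ((((((hA1.add (hA2.const_mul 2)).add (hA3.const_mul 2)).sub big_asy).sub hTh).sub
      herr).add hg).add hh
    refine (h1.congr (Eventually.of_forall fun m => ?_)).cast ?_ ?_
    · simp only [hell]
    · norm_num
    · ring
  have hdiff := hellA.sub UB_asy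
  have hfin := (hdiff.cast (a' := 0) (by norm_num) rfl).eventually_ge (c := 60) (by
        have := final_num
        linarith)
  filter_upwards [hfin, eventually_ge_atTop 10] with m hm hm2 flat _
  have h1 := LBs_ge m (by omega) flat
  have h2 := hellLB m hm2
  linarith

end MP_a3a416_nt.SJ5
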