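import Pool.Agent.Lib.MP_a3a416_nt.SJ.PF
import Pool.Agent.Lib.MP_a3a416_nt.SJ5.GMain

/-! # SJ5-MainCore: from the local bounds to the theorem (sections 6, 7)

`Det C m c D` collects everything that the algebraic and archimedean parts prove about the
determinant `D` for the parameters `N = 20 m`, `K = 90 m - 100`, `L = 35 m`, `D = 20 m`. -/

set_option autoImplicit false

open Finset Filter MP_a3a416_nt.SJ

namespace MP_a3a416_nt.SJ5

structure Det (C : ℝ) (m : ℕ) (c : ℚ) (D : ℚ) : Prop where
  ne : D ≠ 0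
  arch : Real.log |(D : ℝ)| ≤ UB m + 55 * m * Real.log (1 + |(c : ℝ)|) +
    C * m * Real.log (20 * m)
  gen : ∀ p : ℕ, p.Prime → f1 m p - 55 * m * (padicValNat p c.den : ℤ) ≤ padicValRat p D
  large : ∀ p : ℕ, p.Prime → 20 * m < p → -(55 * m * (padicValNat p c.den : ℤ)) ≤ padicValRat p D
  mid : ∀ p : ℕ, p.Prime → 12 * m < p → p ≤ 20 * m →
    (p : ℤ) ∣ (_root_.bernoulli (p - 5) - c).num → ¬ p ∣ c.den → f2 m p ≤ padicValRat p D
  big : ∀ p : ℕ, p.Prime → 20 * m < p → 35 * m + p ≤ 90 * m - 100 →
    (p : ℤ) ∣ (_root_.bernoulli (p - 5) - c).num → ¬ p ∣ c.den → f3a m p ≤ padicValRat p D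
  rank : ∀ p : ℕ, p.Prime → 20 * m < p →
    (p : ℤ) ∣ (_root_.bernoulli (p - 5) - c).num → ¬ p ∣ c.den → f3b m p ≤ padicValRat p D

open Classical in
/-- the local bound used at `p` -/
noncomputable def fl (m : ℕ) (flat : ℕ → Prop) (p : ℕ) : ℤ :=
  if p ≤ 12 * m then f1 m p else
    if p ≤ 20 * m then (if flat p then f2 m p else f1 m p) else (if flat p then f3 m p else 0)

theorem f3_eq_zero (m p : ℕ) (h : 160 * m < p) : f3 m p = 0 := by
  unfold f3 f3b
  rw [if_neg (by omega)]
  omega

open Classical in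
theorem sum_fl (m d : ℕ) (flat : ℕ → Prop) :
    ∑ p ∈ (Ioc 0 (160 * m + d)).filter Nat.Prime, (fl m flat p : ℝ) * Real.log p =
      LBs m flat := by
  unfold LBs prs
  simp only [sum_filter]
  rw [← sum_Ioc_consecutive _ (show 0 ≤ 160 * m by omega) (show 160 * m ≤ 160 * m + d by omega),
    ← sum_Ioc_consecutive _ (show 0 ≤ 20 * m by omega) (show 20 * m ≤ 160 * m by omega),
    ← sum_Ioc_consecutive _ (show 0 ≤ 12 * m by omega) (show 12 * m ≤ 20 * m by omega)]
  have e0 : ∑ p ∈ Ioc (160 * m) (160 * m + d), (if Nat.Prime p then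
      (fl m flat p : ℝ) * Real.log p else 0) = 0 := by
    apply sum_eq_zero
    intro p hp
    rw [mem_Ioc] at hp
    have : fl m flat p = 0 := by
      unfold fl
      rw [if_neg (by omega), if_neg (by omega), f3_eq_zero m p hp.1]
      simp
    rw [this]
    simp
  rw [e0, add_zero]
  congr 1
  · congr 1
    · apply sum_congr rfl
      intro p hp
      rw [mem_Ioc] at hp
      have : fl m flat p = f1 m p := by
        unfold fl
        rw [if_pos (by omega)]
      rw [this]
    · apply sum_congr rfl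
      intro p hp
      rw [mem_Ioc] at hp
      have : fl m flat p = if flat p then f2 m p else f1 m p := by
        unfold fl
        rw [if_neg (by omega), if_pos (by omega)]
      rw [this]
  · apply sum_congr rfl
    intro p hp
    rw [mem_Ioc] at hp
    have : fl m flat p = if flat p then f3 m p else 0 := by
      unfold fl
      rw [if_neg (by omega), if_neg (by omega)]
    rw [this]

/-- the flat primes that are used -/
def Fl (c : ℚ) (p : ℕ) : Prop := (p : ℤ) ∣ (_root_.bernoulli (p - 5) - c).num ∧ ¬ p ∣ c.den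

open Classical in
theorem main_ineq {C : ℝ} {m : ℕ} {c D : ℚ} (H : Det C m c D) :
    LBs m (Fl c) ≤ UB m + 55 * m * Real.log (1 + |(c : ℝ)|) + 55 * m * Real.log c.den +
      C * m * Real.log (20 * m) := by
  have harch := H.arch
  have hden : 0 < c.den := c.den_pos
  have hpf := pf D H.ne ((Ioc 0 (160 * m + c.den)).filter Nat.Prime)
    (fun p hp => (mem_filter.1 hp).2)
    (fun p => (fl m (Fl c) p : ℝ) - 55 * m * (padicValNat p c.den : ℝ)) ?_ ?_
  · simp only [sub_mul] at hpf
    rw [sum_sub_distrib, sum_fl m _] at hpf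
    have h2 : ∑ p ∈ (Ioc 0 (160 * m + c.den)).filter Nat.Prime,
        55 * (m : ℝ) * (padicValNat p c.den : ℝ) * Real.log p =
        55 * m * Real.log c.den := by
      rw [log_nat_eq_sum c.den ((Ioc 0 (160 * m + c.den)).filter Nat.Prime)
        (fun p hp => (mem_filter.1 hp).2), mul_sum]
      · apply sum_congr rfl
        intro p _
        ring
      · intro p hp
        have hp1 := Nat.prime_of_mem_primeFactors hp
        have hp2 := Nat.le_of_dvd (by omega) (Nat.dvd_of_mem_primeFactors hp)
        rw [mem_filter, mem_Ioc]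
        exact ⟨⟨hp1.pos, by omega⟩, hp1⟩
    rw [h2] at hpf
    linarith
  · intro p hp
    rw [mem_filter, mem_Ioc] at hp
    obtain ⟨⟨hp1, _⟩, hpp⟩ := hp
    have key : fl m (Fl c) p - 55 * m * (padicValNat p c.den : ℤ) ≤ padicValRat p D := by
      have hgen := H.gen p hpp
      have hnn : (0 : ℤ) ≤ 55 * m * (padicValNat p c.den : ℤ) := by positivity
      unfold fl
      by_cases h12 : p ≤ 12 * m
      · rw [if_pos h12]
        exact hgen
      rw [if_neg h12]
      by_cases h20 : p ≤ 20 * m
      · rw [if_pos h20]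
        by_cases hf : Fl c p
        · rw [if_pos hf]
          linarith [H.mid p hpp (by omega) h20 hf.1 hf.2]
        · rw [if_neg hf]
          exact hgen
      · rw [if_neg h20]
        have h0 := H.large p hpp (by omega)
        by_cases hf : Fl c p
        · have he : padicValNat p c.den = 0 := padicValNat.eq_zero_of_not_dvd hf.2
          rw [he] at h0 ⊢
          have h0' : 0 ≤ padicValRat p D := by simpa using h0
          rw [if_pos hf]
          have h3 : f3 m p ≤ padicValRat p D := by
            unfold f3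
            refine max_le h0' (max_le (H.rank p hpp (by omega) hf.1 hf.2) ?_)
            split_ifs with h
            · exact H.big p hpp (by omega) h hf.1 hf.2
            · exact h0'
          simpa using h3
        · rw [if_neg hf]
          linarith
    have key' : ((fl m (Fl c) p - 55 * m * (padicValNat p c.den : ℤ) : ℤ) : ℝ) ≤
        ((padicValRat p D : ℤ) : ℝ) := Int.cast_le.2 key
    rw [Int.cast_sub, Int.cast_mul, Int.cast_mul, Int.cast_natCast, Int.cast_natCast] at key'
    simpa using key'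
  · intro p hpp hpS
    have hp160 : 160 * m + c.den < p := by
      by_contra h
      exact hpS (by rw [mem_filter, mem_Ioc]; exact ⟨⟨hpp.pos, by omega⟩, hpp⟩)
    have h0 := H.large p hpp (by omega)
    have : padicValNat p c.den = 0 := by
      apply padicValNat.eq_zero_of_not_dvd
      intro hd
      have := Nat.le_of_dvd (by omega) hd
      omega
    rw [this] at h0
    simpa using h0

open Classical in
/-- the primes dividing the denominator cost little -/
theorem sum_den (c : ℚ) (a b : ℕ) :
    ∑ p ∈ (Ioc a b).filter (fun p => p.Prime ∧ ¬ Fl c p), Real.log p ≤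
      ∑ p ∈ (Ioc a b).filter (fun p : ℕ => p.Prime ∧ ¬ (p : ℤ) ∣ (_root_.bernoulli (p - 5) - c).num),
        Real.log p + Real.log c.den := by
  have h1 : (Ioc a b).filter (fun p => p.Prime ∧ ¬ Fl c p) ⊆
      (Ioc a b).filter (fun p : ℕ => p.Prime ∧ ¬ (p : ℤ) ∣ (_root_.bernoulli (p - 5) - c).num) ∪
        c.den.primeFactors := by
    intro p hp
    rw [mem_filter] at hp
    rw [mem_union, mem_filter, Nat.mem_primeFactors]
    by_cases hF : (p : ℤ) ∣ (_root_.bernoulli (p - 5) - c).num
    · right
      refine ⟨hp.2.1, ?_, c.den_nz⟩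
      by_contra h
      exact hp.2.2 ⟨hF, h⟩
    · left
      exact ⟨hp.1, hp.2.1, hF⟩
  have h0 : ∀ p : ℕ, 0 ≤ Real.log p := fun p => Real.log_natCast_nonneg p
  calc ∑ p ∈ (Ioc a b).filter (fun p => p.Prime ∧ ¬ Fl c p), Real.log p
      ≤ ∑ p ∈ (Ioc a b).filter (fun p : ℕ => p.Prime ∧
          ¬ (p : ℤ) ∣ (_root_.bernoulli (p - 5) - c).num) ∪ c.den.primeFactors,
          Real.log p := sum_le_sum_of_subset_of_nonneg h1 (fun p _ _ => h0 p)
    _ ≤ ∑ p ∈ (Ioc a b).filter (fun p : ℕ => p.Prime ∧
          ¬ (p : ℤ) ∣ (_root_.bernoulli (p - 5) - c).num), Real.log p +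
        ∑ p ∈ c.den.primeFactors, Real.log p := by
        rw [← sum_union_inter]
        have := sum_nonneg (s := (Ioc a b).filter (fun p : ℕ => p.Prime ∧
          ¬ (p : ℤ) ∣ (_root_.bernoulli (p - 5) - c).num) ∩
          c.den.primeFactors) (f := fun p : ℕ => Real.log p) (fun p _ => h0 p)
        linarith
    _ ≤ _ := by
        apply add_le_add_right
        rw [log_nat_eq_sum c.den c.den.primeFactors (fun p hp => Nat.prime_of_mem_primeFactors hp)
          (Subset.refl _)]
        apply sum_le_sum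
        intro p hp
        have hpp := Nat.prime_of_mem_primeFactors hp
        have : 1 ≤ padicValNat p c.den := by
          have := Fact.mk hpp
          exact one_le_padicValNat_of_dvd c.den_nz (Nat.dvd_of_mem_primeFactors hp)
        have h2 : (1 : ℝ) ≤ padicValNat p c.den := by exact_mod_cast this
        nlinarith [h0 p]

/-- For `x ≥ x₀` and every rational `c` of height at most `exp (x / 10000)` at least
`x / (2500 log x)` primes `7 ≤ p ≤ x` satisfy `B_{p-5} ≢ c` modulo `p`. -/
theorem main_core (m1 : ℕ) (C : ℝ) (H : ∀ m : ℕ, m1 ≤ m → ∀ c : ℚ, ∃ D : ℚ, Det C m c D) :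
    ∀ᶠ x : ℕ in Filter.atTop, ∀ c : ℚ,
    |(c.num : ℝ)| ≤ Real.exp (x / 10000) → (c.den : ℝ) ≤ Real.exp (x / 10000) →
    (x : ℝ) / (2500 * Real.log x) ≤
      (((Finset.range (x + 1)).filter (fun p : ℕ => p.Prime ∧ 7 ≤ p ∧
        ¬ (p : ℤ) ∣ (_root_.bernoulli (p - 5) - c).num)).card : ℝ) := by
  classical
  have hlim : ∀ᶠ m : ℕ in atTop, |C| * Real.log (20 * m) ≤ m / 20 := by
    have h1 : Tendsto (fun m : ℕ => (20 * (m : ℝ))) atTop atTop :=
      (tendsto_natCast_atTop_atTop).const_mul_atTop (by norm_num)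
    have h2 := (Real.isLittleO_log_id_atTop.comp_tendsto h1).bound
      (show (0 : ℝ) < 1 / (400 * (|C| + 1)) by positivity)
    filter_upwards [h2, eventually_ge_atTop 1] with m hm hm1
    have hmr : (1 : ℝ) ≤ m := by exact_mod_cast hm1
    simp only [Function.comp_apply, id, Real.norm_eq_abs] at hm
    have h3 : 0 ≤ Real.log (20 * (m : ℝ)) := Real.log_nonneg (by linarith)
    rw [abs_of_nonneg h3, abs_of_nonneg (show (0 : ℝ) ≤ 20 * m by positivity)] at hm
    have h4 : |C| * Real.log (20 * m) ≤ (|C| + 1) * Real.log (20 * m) := by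
      apply mul_le_mul_of_nonneg_right _ h3
      linarith
    have h5 : (|C| + 1) * Real.log (20 * m) ≤ (|C| + 1) * (1 / (400 * (|C| + 1)) * (20 * m)) :=
      mul_le_mul_of_nonneg_left hm (by positivity)
    have h6 : (|C| + 1) * (1 / (400 * (|C| + 1)) * (20 * (m : ℝ))) = m / 20 := by
      field_simp
      ring
    linarith
  have hev := (hlim.and F_main).and (eventually_ge_atTop (max m1 10000))
  obtain ⟨m0, hm0⟩ := eventually_atTop.1 hev
  filter_upwards [eventually_ge_atTop (160 * (m0 + 1)), eventually_ge_atTop 2000000] with x hx hx2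
  intro c hc1 hc2
  set m := x / 160 with hm
  have hm1 : m0 + 1 ≤ m := by
    rw [hm, Nat.le_div_iff_mul_le (by norm_num)]
    linarith
  have hmx : 160 * m ≤ x := Nat.mul_div_le x 160
  have hxm : x < 160 * (m + 1) := by
    have := Nat.lt_mul_div_succ x (show 0 < 160 by norm_num)
    simpa [hm] using this
  obtain ⟨⟨h1, h2⟩, h3⟩ := hm0 m (by omega)
  have h3' : m1 ≤ m := (le_max_left _ _).trans h3
  have hmr : (10000 : ℝ) ≤ m := by exact_mod_cast (le_max_right _ _).trans h3
  have hxr : (2000000 : ℝ) ≤ x := by exact_mod_cast hx2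
  have hxm' : (x : ℝ) ≤ 160 * (m + 1) := by exact_mod_cast hxm.le
  obtain ⟨D, hD⟩ := H m h3' c
  have hmain := main_ineq hD
  have hfs := h2 (Fl c)
  have hsd := sum_den c (12 * m) (160 * m)
  have hdenpos : (0 : ℝ) < c.den := by exact_mod_cast c.den_pos
  -- the height
  have hl1 : Real.log c.den ≤ x / 10000 := by
    rw [Real.log_le_iff_le_exp hdenpos]
    exact hc2
  have hden1 : (1 : ℝ) ≤ c.den := by exact_mod_cast c.den_pos
  have hl2 : Real.log (1 + |(c : ℝ)|) ≤ 1 + x / 10000 := by
    have hcabs : |(c : ℝ)| ≤ Real.exp (x / 10000) := by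
      rw [Rat.cast_def, abs_div, Nat.abs_cast]
      exact (div_le_self (abs_nonneg _) hden1).trans hc1
    have he1 : 1 ≤ Real.exp ((x : ℝ) / 10000) := Real.one_le_exp (by positivity)
    rw [Real.log_le_iff_le_exp (by positivity), Real.exp_add]
    have := Real.exp_one_gt_d9
    nlinarith
  -- all together
  set S := ∑ p ∈ (Ioc (12 * m) (160 * m)).filter (fun p : ℕ => p.Prime ∧
    ¬ (p : ℤ) ∣ (_root_.bernoulli (p - 5) - c).num), Real.log p with hS
  set S' := ∑ p ∈ (Ioc (12 * m) (160 * m)).filter (fun p => p.Prime ∧ ¬ Fl c p),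
    Real.log p with hS'
  have hSS : S' ≤ S + Real.log c.den := hsd
  have hTh : Th m (Fl c) = S' := by
    unfold Th prs
    rw [filter_filter]
  have e1 : 55 * (m : ℝ) * Real.log (1 + |(c : ℝ)|) ≤ 55 * m * (1 + x / 10000) :=
    mul_le_mul_of_nonneg_left hl2 (by positivity)
  have e2 : 55 * (m : ℝ) * Real.log c.den ≤ 55 * m * (x / 10000) :=
    mul_le_mul_of_nonneg_left hl1 (by positivity)
  have hl3 : 0 ≤ Real.log (20 * (m : ℝ)) := Real.log_nonneg (by linarith)
  have e3 : C * m * Real.log (20 * m) ≤ m / 20 * m := by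
    have h4 := mul_le_mul_of_nonneg_right h1 (show (0 : ℝ) ≤ m by positivity)
    have h5 : C * (m * Real.log (20 * m)) ≤ |C| * (m * Real.log (20 * m)) :=
      mul_le_mul_of_nonneg_right (le_abs_self C) (by positivity)
    linarith
  have e4 : 60 * (m : ℝ) ^ 2 - 640 * m * S' ≤ 55 * m * (1 + x / 10000) + 55 * m * (x / 10000) +
      m / 20 * m := by
    rw [hTh] at hfs
    linarith
  have e5 : (m : ℝ) * (60 * m - 640 * S') ≤ m * (55 * (1 + x / 5000) + m / 20) := by
    nlinarith
  have e6 := le_of_mul_le_mul_left e5 (by linarith)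
  have e7 : (x : ℝ) / 2500 ≤ S := by
    linarith
  -- from the sum to the number of primes
  have hlx : 0 < Real.log x := Real.log_pos (by linarith)
  have h8 : S ≤ (((range (x + 1)).filter (fun p : ℕ => p.Prime ∧ 7 ≤ p ∧
        ¬ (p : ℤ) ∣ (_root_.bernoulli (p - 5) - c).num)).card : ℝ) * Real.log x := by
    calc S ≤ ∑ p ∈ (range (x + 1)).filter (fun p : ℕ => p.Prime ∧ 7 ≤ p ∧
        ¬ (p : ℤ) ∣ (_root_.bernoulli (p - 5) - c).num), Real.log p := by
          apply sum_le_sum_of_subset_of_nonneg
          · intro p hp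
            rw [mem_filter, mem_Ioc] at hp
            rw [mem_filter, mem_range]
            have : 10000 ≤ m := by exact_mod_cast hmr
            exact ⟨by omega, hp.2.1, by omega, hp.2.2⟩
          · intro p _ _
            exact Real.log_natCast_nonneg p
      _ ≤ ∑ p ∈ (range (x + 1)).filter (fun p : ℕ => p.Prime ∧ 7 ≤ p ∧
        ¬ (p : ℤ) ∣ (_root_.bernoulli (p - 5) - c).num), Real.log x := by
          apply sum_le_sum
          intro p hp
          rw [mem_filter, mem_range] at hp
          apply Real.log_le_log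
          · exact_mod_cast hp.2.1.pos
          · exact_mod_cast (by omega : p ≤ x)
      _ = _ := by rw [sum_const, nsmul_eq_mul]
  rw [← div_div, div_le_iff₀ hlx]
  exact e7.trans h8

end MP_a3a416_nt.SJ5
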