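import Pool.Agent.Lib.MP_a3a416_nt.SJ.FDefs

/-!
# SJ5-F definitions: the analytic part of the theorem on B_{p-5} (prime sums)

`N = 20 m`, `K = 90 m - 100`, `L = 35 m`, `D = 20 m`. `f1`: bound for every prime; `f2`: flat primes
in `(12 m, 20 m]`; `f3`: flat primes `> 20 m`.
-/

set_option autoImplicit false

namespace MP_a3a416_nt.SJ5

open Finset MP_a3a416_nt.SJ

def f1 (m p : ℕ) : ℤ :=
  SF p (90 * m - 100) + 2 * SF p (35 * m) + 2 * SF p (20 * m) +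
    ((35 * m : ℤ) + 2 * (20 * m)) * Nat.log p (90 * m - 100) -
    ((20 * m : ℤ) + 2 * (35 * m)) * Nat.log p (20 * m) -
    10 * (2 * (20 * m : ℤ) + 1) * Nat.log p (90 * m - 100)

def f2 (m p : ℕ) : ℤ :=
  max 0 ((90 * m : ℤ) - 100 - 5 * p) + max 0 ((90 * m : ℤ) - 100 - 6 * p) +
    max 0 ((90 * m : ℤ) - 100 - 7 * p) + 2 * (35 * m : ℤ) + 2 * (20 * m : ℤ) +
    min (20 * m : ℤ) ((35 * m : ℤ) - p) +
    max 0 (min (20 * m : ℤ) (min ((90 * m : ℤ) - 100 - 4 * p) ((35 * m : ℤ) - p))) -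
    15 * (2 * ((20 * m : ℤ) - p) + 1)

/-- `L + p <= K`: all columns are killed -/
def f3a (m p : ℕ) : ℤ :=
  2 * (35 * m : ℤ) + 20 * m + min (20 * m : ℤ) (max 0 ((90 * m : ℤ) - 100 - 2 * p)) +
    max 0 ((35 * m : ℤ) - p) + max 0 ((90 * m : ℤ) - 100 - 4 * p)

/-- the rank bound -/
def f3b (m p : ℕ) : ℤ :=
  min (2 * (35 * m : ℤ) + 20 * m) ((90 * m : ℤ) - 100 + 35 * m + 20 * m - p)

def f3 (m p : ℕ) : ℤ :=
  max 0 (max (f3b m p) (if 35 * m + p ≤ 90 * m - 100 then f3a m p else 0))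

/-- `sum_{j < M} log (2j)!` -/
noncomputable def S2 (M : ℕ) : ℝ := ∑ j ∈ range M, Real.log ((2 * j).factorial : ℝ)

/-- the archimedean bound (section 2) -/
noncomputable def UB (m : ℕ) : ℝ :=
  5 * (2 * (S2 (18 * m + 1) - S2 (2 * m))) -
    5 / 2 * ((16 * m + 1) * (16 * m) * Real.log 2 + 2 * SL (16 * m + 1)) +
    ((((90 * m : ℝ) - 100) - (16 * m + 1)) ^ 2 / 2 + 2 * (((35 * m : ℝ) - (16 * m + 1)) ^ 2 / 2) +
      2 * (((20 * m : ℝ) - (16 * m + 1)) ^ 2 / 2)) * Real.log ((20 * m : ℝ) / 2)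

/-- the lower bound for `log |D|` obtained from the valuations -/
noncomputable def LBs (m : ℕ) (flat : ℕ → Prop) [DecidablePred flat] : ℝ :=
  ∑ p ∈ prs 0 (12 * m), (f1 m p : ℝ) * Real.log p +
    ∑ p ∈ prs (12 * m) (20 * m), ((if flat p then f2 m p else f1 m p : ℤ) : ℝ) * Real.log p +
    ∑ p ∈ prs (20 * m) (160 * m), ((if flat p then f3 m p else 0 : ℤ) : ℝ) * Real.log p

/-- the non-flat primes in `(12 m, 160 m]` weighted by `log p` -/
noncomputable def Th (m : ℕ) (flat : ℕ → Prop) [DecidablePred flat] : ℝ :=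
  ∑ p ∈ (prs (12 * m) (160 * m)).filter (fun p => ¬ flat p), Real.log p

end MP_a3a416_nt.SJ5
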