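import Pool.Agent.Lib.MP_a3a416_nt.SJ5.GSum
import Pool.Agent.Lib.MP_a3a416_nt.SJ.FId

/-! # SJ5-FLoss: primes `> 12 m` in the factorials, logarithmic losses, non-flat primes -/

set_option autoImplicit false

namespace MP_a3a416_nt.SJ5

open Finset Filter Asymptotics MP_a3a416_nt.SJ

private theorem val_fact (p i : ℕ) (hp : p.Prime) (h : i < p ^ 2) :
    padicValNat p i.factorial = i / p := by
  haveI := Fact.mk hp
  have hb : Nat.log p i < 2 := by
    rcases Nat.eq_zero_or_pos i with h0 | h0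
    · subst h0
      simp
    · exact Nat.log_lt_of_lt_pow h0.ne' h
  rw [padicValNat_factorial hb]
  simp

private theorem sum_div_le (p M Y : ℕ) (hp : 0 < p) (hM : M ≤ (Y + 1) * p) :
    (∑ i ∈ range M, ((i / p : ℕ) : ℤ)) ≤ ∑ y ∈ Icc (1 : ℤ) Y, max 0 ((M : ℤ) - y * p) := by
  induction M with
  | zero =>
    simp only [range_zero, sum_empty]
    exact sum_nonneg fun y _ => le_max_left _ _
  | succ M ih =>
    have ih' := ih (by omega)
    rw [sum_range_succ]
    have hlt : M / p < Y + 1 := by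
      rw [Nat.div_lt_iff_lt_mul hp]
      omega
    have h1 : ((M / p : ℕ) : ℤ) = ∑ y ∈ Icc (1 : ℤ) Y, (if y * p ≤ (M : ℤ) then (1 : ℤ) else 0) := by
      rw [← sum_filter, sum_const, nsmul_eq_mul, mul_one]
      have h2 : (Icc (1 : ℤ) Y).filter (fun y => y * p ≤ (M : ℤ)) = Icc (1 : ℤ) ((M / p : ℕ) : ℤ) := by
        ext y
        simp only [mem_filter, mem_Icc]
        constructor
        · rintro ⟨⟨h3, h4⟩, h5⟩
          refine ⟨h3, ?_⟩
          obtain ⟨z, rfl⟩ := Int.eq_ofNat_of_zero_le (by omega : 0 ≤ y)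
          have h6 : z * p ≤ M := by exact_mod_cast h5
          have h7 : z ≤ M / p := (Nat.le_div_iff_mul_le hp).mpr h6
          exact_mod_cast h7
        · rintro ⟨h3, h4⟩
          obtain ⟨z, rfl⟩ := Int.eq_ofNat_of_zero_le (by omega : 0 ≤ y)
          have h7 : z ≤ M / p := by exact_mod_cast h4
          have h6 : z * p ≤ M := (Nat.le_div_iff_mul_le hp).mp h7
          refine ⟨⟨h3, ?_⟩, by exact_mod_cast h6⟩
          have : z ≤ Y := by omega
          exact_mod_cast this
      rw [h2, Int.card_Icc]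
      simp
      exact Int.ediv_nonneg (Int.natCast_nonneg _) (Int.natCast_nonneg _)
    rw [h1]
    refine (add_le_add_left ih' _).trans ?_
    rw [← sum_add_distrib]
    refine sum_le_sum fun y _ => ?_
    push_cast
    split_ifs with h2
    · rw [max_eq_right (by linarith), max_eq_right (by linarith)]
      linarith
    · rw [add_zero]
      exact max_le_max le_rfl (by linarith)

private theorem SF_le (p M Y X : ℕ) (hp : p.Prime) (hM : M ≤ (Y + 1) * p) (hM2 : M ≤ p ^ 2)
    (hX : M ≤ X) :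
    SF p M ≤ ∑ y ∈ Icc (1 : ℤ) Y, max 0 ((X : ℤ) - y * p) := by
  have h1 : SF p M = ∑ i ∈ range M, ((i / p : ℕ) : ℤ) := by
    unfold SF
    refine sum_congr rfl fun i hi => ?_
    rw [val_fact p i hp (lt_of_lt_of_le (mem_range.mp hi) hM2)]
  rw [h1]
  refine (sum_div_le p M Y hp.pos hM).trans (sum_le_sum fun y _ => ?_)
  have : (M : ℤ) ≤ X := by exact_mod_cast hX
  exact max_le_max le_rfl (by linarith)

theorem SF_big_K (m p : ℕ) (hm : 1 ≤ m) (hp : p.Prime) (h : 12 * m < p) :
    SF p (90 * m - 100) ≤ ∑ y ∈ Icc (1 : ℤ) 7, max 0 ((90 * m : ℤ) - y * p) := by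
  have h1 := SF_le p (90 * m - 100) 7 (90 * m) hp (by omega)
    (by nlinarith [Nat.sub_le (90 * m) 100]) (Nat.sub_le _ _)
  push_cast at h1 ⊢
  exact h1

theorem SF_big_L (m p : ℕ) (hm : 1 ≤ m) (hp : p.Prime) (h : 12 * m < p) :
    SF p (35 * m) ≤ max 0 ((35 * m : ℤ) - p) + max 0 ((35 * m : ℤ) - 2 * p) := by
  have h1 := SF_le p (35 * m) 2 (35 * m) hp (by omega) (by nlinarith) le_rfl
  have hI : Icc (1 : ℤ) ((2 : ℕ) : ℤ) = {1, 2} := by decide
  rw [hI, Finset.sum_pair (by decide)] at h1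
  push_cast at h1 ⊢
  simpa using h1

theorem SF_big_D (m p : ℕ) (hm : 1 ≤ m) (hp : p.Prime) (h : 12 * m < p) :
    SF p (20 * m) ≤ max 0 ((20 * m : ℤ) - p) := by
  have h1 := SF_le p (20 * m) 1 (20 * m) hp (by omega) (by nlinarith) le_rfl
  push_cast at h1 ⊢
  simpa using h1

/-- the part of the primes `> 12 m` in the factorials -/
theorem big_asy : Asy (fun m : ℕ => ∑ p ∈ prs (12 * m) (90 * m),
    ((∑ y ∈ Icc (1 : ℤ) 7, max 0 ((90 * m : ℤ) - y * p) +
      2 * (max 0 ((35 * m : ℤ) - p) + max 0 ((35 * m : ℤ) - 2 * p)) +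
      2 * max 0 ((20 * m : ℤ) - p) : ℤ) : ℝ) *
      Real.log p) 0 (4954.5 + 18 / 7 + 589.5 + 64) := by
  have h1 := hinge 12 90 90 1 (by norm_num) (by norm_num) (by norm_num)
  have h2 := hinge 12 90 90 2 (by norm_num) (by norm_num) (by norm_num)
  have h3 := hinge 12 90 90 3 (by norm_num) (by norm_num) (by norm_num)
  have h4 := hinge 12 90 90 4 (by norm_num) (by norm_num) (by norm_num)
  have h5 := hinge 12 90 90 5 (by norm_num) (by norm_num) (by norm_num)
  have h6 := hinge 12 90 90 6 (by norm_num) (by norm_num) (by norm_num)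
  have h7 := hinge 12 90 90 7 (by norm_num) (by norm_num) (by norm_num)
  have g1 := (hinge 12 90 35 1 (by norm_num) (by norm_num) (by norm_num)).const_mul 2
  have g2 := (hinge 12 90 35 2 (by norm_num) (by norm_num) (by norm_num)).const_mul 2
  have g3 := (hinge 12 90 20 1 (by norm_num) (by norm_num) (by norm_num)).const_mul 2
  have h := ((((((((h1.add h2).add h3).add h4).add h5).add h6).add h7).add g1).add g2).add g3
  refine (h.congr (Eventually.of_forall fun m => ?_)).cast (by norm_num) (by norm_num)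
  rw [mul_sum, mul_sum, mul_sum]
  simp only [← sum_add_distrib]
  refine Finset.sum_congr rfl fun p _ => ?_
  have hI : Icc (1 : ℤ) 7 = {1, 2, 3, 4, 5, 6, 7} := by decide
  rw [hI]
  have hs : ∑ y ∈ ({1, 2, 3, 4, 5, 6, 7} : Finset ℤ), max 0 ((90 * m : ℤ) - y * p) =
      max 0 ((90 * m : ℤ) - 1 * p) + max 0 ((90 * m : ℤ) - 2 * p) +
      max 0 ((90 * m : ℤ) - 3 * p) + max 0 ((90 * m : ℤ) - 4 * p) +
      max 0 ((90 * m : ℤ) - 5 * p) + max 0 ((90 * m : ℤ) - 6 * p) +
      max 0 ((90 * m : ℤ) - 7 * p) := by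
    rw [Finset.sum_insert (by decide), Finset.sum_insert (by decide),
      Finset.sum_insert (by decide), Finset.sum_insert (by decide),
      Finset.sum_insert (by decide), Finset.sum_insert (by decide), Finset.sum_singleton]
    ring
  rw [hs]
  simp only [Nat.cast_ofNat, Nat.cast_one, one_mul]
  push_cast
  ring

private lemma log_part (m : ℕ) (hm : 2 ≤ m) :
    ∑ p ∈ prs 0 (12 * m), (Nat.log p (90 * m - 100) : ℝ) * Real.log p ≤
      ∑ p ∈ prs 0 (12 * m), Real.log p + Real.sqrt (90 * m) * Real.log (90 * m) := by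
  classical
  set K := 90 * m - 100 with hK
  have hm' : (2 : ℝ) ≤ m := by exact_mod_cast hm
  have hterm : ∀ p ∈ prs 0 (12 * m), (Nat.log p K : ℝ) * Real.log p ≤
      Real.log p + if p ^ 2 ≤ K then Real.log (90 * m) else 0 := by
    intro p hp
    rw [prs, mem_filter, mem_Ioc] at hp
    have hp1 : 1 < p := hp.2.one_lt
    have hp0 : (0 : ℝ) ≤ Real.log p := Real.log_natCast_nonneg p
    split_ifs with h
    · have h2 : p ^ Nat.log p K ≤ K := Nat.pow_log_le_self p (by omega)
      have h3 : ((p : ℝ)) ^ Nat.log p K ≤ 90 * m := by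
        calc ((p : ℝ)) ^ Nat.log p K = ((p ^ Nat.log p K : ℕ) : ℝ) := by push_cast; rfl
          _ ≤ (K : ℝ) := by exact_mod_cast h2
          _ ≤ ((90 * m : ℕ) : ℝ) := by exact_mod_cast Nat.sub_le _ _
          _ = 90 * m := by push_cast; rfl
      have h4 := Real.log_le_log (by positivity) h3
      rw [Real.log_pow] at h4
      linarith
    · have h2 : Nat.log p K < 2 := by
        by_contra hcon
        push Not at hcon
        exact h ((Nat.pow_le_pow_right (by omega) hcon).trans (Nat.pow_log_le_self p (by omega)))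
      have h3 : (Nat.log p K : ℝ) ≤ 1 := by exact_mod_cast (by omega : Nat.log p K ≤ 1)
      nlinarith
  refine (Finset.sum_le_sum hterm).trans ?_
  rw [Finset.sum_add_distrib]
  refine add_le_add le_rfl ?_
  rw [← Finset.sum_filter, Finset.sum_const, nsmul_eq_mul]
  refine mul_le_mul_of_nonneg_right ?_ (Real.log_nonneg (by linarith))
  have hcard : ((prs 0 (12 * m)).filter fun p => p ^ 2 ≤ K).card ≤ Nat.sqrt K := by
    calc ((prs 0 (12 * m)).filter fun p => p ^ 2 ≤ K).card ≤ (Icc 1 (Nat.sqrt K)).card := by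
          refine Finset.card_le_card ?_
          intro p hp
          rw [mem_filter, prs, mem_filter, mem_Ioc] at hp
          rw [mem_Icc]
          exact ⟨by omega, Nat.le_sqrt'.2 hp.2⟩
      _ = Nat.sqrt K := by simp
  calc (((prs 0 (12 * m)).filter fun p => p ^ 2 ≤ K).card : ℝ) ≤ (Nat.sqrt K : ℝ) := by
        exact_mod_cast hcard
    _ ≤ Real.sqrt (K : ℝ) := Real.nat_sqrt_le_real_sqrt
    _ ≤ Real.sqrt (90 * m) := by
        apply Real.sqrt_le_sqrt
        have : (K : ℝ) ≤ ((90 * m : ℕ) : ℝ) := by exact_mod_cast Nat.sub_le _ _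
        push_cast at this
        exact this

theorem Lterm (m : ℕ) (hm : 2 ≤ m) :
    -(415 * (m : ℝ) + 10) * ∑ p ∈ prs 0 (12 * m), Real.log p -
      (415 * (m : ℝ) + 10) * Real.sqrt (90 * m) * Real.log (90 * m) ≤
    ∑ p ∈ prs 0 (12 * m), ((f1 m p - SF p (90 * m - 100) - 2 * SF p (35 * m) -
      2 * SF p (20 * m) : ℤ) : ℝ) * Real.log p := by
  have hm' : (2 : ℝ) ≤ m := by exact_mod_cast hm
  have h1 := log_part m hm
  have h3 : ∀ p ∈ prs 0 (12 * m), -(415 * (m : ℝ) + 10) * ((Nat.log p (90 * m - 100) : ℝ) *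
      Real.log p) ≤
      ((f1 m p - SF p (90 * m - 100) - 2 * SF p (35 * m) - 2 * SF p (20 * m) : ℤ) : ℝ) *
        Real.log p := by
    intro p hp
    have hp0 : (0 : ℝ) ≤ Real.log p := Real.log_natCast_nonneg p
    have hL : Nat.log p (20 * m) ≤ Nat.log p (90 * m - 100) := Nat.log_mono_right (by omega)
    have hL' : (Nat.log p (20 * m) : ℝ) ≤ Nat.log p (90 * m - 100) := by exact_mod_cast hL
    have e : ((f1 m p - SF p (90 * m - 100) - 2 * SF p (35 * m) - 2 * SF p (20 * m) : ℤ) : ℝ) =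
        (35 * m + 2 * (20 * m)) * Nat.log p (90 * m - 100) -
          (20 * m + 2 * (35 * m)) * Nat.log p (20 * m) -
          10 * (2 * (20 * m) + 1) * Nat.log p (90 * m - 100) := by
      unfold f1
      simp only [Int.cast_sub, Int.cast_add, Int.cast_mul, Int.cast_natCast, Int.cast_ofNat,
        Int.cast_one]
      ring
    rw [e]
    have h4 : 0 ≤ 90 * (m : ℝ) * (Nat.log p (90 * m - 100) - Nat.log p (20 * m)) := by
      apply mul_nonneg (by positivity); linarith
    have h5 : 0 ≤ (90 * (m : ℝ) * (Nat.log p (90 * m - 100) - Nat.log p (20 * m))) *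
        Real.log p := mul_nonneg h4 hp0
    nlinarith [h5]
  refine le_trans ?_ (Finset.sum_le_sum h3)
  rw [← Finset.mul_sum]
  have h6 : (415 * (m : ℝ) + 10) * ∑ p ∈ prs 0 (12 * m), (Nat.log p (90 * m - 100) : ℝ) *
      Real.log p ≤ (415 * (m : ℝ) + 10) * (∑ p ∈ prs 0 (12 * m), Real.log p +
        Real.sqrt (90 * m) * Real.log (90 * m)) :=
    mul_le_mul_of_nonneg_left h1 (by positivity)
  nlinarith

/-- all primes flat -/
noncomputable def LB0 (m : ℕ) : ℝ :=
  ∑ p ∈ prs 0 (12 * m), (f1 m p : ℝ) * Real.log p +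
    ∑ p ∈ prs (12 * m) (20 * m), (f2 m p : ℝ) * Real.log p +
    ∑ p ∈ prs (20 * m) (160 * m), (f3 m p : ℝ) * Real.log p

private lemma f3_le (m p : ℕ) (hp : 20 * m < p) : f3 m p ≤ 210 * m := by
  unfold f3 f3a f3b
  have : (0 : ℤ) ≤ m := by positivity
  split_ifs <;> omega

private lemma f2_le (m p : ℕ) (hp : 12 * m < p) (hp : p ≤ 20 * m) : f2 m p ≤ 210 * m := by
  unfold f2
  omega

private lemma f1_ge (m : ℕ) (hm : 2 ≤ m)
    (p : ℕ) (h1 : 12 * m < p) (h2 : p ≤ 20 * m) : -(415 * (m : ℤ) + 10) ≤ f1 m p := by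
  have hS : ∀ M, 0 ≤ SF p M := fun M => by unfold SF; positivity
  have hL : Nat.log p (90 * m - 100) = 1 := by
    rw [Nat.log_eq_one_iff]
    refine ⟨?_, by omega, by omega⟩
    nlinarith [Nat.mul_le_mul h1.le h1.le, Nat.sub_le (90 * m) 100, Nat.mul_le_mul hm hm]
  have hL' : Nat.log p (20 * m) = 1 := by
    rw [Nat.log_eq_one_iff]
    refine ⟨?_, by omega, h2⟩
    nlinarith [Nat.mul_le_mul h1.le h1.le]
  unfold f1
  rw [hL, hL']
  have := hS (90 * m - 100)
  have := hS (35 * m)
  have := hS (20 * m)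
  push_cast
  omega

theorem LBs_ge (m : ℕ) (hm : 2 ≤ m) (flat : ℕ → Prop) [DecidablePred flat] :
    LB0 m - 640 * m * Th m flat ≤ LBs m flat := by
  have hmR : (2 : ℝ) ≤ m := by exact_mod_cast hm
  have hsplit : Th m flat = ∑ p ∈ prs (12 * m) (20 * m), (if flat p then 0 else Real.log p) +
      ∑ p ∈ prs (20 * m) (160 * m), (if flat p then 0 else Real.log p) := by
    unfold Th
    rw [Finset.sum_filter]
    rw [prs_union (12 * m) (20 * m) (160 * m) (by omega) (by omega)]
    congr 1 <;> refine Finset.sum_congr rfl fun p _ => ?_ <;> by_cases h : flat p <;> simp [h]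
  have hA : ∑ p ∈ prs (12 * m) (20 * m), (f2 m p : ℝ) * Real.log p -
      640 * m * ∑ p ∈ prs (12 * m) (20 * m), (if flat p then 0 else Real.log p) ≤
      ∑ p ∈ prs (12 * m) (20 * m), ((if flat p then f2 m p else f1 m p : ℤ) : ℝ) *
        Real.log p := by
    rw [Finset.mul_sum, ← Finset.sum_sub_distrib]
    refine Finset.sum_le_sum fun p hp => ?_
    simp only [prs, mem_filter, mem_Ioc] at hp
    have hlog : 0 ≤ Real.log p := Real.log_natCast_nonneg p
    by_cases h : flat p
    · simp [h]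
    · simp only [h, if_false]
      have e1 := f1_ge m hm p hp.1.1 hp.1.2
      have e2 := f2_le m p hp.1.1 hp.1.2
      have e3 : (f2 m p : ℝ) - 640 * m ≤ f1 m p := by
        have : f2 m p - 640 * m ≤ f1 m p := by omega
        exact_mod_cast this
      nlinarith [mul_le_mul_of_nonneg_right e3 hlog]
  have hB : ∑ p ∈ prs (20 * m) (160 * m), (f3 m p : ℝ) * Real.log p -
      640 * m * ∑ p ∈ prs (20 * m) (160 * m), (if flat p then 0 else Real.log p) ≤
      ∑ p ∈ prs (20 * m) (160 * m), ((if flat p then f3 m p else 0 : ℤ) : ℝ) * Real.log p := by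
    rw [Finset.mul_sum, ← Finset.sum_sub_distrib]
    refine Finset.sum_le_sum fun p hp => ?_
    simp only [prs, mem_filter, mem_Ioc] at hp
    have hlog : 0 ≤ Real.log p := Real.log_natCast_nonneg p
    by_cases h : flat p
    · simp [h]
    · simp only [h, if_false]
      have e3 : (f3 m p : ℝ) - 640 * m ≤ 0 := by
        have h1 : f3 m p ≤ 210 * m := f3_le m p hp.1.1
        have : f3 m p - 640 * m ≤ 0 := by omega
        exact_mod_cast this
      push_cast
      nlinarith [mul_le_mul_of_nonneg_right e3 hlog]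
  unfold LB0 LBs
  rw [hsplit, mul_add]
  linarith

end MP_a3a416_nt.SJ5
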