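import Pool.Agent.Lib.MP_a3a416_nt.SJ5.GDefs
import Pool.Agent.Lib.MP_a3a416_nt.SJ5.ArDefs
import Pool.Agent.Lib.MP_a3a416_nt.SJ.ArCoeff
import Pool.Agent.Lib.MP_a3a416_nt.SJ.ArVander

/-! # SJ5-GWM: closed forms for the row weights and the Vandermonde determinant -/

set_option autoImplicit false

namespace MP_a3a416_nt.SJ5

open Finset MP_a3a416_nt.SJ

/-- `log ppr` as a sum -/
theorem log_ppr (S : Finset ℤ) (n : ℤ) :
    Real.log (ppr S n : ℝ) = ∑ s ∈ S.erase n, Real.log ((n - s).natAbs : ℝ) := by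
  unfold ppr
  push_cast
  rw [Real.log_prod]
  intro s hs
  have : n - s ≠ 0 := sub_ne_zero.2 (ne_of_mem_erase hs).symm
  have h2 : (n - s).natAbs ≠ 0 := Int.natAbs_ne_zero.2 this
  exact_mod_cast h2

/-- with `log 0 = 0` the condition `s ≠ n` can be dropped -/
theorem log_ppr' (S : Finset ℤ) (n : ℤ) :
    Real.log (ppr S n : ℝ) = ∑ s ∈ S, Real.log ((n - s).natAbs : ℝ) := by
  rw [log_ppr]
  by_cases h : n ∈ S
  · rw [← add_sum_erase S _ h]
    simp
  · rw [erase_eq_of_notMem h]

private theorem log_fact_sum (k : ℕ) :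
    ∑ j ∈ range (k + 1), Real.log (j : ℝ) = Real.log (k.factorial : ℝ) := by
  induction k with
  | zero => simp
  | succ k ih =>
    rw [sum_range_succ, ih, Nat.factorial_succ, Nat.cast_mul,
      Real.log_mul (by positivity) (by exact_mod_cast k.factorial_ne_zero)]
    ring

/-- sum over all `|n| ≤ N` of `log |n - e|` -/
theorem sum_Icc_log (N : ℕ) (e : ℤ) (he1 : -(N : ℤ) ≤ e) (he2 : e ≤ N) :
    ∑ n ∈ Icc (-(N : ℤ)) N, Real.log ((n - e).natAbs : ℝ) =
      Real.log ((((N : ℤ) + e).toNat).factorial : ℝ) +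
        Real.log ((((N : ℤ) - e).toNat).factorial : ℝ) := by
  have h1 : Icc (-(N : ℤ)) N = (Icc (-(N : ℤ)) N).filter (fun n => n ≤ e) ∪
      (Icc (-(N : ℤ)) N).filter (fun n => ¬ n ≤ e) := (filter_union_filter_not_eq _ _).symm
  have h2 : Disjoint ((Icc (-(N : ℤ)) N).filter (fun n => n ≤ e))
      ((Icc (-(N : ℤ)) N).filter (fun n => ¬ n ≤ e)) := disjoint_filter_filter_not _ _ _
  rw [h1, sum_union h2]
  congr 1
  · rw [← log_fact_sum]
    refine sum_nbij' (fun n => (e - n).toNat) (fun j => e - (j : ℤ)) ?_ ?_ ?_ ?_ ?_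
    · intro n hn
      simp only [mem_filter, mem_Icc] at hn
      rw [mem_range]
      omega
    · intro j hj
      rw [mem_range] at hj
      simp only [mem_filter, mem_Icc]
      omega
    · intro n hn
      simp only [mem_filter, mem_Icc] at hn
      omega
    · intro j hj
      omega
    · intro n hn
      simp only [mem_filter, mem_Icc] at hn
      have : (n - e).natAbs = (e - n).toNat := by omega
      rw [this]
  · have h3 := log_fact_sum (((N : ℤ) - e).toNat)
    rw [← h3, sum_range_succ']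
    simp only [Nat.cast_zero, Real.log_zero, add_zero]
    refine sum_nbij' (fun n => (n - e - 1).toNat) (fun j => e + 1 + (j : ℤ)) ?_ ?_ ?_ ?_ ?_
    · intro n hn
      simp only [mem_filter, mem_Icc] at hn
      rw [mem_range]
      omega
    · intro j hj
      rw [mem_range] at hj
      simp only [mem_filter, mem_Icc]
      omega
    · intro n hn
      simp only [mem_filter, mem_Icc] at hn
      omega
    · intro j hj
      omega
    · intro n hn
      simp only [mem_filter, mem_Icc] at hn
      have : (n - e).natAbs = (n - e - 1).toNat + 1 := by omega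
      rw [this]

/-- `log ∏ d_n = 2 ∑_{e} log (N+e)!` -/
theorem log_WM20 (m : ℕ) :
    Real.log ((WM (20 * m) (16 * m) : ℚ) : ℝ) = 2 * (S2 (18 * m + 1) - S2 (2 * m)) := by
  have hev : Even (16 * m) := ⟨8 * m, by ring⟩
  have h0 : Real.log ((WM (20 * m) (16 * m) : ℚ) : ℝ) =
      ∑ n ∈ Icc (-((20 * m : ℕ) : ℤ)) (20 * m : ℕ), Real.log (ppr (EE (16 * m)) n : ℝ) := by
    unfold WM
    rw [Rat.cast_prod, Real.log_prod]
    · simp
    · intro n _
      have := ppr_pos (EE (16 * m)) n
      simp only [Rat.cast_natCast]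
      positivity
  rw [h0]
  simp only [log_ppr']
  rw [sum_comm]
  have h1 : ∀ e ∈ EE (16 * m), ∑ n ∈ Icc (-((20 * m : ℕ) : ℤ)) (20 * m : ℕ),
      Real.log ((n - e).natAbs : ℝ) =
      Real.log (((((20 * m : ℕ) : ℤ) + e).toNat).factorial : ℝ) +
        Real.log (((((20 * m : ℕ) : ℤ) - e).toNat).factorial : ℝ) := by
    intro e he
    simp only [EE, mem_filter, mem_Icc] at he
    exact sum_Icc_log (20 * m) e (by push_cast at he ⊢; omega) (by push_cast at he ⊢; omega)
  rw [sum_congr rfl h1, sum_add_distrib, sum_EE (16 * m) hev, sum_EE (16 * m) hev]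
  have h2 : ∑ j : Fin (16 * m + 1), Real.log (((((20 * m : ℕ) : ℤ) + ev (16 * m) j).toNat).factorial : ℝ) =
      ∑ j ∈ range (16 * m + 1), Real.log ((2 * (2 * m + j)).factorial : ℝ) := by
    rw [← Fin.sum_univ_eq_sum_range (fun j => Real.log ((2 * (2 * m + j)).factorial : ℝ))]
    refine sum_congr rfl fun j _ => ?_
    congr 3
    unfold ev
    push_cast
    omega
  have h3 : ∑ j : Fin (16 * m + 1), Real.log (((((20 * m : ℕ) : ℤ) - ev (16 * m) j).toNat).factorial : ℝ) =
      ∑ j ∈ range (16 * m + 1), Real.log ((2 * (2 * m + j)).factorial : ℝ) := by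
    rw [← sum_range_reflect, ← Fin.sum_univ_eq_sum_range
      (fun j => Real.log ((2 * (2 * m + (16 * m + 1 - 1 - j))).factorial : ℝ))]
    refine sum_congr rfl fun j _ => ?_
    have := j.2
    congr 3
    unfold ev
    push_cast
    omega
  rw [h2, h3]
  have h4 : ∑ j ∈ range (16 * m + 1), Real.log ((2 * (2 * m + j)).factorial : ℝ) =
      S2 (18 * m + 1) - S2 (2 * m) := by
    unfold S2
    have h5 := sum_range_add (fun j => Real.log ((2 * j).factorial : ℝ)) (2 * m) (16 * m + 1)
    rw [show 18 * m + 1 = 2 * m + (16 * m + 1) by ring, h5]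
    exact (add_sub_cancel_left _ _).symm
  rw [h4]
  ring

/-- the sum of `log |i - j|` over `i, j < M` -/
theorem sum_sum_log (M : ℕ) :
    ∑ i ∈ range M, ∑ j ∈ range M, Real.log (((i : ℤ) - j).natAbs : ℝ) = 2 * SL M := by
  induction M with
  | zero => simp [SL]
  | succ M ih =>
    have e1 : SL (M + 1) = SL M + Real.log (M.factorial : ℝ) := by
      unfold SL
      rw [sum_range_succ]
    have h1 : ∑ j ∈ range (M + 1), Real.log ((((M : ℕ) : ℤ) - j).natAbs : ℝ) =
        Real.log (M.factorial : ℝ) := by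
      rw [← log_fact_sum, ← sum_range_reflect]
      refine sum_congr rfl fun j hj => ?_
      rw [mem_range] at hj
      congr 2
      omega
    have h2 : ∑ i ∈ range M, Real.log (((i : ℤ) - (M : ℕ)).natAbs : ℝ) =
        Real.log (M.factorial : ℝ) := by
      rw [← h1, sum_range_succ]
      simp only [sub_self, Int.natAbs_zero, Nat.cast_zero, Real.log_zero, add_zero]
      refine sum_congr rfl fun j hj => ?_
      congr 2
      omega
    rw [sum_range_succ, h1]
    simp only [sum_range_succ _ M]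
    rw [sum_add_distrib, ih, h2, e1]
    ring

theorem log_VE16 (m : ℕ) :
    Real.log ((VE (16 * m) : ℚ) : ℝ) =
      (16 * m + 1) * (16 * m) * Real.log 2 + 2 * SL (16 * m + 1) := by
  have hev : Even (16 * m) := ⟨8 * m, by ring⟩
  have h0 : Real.log ((VE (16 * m) : ℚ) : ℝ) =
      ∑ n ∈ EE (16 * m), Real.log (ppr (EE (16 * m)) n : ℝ) := by
    unfold VE
    rw [Rat.cast_prod, Real.log_prod]
    · simp
    · intro n _
      have := ppr_pos (EE (16 * m)) n
      simp only [Rat.cast_natCast]
      positivity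
  rw [h0]
  simp only [log_ppr']
  rw [sum_EE (16 * m) hev, sum_congr rfl fun i _ => sum_EE (16 * m) hev _,
    Fin.sum_univ_eq_sum_range (fun i => ∑ j : Fin (16 * m + 1),
      Real.log (((ev (16 * m) i) - ev (16 * m) j).natAbs : ℝ))]
  have h1 : ∀ i ∈ range (16 * m + 1), ∑ j : Fin (16 * m + 1),
      Real.log (((ev (16 * m) i) - ev (16 * m) j).natAbs : ℝ) =
      16 * m * Real.log 2 + ∑ j ∈ range (16 * m + 1), Real.log (((i : ℤ) - j).natAbs : ℝ) := by
    intro i hi
    rw [mem_range] at hi
    rw [Fin.sum_univ_eq_sum_range (fun j =>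
      Real.log (((ev (16 * m) i) - ev (16 * m) j).natAbs : ℝ))]
    have h2 : ∀ j ∈ range (16 * m + 1), Real.log (((ev (16 * m) i) - ev (16 * m) j).natAbs : ℝ) =
        (if j = i then 0 else Real.log 2) + Real.log (((i : ℤ) - j).natAbs : ℝ) := by
      intro j _
      have e : ((ev (16 * m) i) - ev (16 * m) j).natAbs = 2 * ((i : ℤ) - j).natAbs := by
        unfold ev
        omega
      rw [e]
      split_ifs with h
      · subst h
        simp
      · have h3 : ((i : ℤ) - j).natAbs ≠ 0 := by omega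
        push_cast
        rw [Real.log_mul (by norm_num) (by exact_mod_cast h3)]
    rw [sum_congr rfl h2, sum_add_distrib]
    congr 1
    rw [← add_sum_erase (range (16 * m + 1)) _ (mem_range.2 hi), if_pos rfl, zero_add,
      sum_congr rfl fun j hj => if_neg (ne_of_mem_erase hj), sum_const,
      card_erase_of_mem (mem_range.2 hi), card_range, nsmul_eq_mul]
    push_cast
    ring
  rw [sum_congr rfl h1, sum_add_distrib, sum_sum_log, sum_const, card_range, nsmul_eq_mul]
  push_cast
  ring

end MP_a3a416_nt.SJ5
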