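import Pool.Agent.Lib.MP_a3a416_nt.SJ.ZBase

/-!
# SJ5-Gen
General tools for zero estimates of forms `∑ P i (n+u) g i n (u)` with several functions `g i`, whose
shift is given by a matrix of polynomials: vanishing of the determinant of the shifted coefficient
vectors, its degree and its zeros.
-/

open Polynomial BBZ MP_a3a416_nt.SJ

namespace MP_a3a416_nt.SJ5

/-! ## relations of all shifts -/

theorem sh_surj (f : RatFunc ℚ) : ∃ g, sh g = f := by
  obtain ⟨p, q, hq, hg⟩ := IsFractionRing.div_surjective (A := ℚ[X]) f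
  refine ⟨algebraMap ℚ[X] (RatFunc ℚ) (taylor (-1) p) / algebraMap ℚ[X] (RatFunc ℚ) (taylor (-1) q), ?_⟩
  rw [map_div₀, sh_algebraMap, sh_algebraMap, taylor_taylor, taylor_taylor, ← hg]
  simp

open Classical in
/-- a relation satisfied by all shifts can be replaced by one with constant coefficients -/
theorem const_relation {κ : Type*} [Fintype κ] (ρ : RatFunc ℚ) (hρ : ρ ≠ 0) (w : ℕ → κ → RatFunc ℚ)
    (hw : ∀ j k, w (j + 1) k = ρ * sh (w j k)) :
    ∀ (N : ℕ) (l : κ → RatFunc ℚ), (Finset.univ.filter fun k => l k ≠ 0).card ≤ N → l ≠ 0 →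
      (∀ j : ℕ, ∑ k, l k * w j k = 0) →
      ∃ c : κ → ℚ, c ≠ 0 ∧ ∑ k, algebraMap ℚ[X] (RatFunc ℚ) (C (c k)) * w 0 k = 0 := by
  classical
  intro N
  induction N with
  | zero =>
    intro l hN hl _
    exfalso
    apply hl
    funext k
    by_contra hk
    have h1 := Finset.card_eq_zero.1 (Nat.le_zero.1 hN)
    have h2 : k ∈ Finset.univ.filter fun k => l k ≠ 0 := by
      rw [Finset.mem_filter]
      exact ⟨Finset.mem_univ _, hk⟩
    rw [h1] at h2
    exact absurd h2 (Finset.notMem_empty _)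
  | succ N ih =>
    intro l hN hl hrel
    obtain ⟨i0, hi0⟩ : ∃ i, l i ≠ 0 := by
      by_contra hcon
      push Not at hcon
      exact hl (funext hcon)
    set l' : κ → RatFunc ℚ := fun k => l k / l i0 with hl'
    have hrel' : ∀ j : ℕ, ∑ k, l' k * w j k = 0 := by
      intro j
      have h1 : ∑ k, l' k * w j k = (l i0)⁻¹ * ∑ k, l k * w j k := by
        rw [Finset.mul_sum]
        refine Finset.sum_congr rfl fun k _ => ?_
        rw [hl']
        field_simp
      rw [h1, hrel, mul_zero]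
    have hl'0 : l' i0 = 1 := div_self hi0
    set m : κ → RatFunc ℚ := fun k => l' k - sh (l' k) with hm
    have hmrel : ∀ j : ℕ, ∑ k, m k * sh (w j k) = 0 := by
      intro j
      have h1 : ∑ k, m k * sh (w j k) =
          ρ⁻¹ * (∑ k, l' k * w (j + 1) k) - sh (∑ k, l' k * w j k) := by
        rw [Finset.mul_sum, map_sum, ← Finset.sum_sub_distrib]
        refine Finset.sum_congr rfl fun k _ => ?_
        rw [hw, map_mul, hm]
        field_simp
      rw [h1, hrel', hrel', map_zero, mul_zero, sub_zero]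
    choose m' hm' using fun k => sh_surj (m k)
    have hm'rel : ∀ j : ℕ, ∑ k, m' k * w j k = 0 := by
      intro j
      apply sh_inj
      rw [map_sum, map_zero, ← hmrel j]
      refine Finset.sum_congr rfl fun k _ => ?_
      rw [map_mul, hm']
    by_cases hm0 : m' = 0
    · have h1 : ∀ k, sh (l' k) = l' k := by
        intro k
        have h2 := hm' k
        rw [hm0, Pi.zero_apply, map_zero] at h2
        exact (sub_eq_zero.1 (h2.symm : l' k - sh (l' k) = 0)).symm
      choose c hc using fun k => sh_const (l' k) (h1 k)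
      refine ⟨c, ?_, ?_⟩
      · intro h2
        have h3 := hc i0
        rw [hl'0, h2] at h3
        simp at h3
      · rw [← hrel' 0]
        refine Finset.sum_congr rfl fun k _ => ?_
        rw [← hc]
    · refine ih m' ?_ hm0 hm'rel
      have hsub : (Finset.univ.filter fun k => m' k ≠ 0) ⊆ (Finset.univ.filter fun k => l k ≠ 0).erase i0 := by
        intro k hk
        rw [Finset.mem_filter] at hk
        rw [Finset.mem_erase, Finset.mem_filter]
        refine ⟨?_, Finset.mem_univ _, ?_⟩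
        · rintro rfl
          apply hk.2
          apply sh_inj
          rw [hm', hm, map_zero]
          simp [hl'0]
        · intro h0
          apply hk.2
          apply sh_inj
          rw [hm', hm, map_zero]
          simp [hl', h0]
      have h1 := Finset.card_le_card hsub
      rw [Finset.card_erase_of_mem (by rw [Finset.mem_filter]; exact ⟨Finset.mem_univ _, hi0⟩)] at h1
      omega

/-! ## the difference operator -/

/-- the difference operator attached to the matrix `M` on polynomial vectors -/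
noncomputable def TP {ι : Type*} [Fintype ι] (M : ι → ι → ℚ[X]) (P : ι → ℚ[X]) : ι → ℚ[X] :=
  fun j => ∑ i, taylor 1 (P i) * M i j

/-- the same on vectors of rational functions -/
noncomputable def TK {ι : Type*} [Fintype ι] (M : ι → ι → ℚ[X]) (v : ι → RatFunc ℚ) : ι → RatFunc ℚ :=
  fun j => ∑ i, sh (v i) * algebraMap ℚ[X] (RatFunc ℚ) (M i j)

theorem TP_alg {ι : Type*} [Fintype ι] (M : ι → ι → ℚ[X]) (P : ι → ℚ[X]) :
    (fun i => algebraMap ℚ[X] (RatFunc ℚ) (TP M P i)) = TK M (fun i => algebraMap ℚ[X] (RatFunc ℚ) (P i)) := by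
  funext j
  simp only [TP, TK, map_sum, map_mul, sh_algebraMap]

theorem TP_iter_alg {ι : Type*} [Fintype ι] (M : ι → ι → ℚ[X]) (P : ι → ℚ[X]) (j : ℕ) :
    (fun i => algebraMap ℚ[X] (RatFunc ℚ) ((TP M)^[j] P i)) =
      (TK M)^[j] (fun i => algebraMap ℚ[X] (RatFunc ℚ) (P i)) := by
  induction j with
  | zero => rfl
  | succ j ih => rw [Function.iterate_succ_apply', Function.iterate_succ_apply', TP_alg, ih]

theorem TK_add {ι : Type*} [Fintype ι] (M : ι → ι → ℚ[X]) (v w : ι → RatFunc ℚ) :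
    TK M (v + w) = TK M v + TK M w := by
  funext j
  simp only [TK, Pi.add_apply, map_add, add_mul, Finset.sum_add_distrib]

theorem TK_smul {ι : Type*} [Fintype ι] (M : ι → ι → ℚ[X]) (c : RatFunc ℚ) (v : ι → RatFunc ℚ) :
    TK M (c • v) = sh c • TK M v := by
  funext j
  simp only [TK, Pi.smul_apply, smul_eq_mul, map_mul, Finset.mul_sum, mul_assoc]

theorem TK_zero {ι : Type*} [Fintype ι] (M : ι → ι → ℚ[X]) : TK M (0 : ι → RatFunc ℚ) = 0 := by
  funext j
  simp [TK]

/-- if the determinant of the shifted vectors vanishes, a linear form annihilates all shifts -/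
theorem annih_of_det {ι : Type*} [Fintype ι] [DecidableEq ι] [Nonempty ι] {r : ℕ} (e : ι ≃ Fin r)
    (M : ι → ι → ℚ[X]) (v : ι → RatFunc ℚ)
    (hdet : (Matrix.of fun (j i : ι) => (TK M)^[(e j : ℕ)] v i).det = 0) :
    ∃ l : ι → RatFunc ℚ, l ≠ 0 ∧ ∀ j : ℕ, ∑ i, l i * (TK M)^[j] v i = 0 := by
  classical
  by_cases hv : v = 0
  · refine ⟨fun _ => 1, ?_, ?_⟩
    · obtain ⟨i⟩ := ‹Nonempty ι›
      intro h
      exact one_ne_zero (congrFun h i)
    · intro j
      have h1 : ∀ j : ℕ, (TK M)^[j] v = 0 := by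
        intro j
        induction j with
        | zero => simpa using hv
        | succ j ih => rw [Function.iterate_succ_apply', ih, TK_zero]
      rw [h1]
      simp
  obtain ⟨k, -, hk2, hli, hmem⟩ := firstDep (K := RatFunc ℚ) (fun j => (TK M)^[j] v) (by simpa using hv)
  have hr : Fintype.card ι = r := by
    rw [Fintype.card_congr e, Fintype.card_fin]
  rw [Module.finrank_fintype_fun_eq_card, hr] at hk2
  have hklt : k < r := by
    rcases lt_or_eq_of_le hk2 with h | h
    · exact h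
    · exfalso
      subst h
      have h1 : LinearIndependent (RatFunc ℚ) (Matrix.of fun (j i : ι) => (TK M)^[(e j : ℕ)] v i).row := by
        have h2 := hli.comp e e.injective
        exact h2
      have hu := Matrix.linearIndependent_rows_iff_isUnit.1 h1
      exact ((Matrix.isUnit_iff_isUnit_det _).1 hu).ne_zero hdet
  set S : Submodule (RatFunc ℚ) (ι → RatFunc ℚ) :=
    Submodule.span (RatFunc ℚ) (Set.range fun j : Fin k => (TK M)^[(j : ℕ)] v) with hS
  have hstab : ∀ w ∈ S, TK M w ∈ S := by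
    intro w hw
    rw [hS] at hw
    induction hw using Submodule.span_induction with
    | mem x hx =>
      obtain ⟨j, rfl⟩ := hx
      change TK M ((TK M)^[(j : ℕ)] v) ∈ S
      rw [← Function.iterate_succ_apply' (TK M)]
      by_cases hj : (j : ℕ) + 1 < k
      · exact Submodule.subset_span ⟨⟨(j : ℕ) + 1, hj⟩, rfl⟩
      · have : (j : ℕ).succ = k := by have := j.2; omega
        rw [this]
        exact hmem
    | zero => rw [TK_zero]; exact S.zero_mem
    | add x y _ _ hx hy => rw [TK_add]; exact S.add_mem hx hy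
    | smul c x _ hx => rw [TK_smul]; exact S.smul_mem _ hx
  have hall : ∀ j : ℕ, (TK M)^[j] v ∈ S := by
    intro j
    induction j with
    | zero =>
      by_cases hk0 : 0 < k
      · exact Submodule.subset_span ⟨⟨0, hk0⟩, rfl⟩
      · have : k = 0 := by omega
        subst this
        exact hmem
    | succ j ih => rw [Function.iterate_succ_apply']; exact hstab _ ih
  have htop : S < ⊤ := by
    rw [lt_top_iff_ne_top]
    intro h
    have h1 : Module.finrank (RatFunc ℚ) S ≤ k := by
      have h2 := finrank_range_le_card (R := RatFunc ℚ) (fun j : Fin k => (TK M)^[(j : ℕ)] v)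
      rw [Fintype.card_fin] at h2
      exact h2
    rw [h, finrank_top, Module.finrank_fintype_fun_eq_card, hr] at h1
    omega
  obtain ⟨f, hf0, hf⟩ := Submodule.exists_le_ker_of_lt_top S htop
  refine ⟨fun i => f (Pi.single i 1), ?_, ?_⟩
  · intro h
    apply hf0
    refine LinearMap.pi_ext' fun i => ?_
    ext
    simpa using congrFun h i
  · intro j
    have h1 : f ((TK M)^[j] v) = 0 := hf (hall j)
    rw [← h1]
    conv_rhs => rw [pi_eq_sum_univ' ((TK M)^[j] v)]
    rw [map_sum]
    refine Finset.sum_congr rfl fun i _ => ?_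
    rw [map_smul, smul_eq_mul, mul_comm]

/-! ## degrees -/

theorem det_natDegree {ι : Type*} [Fintype ι] [DecidableEq ι] (A : Matrix ι ι ℚ[X]) (D E : ι → ℕ)
    (h : ∀ j i, (A j i).natDegree ≤ D j + E i) : A.det.natDegree ≤ ∑ j, D j + ∑ i, E i := by
  rw [Matrix.det_apply]
  refine natDegree_sum_le_of_forall_le _ _ fun σ _ => ?_
  have h1 : (Equiv.Perm.sign σ • ∏ i, A (σ i) i).natDegree ≤ (∏ i, A (σ i) i).natDegree := by
    rcases Int.units_eq_one_or (Equiv.Perm.sign σ) with h | h
    · rw [h, one_smul]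
    · rw [h, Units.neg_smul, one_smul, natDegree_neg]
  refine h1.trans ((natDegree_prod_le _ _).trans ?_)
  calc ∑ i, (A (σ i) i).natDegree ≤ ∑ i, (D (σ i) + E i) :=
        Finset.sum_le_sum fun i _ => h (σ i) i
    _ = ∑ j, D j + ∑ i, E i := by
        rw [Finset.sum_add_distrib, Equiv.sum_comp σ D]

theorem TP_natDegree {ι : Type*} [Fintype ι] (M : ι → ι → ℚ[X]) (E : ι → ℕ) (s : ℕ)
    (hM : ∀ i j, M i j ≠ 0 → (M i j).natDegree + E i ≤ E j + s) (P : ι → ℚ[X]) (t : ℕ)
    (hP : ∀ i, (P i).natDegree ≤ E i + t) (j : ι) : (TP M P j).natDegree ≤ E j + (s + t) := by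
  unfold TP
  refine natDegree_sum_le_of_forall_le _ _ fun i _ => ?_
  by_cases h0 : M i j = 0
  · rw [h0, mul_zero, natDegree_zero]
    exact Nat.zero_le _
  · refine natDegree_mul_le.trans ?_
    rw [natDegree_taylor]
    have h1 := hM i j h0
    have h2 := hP i
    omega

theorem TP_iter_natDegree {ι : Type*} [Fintype ι] (M : ι → ι → ℚ[X]) (E : ι → ℕ) (s : ℕ)
    (hM : ∀ i j, M i j ≠ 0 → (M i j).natDegree + E i ≤ E j + s) (P : ι → ℚ[X])
    (hP : ∀ i, (P i).natDegree ≤ E i) (m : ℕ) (j : ι) : ((TP M)^[m] P j).natDegree ≤ E j + s * m := by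
  induction m generalizing j with
  | zero => simpa using hP j
  | succ m ih =>
    rw [Function.iterate_succ_apply']
    refine (TP_natDegree M E s hM _ (s * m) ih j).trans ?_
    rw [Nat.mul_succ]
    omega

/-! ## zeros -/

/-- the jet at `n` of the form with coefficient vector `P` -/
noncomputable def RF {ι : Type*} [Fintype ι] (g : ι → ℤ → PowerSeries ℚ) (n : ℤ) (P : ι → ℚ[X]) :
    PowerSeries ℚ := ∑ i, ((taylor (n : ℚ) (P i) : ℚ[X]) : PowerSeries ℚ) * g i n

/-- the matrix `M` describes the shift of the functions `g`, up to the factor `f` -/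
def IsShift {ι : Type*} [Fintype ι] (g : ι → ℤ → PowerSeries ℚ) (M : ι → ι → ℚ[X])
    (f : ℤ → PowerSeries ℚ) : Prop :=
  ∀ n i, f n * g i (n + 1) = ∑ j, ((taylor (n : ℚ) (M i j) : ℚ[X]) : PowerSeries ℚ) * g j n

theorem RF_TP {ι : Type*} [Fintype ι] {g : ι → ℤ → PowerSeries ℚ} {M : ι → ι → ℚ[X]}
    {f : ℤ → PowerSeries ℚ} (h : IsShift g M f) (n : ℤ) (P : ι → ℚ[X]) :
    RF g n (TP M P) = f n * RF g (n + 1) P := by
  have ht : ∀ p : ℚ[X], taylor (n : ℚ) (taylor 1 p) = taylor ((n + 1 : ℤ) : ℚ) p := by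
    intro p
    rw [taylor_taylor]
    push_cast
    rfl
  have hsum : ∀ (F : ι → ℚ[X]), ((taylor (n : ℚ) (∑ i, F i) : ℚ[X]) : PowerSeries ℚ) =
      ∑ i, ((taylor (n : ℚ) (F i) : ℚ[X]) : PowerSeries ℚ) := by
    intro F
    rw [map_sum]
    exact map_sum (Polynomial.coeToPowerSeries.ringHom (R := ℚ)) _ _
  unfold RF TP
  simp only [hsum, taylor_mul, ht, Polynomial.coe_mul]
  rw [Finset.mul_sum]
  simp only [Finset.sum_mul]
  rw [Finset.sum_comm]
  refine Finset.sum_congr rfl fun i _ => ?_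
  rw [mul_left_comm, h n i, Finset.mul_sum]
  refine Finset.sum_congr rfl fun j _ => ?_
  ring

theorem RF_TP_iter {ι : Type*} [Fintype ι] {g : ι → ℤ → PowerSeries ℚ} {M : ι → ι → ℚ[X]}
    {f : ℤ → PowerSeries ℚ} (h : IsShift g M f) (P : ι → ℚ[X]) (m : ℕ) (n : ℤ) :
    RF g (n + m) P ∣ RF g n ((TP M)^[m] P) := by
  induction m generalizing n with
  | zero => simp
  | succ m ih =>
    rw [Function.iterate_succ_apply', RF_TP h]
    have h1 := ih (n + 1)
    have h2 : n + 1 + (m : ℤ) = n + ((m + 1 : ℕ) : ℤ) := by push_cast; ring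
    rw [h2] at h1
    exact Dvd.dvd.mul_left h1 _

/-- zeros of the determinant -/
theorem det_zero {ι : Type*} [Fintype ι] [DecidableEq ι] (g : ι → ℤ → PowerSeries ℚ) (n : ℤ)
    (A : Matrix ι ι ℚ[X]) (t : ℕ) (hA : ∀ j, PowerSeries.X ^ t ∣ RF g n (A j)) (i : ι)
    (hg : IsUnit (g i n)) :
    PowerSeries.X ^ t ∣ ((taylor (n : ℚ) A.det : ℚ[X]) : PowerSeries ℚ) := by
  set φ : ℚ[X] →+* PowerSeries ℚ :=
    (Polynomial.coeToPowerSeries.ringHom (R := ℚ)).comp (taylorAlgHom (n : ℚ)).toRingHom with hφ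
  have hφa : ∀ p : ℚ[X], φ p = ((taylor (n : ℚ) p : ℚ[X]) : PowerSeries ℚ) := fun p => rfl
  rw [← hφa, RingHom.map_det]
  set B : Matrix ι ι (PowerSeries ℚ) := φ.mapMatrix A with hB
  have hBv : ∀ j, (B.mulVec fun i => g i n) j = RF g n (A j) := by
    intro j
    rfl
  have h1 : B.det * g i n = ∑ j, B.adjugate i j * RF g n (A j) := by
    have h2 : (B.adjugate.mulVec (B.mulVec fun i => g i n)) i = B.det * g i n := by
      rw [Matrix.mulVec_mulVec, Matrix.adjugate_mul, Matrix.smul_mulVec, Matrix.one_mulVec]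
      rfl
    rw [← h2]
    unfold Matrix.mulVec dotProduct
    refine Finset.sum_congr rfl fun j _ => ?_
    congr 1
  have h3 : PowerSeries.X ^ t ∣ B.det * g i n := by
    rw [h1]
    exact Finset.dvd_sum fun j _ => Dvd.dvd.mul_left (hA j) _
  exact hg.dvd_mul_right.1 h3

/-- zeros of the determinant if moreover a column vanishes -/
theorem det_zero_succ {ι : Type*} [Fintype ι] [DecidableEq ι] (g : ι → ℤ → PowerSeries ℚ) (n : ℤ)
    (A : Matrix ι ι ℚ[X]) (t : ℕ) (hA : ∀ j, PowerSeries.X ^ t ∣ RF g n (A j)) (i i1 : ι) (hi : i1 ≠ i)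
    (hcol : ∀ j, PowerSeries.X ∣ ((taylor (n : ℚ) (A j i1) : ℚ[X]) : PowerSeries ℚ))
    (hg : IsUnit (g i n)) :
    PowerSeries.X ^ (t + 1) ∣ ((taylor (n : ℚ) A.det : ℚ[X]) : PowerSeries ℚ) := by
  set φ : ℚ[X] →+* PowerSeries ℚ :=
    (Polynomial.coeToPowerSeries.ringHom (R := ℚ)).comp (taylorAlgHom (n : ℚ)).toRingHom with hφ
  have hφa : ∀ p : ℚ[X], φ p = ((taylor (n : ℚ) p : ℚ[X]) : PowerSeries ℚ) := fun p => rfl
  rw [← hφa, RingHom.map_det]
  set B : Matrix ι ι (PowerSeries ℚ) := φ.mapMatrix A with hB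
  have h1 : B.det * g i n = ∑ j, B.adjugate i j * RF g n (A j) := by
    have h2 : (B.adjugate.mulVec (B.mulVec fun i => g i n)) i = B.det * g i n := by
      rw [Matrix.mulVec_mulVec, Matrix.adjugate_mul, Matrix.smul_mulVec, Matrix.one_mulVec]
      rfl
    rw [← h2]
    unfold Matrix.mulVec dotProduct
    refine Finset.sum_congr rfl fun j _ => ?_
    congr 1
  have hadj : ∀ j, PowerSeries.X ∣ B.adjugate i j := by
    intro j
    rw [Matrix.adjugate_apply]
    have h2 : ∀ j', PowerSeries.X ∣ (B.updateRow j (Pi.single i 1)) j' i1 := by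
      intro j'
      by_cases h : j' = j
      · subst h
        rw [Matrix.updateRow_self, Pi.single_eq_of_ne hi]
        exact dvd_zero _
      · rw [Matrix.updateRow_ne h]
        exact hcol j'
    choose c hc using h2
    have h3 : B.updateRow j (Pi.single i 1) =
        (B.updateRow j (Pi.single i 1)).updateCol i1 ((PowerSeries.X : PowerSeries ℚ) • c) := by
      ext a b
      by_cases h : b = i1
      · subst h
        rw [Matrix.updateCol_self, hc]
        rfl
      · rw [Matrix.updateCol_ne h]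
    rw [h3, Matrix.det_updateCol_smul]
    exact Dvd.intro _ rfl
  have h3 : PowerSeries.X ^ (t + 1) ∣ B.det * g i n := by
    rw [h1, pow_succ']
    exact Finset.dvd_sum fun j _ => mul_dvd_mul (hadj j) (hA j)
  exact hg.dvd_mul_right.1 h3

/-- counting zeros with multiplicities -/
theorem countZm (δ : ℚ[X]) (hδ : δ ≠ 0) (S : Finset ℤ) (t : ℤ → ℕ)
    (h : ∀ n ∈ S, PowerSeries.X ^ (t n) ∣ ((taylor (n : ℚ) δ : ℚ[X]) : PowerSeries ℚ)) :
    ∑ n ∈ S, t n ≤ δ.natDegree := by
  have h1 : ∀ n ∈ S, (X - C (n : ℚ)) ^ (t n) ∣ δ := by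
    intro n hn
    have h2 : (X : ℚ[X]) ^ (t n) ∣ taylor (n : ℚ) δ := by
      rw [Polynomial.X_pow_dvd_iff]
      intro d hd
      have h3 := (PowerSeries.X_pow_dvd_iff.1 (h n hn)) d hd
      rwa [Polynomial.coeff_coe] at h3
    obtain ⟨g, hg⟩ := h2
    refine ⟨taylor (-(n : ℚ)) g, ?_⟩
    have h4 : taylor (-(n : ℚ)) (taylor (n : ℚ) δ) = δ := by
      rw [taylor_taylor]
      simp
    rw [← h4, hg, taylor_mul, taylor_pow, taylor_X]
    simp [sub_eq_add_neg]
  have h5 : (∏ n ∈ S, (X - C (n : ℚ)) ^ (t n)) ∣ δ := by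
    refine Finset.prod_dvd_of_coprime ?_ fun n hn => h1 n hn
    intro i _ j _ hij
    refine IsCoprime.pow ?_
    exact Polynomial.isCoprime_X_sub_C_of_isUnit_sub
      (isUnit_iff_ne_zero.2 (sub_ne_zero.2 (by exact_mod_cast hij)))
  have h6 := natDegree_le_of_dvd h5 hδ
  rw [natDegree_prod_of_monic _ _ (fun n _ => (monic_X_sub_C _).pow (t n))] at h6
  have h7 : ∀ n ∈ S, ((X - C (n : ℚ)) ^ (t n)).natDegree = t n := by
    intro n _
    rw [natDegree_pow, natDegree_X_sub_C, mul_one]
  rw [Finset.sum_congr rfl h7] at h6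
  exact h6

end MP_a3a416_nt.SJ5
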