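import Pool.Agent.Lib.MP_a3a416_nt.SJ5.Defs

/-!
# SJ5-VS: power series whose coefficients of `u^k`, `k < 5`, have valuation at least `b`
-/

open Polynomial

namespace MP_a3a416_nt.SJ5

open MP_a3a416_nt.SJ

/-- the coefficients of `u^k`, `k < 5`, have valuation at least `b` -/
def VS (p : ℕ) (b : ℤ) (f : PowerSeries ℚ) : Prop := ∀ k < 5, val p (PowerSeries.coeff k f) b

namespace VS

variable {p : ℕ} [hp : Fact p.Prime] {f g : PowerSeries ℚ} {a b : ℤ}

omit hp in
theorem zero (a : ℤ) : VS p a 0 := fun k _ => by simpa using val.zero a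

omit hp in
theorem mono (h : VS p a f) (hab : b ≤ a) : VS p b f := fun k hk => (h k hk).mono hab

theorem add (hf : VS p a f) (hg : VS p a g) : VS p a (f + g) := fun k hk => by
  rw [map_add]; exact (hf k hk).add (hg k hk)

omit hp in
theorem neg (hf : VS p a f) : VS p a (-f) := fun k hk => by
  rw [map_neg]; exact (hf k hk).neg

theorem sub (hf : VS p a f) (hg : VS p a g) : VS p a (f - g) := by
  rw [sub_eq_add_neg]; exact hf.add hg.neg

theorem mul (hf : VS p a f) (hg : VS p b g) : VS p (a + b) (f * g) := fun k hk => by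
  rw [PowerSeries.coeff_mul]
  apply val.sum
  intro x hx
  rw [Finset.HasAntidiagonal.mem_antidiagonal] at hx
  exact (hf x.1 (by omega)).mul (hg x.2 (by omega))

theorem sum {ι : Type*} {s : Finset ι} {F : ι → PowerSeries ℚ} (h : ∀ i ∈ s, VS p a (F i)) :
    VS p a (∑ i ∈ s, F i) := fun k hk => by
  rw [map_sum]
  exact val.sum fun i hi => h i hi k hk

omit hp in
theorem C {x : ℚ} (hx : val p x a) : VS p a (PowerSeries.C x) := fun k _ => by
  rw [PowerSeries.coeff_C]
  split_ifs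
  · exact hx
  · exact val.zero _

omit hp in
theorem one : VS p 0 1 := by
  have := VS.C (p := p) val.one
  rwa [map_one] at this

omit hp in
theorem X : VS p 0 PowerSeries.X := fun k _ => by
  rw [PowerSeries.coeff_X]
  split_ifs
  · exact val.one
  · exact val.zero _

theorem pow (hf : VS p a f) (k : ℕ) : VS p (k * a) (f ^ k) := by
  induction k with
  | zero => simpa using VS.one
  | succ k ih =>
    rw [pow_succ]
    refine (ih.mul hf).mono (le_of_eq ?_)
    push_cast; ring

theorem X_pow (k : ℕ) : VS p 0 (PowerSeries.X ^ k) := by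
  simpa using (VS.X (p := p)).pow k

theorem mul_left (hf : VS p 0 f) (hg : VS p b g) : VS p b (f * g) := by
  simpa using hf.mul hg

theorem mul_right (hf : VS p a f) (hg : VS p 0 g) : VS p a (f * g) := by
  simpa using hf.mul hg

omit hp in
theorem congr (h : VS p a f) (e : f = g) : VS p a g := e ▸ h

end VS

/-- Taylor expansion of an integral polynomial -/
theorem coeff_tp_int (P : ℤ[X]) (n : ℤ) (k : ℕ) :
    PowerSeries.coeff k (tp (P.map (Int.castRingHom ℚ)) n) = (((taylor n P).coeff k : ℤ) : ℚ) := by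
  rw [coeff_tp]
  have : taylor (n : ℚ) (P.map (Int.castRingHom ℚ)) = (taylor n P).map (Int.castRingHom ℚ) := by
    rw [taylor_apply, taylor_apply, Polynomial.map_comp]
    simp
  rw [this, coeff_map]
  simp

theorem val_coeff_tp_int {p : ℕ} (P : ℤ[X]) (n : ℤ) (k : ℕ) :
    val p (PowerSeries.coeff k (tp (P.map (Int.castRingHom ℚ)) n)) 0 := by
  rw [coeff_tp_int]
  exact val.int _

theorem val_coeff_tp_X_pow {p : ℕ} (i : ℕ) (n : ℤ) (k : ℕ) :
    val p (PowerSeries.coeff k (tp (X ^ i) n)) 0 := by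
  have := val_coeff_tp_int (p := p) (X ^ i) n k
  rwa [Polynomial.map_pow, Polynomial.map_X] at this

theorem VS_tp_X_pow {p : ℕ} (i : ℕ) (n : ℤ) : VS p 0 (tp (X ^ i) n) := fun k _ =>
  val_coeff_tp_X_pow i n k

theorem VS_tp_X {p : ℕ} (n : ℤ) : VS p 0 (tp X n) := by
  have := VS_tp_X_pow (p := p) 1 n
  rwa [pow_one] at this

/-- the coefficients of `(n+u)^i` -/
theorem coeff_tp_X_pow (i : ℕ) (n : ℤ) (k : ℕ) :
    PowerSeries.coeff k (tp (X ^ i) n) = (n : ℚ) ^ (i - k) * (i.choose k : ℚ) := by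
  rw [coeff_tp, taylor_apply, pow_comp, X_comp, coeff_X_add_C_pow]

/-- `z = n - (n+u)^p` vanishes modulo `(p, u^5)` -/
theorem VS_z {p : ℕ} [hp : Fact p.Prime] (hp5 : 5 ≤ p) (n : ℤ) :
    VS p 1 (PowerSeries.C (n : ℚ) - tp (X ^ p) n) := by
  intro k hk
  rw [map_sub, PowerSeries.coeff_C, coeff_tp_X_pow]
  rcases Nat.eq_zero_or_pos k with h0 | h0
  · subst h0
    rw [if_pos rfl, Nat.sub_zero, Nat.choose_zero_right, Nat.cast_one, mul_one]
    have h3 : (p : ℤ) ^ 1 ∣ n - n ^ p := by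
      rw [pow_one, ← ZMod.intCast_zmod_eq_zero_iff_dvd]
      push_cast
      rw [ZMod.pow_card, sub_self]
    have := val.of_dvd h3
    push_cast at this
    exact this
  · rw [if_neg h0.ne', zero_sub]
    apply val.neg
    have h3 : (p : ℤ) ^ 1 ∣ n ^ (p - k) * ((p.choose k : ℕ) : ℤ) := by
      rw [pow_one]
      apply Dvd.dvd.mul_left
      exact_mod_cast hp.out.dvd_choose_self h0.ne' (by omega)
    have := val.of_dvd h3
    push_cast at this
    exact this

/-- for `p ∣ n`, `p ≥ 11`, high powers of `n + u` vanish modulo `(p^2, u^5)` -/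
theorem VS_tp_pow_of_dvd {p : ℕ} [hp : Fact p.Prime] {i : ℕ} (hi : 6 ≤ i) {n : ℤ} (h : (p : ℤ) ∣ n) :
    VS p 2 (tp (X ^ i) n) := by
  intro k hk
  rw [coeff_tp_X_pow]
  have h3 : (p : ℤ) ^ 2 ∣ n ^ (i - k) * ((i.choose k : ℕ) : ℤ) := by
    apply Dvd.dvd.mul_right
    exact (pow_dvd_pow_of_dvd h 2).trans (pow_dvd_pow n (by omega))
  have := val.of_dvd h3
  push_cast at this
  exact this

/-- for `p ∤ n` the power series `1 / (n + u)` is `p`-integral -/
theorem VS_inv {p : ℕ} [hp : Fact p.Prime] {n : ℤ} (h : ¬ (p : ℤ) ∣ n) :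
    ∃ g : PowerSeries ℚ, tp X n * g = 1 ∧ ∀ k, val p (PowerSeries.coeff k g) 0 := by
  have hn : (n : ℚ) ≠ 0 := by
    intro h0
    apply h
    have : n = 0 := by exact_mod_cast h0
    rw [this]; exact dvd_zero _
  refine ⟨PowerSeries.mk fun j => (-1) ^ j * ((n : ℚ)⁻¹) ^ (j + 1), ?_, fun k => ?_⟩
  · rw [tp_X]
    ext k
    rw [add_mul, map_add, PowerSeries.coeff_C_mul, PowerSeries.coeff_mk]
    cases k with
    | zero =>
      rw [PowerSeries.coeff_zero_X_mul]
      simp [hn]
    | succ k =>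
      rw [PowerSeries.coeff_succ_X_mul, PowerSeries.coeff_mk, PowerSeries.coeff_one, if_neg (by omega)]
      have h1 : (n : ℚ) * (n : ℚ)⁻¹ = 1 := mul_inv_cancel₀ hn
      linear_combination (-1) ^ (k + 1) * ((n : ℚ)⁻¹) ^ (k + 1) * h1
  · rw [PowerSeries.coeff_mk]
    have h1 := (val.inv_of_not_dvd h).pow (k + 1)
    have h2 := h1.int_mul ((-1) ^ k)
    push_cast at h2
    simpa using h2

end MP_a3a416_nt.SJ5
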