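import Pool.Agent.Lib.MP_a3a416_nt.SJ5.ColOp
import Pool.Agent.Lib.MP_a3a416_nt.SJ5.VS
import Pool.Agent.Lib.MP_a3a416_nt.SJ.QCoef

/-! # SJ5-GenBound: the bound for every prime
PROOF. Adapt `SJ/GenBound.lean` and the end of `SJ/QCoef.lean`.  Replace the monomials by `SJ.qf i` (`sdet_VP_eq`, `SJ.qf_monic`); `Lg = Nat.log p K`, `L' = Nat.log p N ≤ Lg`.
`SJ.val_taylor_qf`: `v([u^k] q_i(n+u)) ≥ v(i!) - k Lg`.  Local functions: `hh r n` has `v ≥ - r L'` (`SJ.val_inv_int`), so
`v([u^j] gser .f) ≥ -(1+j) L' - v_p(c.den)`, `v([u^j] gser .g) ≥ -(2+j) L' - v_p(c.den)` (`(j+1)(j+2)/2` is the integer `(j+2).choose 2`; `v(c) ≥ - v_p(c.den)`).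
`SJ.val_conv`.  Potentials (`SJ.val_sdet`): rows `-k Lg` (sum `-10 (2N+1) Lg`), columns `v(i!)`, `v(i!) + Lg`, `v(i!) + 2 Lg`,
`v(i!) - L' - v(den)`, `v(i!) - 2 L' - v(den)` for the blocks z, u, w, f, g, and `0` for the unit columns (`k Lg ≥ 0`). -/

set_option autoImplicit false

open Polynomial

namespace MP_a3a416_nt.SJ5

open MP_a3a416_nt.SJ

/-- column potentials. -/
private def bG (p : ℕ) (c : ℚ) (N K : ℕ) : Blk → ℕ → ℤ
  | .z, i => (padicValNat p i.factorial : ℤ)
  | .u, i => (padicValNat p i.factorial : ℤ) + (Nat.log p K : ℤ)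
  | .w, i => (padicValNat p i.factorial : ℤ) + 2 * (Nat.log p K : ℤ)
  | .f, i => (padicValNat p i.factorial : ℤ) - (Nat.log p N : ℤ) - (padicValNat p c.den : ℤ)
  | .g, i => (padicValNat p i.factorial : ℤ) - 2 * (Nat.log p N : ℤ) - (padicValNat p c.den : ℤ)

private theorem sum_row (N : ℕ) : ∑ ρ : Row N, (((ρ.2 : ℕ) : ℤ)) = 10 * (2 * N + 1) := by
  rw [Fintype.sum_prod_type]
  simp only [Fin.sum_univ_five]
  simp
  ring

private theorem val_hh {p : ℕ} [hp : Fact p.Prime] {N : ℕ} {n : ℤ} (h1 : -(N : ℤ) ≤ n)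
    (h2 : n ≤ N) (r : ℕ) : val p (hh r n) (-(r * (Nat.log p N : ℤ))) := by
  unfold hh
  apply val.sub
  · apply val.sum
    intro b hb
    simp only [Finset.mem_Ioc] at hb
    exact val_inv_int (by omega) (by rw [abs_le]; omega) r
  · apply val.sum
    intro b hb
    simp only [Finset.mem_Ioo] at hb
    exact val_inv_int (by omega) (by rw [abs_le]; omega) r

private theorem val_c {p : ℕ} [hp : Fact p.Prime] (c : ℚ) (m : ℤ) :
    val p ((m : ℚ) * c) (-(padicValNat p c.den : ℤ)) := by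
  have hd : (c.den : ℚ) ≠ 0 := by exact_mod_cast c.den_nz
  have h1 : (m : ℚ) * c = ((m * c.num : ℤ) : ℚ) / ((c.den : ℤ) : ℚ) := by
    have hc : c * c.den = c.num := Rat.mul_den_eq_num c
    rw [eq_div_iff (by exact_mod_cast c.den_nz)]
    push_cast
    linear_combination (m : ℚ) * hc
  rw [h1]
  have h2 := (val.int (p := p) (m * c.num)).div_int (n := (c.den : ℤ))
    (k := padicValNat p c.den) (by exact_mod_cast c.den_nz) (le_of_eq (by rw [padicValInt.of_nat]))
  simpa using h2

private theorem val_gj_f {p : ℕ} [hp : Fact p.Prime] (c : ℚ) {N : ℕ} {n : ℤ} (h1 : -(N : ℤ) ≤ n)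
    (h2 : n ≤ N) (j : ℕ) : val p (gj c .f n j)
      (-(Nat.log p N : ℤ) - (padicValNat p c.den : ℤ) - j * (Nat.log p N : ℤ)) := by
  have e : gj c .f n j = (-1) ^ j * ((j : ℚ) + 1) * hh (1 + j) n - (if j = 4 then c else 0) := by
    unfold gj gser
    rw [PowerSeries.coeff_mk]
    rfl
  rw [e]
  have hden : (0 : ℤ) ≤ (padicValNat p c.den : ℤ) := by positivity
  have hlog : (0 : ℤ) ≤ (Nat.log p N : ℤ) := by positivity
  apply val.sub
  · have h3 := (val_hh (p := p) h1 h2 (1 + j)).int_mul (((-1) ^ j * (j + 1) : ℤ))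
    push_cast at h3
    refine h3.mono ?_
    nlinarith
  · split_ifs
    · refine (by simpa using val_c (p := p) c 1 : val p c _).mono ?_
      nlinarith
    · exact val.zero _

private theorem val_gj_g {p : ℕ} [hp : Fact p.Prime] (c : ℚ) {N : ℕ} {n : ℤ} (h1 : -(N : ℤ) ≤ n)
    (h2 : n ≤ N) (j : ℕ) : val p (gj c .g n j)
      (-(2 * (Nat.log p N : ℤ)) - (padicValNat p c.den : ℤ) - j * (Nat.log p N : ℤ)) := by
  have e : gj c .g n j = (-1) ^ j * (((j : ℚ) + 1) * ((j : ℚ) + 2) / 2) * hh (2 + j) n +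
      (if j = 3 then 2 * c else 0) := by
    unfold gj gser
    rw [PowerSeries.coeff_mk]
    rfl
  rw [e]
  have hden : (0 : ℤ) ≤ (padicValNat p c.den : ℤ) := by positivity
  have hlog : (0 : ℤ) ≤ (Nat.log p N : ℤ) := by positivity
  have hch : (((j : ℚ) + 1) * ((j : ℚ) + 2) / 2) = (((j + 2).choose 2 : ℕ) : ℚ) := by
    rw [Nat.cast_choose_two]
    push_cast
    ring
  rw [hch]
  apply val.add
  · have h3 := (val_hh (p := p) h1 h2 (2 + j)).int_mul (((-1) ^ j * (((j + 2).choose 2 : ℕ) : ℤ) : ℤ))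
    push_cast at h3
    refine h3.mono ?_
    nlinarith
  · split_ifs
    · refine (by simpa using val_c (p := p) c 2 : val p (2 * c) _).mono ?_
      nlinarith
    · exact val.zero _

private theorem val_gj_ind {p : ℕ} (L : ℤ) (m j : ℕ) (g : PowerSeries ℚ)
    (hg : g = PowerSeries.X ^ m) :
    val p (PowerSeries.coeff j g) ((m : ℤ) * L - j * L) := by
  rw [hg, PowerSeries.coeff_X_pow]
  split_ifs with h
  · rw [h, sub_self]
    exact val.one
  · exact val.zero _

private theorem val_entry {p : ℕ} [hp : Fact p.Prime] (c : ℚ) {N K L D c0 : ℕ} (hNK : N ≤ K)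
    (hLK : L ≤ K) (hDK : D ≤ K) (rr : Fin c0 → Row N) (ρ : Row N) (x : Col K L D ⊕ Fin c0) :
    val p (VP c K L D (fun _ i => qf i) rr ρ x) (-((ρ.2 : ℕ) * (Nat.log p K : ℤ))
      + Sum.elim (fun w : Col K L D => bG p c N K w.1 w.2) (fun _ => 0) x) := by
  obtain ⟨hn1, hn2⟩ := node_bd ρ
  rcases x with w | w
  · obtain ⟨β, i⟩ := w
    rw [VP_inl]
    show val p (J c β (qf i) (node ρ) ρ.2) (-((ρ.2 : ℕ) * (Nat.log p K : ℤ)) + bG p c N K β i)
    have hi : (i : ℕ) ≤ K := by
      refine le_trans (le_of_lt i.2) ?_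
      cases β
      · exact le_rfl
      · exact hLK
      · exact hDK
      · exact hDK
      · exact hLK
    have hlog : ((Nat.log p N : ℕ) : ℤ) ≤ ((Nat.log p K : ℕ) : ℤ) := by
      exact_mod_cast Nat.log_mono_right hNK
    rw [J_eq_sum]
    cases β with
    | z =>
      exact (val_conv (L := (Nat.log p K : ℤ)) (L' := (Nat.log p K : ℤ))
        (a := (padicValNat p (i : ℕ).factorial : ℤ)) (b := ((0 : ℕ) : ℤ) * (Nat.log p K : ℤ)) le_rfl
        (fun l => val_taylor_qf (node ρ) hi l)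
        (fun j => val_gj_ind _ 0 j _ (by rw [pow_zero]; rfl))).mono (le_of_eq (by
          simp only [bG]
          push_cast
          ring))
    | u =>
      exact (val_conv (L := (Nat.log p K : ℤ)) (L' := (Nat.log p K : ℤ))
        (a := (padicValNat p (i : ℕ).factorial : ℤ)) (b := ((1 : ℕ) : ℤ) * (Nat.log p K : ℤ)) le_rfl
        (fun l => val_taylor_qf (node ρ) hi l)
        (fun j => val_gj_ind _ 1 j _ (by rw [pow_one]; rfl))).mono (le_of_eq (by
          simp only [bG]
          push_cast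
          ring))
    | w =>
      exact (val_conv (L := (Nat.log p K : ℤ)) (L' := (Nat.log p K : ℤ))
        (a := (padicValNat p (i : ℕ).factorial : ℤ)) (b := ((2 : ℕ) : ℤ) * (Nat.log p K : ℤ)) le_rfl
        (fun l => val_taylor_qf (node ρ) hi l)
        (fun j => val_gj_ind _ 2 j _ rfl)).mono (le_of_eq (by
          simp only [bG]
          push_cast
          ring))
    | f =>
      exact (val_conv (L := (Nat.log p K : ℤ)) (L' := (Nat.log p N : ℤ))
        (a := (padicValNat p (i : ℕ).factorial : ℤ))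
        (b := -(Nat.log p N : ℤ) - (padicValNat p c.den : ℤ)) hlog
        (fun l => val_taylor_qf (node ρ) hi l)
        (fun j => val_gj_f c hn1 hn2 j)).mono (le_of_eq (by
          simp only [bG]
          ring))
    | g =>
      exact (val_conv (L := (Nat.log p K : ℤ)) (L' := (Nat.log p N : ℤ))
        (a := (padicValNat p (i : ℕ).factorial : ℤ))
        (b := -(2 * (Nat.log p N : ℤ)) - (padicValNat p c.den : ℤ)) hlog
        (fun l => val_taylor_qf (node ρ) hi l)
        (fun j => val_gj_g c hn1 hn2 j)).mono (le_of_eq (by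
          simp only [bG]
          ring))
  · rw [VP_inr]
    have hL : (0 : ℤ) ≤ ((ρ.2 : ℕ) : ℤ) * (Nat.log p K : ℤ) := by positivity
    split_ifs
    · refine (val.one (p := p)).mono ?_
      simp only [Sum.elim_inr]
      linarith
    · exact val.zero _

private theorem sum_bG (p : ℕ) (c : ℚ) (N K L D c0 : ℕ) :
    ∑ x : Col K L D ⊕ Fin c0, Sum.elim (fun w : Col K L D => bG p c N K w.1 w.2) (fun _ => 0) x
      = ∑ i ∈ Finset.range K, (padicValNat p i.factorial : ℤ)
        + 2 * ∑ i ∈ Finset.range L, (padicValNat p i.factorial : ℤ)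
        + 2 * ∑ i ∈ Finset.range D, (padicValNat p i.factorial : ℤ)
        + (L + 2 * D) * (Nat.log p K : ℤ) - (D + 2 * L) * (Nat.log p N : ℤ)
        - (D + L) * (padicValNat p c.den : ℤ) := by
  rw [Fintype.sum_sum_type, Fintype.sum_sigma, sum_blk]
  simp only [Sum.elim_inl, Sum.elim_inr, Finset.sum_const_zero, add_zero]
  have hz : ∑ i : Fin (len K L D .z), bG p c N K .z i
      = ∑ i ∈ Finset.range K, (padicValNat p i.factorial : ℤ) := by
    show ∑ i : Fin K, bG p c N K .z i = _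
    rw [← Finset.sum_range (fun i => bG p c N K .z i)]
    rfl
  have hu : ∑ i : Fin (len K L D .u), bG p c N K .u i
      = ∑ i ∈ Finset.range L, (padicValNat p i.factorial : ℤ) + L * (Nat.log p K : ℤ) := by
    show ∑ i : Fin L, bG p c N K .u i = _
    rw [← Finset.sum_range (fun i => bG p c N K .u i)]
    simp only [bG, Finset.sum_add_distrib]
    simp
  have hw : ∑ i : Fin (len K L D .w), bG p c N K .w i
      = ∑ i ∈ Finset.range D, (padicValNat p i.factorial : ℤ) + D * (2 * (Nat.log p K : ℤ)) := by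
    show ∑ i : Fin D, bG p c N K .w i = _
    rw [← Finset.sum_range (fun i => bG p c N K .w i)]
    simp only [bG, Finset.sum_add_distrib]
    simp
  have hf : ∑ i : Fin (len K L D .f), bG p c N K .f i
      = ∑ i ∈ Finset.range D, (padicValNat p i.factorial : ℤ) - D * (Nat.log p N : ℤ)
        - D * (padicValNat p c.den : ℤ) := by
    show ∑ i : Fin D, bG p c N K .f i = _
    rw [← Finset.sum_range (fun i => bG p c N K .f i)]
    simp only [bG, Finset.sum_sub_distrib]
    simp
  have hg : ∑ i : Fin (len K L D .g), bG p c N K .g i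
      = ∑ i ∈ Finset.range L, (padicValNat p i.factorial : ℤ) - L * (2 * (Nat.log p N : ℤ))
        - L * (padicValNat p c.den : ℤ) := by
    show ∑ i : Fin L, bG p c N K .g i = _
    rw [← Finset.sum_range (fun i => bG p c N K .g i)]
    simp only [bG, Finset.sum_sub_distrib]
    simp
  rw [hz, hu, hw, hf, hg]
  ring

theorem val_gen (c : ℚ) {N K L D c0 : ℕ} (rr : Fin c0 → Row N)
    (e : (Col K L D ⊕ Fin c0) ≃ Row N) {p : ℕ} (hp : p.Prime) (hN : 1 ≤ N) (hNK : N ≤ K)
    (hLK : L ≤ K) (hDK : D ≤ K) :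
    val p (sdet e (Vh c K L D rr))
      (∑ i ∈ Finset.range K, (padicValNat p i.factorial : ℤ)
        + 2 * ∑ i ∈ Finset.range L, (padicValNat p i.factorial : ℤ)
        + 2 * ∑ i ∈ Finset.range D, (padicValNat p i.factorial : ℤ)
        + (L + 2 * D) * (Nat.log p K : ℤ) - (D + 2 * L) * (Nat.log p N : ℤ)
        - 10 * (2 * N + 1) * (Nat.log p K : ℤ)
        - (D + L) * (padicValNat p c.den : ℤ)) := by
  have : Fact p.Prime := ⟨hp⟩
  rw [← sdet_VP_eq c rr e (fun _ i => qf i) (fun _ i => qf_monic i)]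
  refine (val_sdet (p := p) e (VP c K L D (fun _ i => qf i) rr)
    (fun ρ => -((ρ.2 : ℕ) * (Nat.log p K : ℤ)))
    (fun x => Sum.elim (fun w : Col K L D => bG p c N K w.1 w.2) (fun _ => 0) x)
    (fun ρ x => val_entry c hNK hLK hDK rr ρ x)).mono (le_of_eq ?_)
  rw [sum_bG, Finset.sum_neg_distrib, ← Finset.sum_mul, sum_row]
  ring

end MP_a3a416_nt.SJ5
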