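import Pool.Agent.Lib.MP_a3a416_nt.SJ5.Zero6

/-!
# SJ5-HFGen
The shift relation `(n+u)^(e+1) F(n) = (n+u)^(e+1) F(n-1) + n` of
`F(n) = ∑_j ((-1)^j binom(e+j, j) h_{e+j}(n) + γ_j) u^j`, `e ≥ 1`, for every `h` with
`h_r(n) - h_r(n-1) = n^{-r}` (`r ≥ 1`, `0⁻¹ = 0`); `h_r(n) = ∑_{0<b≤n} b^{-r} - ∑_{n<b<0} b^{-r}`.
-/

open Polynomial

namespace MP_a3a416_nt.SJ5

/-- `h_r(n) = ∑_{0<b≤n} b^{-r} - ∑_{n<b<0} b^{-r}` -/
theorem harm_step (r : ℕ) (hr : r ≠ 0) (n : ℤ) :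
    (∑ b ∈ Finset.Ioc 0 n, ((b : ℚ)⁻¹) ^ r - ∑ b ∈ Finset.Ioo n 0, ((b : ℚ)⁻¹) ^ r) -
      (∑ b ∈ Finset.Ioc 0 (n - 1), ((b : ℚ)⁻¹) ^ r - ∑ b ∈ Finset.Ioo (n - 1) 0, ((b : ℚ)⁻¹) ^ r) =
      ((n : ℚ)⁻¹) ^ r := by
  have h1 : ∑ b ∈ Finset.Ioc 0 n, ((b : ℚ)⁻¹) ^ r =
      ∑ b ∈ Finset.Ioc 0 (n - 1), ((b : ℚ)⁻¹) ^ r + if 0 < n then ((n : ℚ)⁻¹) ^ r else 0 := by
    by_cases hn : 0 < n
    · rw [if_pos hn]
      have h : Finset.Ioc 0 n = insert n (Finset.Ioc 0 (n - 1)) := by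
        ext b
        simp only [Finset.mem_Ioc, Finset.mem_insert]
        omega
      rw [h, Finset.sum_insert (by simp), add_comm]
    · rw [if_neg hn, Finset.Ioc_eq_empty (by omega), Finset.Ioc_eq_empty (by omega)]
      simp
  have h2 : ∑ b ∈ Finset.Ioo (n - 1) 0, ((b : ℚ)⁻¹) ^ r =
      ∑ b ∈ Finset.Ioo n 0, ((b : ℚ)⁻¹) ^ r + if n < 0 then ((n : ℚ)⁻¹) ^ r else 0 := by
    by_cases hn : n < 0
    · rw [if_pos hn]
      have h : Finset.Ioo (n - 1) 0 = insert n (Finset.Ioo n 0) := by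
        ext b
        simp only [Finset.mem_Ioo, Finset.mem_insert]
        omega
      rw [h, Finset.sum_insert (by simp), add_comm]
    · rw [if_neg hn, add_zero]
      refine Finset.sum_congr ?_ fun _ _ => rfl
      ext b
      simp only [Finset.mem_Ioo]
      omega
  rw [h1, h2]
  rcases lt_trichotomy n 0 with h | h | h
  · rw [if_neg (by omega), if_pos h]
    ring
  · subst h
    simp [hr]
  · rw [if_pos h, if_neg (by omega)]
    ring

/-- coefficients of `n (n+u)^{-(e+1)}` -/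
noncomputable def geoA (n : ℤ) (e : ℕ) : PowerSeries ℚ :=
  PowerSeries.mk fun j => (-1) ^ j * ((e + j).choose j : ℚ) * ((n : ℚ)⁻¹) ^ (e + j)

theorem geoA_zero (n : ℤ) (hn : n ≠ 0) :
    (PowerSeries.C (n : ℚ) + PowerSeries.X) * geoA n 0 = PowerSeries.C (n : ℚ) := by
  have hn' : (n : ℚ) ≠ 0 := by exact_mod_cast hn
  ext j
  rw [add_mul, map_add, PowerSeries.coeff_C_mul, PowerSeries.coeff_C]
  rcases j with _ | j
  · rw [PowerSeries.coeff_zero_X_mul]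
    simp [geoA]
  · rw [PowerSeries.coeff_succ_X_mul, if_neg (by omega)]
    simp only [geoA, PowerSeries.coeff_mk, zero_add, Nat.choose_self, Nat.cast_one, mul_one]
    rw [pow_succ ((n : ℚ)⁻¹), pow_succ (-1 : ℚ)]
    field_simp
    ring

theorem geoA_succ (n : ℤ) (hn : n ≠ 0) (e : ℕ) :
    (PowerSeries.C (n : ℚ) + PowerSeries.X) * geoA n (e + 1) = geoA n e := by
  have hn' : (n : ℚ) ≠ 0 := by exact_mod_cast hn
  ext j
  rw [add_mul, map_add, PowerSeries.coeff_C_mul]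
  rcases j with _ | j
  · rw [PowerSeries.coeff_zero_X_mul]
    simp only [geoA, PowerSeries.coeff_mk, add_zero, Nat.choose_zero_right, Nat.cast_one, pow_zero, one_mul]
    rw [pow_succ ((n : ℚ)⁻¹)]
    field_simp
  · rw [PowerSeries.coeff_succ_X_mul]
    simp only [geoA, PowerSeries.coeff_mk]
    have h1 : (e + 1 + (j + 1)).choose (j + 1) = (e + 1 + j).choose j + (e + (j + 1)).choose (j + 1) := by
      have h2 : e + 1 + (j + 1) = (e + 1 + j) + 1 := by ring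
      rw [h2, Nat.choose_succ_succ]
      congr 2
      ring
    rw [h1]
    push_cast
    have e1 : (n : ℚ) * ((n : ℚ)⁻¹) ^ (e + 1 + (j + 1)) = ((n : ℚ)⁻¹) ^ (e + (j + 1)) := by
      rw [show e + 1 + (j + 1) = 1 + (e + (j + 1)) by ring, pow_add, ← mul_assoc, pow_one,
        mul_inv_cancel₀ hn', one_mul]
    have e2 : e + 1 + j = e + (j + 1) := by ring
    rw [e2] at *
    linear_combination ((-1) ^ (j + 1) * (((e + (j + 1)).choose j : ℚ) + ((e + (j + 1)).choose (j + 1) : ℚ))) * e1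

theorem geoA_pow (n : ℤ) (hn : n ≠ 0) (e : ℕ) :
    (PowerSeries.C (n : ℚ) + PowerSeries.X) ^ (e + 1) * geoA n e = PowerSeries.C (n : ℚ) := by
  induction e with
  | zero => rw [zero_add, pow_one, geoA_zero n hn]
  | succ e ih => rw [pow_succ (_ : PowerSeries ℚ), mul_assoc, geoA_succ n hn, ih]

/-- the shift relation -/
theorem HF_gen (h : ℕ → ℤ → ℚ) (hh : ∀ r : ℕ, r ≠ 0 → ∀ n : ℤ, h r n - h r (n - 1) = ((n : ℚ)⁻¹) ^ r)
    (e : ℕ) (he : e ≠ 0) (γ : ℕ → ℚ) :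
    HF (e + 1) (fun n => PowerSeries.mk fun j => (-1) ^ j * ((e + j).choose j : ℚ) * h (e + j) n + γ j) := by
  intro n
  beta_reduce
  have h1 : (PowerSeries.mk fun j => (-1) ^ j * ((e + j).choose j : ℚ) * h (e + j) n + γ j) =
      (PowerSeries.mk fun j => (-1) ^ j * ((e + j).choose j : ℚ) * h (e + j) (n - 1) + γ j) + geoA n e := by
    ext j
    simp only [geoA, map_add, PowerSeries.coeff_mk]
    linear_combination ((-1) ^ j * ((e + j).choose j : ℚ)) * hh (e + j) (by omega) n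
  rw [h1, mul_add]
  congr 1
  by_cases hn : n = 0
  · subst hn
    have h2 : geoA 0 e = 0 := by
      ext j
      simp only [geoA, PowerSeries.coeff_mk, map_zero]
      rw [Int.cast_zero, inv_zero, zero_pow (by omega), mul_zero]
    rw [h2]
    simp
  · exact geoA_pow n hn e

end MP_a3a416_nt.SJ5
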