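import Pool.Agent.Lib.MP_a3a416_nt.SJ5.VS
import Pool.Agent.Lib.MP_a3a416_nt.SJ.QCoef

/-! # SJ5-Large: the primes `p > N`
PROOF. Adapt `val_large` at the end of `SJ/GenBound.lean`: for `|b| ≤ N < p` the rational `1/b` is `p`-integral (`SJ.val_inv_int` with `Nat.log p N = 0`), so all the entries
of the blocks z, u, w are `p`-integral and those of f, g have `v ≥ - v_p(c.den)`; potentials: rows `0`, columns `0`, `0`, `0`, `-v_p(c.den)`, `-v_p(c.den)`. -/

set_option autoImplicit false

open Polynomial

namespace MP_a3a416_nt.SJ5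

open MP_a3a416_nt.SJ

private theorem val_hh0 {p N : ℕ} [Fact p.Prime] (hpN : N < p) {n : ℤ} (h1 : -(N : ℤ) ≤ n)
    (h2 : n ≤ N) (r : ℕ) : val p (hh r n) 0 := by
  have hlog : Nat.log p N = 0 := Nat.log_of_lt hpN
  unfold hh
  apply val.sub
  · apply val.sum
    intro b hb
    simp only [Finset.mem_Ioc] at hb
    refine (val_inv_int (N := N) (by omega) (by rw [abs_le]; omega) r).mono ?_
    rw [hlog]; simp
  · apply val.sum
    intro b hb
    simp only [Finset.mem_Ioo] at hb
    refine (val_inv_int (N := N) (by omega) (by rw [abs_le]; omega) r).mono ?_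
    rw [hlog]; simp

private theorem val_c (p : ℕ) [Fact p.Prime] (c : ℚ) : val p c (-(padicValNat p c.den : ℤ)) := by
  have hd : ((c.den : ℤ)) ≠ 0 := by exact_mod_cast c.den_nz
  have h2 := (val.int (p := p) c.num).div_int (n := (c.den : ℤ)) (k := padicValNat p c.den) hd
    (le_of_eq (by rw [padicValInt.of_nat]))
  have h3 : (c.num : ℚ) / ((c.den : ℤ) : ℚ) = c := by
    have := Rat.num_div_den c
    push_cast
    exact this
  rw [h3] at h2
  simpa using h2

private theorem VS_gser {p N : ℕ} [Fact p.Prime] (hpN : N < p) (c : ℚ) (β : Blk) {n : ℤ}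
    (h1 : -(N : ℤ) ≤ n) (h2 : n ≤ N) :
    VS p (if β = .f ∨ β = .g then -(padicValNat p c.den : ℤ) else 0) (gser c β n) := by
  have hw : -(padicValNat p c.den : ℤ) ≤ 0 := by
    have : (0 : ℤ) ≤ (padicValNat p c.den : ℤ) := by positivity
    omega
  cases β with
  | z => rw [if_neg (by decide)]; exact VS.one
  | u => rw [if_neg (by decide)]; exact VS.X
  | w => rw [if_neg (by decide)]; exact VS.X_pow 2
  | f =>
    rw [if_pos (by decide)]
    intro k _
    show val p (PowerSeries.coeff k (PowerSeries.mk (c2 c n))) _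
    rw [PowerSeries.coeff_mk]
    unfold c2
    apply val.sub
    · have h3 := (val_hh0 (p := p) hpN h1 h2 (1 + k)).int_mul (((-1) ^ k * (k + 1) : ℤ))
      push_cast at h3
      exact h3.mono hw
    · split_ifs
      · exact val_c p c
      · exact val.zero _
  | g =>
    rw [if_pos (by decide)]
    intro k _
    show val p (PowerSeries.coeff k (PowerSeries.mk (c3 c n))) _
    rw [PowerSeries.coeff_mk]
    unfold c3
    apply val.add
    · have hc : (((k : ℚ) + 1) * ((k : ℚ) + 2) / 2) = (((k + 2).choose 2 : ℕ) : ℚ) := by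
        rw [Nat.cast_choose_two]
        push_cast
        ring
      have h3 := (val_hh0 (p := p) hpN h1 h2 (2 + k)).int_mul
        (((-1) ^ k * (((k + 2).choose 2 : ℕ) : ℤ) : ℤ))
      push_cast at h3
      rw [hc]
      refine h3.mono hw
    · split_ifs
      · have h3 := (val_c p c).int_mul 2
        rw [Int.cast_ofNat] at h3
        exact h3
      · exact val.zero _

theorem val_large (c : ℚ) {N K L D c0 : ℕ} (rr : Fin c0 → Row N)
    (e : (Col K L D ⊕ Fin c0) ≃ Row N) {p : ℕ} (hp : p.Prime) (hpN : N < p) :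
    val p (sdet e (Vh c K L D rr)) (-((D + L) * (padicValNat p c.den : ℤ))) := by
  have : Fact p.Prime := ⟨hp⟩
  set w : ℤ := (padicValNat p c.den : ℤ) with hw
  have hw0 : 0 ≤ w := by positivity
  have h := val_sdet (p := p) e (Vh c K L D rr) (fun _ => 0)
    (fun x => Sum.elim (fun w' : Col K L D => if w'.1 = .f ∨ w'.1 = .g then -w else 0)
      (fun _ => 0) x)
    (fun ρ x => by
      obtain ⟨hn1, hn2⟩ := node_bd ρ
      rcases x with x | x
      · show val p (J c x.1 (X ^ (x.2 : ℕ)) (node ρ) ρ.2)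
          (0 + if x.1 = .f ∨ x.1 = .g then -w else 0)
        have h1 : VS p (if x.1 = .f ∨ x.1 = .g then -w else 0)
            (JS c x.1 (X ^ (x.2 : ℕ)) (node ρ)) :=
          (VS_tp_X_pow (p := p) x.2 (node ρ)).mul_left (VS_gser hpN c x.1 hn1 hn2)
        rw [zero_add]
        exact h1 ρ.2 ρ.2.2
      · show val p (VP c K L D (fun _ i => X ^ i) rr ρ (Sum.inr x)) _
        rw [VP_inr]
        split_ifs
        · simpa using (val.one (p := p))
        · exact val.zero _)
  refine h.mono (le_of_eq ?_)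
  rw [Fintype.sum_sum_type, Fintype.sum_sigma, sum_blk]
  simp only [Sum.elim_inl, Sum.elim_inr, Finset.sum_const_zero, add_zero]
  have e1 : ∀ v : ℤ, ∑ _i : Fin (len K L D .f), v = D * v := by
    intro v
    show ∑ _i : Fin D, v = _
    simp
  have e2 : ∀ v : ℤ, ∑ _i : Fin (len K L D .g), v = L * v := by
    intro v
    show ∑ _i : Fin L, v = _
    simp
  simp only [e1, e2]
  simp
  ring

end MP_a3a416_nt.SJ5
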