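import Pool.Agent.Lib.MP_a3a416_nt.SJ5.Rows
import Pool.Agent.Lib.MP_a3a416_nt.SJ5.GenBound
import Pool.Agent.Lib.MP_a3a416_nt.SJ5.Large
import Pool.Agent.Lib.MP_a3a416_nt.SJ5.FlatCol
import Pool.Agent.Lib.MP_a3a416_nt.SJ5.FlatRank
import Pool.Agent.Lib.MP_a3a416_nt.SJ5.GCore
import Pool.Agent.Lib.MP_a3a416_nt.SJ5.GWM
import Pool.Agent.Lib.MP_a3a416_nt.SJ5.ArchBound

/-! # SJ5-Main: the theorem. -/

set_option autoImplicit false

open Polynomial Finset Filter MP_a3a416_nt.SJ

namespace MP_a3a416_nt.SJ5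

theorem val_le_of {p : ℕ} {x : ℚ} {a : ℤ} (h : val p x a) (hx : x ≠ 0) : a ≤ padicValRat p x :=
  h.resolve_left hx

/-- `sum_{i < K} (i/p - 4)^+` -/
theorem sum_lev (K p : ℕ) (hp : 0 < p) :
    max 0 ((K : ℤ) - 5 * p) + max 0 ((K : ℤ) - 6 * p) + max 0 ((K : ℤ) - 7 * p) ≤
      ∑ i ∈ range K, ((i / p - 4 : ℕ) : ℤ) := by
  have h1 : ∀ y K : ℕ, max 0 ((K : ℤ) - y * p) =
      ∑ i ∈ range K, (if y * p ≤ i then (1 : ℤ) else 0) := by
    intro y K
    induction K with
    | zero =>
      simp only [range_zero, sum_empty, Nat.cast_zero, zero_sub]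
      exact max_eq_left (by simp; positivity)
    | succ K ih =>
      rw [sum_range_succ, ← ih]
      by_cases h : y * p ≤ K
      · rw [if_pos h]
        have h' : (y * p : ℤ) ≤ K := by exact_mod_cast h
        rw [max_eq_right (by push_cast; linarith), max_eq_right (by linarith)]
        push_cast
        ring
      · rw [if_neg h]
        have h' : (K : ℤ) + 1 ≤ y * p := by exact_mod_cast (not_le.1 h)
        rw [max_eq_left (by push_cast; linarith), max_eq_left (by linarith)]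
        ring
  have h5 := h1 5 K
  have h6 := h1 6 K
  have h7 := h1 7 K
  push_cast at h5 h6 h7
  rw [h5, h6, h7, ← sum_add_distrib, ← sum_add_distrib]
  apply sum_le_sum
  intro i _
  have g5 : 5 * p ≤ i → 5 ≤ i / p := fun h => (Nat.le_div_iff_mul_le hp).2 h
  have g6 : 6 * p ≤ i → 6 ≤ i / p := fun h => (Nat.le_div_iff_mul_le hp).2 h
  have g7 : 7 * p ≤ i → 7 ≤ i / p := fun h => (Nat.le_div_iff_mul_le hp).2 h
  generalize i / p = q at *
  split_ifs <;> omega

/-- the archimedean bound (section 2) -/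
def ArchBound (C : ℝ) : Prop := ∀ (c : ℚ) (m c0 : ℕ) (rr : Fin c0 → Row (20 * m))
    (e : (Col (90 * m - 100) (35 * m) (20 * m) ⊕ Fin c0) ≃ Row (20 * m)), 10 ≤ m →
    sdet e (Vh c (90 * m - 100) (35 * m) (20 * m) rr) ≠ 0 →
    Real.log |((sdet e (Vh c (90 * m - 100) (35 * m) (20 * m) rr) : ℚ) : ℝ)| ≤
      UB m + 55 * m * Real.log (1 + |(c : ℝ)|) + C * m * Real.log (20 * m)

theorem exists_det {C : ℝ} (harch : ArchBound C) (m : ℕ) (hm : 20 ≤ m) (c : ℚ) :
    ∃ D : ℚ, Det C m c D := by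
  obtain ⟨rr, e, hD⟩ := exists_rows c (N := 20 * m) (K := 90 * m - 100) (L := 35 * m)
    (D := 20 * m) (c0 := 105) (by omega) (by omega) (by omega) (by omega)
  set D := sdet e (Vh c (90 * m - 100) (35 * m) (20 * m) rr) with hDdef
  refine ⟨D, hD, harch c m 105 rr e (by omega) hD, ?_, ?_, ?_, ?_, ?_⟩
  · intro p hp
    have h := val_le_of (val_gen c (N := 20 * m) (K := 90 * m - 100) (L := 35 * m) (D := 20 * m) rr e hp
      (by omega) (by omega) (by omega) (by omega)) hD
    refine le_trans (le_of_eq ?_) h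
    unfold f1 SF
    push_cast
    ring
  · intro p hp hpN
    have h := val_le_of (val_large c (N := 20 * m) (K := 90 * m - 100) (L := 35 * m) (D := 20 * m) rr e hp
      (by omega)) hD
    refine le_trans (le_of_eq ?_) h
    push_cast
    ring
  · intro p hp h1 h2 hf hpc
    have h := val_le_of (val_flat_col c (N := 20 * m) (K := 90 * m - 100) (L := 35 * m) (D := 20 * m) rr e
      hp (by omega) (by omega) hpc hf (min (20 * m) (35 * m - p))
      (min (20 * m) (min (90 * m - 100 - 4 * p) (35 * m - p))) (20 * m)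
      (by omega) (by omega) (by omega) (by omega) (by omega) (by omega) (by omega) (by omega)) hD
    refine le_trans ?_ h
    have h3 := sum_lev (90 * m - 100) p hp.pos
    unfold f2 nO
    rw [if_pos h2]
    push_cast at h3 ⊢
    omega
  · intro p hp h1 h2 hf hpc
    have h := val_le_of (val_flat_col c (N := 20 * m) (K := 90 * m - 100) (L := 35 * m) (D := 20 * m) rr e
      hp (by omega) (by omega) hpc hf (35 * m - p) (90 * m - 100 - 4 * p)
      (min (20 * m) (90 * m - 100 - 2 * p))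
      (by omega) (by omega) (by omega) (by omega) (by omega) (by omega) (by omega) (by omega)) hD
    refine le_trans ?_ h
    have h3 : 0 ≤ ∑ i ∈ range (90 * m - 100), ((i / p - 4 : ℕ) : ℤ) :=
      sum_nonneg fun i _ => Int.natCast_nonneg _
    unfold f3a nO
    rw [if_neg (by omega)]
    push_cast at h3 ⊢
    omega
  · intro p hp h1 hf hpc
    have h := val_le_of (val_flat_rank c (N := 20 * m) (K := 90 * m - 100) (L := 35 * m) (D := 20 * m) rr e
      hp (by omega) (by omega) hpc hf (by omega)) hD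
    refine le_trans ?_ h
    unfold f3b
    have h200 : ((90 * m - 100 : ℕ) : ℤ) = 90 * m - 100 := by omega
    rw [h200]
    push_cast
    exact le_rfl

theorem exists_arch : ∃ C : ℝ, ArchBound C := by
  obtain ⟨C, hC⟩ := arch_bound
  refine ⟨20 * C + 120, fun c m c0 rr e hm hD => ?_⟩
  have h := hC c (20 * m) (16 * m) (90 * m - 100) (35 * m) (20 * m) c0 rr e (by omega)
    ⟨8 * m, by ring⟩ (by omega) (by omega) (by omega) (by omega) (by omega) (by omega) (by omega) hD
  rw [log_WM20, log_VE16] at h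
  have hK : ((90 * m - 100 : ℕ) : ℝ) = 90 * m - 100 := by
    rw [Nat.cast_sub (by omega)]
    push_cast
    ring
  rw [hK] at h
  push_cast at h
  refine h.trans ?_
  have hmr : (10 : ℝ) ≤ m := by exact_mod_cast hm
  have hl : Real.log (20 * (m : ℝ) / 2) ≤ Real.log (20 * m) :=
    Real.log_le_log (by positivity) (by linarith)
  have hl0 : 0 ≤ Real.log (20 * (m : ℝ) / 2) := Real.log_nonneg (by linarith)
  have hx : (120 * (m : ℝ)) * Real.log (20 * (m : ℝ) / 2) ≤ 120 * m * Real.log (20 * m) :=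
    mul_le_mul_of_nonneg_left hl (by positivity)
  have hy : ((90 * (m : ℝ) - 100 - 16 * m) ^ 2 / 2 + 2 * ((35 * (m : ℝ) - 16 * m) ^ 2 / 2) +
      2 * ((20 * (m : ℝ) - 16 * m) ^ 2 / 2)) * Real.log (20 * (m : ℝ) / 2) ≤
      (((90 * (m : ℝ) - 100) - (16 * m + 1)) ^ 2 / 2 + 2 * ((35 * (m : ℝ) - (16 * m + 1)) ^ 2 / 2) +
      2 * ((20 * (m : ℝ) - (16 * m + 1)) ^ 2 / 2) + 120 * m) * Real.log (20 * (m : ℝ) / 2) := by
    apply mul_le_mul_of_nonneg_right _ hl0
    nlinarith
  unfold UB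
  nlinarith [hx, hy]

/-- For `x ≥ x₀` and every rational `c` of height at most `exp (x / 10000)` at least
`x / (2500 log x)` primes `7 ≤ p ≤ x` satisfy `B_{p-5} ≢ c` modulo `p`. -/
theorem main : ∀ᶠ x : ℕ in Filter.atTop, ∀ c : ℚ,
    |(c.num : ℝ)| ≤ Real.exp (x / 10000) → (c.den : ℝ) ≤ Real.exp (x / 10000) →
    (x : ℝ) / (2500 * Real.log x) ≤
      (((Finset.range (x + 1)).filter (fun p : ℕ => p.Prime ∧ 7 ≤ p ∧
        ¬ (p : ℤ) ∣ (_root_.bernoulli (p - 5) - c).num)).card : ℝ) :=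
  let ⟨C, harch⟩ := exists_arch
  main_core 20 C fun m hm c => exists_det harch m hm c

end MP_a3a416_nt.SJ5
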