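import Pool.Agent.Lib.MP_a3a416_nt.SJ.ZBase

/-!
# SJ5-Pole
`g(x+1) = g(x) + r(x)` has no solution in `ℚ(x)` if the only pole of `r` is `-1`; in particular
`g(x+1) - g(x) = a/(x+1) + b/(x+1)² + c/(x+1)³` forces `a = b = c = 0`.
-/

open Polynomial BBZ MP_a3a416_nt.SJ

namespace MP_a3a416_nt.SJ5

/-! ## the pole lemma -/

/-- POLE LEMMA: `g(x+1) = g(x) + r(x)` is impossible if the only pole of `r` is `-1` -/
theorem no_solution_gen (r g : RatFunc ℚ) (hr : ∀ x : ℚ, x ≠ -1 → Reg x r) (hn : ¬ Reg (-1) r)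
    (h : sh g = g + r) : False := by
  obtain ⟨M, hM⟩ := Reg.eventually (-1) g
  have hg : g = sh g + -r := by
    rw [h]; ring
  -- descending
  have hdown : ∀ j : ℕ, j ≤ M → Reg (-1 + ((M - j : ℕ) + 1 : ℕ)) g := by
    intro j
    induction j with
    | zero =>
      intro _
      exact (hM (M + 1) (by omega)).1
    | succ j ih =>
      intro hj
      have h1 := ih (by omega)
      have e1 : M - j = (M - (j + 1)) + 1 := by omega
      rw [e1] at h1
      set m : ℕ := M - (j + 1)
      rw [hg]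
      refine Reg.add (reg_sh ?_) (Reg.neg (hr _ ?_))
      · have h2 : (-1 : ℚ) + ((m + 1 : ℕ) : ℚ) + 1 = -1 + ((m + 1 + 1 : ℕ) : ℚ) := by push_cast; ring
        rw [h2]
        exact h1
      · intro h2
        have h3 : ((m + 1 : ℕ) : ℚ) = 0 := by linarith
        have h4 : m + 1 = 0 := by exact_mod_cast h3
        omega
  have hup : ∀ j : ℕ, j ≤ M → Reg (-1 - ((M - j : ℕ) : ℕ)) g := by
    intro j
    induction j with
    | zero =>
      intro _
      exact (hM M le_rfl).2
    | succ j ih =>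
      intro hj
      have h1 := ih (by omega)
      have e1 : M - j = (M - (j + 1)) + 1 := by omega
      rw [e1] at h1
      set m : ℕ := M - (j + 1)
      have h2 : Reg (-1 - ((m + 1 : ℕ) : ℚ)) (sh g) := by
        rw [h]
        refine Reg.add h1 (hr _ ?_)
        intro h4
        have h5 : ((m + 1 : ℕ) : ℚ) = 0 := by linarith
        have h6 : m + 1 = 0 := by exact_mod_cast h5
        omega
      have h3 := reg_of_sh h2
      have h4 : (-1 : ℚ) - ((m + 1 : ℕ) : ℚ) + 1 = -1 - (m : ℚ) := by push_cast; ring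
      rw [h4] at h3
      exact h3
  have h0 : Reg (-1 + 1) g := by
    have := hdown M le_rfl
    simpa using this
  have h1 : Reg (-1) g := by
    have := hup M le_rfl
    simpa using this
  apply hn
  have h2 : r = sh g + -g := by rw [h]; ring
  rw [h2]
  exact Reg.add (reg_sh h0) (Reg.neg h1)

/-- `x + 1` -/
noncomputable def x1 : RatFunc ℚ := algebraMap ℚ[X] (RatFunc ℚ) (X + 1)

theorem x1_ne : x1 ≠ 0 := alg_ne (by
  rw [← C_1]
  exact X_add_C_ne_zero 1)

theorem x1_inv_reg (x : ℚ) (hx : x ≠ -1) : Reg x x1⁻¹ := by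
  unfold x1
  refine Reg.inv ?_
  simp only [eval_add, eval_X, eval_one]
  exact fun h => hx (by linarith)

/-- POLE LEMMA for `a/(x+1) + b/(x+1)² + c/(x+1)³` -/
theorem poles_general (a b c : ℚ) (g : RatFunc ℚ)
    (h : sh g = g + (algebraMap ℚ[X] (RatFunc ℚ) (C a) * x1⁻¹ + algebraMap ℚ[X] (RatFunc ℚ) (C b) * x1⁻¹ ^ 2
      + algebraMap ℚ[X] (RatFunc ℚ) (C c) * x1⁻¹ ^ 3)) : a = 0 ∧ b = 0 ∧ c = 0 := by
  by_contra hne
  have hpow : ∀ (x : ℚ), x ≠ -1 → ∀ k : ℕ, Reg x (x1⁻¹ ^ k) := by
    intro x hx k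
    induction k with
    | zero => simpa using Reg.poly x 1
    | succ k ih => rw [pow_succ]; exact ih.mul (x1_inv_reg x hx)
  refine no_solution_gen _ g (fun x hx => ?_) ?_ h
  · exact Reg.add (Reg.add ((Reg.poly _ _).mul (x1_inv_reg x hx)) ((Reg.poly _ _).mul (hpow x hx 2)))
      ((Reg.poly _ _).mul (hpow x hx 3))
  · rintro ⟨p, q, hq, e⟩
    apply hne
    have hx0 := x1_ne
    have e1 : (C a * (X + 1) ^ 2 + C b * (X + 1) + C c) * q = p * (X + 1) ^ 3 := by
      apply alg_inj
      simp only [map_mul, map_add, map_pow]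
      rw [← e]
      have hx1 : algebraMap ℚ[X] (RatFunc ℚ) X + algebraMap ℚ[X] (RatFunc ℚ) 1 = x1 := by
        rw [x1, map_add]
      rw [hx1]
      field_simp
    have hX : (X + 1 : ℚ[X]) ≠ 0 := by
      rw [← C_1]
      exact X_add_C_ne_zero 1
    have hc : c = 0 := by
      have h1 := congrArg (eval (-1)) e1
      simp at h1
      exact h1.resolve_right hq
    subst hc
    have e2 : (C a * (X + 1) + C b) * q = p * (X + 1) ^ 2 := by
      refine mul_left_cancel₀ hX ?_
      rw [C_0, add_zero] at e1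
      linear_combination e1
    have hb : b = 0 := by
      have h1 := congrArg (eval (-1)) e2
      simp at h1
      exact h1.resolve_right hq
    subst hb
    have e3 : C a * q = p * (X + 1) := by
      refine mul_left_cancel₀ hX ?_
      rw [C_0, add_zero] at e2
      linear_combination e2
    have ha : a = 0 := by
      have h1 := congrArg (eval (-1)) e3
      simp at h1
      exact h1.resolve_right hq
    exact ⟨ha, rfl, rfl⟩

end MP_a3a416_nt.SJ5
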