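import Pool.Agent.Lib.MP_a3a416_nt.SJ5.Defs2

/-! # SJ5-RegStep: the step relations of the regular parts
PROOF. `hr p r n - hr p r (n-1) = if p ∣ n then 0 else n⁻¹^r` for every `n : ℤ` (cases `n > 0`, `n = 0` [both sums empty], `n < 0`; compare `SJ.hgen_step`), so for `p ∤ n`
`FR2 n - FR2 (n-1) = ∑ (-1)^j (j+1) n^(-1-j) u^j`, and `(n+u)^2` times it is `n` (multiply by `n+u` twice: coefficients `(-1)^j n^(-j)`, then `n` at `j = 0`);
`FR3 n - FR3 (n-1) = ∑ (-1)^j (j+1)(j+2)/2 n^(-2-j) u^j` and `(n+u)^3` times it is `n`. -/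

set_option autoImplicit false

open Polynomial

namespace MP_a3a416_nt.SJ5

open MP_a3a416_nt.SJ

private theorem hr_step (p r : ℕ) (n : ℤ) :
    hr p r n = hr p r (n - 1) + (if (p : ℤ) ∣ n then 0 else ((n : ℚ)⁻¹) ^ r) := by
  unfold hr
  rcases lt_trichotomy n 0 with h | h | h
  · have h1 : Finset.Ioc 0 n = ∅ := by
      ext x; simp only [Finset.mem_Ioc, Finset.notMem_empty, iff_false]; omega
    have h2 : Finset.Ioc 0 (n - 1) = ∅ := by
      ext x; simp only [Finset.mem_Ioc, Finset.notMem_empty, iff_false]; omega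
    have h3 : Finset.Ioo (n - 1) 0 = insert n (Finset.Ioo n 0) := by
      ext x; simp only [Finset.mem_Ioo, Finset.mem_insert]; omega
    have h4 : n ∉ Finset.Ioo n 0 := by simp
    rw [h1, h2, h3, Finset.filter_insert]
    by_cases hd : (p : ℤ) ∣ n
    · simp [hd]
    · rw [if_pos hd, Finset.sum_insert (by simp), if_neg hd]
      simp
  · subst h
    have h3 : Finset.Ioo (0 - 1 : ℤ) 0 = ∅ := by
      ext x; simp only [Finset.mem_Ioo, Finset.notMem_empty, iff_false]; omega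
    have h2 : Finset.Ioc 0 (0 - 1 : ℤ) = ∅ := by
      ext x; simp only [Finset.mem_Ioc, Finset.notMem_empty, iff_false]; omega
    rw [h3, h2]
    simp
  · have h1 : Finset.Ioo n 0 = ∅ := by
      ext x; simp only [Finset.mem_Ioo, Finset.notMem_empty, iff_false]; omega
    have h2 : Finset.Ioo (n - 1) 0 = ∅ := by
      ext x; simp only [Finset.mem_Ioo, Finset.notMem_empty, iff_false]; omega
    have h3 : Finset.Ioc 0 n = insert n (Finset.Ioc 0 (n - 1)) := by
      ext x; simp only [Finset.mem_Ioc, Finset.mem_insert]; omega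
    rw [h1, h2, h3, Finset.filter_insert]
    by_cases hd : (p : ℤ) ∣ n
    · simp [hd]
    · rw [if_pos hd, Finset.sum_insert (by simp), if_neg hd]
      simp
      ring

private theorem hr_zero (p r : ℕ) : hr p r 0 = 0 := by
  simp [hr]

private theorem mul_lin (a : ℚ) (f g : ℕ → ℚ) (h0 : a * f 0 = g 0)
    (h : ∀ j, a * f (j + 1) + f j = g (j + 1)) :
    (PowerSeries.C a + PowerSeries.X) * PowerSeries.mk f = PowerSeries.mk g := by
  ext j
  rw [add_mul, map_add, PowerSeries.coeff_C_mul, PowerSeries.coeff_mk, PowerSeries.coeff_mk]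
  cases j with
  | zero => rw [PowerSeries.coeff_zero_X_mul, add_zero, h0]
  | succ j => rw [PowerSeries.coeff_succ_X_mul, PowerSeries.coeff_mk, h]

private theorem lin1 (a : ℚ) (ha : a ≠ 0) :
    (PowerSeries.C a + PowerSeries.X) * PowerSeries.mk (fun j => (-1) ^ j * (a⁻¹) ^ j) =
      PowerSeries.C a := by
  rw [mul_lin a _ (fun j => if j = 0 then a else 0)]
  · ext j
    rw [PowerSeries.coeff_mk, PowerSeries.coeff_C]
  · simp
  · intro j
    rw [if_neg (Nat.succ_ne_zero j), pow_succ, pow_succ a⁻¹]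
    field_simp
    ring

private theorem lin2 (a : ℚ) (ha : a ≠ 0) :
    (PowerSeries.C a + PowerSeries.X) *
      PowerSeries.mk (fun j => (-1) ^ j * ((j : ℚ) + 1) * (a⁻¹) ^ (1 + j)) =
      PowerSeries.mk (fun j => (-1) ^ j * (a⁻¹) ^ j) := by
  apply mul_lin
  · simp [ha]
  · intro j
    rw [show 1 + (j + 1) = (1 + j) + 1 by ring, pow_succ a⁻¹ (1 + j), pow_succ (-1 : ℚ) j,
      show j + 1 = 1 + j by ring]
    push_cast
    field_simp
    ring

private theorem lin3 (a : ℚ) (ha : a ≠ 0) :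
    (PowerSeries.C a + PowerSeries.X) *
      PowerSeries.mk (fun j => (-1) ^ j * (((j : ℚ) + 1) * ((j : ℚ) + 2) / 2) * (a⁻¹) ^ (2 + j)) =
      PowerSeries.mk (fun j => (-1) ^ j * ((j : ℚ) + 1) * (a⁻¹) ^ (1 + j)) := by
  apply mul_lin
  · simp [pow_succ, ha]
  · intro j
    rw [show 2 + (j + 1) = (2 + j) + 1 by ring, pow_succ a⁻¹ (2 + j), pow_succ (-1 : ℚ) j,
      show 1 + (j + 1) = 2 + j by ring]
    push_cast
    field_simp
    ring

theorem FR2_zero (c : ℚ) (p : ℕ) : FR2 c p 0 = -(PowerSeries.C c * PowerSeries.X ^ 4) := by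
  ext j
  rw [FR2, PowerSeries.coeff_mk, hr_zero, map_neg, PowerSeries.coeff_C_mul, PowerSeries.coeff_X_pow]
  split_ifs <;> simp

theorem FR3_zero (c : ℚ) (p : ℕ) : FR3 c p 0 = PowerSeries.C (2 * c) * PowerSeries.X ^ 3 := by
  ext j
  rw [FR3, PowerSeries.coeff_mk, hr_zero, PowerSeries.coeff_C_mul, PowerSeries.coeff_X_pow]
  split_ifs <;> simp

theorem FR2_step_dvd (c : ℚ) {p : ℕ} {n : ℤ} (h : (p : ℤ) ∣ n) : FR2 c p n = FR2 c p (n - 1) := by
  ext j
  rw [FR2, FR2, PowerSeries.coeff_mk, PowerSeries.coeff_mk, hr_step p (1 + j) n, if_pos h, add_zero]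

theorem FR3_step_dvd (c : ℚ) {p : ℕ} {n : ℤ} (h : (p : ℤ) ∣ n) : FR3 c p n = FR3 c p (n - 1) := by
  ext j
  rw [FR3, FR3, PowerSeries.coeff_mk, PowerSeries.coeff_mk, hr_step p (2 + j) n, if_pos h, add_zero]

private theorem cast_ne {p : ℕ} {n : ℤ} (h : ¬ (p : ℤ) ∣ n) : (n : ℚ) ≠ 0 := by
  intro h0
  apply h
  have : n = 0 := by exact_mod_cast h0
  rw [this]
  exact dvd_zero _

theorem FR2_step (c : ℚ) {p : ℕ} {n : ℤ} (h : ¬ (p : ℤ) ∣ n) :
    tp X n ^ 2 * (FR2 c p n - FR2 c p (n - 1)) = PowerSeries.C (n : ℚ) := by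
  have ha : (n : ℚ) ≠ 0 := cast_ne h
  have h1 : FR2 c p n - FR2 c p (n - 1) =
      PowerSeries.mk (fun j => (-1) ^ j * ((j : ℚ) + 1) * ((n : ℚ)⁻¹) ^ (1 + j)) := by
    ext j
    rw [map_sub, FR2, FR2, PowerSeries.coeff_mk, PowerSeries.coeff_mk, PowerSeries.coeff_mk,
      hr_step p (1 + j) n, if_neg h]
    ring
  rw [h1, tp_X, pow_two, mul_assoc, lin2 _ ha, lin1 _ ha]

theorem FR3_step (c : ℚ) {p : ℕ} {n : ℤ} (h : ¬ (p : ℤ) ∣ n) :
    tp X n ^ 3 * (FR3 c p n - FR3 c p (n - 1)) = PowerSeries.C (n : ℚ) := by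
  have ha : (n : ℚ) ≠ 0 := cast_ne h
  have h1 : FR3 c p n - FR3 c p (n - 1) = PowerSeries.mk
      (fun j => (-1) ^ j * (((j : ℚ) + 1) * ((j : ℚ) + 2) / 2) * ((n : ℚ)⁻¹) ^ (2 + j)) := by
    ext j
    rw [map_sub, FR3, FR3, PowerSeries.coeff_mk, PowerSeries.coeff_mk, PowerSeries.coeff_mk,
      hr_step p (2 + j) n, if_neg h]
    ring
  rw [h1, tp_X, pow_succ, mul_assoc, lin3 _ ha, pow_two, mul_assoc, lin2 _ ha, lin1 _ ha]

end MP_a3a416_nt.SJ5
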