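import Pool.Agent.Lib.MP_a3a416_nt.SJ5.ZeroEst

/-! # SJ5-Rows (helper54): existence of the unit columns, from the zero estimate
PROOF. `HF 2 (gser c .f)`, `HF 3 (gser c .g)` (the `c`-terms do not depend on `n`).  Linear independence of the columns of the blocks over `ℚ` (`zero_estimateF`), then `SJ.exists_unit_columns`. -/

set_option autoImplicit false

open Polynomial

namespace MP_a3a416_nt.SJ5

open MP_a3a416_nt.SJ

theorem exists_rows (c : ℚ) {N K L D c0 : ℕ} (hLK : L ≤ K) (hDL : D ≤ L)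
    (hC : K + 2 * L + 2 * D + 76 ≤ 10 * N) (hc0 : K + 2 * L + 2 * D + c0 = 5 * (2 * N + 1)) :
    ∃ (rr : Fin c0 → Row N) (e : (Col K L D ⊕ Fin c0) ≃ Row N), sdet e (Vh c K L D rr) ≠ 0 :=
  zeroEst_rows c hc0 hLK hDL hC

end MP_a3a416_nt.SJ5
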