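import Pool.Agent.Lib.MP_a3a416_nt.SJ5.Pole
import Pool.Agent.Lib.MP_a3a416_nt.SJ5.Gen

/-!
# SJ5-Zero6
Zero estimate for the family `1, u, u², F₂, W F₃` (single index 5).
Here `F_e` are arbitrary sequences of power series with `(n+u)^e F_e(n) = (n+u)^e F_e(n-1) + n`.
-/

open Polynomial BBZ MP_a3a416_nt.SJ

namespace MP_a3a416_nt.SJ5

/-! ## the module `1, u, h_k`, `h_k = α_k u² + β_k F₂ + γ_k F₃` -/

/-- the functions -/
noncomputable def gg {κ : Type*} (al be ga : κ → ℚ) (F2 F3 : ℤ → PowerSeries ℚ) :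
    Fin 2 ⊕ κ → ℤ → PowerSeries ℚ
  | .inl a, _ => if a = 0 then 1 else PowerSeries.X
  | .inr k, n => PowerSeries.C (al k) * PowerSeries.X ^ 2 + PowerSeries.C (be k) * F2 n
      + PowerSeries.C (ga k) * F3 n

/-- the shift matrix -/
noncomputable def MM {κ : Type*} [DecidableEq κ] (be ga : κ → ℚ) : Fin 2 ⊕ κ → Fin 2 ⊕ κ → ℚ[X]
  | .inl a, .inl b => if a = b then (X + 1) ^ 3 else 0
  | .inl _, .inr _ => 0
  | .inr k, .inl a => if a = 0 then C (be k) * (X + 1) ^ 2 + C (ga k) * (X + 1)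
      else -(C (be k) * (X + 1) + C (ga k))
  | .inr k, .inr k' => if k = k' then (X + 1) ^ 3 else 0

/-- the shift relation -/
def HF (e : ℕ) (F : ℤ → PowerSeries ℚ) : Prop :=
  ∀ n : ℤ, (PowerSeries.C (n : ℚ) + PowerSeries.X) ^ e * F n =
      (PowerSeries.C (n : ℚ) + PowerSeries.X) ^ e * F (n - 1) + PowerSeries.C (n : ℚ)

theorem gg_shift {κ : Type*} [Fintype κ] [DecidableEq κ] (al be ga : κ → ℚ) {F2 F3 : ℤ → PowerSeries ℚ}
    (h2 : HF 2 F2) (h3 : HF 3 F3) :
    IsShift (gg al be ga F2 F3) (MM be ga) (fun n => (PowerSeries.C ((n + 1 : ℤ) : ℚ) + PowerSeries.X) ^ 3) := by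
  intro n i
  have hX : (((taylor (n : ℚ) (X + 1 : ℚ[X])) : ℚ[X]) : PowerSeries ℚ) =
      PowerSeries.C ((n + 1 : ℤ) : ℚ) + PowerSeries.X := by
    rw [map_add, taylor_X, taylor_one]
    push_cast
    rw [map_add, map_one]
    ring
  have h2' := h2 (n + 1)
  have h3' := h3 (n + 1)
  rw [show n + 1 - 1 = n by ring] at h2' h3'
  rcases i with a | k
  · simp only [Fintype.sum_sum_type, MM, gg]
    simp only [map_zero, Polynomial.coe_zero, zero_mul, Finset.sum_const_zero, add_zero]
    rw [Finset.sum_eq_single a]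
    · rw [if_pos rfl, taylor_pow, Polynomial.coe_pow, hX]
    · intro b _ hb
      rw [if_neg (Ne.symm hb)]
      simp
    · intro h
      exact absurd (Finset.mem_univ a) h
  · simp only [Fintype.sum_sum_type, MM, gg, Fin.sum_univ_two]
    rw [Finset.sum_eq_single k]
    · simp only [one_ne_zero, if_true, if_false]
      simp only [map_add, map_neg, taylor_mul, taylor_pow, taylor_C, Polynomial.coe_pow, Polynomial.coe_add,
        Polynomial.coe_mul, Polynomial.coe_neg, Polynomial.coe_C]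
      have hX' : (((taylor (n : ℚ) X : ℚ[X])) : PowerSeries ℚ) + (((taylor (n : ℚ) 1 : ℚ[X])) : PowerSeries ℚ) =
          PowerSeries.C ((n + 1 : ℤ) : ℚ) + PowerSeries.X := by
        rw [← Polynomial.coe_add, ← map_add, hX]
      rw [hX']
      linear_combination (PowerSeries.C (be k)) * (PowerSeries.C ((n + 1 : ℤ) : ℚ) + PowerSeries.X) * h2' +
        (PowerSeries.C (ga k)) * h3'
    · intro b _ hb
      rw [if_neg (Ne.symm hb)]
      simp
    · intro h
      exact absurd (Finset.mem_univ k) h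

/-- NON-VANISHING: generic case -/
theorem det_ne_gen {κ : Type*} [Fintype κ] [DecidableEq κ] (be ga : κ → ℚ) (P : Fin 2 ⊕ κ → ℚ[X])
    (hli : LinearIndependent ℚ fun k => P (Sum.inr k)) (k0 : κ) (hk0 : be k0 ≠ 0 ∨ ga k0 ≠ 0)
    {r : ℕ} (e : Fin 2 ⊕ κ ≃ Fin r) :
    (Matrix.of fun j i => (TP (MM be ga))^[(e j : ℕ)] P i).det ≠ 0 := by
  classical
  intro hdet
  set φ : ℚ[X] →+* RatFunc ℚ := algebraMap ℚ[X] (RatFunc ℚ) with hφ
  set M := MM be ga with hM
  set v : Fin 2 ⊕ κ → RatFunc ℚ := fun i => φ (P i) with hv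
  have hdet' : (Matrix.of fun (j i : Fin 2 ⊕ κ) => (TK M)^[(e j : ℕ)] v i).det = 0 := by
    have h1 : (Matrix.of fun (j i : Fin 2 ⊕ κ) => (TK M)^[(e j : ℕ)] v i) =
        φ.mapMatrix (Matrix.of fun j i => (TP M)^[(e j : ℕ)] P i) := by
      ext j i
      exact (congrFun (TP_iter_alg M P (e j)) i).symm
    rw [h1, ← RingHom.map_det, hdet, map_zero]
  obtain ⟨l, hl, hrel⟩ := annih_of_det e M v hdet'
  set w : ℕ → Fin 2 ⊕ κ → RatFunc ℚ := fun j => (TK M)^[j] v with hw
  have hx0 := x1_ne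
  -- the components of the shift
  have hwr : ∀ j k, w (j + 1) (Sum.inr k) = x1 ^ 3 * sh (w j (Sum.inr k)) := by
    intro j k
    have h1 : w (j + 1) = TK M (w j) := Function.iterate_succ_apply' _ _ _
    rw [h1, TK, Fintype.sum_sum_type]
    simp only [hM, MM, map_zero, mul_zero, Finset.sum_const_zero, zero_add]
    rw [Finset.sum_eq_single k]
    · rw [if_pos rfl, map_pow, mul_comm]
      rfl
    · intro b _ hb
      rw [if_neg hb]
      simp
    · intro h
      exact absurd (Finset.mem_univ k) h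
  have hw0 : ∀ j, w (j + 1) (Sum.inl 0) = x1 ^ 3 * (sh (w j (Sum.inl 0)) +
      ∑ k, sh (w j (Sum.inr k)) * (φ (C (be k)) * x1⁻¹ + φ (C (ga k)) * x1⁻¹ ^ 2)) := by
    intro j
    have h1 : w (j + 1) = TK M (w j) := Function.iterate_succ_apply' _ _ _
    rw [h1, TK, Fintype.sum_sum_type, Fin.sum_univ_two]
    have h2 : φ (X + 1) = x1 := rfl
    simp only [hM, MM, if_true, one_ne_zero, if_false, map_zero, mul_zero, add_zero, map_pow]
    rw [← hφ, h2, mul_add, Finset.mul_sum]
    congr 1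
    · rw [mul_comm]
    · refine Finset.sum_congr rfl fun k _ => ?_
      rw [map_add φ (C (be k) * (X + 1) ^ 2), map_mul, map_mul, map_pow, h2]
      field_simp
  have hw1 : ∀ j, w (j + 1) (Sum.inl 1) = x1 ^ 3 * (sh (w j (Sum.inl 1)) -
      ∑ k, sh (w j (Sum.inr k)) * (φ (C (be k)) * x1⁻¹ ^ 2 + φ (C (ga k)) * x1⁻¹ ^ 3)) := by
    intro j
    have h1 : w (j + 1) = TK M (w j) := Function.iterate_succ_apply' _ _ _
    rw [h1, TK, Fintype.sum_sum_type, Fin.sum_univ_two]
    have h2 : φ (X + 1) = x1 := rfl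
    simp only [hM, MM, if_true, zero_ne_one, one_ne_zero, if_false, map_zero, mul_zero, zero_add, map_pow]
    rw [← hφ, h2, mul_sub, Finset.mul_sum, sub_eq_add_neg, ← Finset.sum_neg_distrib]
    congr 1
    · rw [mul_comm]
    · refine Finset.sum_congr rfl fun k _ => ?_
      rw [map_neg, map_add φ (C (be k) * (X + 1)), map_mul, h2]
      field_simp
  -- (1) forms without the coordinates `1`, `u`
  have key1 : ∀ m : Fin 2 ⊕ κ → RatFunc ℚ, (∀ j, ∑ i, m i * w j i = 0) → m (Sum.inl 0) = 0 →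
      m (Sum.inl 1) = 0 → m = 0 := by
    intro m hm h0 h1
    by_contra hne
    have h2 : (fun k => m (Sum.inr k)) ≠ 0 := by
      intro h
      apply hne
      funext i
      rcases i with a | k
      · fin_cases a
        · exact h0
        · exact h1
      · exact congrFun h k
    obtain ⟨c, hc, hc2⟩ := const_relation (x1 ^ 3) (pow_ne_zero 3 hx0) (fun j k => w j (Sum.inr k)) hwr _
      (fun k => m (Sum.inr k)) le_rfl h2 (by
        intro j
        have h3 := hm j
        rw [Fintype.sum_sum_type, Fin.sum_univ_two, h0, h1, zero_mul, zero_mul, add_zero, zero_add] at h3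
        exact h3)
    apply hc
    have h3 : ∑ k, c k • P (Sum.inr k) = 0 := by
      apply alg_inj
      rw [map_sum, map_zero, ← hc2]
      refine Finset.sum_congr rfl fun k _ => ?_
      rw [smul_eq_C_mul, map_mul]
      rfl
    funext k
    exact (Fintype.linearIndependent_iff.1 hli) c h3 k
  -- (2) the derived form
  have key2 : ∀ m : Fin 2 ⊕ κ → RatFunc ℚ, (∀ j, ∑ i, m i * w j i = 0) →
      ∃ m' : Fin 2 ⊕ κ → RatFunc ℚ, (∀ j, ∑ i, m' i * w j i = 0) ∧
        (∀ a, sh (m' (Sum.inl a)) = m (Sum.inl a) - sh (m (Sum.inl a))) ∧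
        (∀ k, sh (m' (Sum.inr k)) = m (Sum.inr k) - sh (m (Sum.inr k)) +
          m (Sum.inl 0) * (φ (C (be k)) * x1⁻¹ + φ (C (ga k)) * x1⁻¹ ^ 2) -
          m (Sum.inl 1) * (φ (C (be k)) * x1⁻¹ ^ 2 + φ (C (ga k)) * x1⁻¹ ^ 3)) := by
    intro m hm
    choose m0 hm0 using fun a => sh_surj (m (Sum.inl a) - sh (m (Sum.inl a)))
    choose m1 hm1 using fun k => sh_surj (m (Sum.inr k) - sh (m (Sum.inr k)) +
          m (Sum.inl 0) * (φ (C (be k)) * x1⁻¹ + φ (C (ga k)) * x1⁻¹ ^ 2) -
          m (Sum.inl 1) * (φ (C (be k)) * x1⁻¹ ^ 2 + φ (C (ga k)) * x1⁻¹ ^ 3))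
    refine ⟨Sum.elim m0 m1, ?_, hm0, hm1⟩
    intro j
    apply sh_inj
    rw [map_sum, map_zero, Fintype.sum_sum_type, Fin.sum_univ_two]
    simp only [Sum.elim_inl, Sum.elim_inr, map_mul, hm0, hm1]
    have h1 := hm (j + 1)
    rw [Fintype.sum_sum_type, Fin.sum_univ_two, hw0, hw1] at h1
    simp only [hwr] at h1
    have h2 := congrArg sh (hm j)
    rw [map_sum, map_zero, Fintype.sum_sum_type, Fin.sum_univ_two] at h2
    simp only [map_mul] at h2
    have h3 : m (Sum.inl 0) * (sh (w j (Sum.inl 0)) +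
          ∑ k, sh (w j (Sum.inr k)) * (φ (C (be k)) * x1⁻¹ + φ (C (ga k)) * x1⁻¹ ^ 2)) +
        m (Sum.inl 1) * (sh (w j (Sum.inl 1)) -
          ∑ k, sh (w j (Sum.inr k)) * (φ (C (be k)) * x1⁻¹ ^ 2 + φ (C (ga k)) * x1⁻¹ ^ 3)) +
        ∑ k, m (Sum.inr k) * sh (w j (Sum.inr k)) = 0 := by
      refine mul_left_cancel₀ (pow_ne_zero 3 hx0) ?_
      have h5 : x1 ^ 3 * ∑ k, m (Sum.inr k) * sh (w j (Sum.inr k)) =
          ∑ k, m (Sum.inr k) * (x1 ^ 3 * sh (w j (Sum.inr k))) := by
        rw [Finset.mul_sum]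
        exact Finset.sum_congr rfl fun k _ => by ring
      rw [mul_zero, ← h1, ← h5]
      ring
    have h4 : ∑ k, (m (Sum.inr k) - sh (m (Sum.inr k)) +
          m (Sum.inl 0) * (φ (C (be k)) * x1⁻¹ + φ (C (ga k)) * x1⁻¹ ^ 2) -
          m (Sum.inl 1) * (φ (C (be k)) * x1⁻¹ ^ 2 + φ (C (ga k)) * x1⁻¹ ^ 3)) * sh (w j (Sum.inr k)) =
        ∑ k, m (Sum.inr k) * sh (w j (Sum.inr k)) - ∑ k, sh (m (Sum.inr k)) * sh (w j (Sum.inr k)) +
        m (Sum.inl 0) * (∑ k, sh (w j (Sum.inr k)) * (φ (C (be k)) * x1⁻¹ + φ (C (ga k)) * x1⁻¹ ^ 2)) -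
        m (Sum.inl 1) * (∑ k, sh (w j (Sum.inr k)) * (φ (C (be k)) * x1⁻¹ ^ 2 + φ (C (ga k)) * x1⁻¹ ^ 3)) := by
      rw [Finset.mul_sum, Finset.mul_sum, ← Finset.sum_sub_distrib, ← Finset.sum_add_distrib,
        ← Finset.sum_sub_distrib]
      exact Finset.sum_congr rfl fun k _ => by ring
    rw [h4]
    linear_combination h3 - h2
  -- scaling
  have scale : ∀ (c : RatFunc ℚ) (m : Fin 2 ⊕ κ → RatFunc ℚ), (∀ j, ∑ i, m i * w j i = 0) →
      (∀ j, ∑ i, (c * m i) * w j i = 0) := by
    intro c m hm j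
    rw [← mul_zero c, ← hm j, Finset.mul_sum]
    exact Finset.sum_congr rfl fun i _ => by ring
  have shz : ∀ f : RatFunc ℚ, sh f = 0 → f = 0 := fun f hf => sh_inj (by rw [hf, map_zero])
  -- (3) an invariant form
  obtain ⟨m, hm, hm0, hinv⟩ : ∃ m : Fin 2 ⊕ κ → RatFunc ℚ, (∀ j, ∑ i, m i * w j i = 0) ∧ m ≠ 0 ∧
      (∀ a, sh (m (Sum.inl a)) = m (Sum.inl a)) ∧
        (∀ k, sh (m (Sum.inr k)) = m (Sum.inr k) +
          m (Sum.inl 0) * (φ (C (be k)) * x1⁻¹ + φ (C (ga k)) * x1⁻¹ ^ 2) -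
          m (Sum.inl 1) * (φ (C (be k)) * x1⁻¹ ^ 2 + φ (C (ga k)) * x1⁻¹ ^ 3)) := by
    have fin : ∀ m m' : Fin 2 ⊕ κ → RatFunc ℚ,
        (∀ a, sh (m' (Sum.inl a)) = m (Sum.inl a) - sh (m (Sum.inl a))) →
        (∀ k, sh (m' (Sum.inr k)) = m (Sum.inr k) - sh (m (Sum.inr k)) +
          m (Sum.inl 0) * (φ (C (be k)) * x1⁻¹ + φ (C (ga k)) * x1⁻¹ ^ 2) -
          m (Sum.inl 1) * (φ (C (be k)) * x1⁻¹ ^ 2 + φ (C (ga k)) * x1⁻¹ ^ 3)) → m' = 0 →
        (∀ a, sh (m (Sum.inl a)) = m (Sum.inl a)) ∧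
        (∀ k, sh (m (Sum.inr k)) = m (Sum.inr k) +
          m (Sum.inl 0) * (φ (C (be k)) * x1⁻¹ + φ (C (ga k)) * x1⁻¹ ^ 2) -
          m (Sum.inl 1) * (φ (C (be k)) * x1⁻¹ ^ 2 + φ (C (ga k)) * x1⁻¹ ^ 3)) := by
      intro m m' h1 h2 h3
      subst h3
      refine ⟨fun a => ?_, fun k => ?_⟩
      · have h4 := h1 a
        rw [Pi.zero_apply, map_zero] at h4
        exact (sub_eq_zero.1 h4.symm).symm
      · have h4 := h2 k
        rw [Pi.zero_apply, map_zero] at h4
        linear_combination h4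
    by_cases hcase : ∃ m : Fin 2 ⊕ κ → RatFunc ℚ, (∀ j, ∑ i, m i * w j i = 0) ∧ m (Sum.inl 0) = 0 ∧
        m (Sum.inl 1) = 1
    · obtain ⟨m, hm, h0, h1⟩ := hcase
      obtain ⟨m', hm', ha, hk⟩ := key2 m hm
      have hz : m' = 0 := by
        refine key1 m' hm' (shz _ ?_) (shz _ ?_)
        · rw [ha, h0, map_zero, sub_zero]
        · rw [ha, h1, map_one, sub_self]
      refine ⟨m, hm, ?_, fin m m' ha hk hz⟩
      intro h
      rw [h, Pi.zero_apply] at h1
      exact zero_ne_one h1
    · have h0 : l (Sum.inl 0) ≠ 0 := by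
        intro h0
        have h1 : l (Sum.inl 1) ≠ 0 := fun h1 => hl (key1 l hrel h0 h1)
        apply hcase
        refine ⟨fun i => (l (Sum.inl 1))⁻¹ * l i, scale _ l hrel, ?_, ?_⟩
        · simp only [h0, mul_zero]
        · exact inv_mul_cancel₀ h1
      set m : Fin 2 ⊕ κ → RatFunc ℚ := fun i => (l (Sum.inl 0))⁻¹ * l i with hmdef
      have hm : ∀ j, ∑ i, m i * w j i = 0 := scale _ l hrel
      have hm1 : m (Sum.inl 0) = 1 := inv_mul_cancel₀ h0
      obtain ⟨m', hm', ha, hk⟩ := key2 m hm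
      have hm'0 : m' (Sum.inl 0) = 0 := shz _ (by rw [ha, hm1, map_one, sub_self])
      have hm'1 : m' (Sum.inl 1) = 0 := by
        by_contra h1
        apply hcase
        refine ⟨fun i => (m' (Sum.inl 1))⁻¹ * m' i, scale _ m' hm', ?_, ?_⟩
        · simp only [hm'0, mul_zero]
        · exact inv_mul_cancel₀ h1
      refine ⟨m, hm, ?_, fin m m' ha hk (key1 m' hm' hm'0 hm'1)⟩
      intro h
      rw [h, Pi.zero_apply] at hm1
      exact zero_ne_one hm1
  -- (4) poles
  obtain ⟨c0, hc0⟩ := sh_const _ (hinv.1 0)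
  obtain ⟨c1, hc1⟩ := sh_const _ (hinv.1 1)
  have h5 := poles_general (c0 * be k0) (c0 * ga k0 - c1 * be k0) (-(c1 * ga k0)) (m (Sum.inr k0)) (by
    rw [hinv.2 k0, hc0, hc1]
    simp only [map_mul, map_sub, map_neg]
    ring)
  have h6 : c0 = 0 ∧ c1 = 0 := by
    rcases hk0 with h | h
    · have h7 : c0 = 0 := (mul_eq_zero.1 h5.1).resolve_right h
      refine ⟨h7, ?_⟩
      have h8 := h5.2.1
      rw [h7, zero_mul, zero_sub, neg_eq_zero] at h8
      exact (mul_eq_zero.1 h8).resolve_right h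
    · have h7 : c1 = 0 := (mul_eq_zero.1 (neg_eq_zero.1 h5.2.2)).resolve_right h
      refine ⟨?_, h7⟩
      have h8 := h5.2.1
      rw [h7, zero_mul, sub_zero] at h8
      exact (mul_eq_zero.1 h8).resolve_right h
  apply hm0
  refine key1 m hm ?_ ?_
  · rw [hc0, h6.1, C_0, map_zero]
  · rw [hc1, h6.2, C_0, map_zero]

/-! ## constant functions -/

/-- the identity shift matrix -/
noncomputable def M1 {κ : Type*} [DecidableEq κ] : κ → κ → ℚ[X] := fun i j => if i = j then 1 else 0

theorem M1_shift {κ : Type*} [Fintype κ] [DecidableEq κ] (g : κ → PowerSeries ℚ) :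
    IsShift (fun i _ => g i) M1 (fun _ => 1) := by
  intro n i
  simp only [M1]
  rw [Finset.sum_eq_single i]
  · simp
  · intro b _ hb
    rw [if_neg (Ne.symm hb)]
    simp
  · intro h
    exact absurd (Finset.mem_univ i) h

theorem TK_M1 {κ : Type*} [Fintype κ] [DecidableEq κ] (v : κ → RatFunc ℚ) (k : κ) :
    TK M1 v k = sh (v k) := by
  unfold TK M1
  rw [Finset.sum_eq_single k]
  · simp
  · intro b _ hb
    rw [if_neg hb]
    simp
  · intro h
    exact absurd (Finset.mem_univ k) h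

/-- NON-VANISHING: functions constant in `n` (Casorati determinant) -/
theorem det_ne_const {κ : Type*} [Fintype κ] [DecidableEq κ] [Nonempty κ] (P : κ → ℚ[X])
    (hli : LinearIndependent ℚ P) {r : ℕ} (e : κ ≃ Fin r) :
    (Matrix.of fun j i => (TP M1)^[(e j : ℕ)] P i).det ≠ 0 := by
  classical
  intro hdet
  set φ : ℚ[X] →+* RatFunc ℚ := algebraMap ℚ[X] (RatFunc ℚ) with hφ
  set v : κ → RatFunc ℚ := fun i => φ (P i) with hv
  have hdet' : (Matrix.of fun (j i : κ) => (TK M1)^[(e j : ℕ)] v i).det = 0 := by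
    have h1 : (Matrix.of fun (j i : κ) => (TK M1)^[(e j : ℕ)] v i) =
        φ.mapMatrix (Matrix.of fun j i => (TP M1)^[(e j : ℕ)] P i) := by
      ext j i
      exact (congrFun (TP_iter_alg M1 P (e j)) i).symm
    rw [h1, ← RingHom.map_det, hdet, map_zero]
  obtain ⟨l, hl, hrel⟩ := annih_of_det e M1 v hdet'
  obtain ⟨c, hc, hc2⟩ := const_relation 1 one_ne_zero (fun j => (TK M1)^[j] v) (by
    intro j k
    rw [Function.iterate_succ_apply', TK_M1, one_mul]) _ l le_rfl hl hrel
  apply hc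
  have h3 : ∑ k, c k • P k = 0 := by
    apply alg_inj
    rw [map_sum, map_zero, ← hc2]
    refine Finset.sum_congr rfl fun k _ => ?_
    rw [smul_eq_C_mul, map_mul]
    rfl
  funext k
  exact (Fintype.linearIndependent_iff.1 hli) c h3 k

/-! ## counting -/

private theorem nd_lt {p : ℚ[X]} {B : ℕ} (hp : p.degree < B) : p.natDegree ≤ B := by
  by_cases hp0 : p = 0
  · simp [hp0]
  · have := (natDegree_lt_iff_degree_lt hp0).2 hp
    omega

/-- a basis of the span of a finite family of polynomials inside the family -/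
theorem exists_basis {ι : Type*} [Fintype ι] (P : ι → ℚ[X]) (s : Set ι) (hs : LinearIndepOn ℚ P s) :
    ∃ b : Set ι, s ⊆ b ∧ LinearIndepOn ℚ P b ∧
      ∃ c : ι → b → ℚ, (∀ i, ∃ _ : Fintype b, P i = ∑ k : b, C (c i k) * P k) := by
  classical
  obtain ⟨b, -, hsb, hspan, hli⟩ := exists_linearIndepOn_extension hs (Set.subset_univ s)
  refine ⟨b, hsb, hli, ?_⟩
  have h1 : ∀ i, ∃ c : b → ℚ, ∃ _ : Fintype b, P i = ∑ k : b, C (c k) * P k := by
    intro i
    have h2 : P i ∈ Submodule.span ℚ (Set.range fun k : b => P k) := by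
      have h3 := hspan ⟨i, Set.mem_univ i, rfl⟩
      rwa [Set.image_eq_range] at h3
    have : Fintype b := Fintype.ofFinite b
    obtain ⟨c, hc⟩ := (Submodule.mem_span_range_iff_exists_fun ℚ).1 h2
    refine ⟨c, inferInstance, ?_⟩
    rw [← hc]
    exact Finset.sum_congr rfl fun k _ => by rw [smul_eq_C_mul]
  choose c hc using h1
  exact ⟨c, hc⟩

theorem dvd_taylor_coe (n : ℤ) (f : ℚ[X]) (h : f.eval (n : ℚ) = 0) :
    PowerSeries.X ∣ ((taylor (n : ℚ) f : ℚ[X]) : PowerSeries ℚ) := by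
  rw [PowerSeries.X_dvd_iff, Polynomial.constantCoeff_coe, taylor_coeff_zero]
  exact h

theorem TP_inr {κ : Type*} [Fintype κ] [DecidableEq κ] (be ga : κ → ℚ) (P : Fin 2 ⊕ κ → ℚ[X]) (k : κ) :
    TP (MM be ga) P (Sum.inr k) = taylor 1 (P (Sum.inr k)) * (X + 1) ^ 3 := by
  rw [TP, Fintype.sum_sum_type]
  simp only [MM, mul_zero, Finset.sum_const_zero, zero_add]
  rw [Finset.sum_eq_single k]
  · rw [if_pos rfl]
  · intro b _ hb
    rw [if_neg hb, mul_zero]
  · intro h
    exact absurd (Finset.mem_univ k) h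

theorem TP_inr_eval {κ : Type*} [Fintype κ] [DecidableEq κ] (be ga : κ → ℚ) (P : Fin 2 ⊕ κ → ℚ[X]) (k : κ)
    (m : ℕ) (n : ℤ) (h : (P (Sum.inr k)).eval ((n + m : ℤ) : ℚ) = 0) :
    ((TP (MM be ga))^[m] P (Sum.inr k)).eval (n : ℚ) = 0 := by
  induction m generalizing n with
  | zero => simpa using h
  | succ m ih =>
    rw [Function.iterate_succ_apply', TP_inr, eval_mul, taylor_eval]
    have h1 := ih (n + 1) (by
      have h2 : n + 1 + (m : ℤ) = n + ((m + 1 : ℕ) : ℤ) := by push_cast; ring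
      rw [h2]
      exact h)
    have h2 : (1 : ℚ) + (n : ℚ) = ((n + 1 : ℤ) : ℚ) := by push_cast; ring
    rw [add_comm (n : ℚ) 1, h2, h1, zero_mul]

/-- zeros at the nodes `[n0, n0+ν)` of order `T` and at `[b0, b0+β)` of order `T + δ` -/
theorem count_two (n0 b0 : ℤ) (ν β T δ : ℕ) (m : ℕ) (hb0 : n0 ≤ b0) (hb1 : b0 + β ≤ n0 + ν) (f : ℚ[X]) (hf : f ≠ 0)
    (h1 : ∀ n : ℤ, n0 ≤ n → n < n0 + ν - m → PowerSeries.X ^ T ∣ ((taylor (n : ℚ) f : ℚ[X]) : PowerSeries ℚ))
    (h2 : ∀ n : ℤ, b0 ≤ n → n < b0 + β - m →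
      PowerSeries.X ^ (T + δ) ∣ ((taylor (n : ℚ) f : ℚ[X]) : PowerSeries ℚ)) :
    T * (ν - m) + δ * (β - m) ≤ f.natDegree := by
  classical
  have h3 := countZm f hf (Finset.Ico n0 (n0 + ν - m))
    (fun n => T + if b0 ≤ n ∧ n < b0 + β - m then δ else 0) (by
      intro n hn
      rw [Finset.mem_Ico] at hn
      by_cases h : b0 ≤ n ∧ n < b0 + β - m
      · rw [if_pos h]
        exact h2 n h.1 h.2
      · rw [if_neg h, add_zero]
        exact h1 n hn.1 hn.2)
  rw [Finset.sum_add_distrib, Finset.sum_const, ← Finset.sum_filter, Finset.sum_const] at h3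
  have h4 : (Finset.Ico n0 (n0 + ν - m)).filter (fun n => b0 ≤ n ∧ n < b0 + β - m) =
      Finset.Ico b0 (b0 + β - m) := by
    ext n
    rw [Finset.mem_filter, Finset.mem_Ico, Finset.mem_Ico]
    constructor
    · exact fun h => h.2
    · intro h
      exact ⟨⟨by omega, by omega⟩, h⟩
  rw [h4, Int.card_Ico, Int.card_Ico] at h3
  have e1 : (n0 + ν - m - n0).toNat = ν - m := by omega
  have e2 : (b0 + β - m - b0).toNat = β - m := by omega
  rw [e1, e2, smul_eq_mul, smul_eq_mul, mul_comm, mul_comm (β - m) δ] at h3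
  exact h3

/-- constant functions `1, u, u²` -/
theorem const3 (n0 : ℤ) (ν t : ℕ) (P : Fin 3 → ℚ[X]) (E : Fin 3 → ℕ) (hE : ∀ i, (P i).natDegree ≤ E i)
    (h0 : P 0 ≠ 0)
    (hv : ∀ n : ℤ, n0 ≤ n → n < n0 + ν → PowerSeries.X ^ t ∣
      ∑ i : Fin 3, ((taylor (n : ℚ) (P i) : ℚ[X]) : PowerSeries ℚ) * PowerSeries.X ^ (i : ℕ)) :
    t * (ν - 2) ≤ ∑ i, E i := by
  classical
  obtain ⟨b, hsb, hli, c, hc⟩ := exists_basis P {0} (by
    rw [linearIndepOn_singleton_iff]
    exact h0)
  have : Fintype b := Fintype.ofFinite b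
  have hc' : ∀ i, P i = ∑ k : b, C (c i k) * P k := by
    intro i
    obtain ⟨inst, h⟩ := hc i
    have hi : inst = this := Subsingleton.elim _ _
    subst hi
    exact h
  have h0b : (0 : Fin 3) ∈ b := hsb rfl
  have : Nonempty b := ⟨⟨0, h0b⟩⟩
  have hc0 : c 0 ⟨0, h0b⟩ = 1 := by
    have h1 := hc' 0
    have h2 : ∑ k : b, (c 0 k - if k = ⟨0, h0b⟩ then 1 else 0) • P k = 0 := by
      simp only [sub_smul, Finset.sum_sub_distrib, ite_smul, one_smul, zero_smul, Finset.sum_ite_eq',
        Finset.mem_univ, if_true]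
      rw [sub_eq_zero]
      conv_rhs => rw [h1]
      exact Finset.sum_congr rfl fun k _ => by rw [smul_eq_C_mul]
    have h3 := (Fintype.linearIndependent_iff.1 (show LinearIndependent ℚ (fun k : b => P k) from hli)) _ h2
      ⟨0, h0b⟩
    rw [if_pos rfl] at h3
    linarith
  set h : b → PowerSeries ℚ := fun k => ∑ i : Fin 3, PowerSeries.C (c i k) * PowerSeries.X ^ (i : ℕ) with hh
  have hR : ∀ n : ℤ, RF (fun k _ => h k) n (fun k : b => P k) =
      ∑ i : Fin 3, ((taylor (n : ℚ) (P i) : ℚ[X]) : PowerSeries ℚ) * PowerSeries.X ^ (i : ℕ) := by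
    intro n
    have h1 : ∀ i : Fin 3, ((taylor (n : ℚ) (P i) : ℚ[X]) : PowerSeries ℚ) =
        ∑ k : b, PowerSeries.C (c i k) * ((taylor (n : ℚ) (P k) : ℚ[X]) : PowerSeries ℚ) := by
      intro i
      conv_lhs => rw [hc' i]
      rw [map_sum]
      refine (map_sum (Polynomial.coeToPowerSeries.ringHom (R := ℚ)) _ _).trans ?_
      refine Finset.sum_congr rfl fun k _ => ?_
      rw [taylor_mul, taylor_C]
      change (((C (c i k) * taylor (n : ℚ) (P k)) : ℚ[X]) : PowerSeries ℚ) = _
      rw [Polynomial.coe_mul, Polynomial.coe_C]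
    unfold RF
    simp only [hh]
    simp only [Finset.mul_sum]
    rw [Finset.sum_comm]
    refine Finset.sum_congr rfl fun i _ => ?_
    rw [h1 i, Finset.sum_mul]
    exact Finset.sum_congr rfl fun k _ => by ring
  have hcard : Fintype.card b ≤ 3 := by
    have := Fintype.card_le_of_injective (fun k : b => (k : Fin 3)) Subtype.val_injective
    rwa [Fintype.card_fin] at this
  set e : b ≃ Fin (Fintype.card b) := Fintype.equivFin b
  have hne := det_ne_const (fun k : b => P k) hli e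
  set A : Matrix b b ℚ[X] := Matrix.of fun j i => (TP M1)^[(e j : ℕ)] (fun k : b => P k) i with hA
  have hdeg : A.det.natDegree ≤ ∑ i, E i := by
    have h1 := det_natDegree A (fun _ => 0) (fun k => E k) (by
      intro j i
      have h2 := TP_iter_natDegree (M1 (κ := b)) (fun k => E k) 0 (by
        intro i j hij
        have h3 : i = j := by
          by_contra hne
          apply hij
          rw [M1, if_neg hne]
        subst h3
        rw [M1, if_pos rfl, natDegree_one]
        omega) (fun k : b => P k) (fun k => hE k) (e j) i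
      rw [hA, Matrix.of_apply]
      omega)
    rw [Finset.sum_const_zero, zero_add] at h1
    refine h1.trans ?_
    have h2 : ∑ k : b, E k = ∑ k ∈ b.toFinset, E k := by
      rw [← Finset.sum_coe_sort b.toFinset]
      refine Fintype.sum_equiv (Equiv.subtypeEquivRight (by simp)) _ _ (by intro x; rfl)
    rw [h2]
    exact Finset.sum_le_sum_of_subset (Finset.subset_univ _)
  have hz := count_two n0 n0 ν ν t 0 2 le_rfl le_rfl A.det hne (by
    intro n hn1 hn2
    refine det_zero (fun k _ => h k) n A t ?_ ⟨0, h0b⟩ ?_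
    · intro j
      refine dvd_trans ?_ (RF_TP_iter (M1_shift h) (fun k : b => P k) (e j) n)
      rw [hR]
      have := (e j).2
      exact hv _ (by omega) (by push_cast at *; omega)
    · rw [PowerSeries.isUnit_iff_constantCoeff, hh]
      simp only [map_sum, map_mul, PowerSeries.constantCoeff_C, map_pow, PowerSeries.constantCoeff_X]
      rw [Finset.sum_eq_single 0]
      · simp [hc0]
      · intro i _ hi
        have : (i : ℕ) ≠ 0 := fun h => hi (Fin.ext h)
        rw [zero_pow this, mul_zero]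
      · intro h
        exact absurd (Finset.mem_univ _) h) (by
    intro n hn1 hn2
    rw [add_zero]
    refine det_zero (fun k _ => h k) n A t ?_ ⟨0, h0b⟩ ?_
    · intro j
      refine dvd_trans ?_ (RF_TP_iter (M1_shift h) (fun k : b => P k) (e j) n)
      rw [hR]
      have := (e j).2
      exact hv _ (by omega) (by push_cast at *; omega)
    · rw [PowerSeries.isUnit_iff_constantCoeff, hh]
      simp only [map_sum, map_mul, PowerSeries.constantCoeff_C, map_pow, PowerSeries.constantCoeff_X]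
      rw [Finset.sum_eq_single 0]
      · simp [hc0]
      · intro i _ hi
        have : (i : ℕ) ≠ 0 := fun h => hi (Fin.ext h)
        rw [zero_pow this, mul_zero]
      · intro h
        exact absurd (Finset.mem_univ _) h)
  rw [zero_mul, add_zero] at hz
  exact hz.trans hdeg

/-! ## the zero estimate -/

/-- the jet at `n` of `a + u q + u² r + p F₂ + c F₃` -/
noncomputable def F6 (F2 F3 : ℤ → PowerSeries ℚ) (n : ℤ) (a q r p c : ℚ[X]) : PowerSeries ℚ :=
  ((taylor (n : ℚ) a : ℚ[X]) : PowerSeries ℚ)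
    + PowerSeries.X * ((taylor (n : ℚ) q : ℚ[X]) : PowerSeries ℚ)
    + PowerSeries.X ^ 2 * ((taylor (n : ℚ) r : ℚ[X]) : PowerSeries ℚ)
    + F2 n * ((taylor (n : ℚ) p : ℚ[X]) : PowerSeries ℚ)
    + F3 n * ((taylor (n : ℚ) c : ℚ[X]) : PowerSeries ℚ)

/-- ZERO ESTIMATE for the family `1, u, u², F₂, W F₃`: order `T` at the nodes `n0 ≤ n < n0 + ν`, order
`T + δ` at the nodes `b0 ≤ n < b0 + β`, where moreover `W` vanishes. -/
theorem zero_estimate6 (n0 b0 : ℤ) (ν β T δ K L d d' l w : ℕ) (hb0 : n0 ≤ b0) (hb1 : b0 + β ≤ n0 + ν)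
    (F2 F3 : ℤ → PowerSeries ℚ)
    (h2 : HF 2 F2) (h3 : HF 3 F3) (W : ℚ[X]) (hW0 : W ≠ 0) (hWd : W.natDegree ≤ w)
    (hW : ∀ n : ℤ, b0 ≤ n → n < b0 + β → W.eval (n : ℚ) = 0)
    (hLK : L ≤ K) (hd : d ≤ L) (hd' : d' ≤ L) (hl : l + w ≤ L)
    (hA : K + L + (d + d' + (l + w)) + 60 < T * (ν - 4) + (δ + 1) * (β - 4))
    (hB1 : K + L + (d + d') + 60 < T * (ν - 4) + δ * (β - 4))
    (hB2 : K + L + (d + (l + w)) + 60 < T * (ν - 4) + δ * (β - 4))
    (hB3 : K + L + (d' + (l + w)) + 60 < T * (ν - 4) + δ * (β - 4))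
    (hC0 : K + L + d < T * (ν - 2)) (hC1 : L + d < (T - 1) * (ν - 2))
    (hC2 : d < (T - 2) * (ν - 2)) (hT : 2 ≤ T)
    (a q r p c : ℚ[X]) (ha : a.degree < K) (hq : q.degree < L) (hr : r.degree < d) (hp : p.degree < d')
    (hc : c.degree < l)
    (hF1 : ∀ n : ℤ, n0 ≤ n → n < n0 + ν → PowerSeries.X ^ T ∣ F6 F2 F3 n a q r p (W * c))
    (hF2 : ∀ n : ℤ, b0 ≤ n → n < b0 + β → PowerSeries.X ^ (T + δ) ∣ F6 F2 F3 n a q r p (W * c)) :
    a = 0 ∧ q = 0 ∧ r = 0 ∧ p = 0 ∧ c = 0 := by
  classical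
  have hWc : (W * c).natDegree ≤ l + w := by
    refine natDegree_mul_le.trans ?_
    have := nd_lt hc
    omega
  set Pv : Fin 3 → ℚ[X] := ![r, p, W * c] with hPv
  set ee : Fin 3 → ℕ := ![d, d', l + w] with hee
  have hPd : ∀ i, (Pv i).natDegree ≤ ee i := by
    intro i
    fin_cases i
    · exact nd_lt hr
    · exact nd_lt hp
    · exact hWc
  have heeL : ∀ i, ee i ≤ L := by
    intro i
    fin_cases i
    · exact hd
    · exact hd'
    · exact hl
  obtain ⟨b, -, hli, cc, hcc⟩ := exists_basis Pv ∅ (by simp)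
  have : Fintype b := Fintype.ofFinite b
  have hcc' : ∀ i, Pv i = ∑ k : b, C (cc i k) * Pv k := by
    intro i
    obtain ⟨inst, h⟩ := hcc i
    have hi : inst = this := Subsingleton.elim _ _
    subst hi
    exact h
  by_cases hcase : ∃ k : b, cc 1 k ≠ 0 ∨ cc 2 k ≠ 0
  · exfalso
    obtain ⟨k0, hk0⟩ := hcase
    set P : Fin 2 ⊕ b → ℚ[X] := Sum.elim ![a, q] (fun k => Pv k) with hP
    set g := gg (cc 0) (cc 1) (cc 2) F2 F3 with hg
    have hsh := gg_shift (cc 0) (cc 1) (cc 2) h2 h3
    have hR : ∀ n : ℤ, RF g n P = F6 F2 F3 n a q r p (W * c) := by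
      intro n
      have h1 : ∀ i : Fin 3, ((taylor (n : ℚ) (Pv i) : ℚ[X]) : PowerSeries ℚ) =
          ∑ k : b, PowerSeries.C (cc i k) * ((taylor (n : ℚ) (Pv k) : ℚ[X]) : PowerSeries ℚ) := by
        intro i
        conv_lhs => rw [hcc' i]
        rw [map_sum]
        refine (map_sum (Polynomial.coeToPowerSeries.ringHom (R := ℚ)) _ _).trans ?_
        refine Finset.sum_congr rfl fun k _ => ?_
        rw [taylor_mul, taylor_C]
        change (((C (cc i k) * taylor (n : ℚ) (Pv k)) : ℚ[X]) : PowerSeries ℚ) = _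
        rw [Polynomial.coe_mul, Polynomial.coe_C]
      have e0 := h1 0
      have e1 := h1 1
      have e2 := h1 2
      change ((taylor (n : ℚ) r : ℚ[X]) : PowerSeries ℚ) = _ at e0
      change ((taylor (n : ℚ) p : ℚ[X]) : PowerSeries ℚ) = _ at e1
      change ((taylor (n : ℚ) (W * c) : ℚ[X]) : PowerSeries ℚ) = _ at e2
      rw [F6, e0, e1, e2, RF, Fintype.sum_sum_type, Fin.sum_univ_two]
      simp only [hg, gg, hP, Sum.elim_inl, Sum.elim_inr, Matrix.cons_val_zero, Matrix.cons_val_one, if_true,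
        one_ne_zero, if_false, mul_one, Finset.mul_sum]
      rw [add_assoc (((taylor (n : ℚ) a : ℚ[X]) : PowerSeries ℚ) + _),
        add_assoc (((taylor (n : ℚ) a : ℚ[X]) : PowerSeries ℚ) + _), ← Finset.sum_add_distrib,
        ← Finset.sum_add_distrib]
      congr 1
      · rw [mul_comm PowerSeries.X]
      · exact Finset.sum_congr rfl fun k _ => by ring
    have hcard : Fintype.card b ≤ 3 := by
      have := Fintype.card_le_of_injective (fun k : b => (k : Fin 3)) Subtype.val_injective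
      rwa [Fintype.card_fin] at this
    set e : Fin 2 ⊕ b ≃ Fin (Fintype.card (Fin 2 ⊕ b)) := Fintype.equivFin _
    have hcard5 : Fintype.card (Fin 2 ⊕ b) ≤ 5 := by
      rw [Fintype.card_sum, Fintype.card_fin]
      omega
    have hej : ∀ j, ((e j : ℕ)) ≤ 4 := by
      intro j
      have := (e j).2
      omega
    have hne := det_ne_gen (cc 1) (cc 2) P hli k0 hk0 e
    set A : Matrix (Fin 2 ⊕ b) (Fin 2 ⊕ b) ℚ[X] := Matrix.of fun j i => (TP (MM (cc 1) (cc 2)))^[(e j : ℕ)] P i with hA'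
    set EE : Fin 2 ⊕ b → ℕ := Sum.elim ![K, L] (fun k => ee k) with hEE
    -- the degree
    have hX1 : (X + 1 : ℚ[X]).natDegree ≤ 1 := by rw [← C_1, natDegree_X_add_C]
    have hXk : ∀ k : ℕ, ((X + 1 : ℚ[X]) ^ k).natDegree ≤ k := by
      intro k
      refine natDegree_pow_le.trans ?_
      calc k * (X + 1 : ℚ[X]).natDegree ≤ k * 1 := Nat.mul_le_mul_left _ hX1
        _ = k := by ring
    have hdeg : A.det.natDegree ≤ 60 + (K + L + ∑ k : b, ee k) := by
      have h4 := det_natDegree A (fun _ => 12) EE (by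
        intro j i
        have h5 := TP_iter_natDegree (MM (cc 1) (cc 2)) EE 3 (by
          intro i j hij
          rcases i with x | k
          · rcases j with y | k'
            · have h6 : x = y := by
                by_contra hne
                apply hij
                simp only [MM]
                rw [if_neg hne]
              subst h6
              simp only [MM]
              rw [if_true]
              have := hXk 3
              omega
            · exact absurd rfl hij
          · rcases j with y | k'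
            · have h6 := heeL k
              fin_cases y
              · simp only [MM, hEE, Sum.elim_inl, Sum.elim_inr]
                have h7 : (C (cc 1 k) * (X + 1) ^ 2 + C (cc 2 k) * (X + 1) : ℚ[X]).natDegree ≤ 2 :=
                  (natDegree_add_le _ _).trans (max_le ((natDegree_C_mul_le _ _).trans (hXk 2))
                    ((natDegree_C_mul_le _ _).trans (hX1.trans (by norm_num))))
                simp only [Fin.zero_eta, if_true, Matrix.cons_val_zero]
                omega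
              · simp only [MM, hEE, Sum.elim_inl, Sum.elim_inr]
                have h7 : (-(C (cc 1 k) * (X + 1) + C (cc 2 k)) : ℚ[X]).natDegree ≤ 1 := by
                  rw [natDegree_neg]
                  exact (natDegree_add_le _ _).trans (max_le ((natDegree_C_mul_le _ _).trans hX1)
                    (by rw [natDegree_C]; omega))
                simp only [Fin.mk_one, one_ne_zero, if_false, Matrix.cons_val_one, Matrix.cons_val_fin_one]
                omega
            · have h6 : k = k' := by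
                by_contra hne
                apply hij
                simp only [MM]
                rw [if_neg hne]
              subst h6
              simp only [MM]
              rw [if_true]
              have := hXk 3
              omega) P (by
          intro i
          rcases i with x | k
          · fin_cases x
            · exact nd_lt ha
            · exact nd_lt hq
          · exact hPd k) (e j) i
        have h6 := hej j
        rw [hA', Matrix.of_apply]
        omega)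
      rw [Finset.sum_const, Finset.card_univ, smul_eq_mul, Fintype.sum_sum_type, Fin.sum_univ_two] at h4
      have h5 : Fintype.card (Fin 2 ⊕ b) * 12 ≤ 60 := by omega
      have h6 : EE (Sum.inl 0) + EE (Sum.inl 1) + ∑ k : b, EE (Sum.inr k) = K + L + ∑ k : b, ee k := rfl
      rw [h6] at h4
      omega
    have hsum : ∑ k : b, ee k = ∑ k ∈ b.toFinset, ee k := by
      rw [← Finset.sum_coe_sort b.toFinset]
      refine Fintype.sum_equiv (Equiv.subtypeEquivRight (by simp)) _ _ (by intro x; rfl)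
    have hunit : ∀ n : ℤ, IsUnit (g (Sum.inl 0) n) := by
      intro n
      simp only [hg, gg, if_true]
      exact isUnit_one
    have hz1 : ∀ n : ℤ, n0 ≤ n → n < n0 + ν - 4 → ∀ j, PowerSeries.X ^ T ∣ RF g n (A j) := by
      intro n hn1 hn2 j
      refine dvd_trans ?_ (RF_TP_iter hsh P (e j) n)
      rw [← hg, hR]
      have := hej j
      exact hF1 _ (by omega) (by omega)
    have hz2 : ∀ n : ℤ, b0 ≤ n → n < b0 + β - 4 → ∀ j, PowerSeries.X ^ (T + δ) ∣ RF g n (A j) := by
      intro n hn1 hn2 j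
      refine dvd_trans ?_ (RF_TP_iter hsh P (e j) n)
      rw [← hg, hR]
      have := hej j
      exact hF2 _ (by omega) (by omega)
    by_cases hb : b = Set.univ
    · have hz := count_two n0 b0 ν β T (δ + 1) 4 hb0 hb1 A.det hne (by
        intro n hn1 hn2
        push_cast at hn2
        exact det_zero g n A T (hz1 n hn1 hn2) (Sum.inl 0) (hunit n)) (by
        intro n hn1 hn2
        push_cast at hn2
        have h2b : (2 : Fin 3) ∈ b := by rw [hb]; exact Set.mem_univ _
        rw [← add_assoc]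
        refine det_zero_succ g n A (T + δ) (hz2 n hn1 hn2) (Sum.inl 0) (Sum.inr ⟨2, h2b⟩) (by simp) ?_ (hunit n)
        intro j
        apply dvd_taylor_coe
        rw [hA', Matrix.of_apply]
        apply TP_inr_eval
        have h5 := hej j
        have h6 : P (Sum.inr ⟨2, h2b⟩) = W * c := rfl
        rw [h6, eval_mul, hW _ (by omega) (by omega), zero_mul])
      have h5 : ∑ k : b, ee k ≤ d + d' + (l + w) := by
        rw [hsum]
        refine (Finset.sum_le_sum_of_subset (Finset.subset_univ _)).trans ?_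
        rw [Fin.sum_univ_three]
        exact le_of_eq rfl
      omega
    · have hz := count_two n0 b0 ν β T δ 4 hb0 hb1 A.det hne (by
        intro n hn1 hn2
        push_cast at hn2
        exact det_zero g n A T (hz1 n hn1 hn2) (Sum.inl 0) (hunit n)) (by
        intro n hn1 hn2
        push_cast at hn2
        exact det_zero g n A (T + δ) (hz2 n hn1 hn2) (Sum.inl 0) (hunit n))
      obtain ⟨i1, hi1⟩ : ∃ i, i ∉ b := by
        by_contra hcon
        push Not at hcon
        exact hb (Set.eq_univ_of_forall hcon)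
      have h5 : ∑ k : b, ee k ≤ ∑ k ∈ Finset.univ.erase i1, ee k := by
        rw [hsum]
        refine Finset.sum_le_sum_of_subset fun k hk => ?_
        rw [Finset.mem_erase]
        refine ⟨?_, Finset.mem_univ _⟩
        rintro rfl
        exact hi1 (by simpa using hk)
      have h6 : ∑ k ∈ Finset.univ.erase i1, ee k + ee i1 = d + d' + (l + w) := by
        rw [Finset.sum_erase_add _ _ (Finset.mem_univ i1), Fin.sum_univ_three]
        rfl
      have h7 : ee i1 = d ∨ ee i1 = d' ∨ ee i1 = l + w := by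
        fin_cases i1
        · exact Or.inl rfl
        · exact Or.inr (Or.inl rfl)
        · exact Or.inr (Or.inr rfl)
      omega
  · push Not at hcase
    have hp0 : p = 0 := by
      have h4 := hcc' 1
      change p = _ at h4
      rw [h4]
      exact Finset.sum_eq_zero fun k _ => by rw [(hcase k).1, C_0, zero_mul]
    have hWc0 : W * c = 0 := by
      have h4 := hcc' 2
      change W * c = _ at h4
      rw [h4]
      exact Finset.sum_eq_zero fun k _ => by rw [(hcase k).2, C_0, zero_mul]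
    have hc0 : c = 0 := (mul_eq_zero.1 hWc0).resolve_left hW0
    have hR : ∀ n : ℤ, F6 F2 F3 n a q r p (W * c) = ((taylor (n : ℚ) a : ℚ[X]) : PowerSeries ℚ)
        + PowerSeries.X * (((taylor (n : ℚ) q : ℚ[X]) : PowerSeries ℚ)
        + PowerSeries.X * ((taylor (n : ℚ) r : ℚ[X]) : PowerSeries ℚ)) := by
      intro n
      rw [F6, hp0, hWc0]
      simp only [map_zero, Polynomial.coe_zero, mul_zero, add_zero]
      ring
    have ha0 : a = 0 := by
      by_contra hne
      have h4 := const3 n0 ν T ![a, q, r] ![K, L, d] (by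
        intro i
        fin_cases i
        · exact nd_lt ha
        · exact nd_lt hq
        · exact nd_lt hr) hne (by
        intro n hn1 hn2
        have h5 := hF1 n hn1 hn2
        rw [hR] at h5
        refine h5.trans (dvd_of_eq ?_)
        rw [Fin.sum_univ_three]
        change _ = ((taylor (n : ℚ) a : ℚ[X]) : PowerSeries ℚ) * PowerSeries.X ^ 0 +
          ((taylor (n : ℚ) q : ℚ[X]) : PowerSeries ℚ) * PowerSeries.X ^ 1 +
          ((taylor (n : ℚ) r : ℚ[X]) : PowerSeries ℚ) * PowerSeries.X ^ 2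
        ring)
      rw [Fin.sum_univ_three] at h4
      have h5 : (![K, L, d] : Fin 3 → ℕ) 0 + (![K, L, d] : Fin 3 → ℕ) 1 + (![K, L, d] : Fin 3 → ℕ) 2 = K + L + d := rfl
      omega
    have hq0 : q = 0 := by
      by_contra hne
      have h4 := const3 n0 ν (T - 1) ![q, r, 0] ![L, d, 0] (by
        intro i
        fin_cases i
        · exact nd_lt hq
        · exact nd_lt hr
        · simp) hne (by
        intro n hn1 hn2
        have h5 := hF1 n hn1 hn2
        rw [hR, ha0, map_zero, Polynomial.coe_zero, zero_add] at h5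
        have h6 : T = T - 1 + 1 := by omega
        rw [h6, pow_succ'] at h5
        have h7 := (mul_dvd_mul_iff_left PowerSeries.X_ne_zero).1 h5
        refine h7.trans (dvd_of_eq ?_)
        rw [Fin.sum_univ_three]
        change _ = ((taylor (n : ℚ) q : ℚ[X]) : PowerSeries ℚ) * PowerSeries.X ^ 0 +
          ((taylor (n : ℚ) r : ℚ[X]) : PowerSeries ℚ) * PowerSeries.X ^ 1 +
          ((taylor (n : ℚ) (0 : ℚ[X]) : ℚ[X]) : PowerSeries ℚ) * PowerSeries.X ^ 2
        rw [map_zero, Polynomial.coe_zero]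
        ring)
      rw [Fin.sum_univ_three] at h4
      have h5 : (![L, d, 0] : Fin 3 → ℕ) 0 + (![L, d, 0] : Fin 3 → ℕ) 1 + (![L, d, 0] : Fin 3 → ℕ) 2 = L + d := by
        simp
      omega
    have hr0 : r = 0 := by
      by_contra hne
      have h4 := const3 n0 ν (T - 2) ![r, 0, 0] ![d, 0, 0] (by
        intro i
        fin_cases i
        · exact nd_lt hr
        · simp
        · simp) hne (by
        intro n hn1 hn2
        have h5 := hF1 n hn1 hn2
        rw [hR, ha0, hq0, map_zero, Polynomial.coe_zero, zero_add, zero_add] at h5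
        have h6 : T = T - 2 + 1 + 1 := by omega
        rw [h6, pow_succ', pow_succ'] at h5
        have h7 := (mul_dvd_mul_iff_left PowerSeries.X_ne_zero).1 ((mul_dvd_mul_iff_left PowerSeries.X_ne_zero).1 h5)
        refine h7.trans (dvd_of_eq ?_)
        rw [Fin.sum_univ_three]
        change _ = ((taylor (n : ℚ) r : ℚ[X]) : PowerSeries ℚ) * PowerSeries.X ^ 0 +
          ((taylor (n : ℚ) (0 : ℚ[X]) : ℚ[X]) : PowerSeries ℚ) * PowerSeries.X ^ 1 +
          ((taylor (n : ℚ) (0 : ℚ[X]) : ℚ[X]) : PowerSeries ℚ) * PowerSeries.X ^ 2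
        rw [map_zero, Polynomial.coe_zero]
        ring)
      rw [Fin.sum_univ_three] at h4
      have h5 : (![d, 0, 0] : Fin 3 → ℕ) 0 + (![d, 0, 0] : Fin 3 → ℕ) 1 + (![d, 0, 0] : Fin 3 → ℕ) 2 = d := by
        simp
      omega
    exact ⟨ha0, hq0, hr0, hp0, hc0⟩

end MP_a3a416_nt.SJ5
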