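import Pool.Agent.Lib.MP_a3a416_nt.SJ5.Zero6

/-!
# SJ5-ZeroF
Zero estimate for the family `1, u, u², F₂, F₃`, order 5 at all nodes `|n| ≤ N` (single index 5).
-/

open Polynomial BBZ MP_a3a416_nt.SJ

namespace MP_a3a416_nt.SJ5

/-- ZERO ESTIMATE for the family `1 (K), u (L), u² (D), F₂ (D), F₃ (L)`, order 5 at the nodes `|n| ≤ N`;
`F_e` is any sequence with `(n+u)^e F_e(n) = (n+u)^e F_e(n-1) + n`. -/
theorem zero_estimateF (N K L D : ℕ) (F2 F3 : ℤ → PowerSeries ℚ) (h2 : HF 2 F2) (h3 : HF 3 F3)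
    (hLK : L ≤ K) (hDL : D ≤ L) (hC : K + 2 * L + 2 * D + 76 ≤ 10 * N)
    (a q r p c : ℚ[X]) (ha : a.degree < K) (hq : q.degree < L) (hr : r.degree < D) (hp : p.degree < D)
    (hc : c.degree < L)
    (hF : ∀ n : ℤ, |n| ≤ N → PowerSeries.X ^ 5 ∣ F6 F2 F3 n a q r p c) :
    a = 0 ∧ q = 0 ∧ r = 0 ∧ p = 0 ∧ c = 0 := by
  refine zero_estimate6 (-(N : ℤ)) (-(N : ℤ)) (2 * N + 1) 0 5 0 K L D D L 0 le_rfl (by push_cast; omega) F2 F3 h2 h3
    1 one_ne_zero (by simp) (by intro n h1 h2; push_cast at h2; omega) hLK hDL hDL (by omega) (by omega) (by omega)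
    (by omega) (by omega) (by omega) (by omega) (by omega) (by norm_num) a q r p c ha hq hr hp hc ?_ ?_
  · intro n h4 h5
    rw [one_mul]
    push_cast at h5
    exact hF n (abs_le.2 ⟨h4, by omega⟩)
  · intro n h4 h5
    push_cast at h5
    omega

end MP_a3a416_nt.SJ5
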