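import Pool.Agent.Lib.MP_a3a416_nt.SJ5.Defs
import Pool.Agent.Lib.MP_a3a416_nt.SJ5.ZeroF
import Pool.Agent.Lib.MP_a3a416_nt.SJ5.HFGen
import Pool.Agent.Lib.MP_a3a416_nt.SJ.UnitCols

/-! # Section 1 (zero estimate), final statement. -/

open Polynomial

namespace MP_a3a416_nt.SJ5

open MP_a3a416_nt.SJ

/-! ## the shift relations of the two local functions -/

theorem hh_step (r : ℕ) (hr : r ≠ 0) (n : ℤ) : hh r n - hh r (n - 1) = ((n : ℚ)⁻¹) ^ r :=
  harm_step r hr n

theorem HF_c2 (c : ℚ) : HF 2 (fun n => PowerSeries.mk (c2 c n)) := by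
  have h := HF_gen hh hh_step 1 one_ne_zero (fun j => -(if j = 4 then c else 0))
  have e : (fun n : ℤ => PowerSeries.mk (c2 c n)) = fun n => PowerSeries.mk fun j =>
      (-1) ^ j * ((1 + j).choose j : ℚ) * hh (1 + j) n + -(if j = 4 then c else 0) := by
    funext n
    ext j
    simp only [PowerSeries.coeff_mk, c2]
    have h1 : ((1 + j).choose j : ℚ) = (j : ℚ) + 1 := by
      rw [Nat.choose_symm_of_eq_add (show 1 + j = j + 1 by ring), Nat.choose_one_right]
      push_cast
      ring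
    rw [h1]
    ring
  rw [e]
  exact h

theorem HF_c3 (c : ℚ) : HF 3 (fun n => PowerSeries.mk (c3 c n)) := by
  have h := HF_gen hh hh_step 2 two_ne_zero (fun j => (if j = 3 then 2 * c else 0))
  have e : (fun n : ℤ => PowerSeries.mk (c3 c n)) = fun n => PowerSeries.mk fun j =>
      (-1) ^ j * ((2 + j).choose j : ℚ) * hh (2 + j) n + (if j = 3 then 2 * c else 0) := by
    funext n
    ext j
    simp only [PowerSeries.coeff_mk, c3]
    have h1 : ((2 + j).choose j : ℚ) = ((j : ℚ) + 1) * ((j : ℚ) + 2) / 2 := by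
      rw [Nat.choose_symm_of_eq_add (show 2 + j = j + 2 by ring), Nat.cast_choose_two]
      push_cast
      ring
    rw [h1]
  rw [e]
  exact h

/-! ## the columns of `V` are independent -/

theorem J_sum (c : ℚ) (β : Blk) {M : ℕ} (g : Fin M → ℚ) (n : ℤ) (k : ℕ) :
    J c β (∑ i, C (g i) * X ^ (i : ℕ)) n k = ∑ i, g i * J c β (X ^ (i : ℕ)) n k := by
  unfold J
  rw [JS_eq, tp_sum, Finset.sum_mul, map_sum]
  refine Finset.sum_congr rfl fun i _ => ?_
  rw [tp_mul, tp_C, JS_eq, mul_assoc, PowerSeries.coeff_C_mul]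

theorem cols_independent (c : ℚ) {N K L D : ℕ} (hLK : L ≤ K) (hDL : D ≤ L)
    (hC : K + 2 * L + 2 * D + 76 ≤ 10 * N) :
    LinearIndependent ℚ (fun (y : Col K L D) (r : Row N) => J c y.1 (X ^ (y.2 : ℕ)) (node r) r.2) := by
  rw [Fintype.linearIndependent_iff]
  intro g hg
  set Q : Blk → ℚ[X] := fun β => ∑ i : Fin (len K L D β), C (g ⟨β, i⟩) * X ^ (i : ℕ) with hQ
  have hQdeg : ∀ β, (Q β).degree < (len K L D β : ℕ) := by
    intro β
    simp only [hQ]
    refine lt_of_le_of_lt (degree_sum_le _ _) ?_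
    rw [Finset.sup_lt_iff (by exact WithBot.bot_lt_coe _)]
    intro i _
    refine lt_of_le_of_lt (degree_C_mul_X_pow_le _ _) ?_
    exact_mod_cast i.2
  have hrow : ∀ (n : ℤ), |n| ≤ N → ∀ k : ℕ, k < 5 → ∑ β, J c β (Q β) n k = 0 := by
    intro n hn k hk
    rw [abs_le] at hn
    have h3 := congrFun hg (⟨(n + N).toNat, by omega⟩, ⟨k, hk⟩)
    simp only [Finset.sum_apply, Pi.smul_apply, smul_eq_mul, Pi.zero_apply] at h3
    have hnode : node ((⟨(n + N).toNat, by omega⟩, ⟨k, hk⟩) : Row N) = n := by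
      simp only [node]
      omega
    rw [hnode, Fintype.sum_sigma] at h3
    rw [← h3]
    refine Finset.sum_congr rfl fun β _ => ?_
    simp only [hQ]
    rw [J_sum]
  have hz := zero_estimateF N K L D (fun n => PowerSeries.mk (c2 c n)) (fun n => PowerSeries.mk (c3 c n))
    (HF_c2 c) (HF_c3 c) hLK hDL hC (Q .z) (Q .u) (Q .w) (Q .f) (Q .g) (hQdeg .z) (hQdeg .u) (hQdeg .w)
    (hQdeg .f) (hQdeg .g) (by
      intro n hn
      rw [PowerSeries.X_pow_dvd_iff]
      intro k hk
      have h1 : F6 (fun n => PowerSeries.mk (c2 c n)) (fun n => PowerSeries.mk (c3 c n)) n (Q .z) (Q .u) (Q .w)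
          (Q .f) (Q .g) = ∑ β, JS c β (Q β) n := by
        rw [sum_blk]
        simp only [F6, JS_eq, gser, tp]
        ring
      rw [h1, map_sum]
      exact hrow n hn k hk)
  have hQz : ∀ β, Q β = 0 := by
    intro β
    cases β
    · exact hz.1
    · exact hz.2.1
    · exact hz.2.2.1
    · exact hz.2.2.2.1
    · exact hz.2.2.2.2
  rintro ⟨β, i⟩
  have h4 := congrArg (fun q : ℚ[X] => q.coeff i) (hQz β)
  simp only [hQ, finsetSum_coeff, coeff_C_mul, coeff_X_pow, coeff_zero] at h4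
  rw [Finset.sum_eq_single i] at h4
  · simpa using h4
  · intro b _ hb
    rw [if_neg (fun h => hb (Fin.ext h.symm)), mul_zero]
  · intro h
    exact absurd (Finset.mem_univ i) h

theorem zeroEst_rows (c : ℚ) {N K L D c0 : ℕ} (hR : K + 2 * L + 2 * D + c0 = 5 * (2 * N + 1))
    (hLK : L ≤ K) (hDL : D ≤ L) (hC : K + 2 * L + 2 * D + 76 ≤ 10 * N) :
    ∃ (rr : Fin c0 → Row N) (e : (Col K L D ⊕ Fin c0) ≃ Row N), sdet e (Vh c K L D rr) ≠ 0 := by
  obtain ⟨rr, -, hrr⟩ := exists_unit_columns (I := Row N) (K := Col K L D) (c0 := c0)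
    (by rw [card_row, card_col, ← hR]) (fun r y => J c y.1 (X ^ (y.2 : ℕ)) (node r) r.2)
    (cols_independent c hLK hDL hC)
  have hcard : Fintype.card (Col K L D ⊕ Fin c0) = Fintype.card (Row N) := by
    rw [Fintype.card_sum, card_col, card_row, Fintype.card_fin, hR]
  let e : (Col K L D ⊕ Fin c0) ≃ Row N := Fintype.equivOfCardEq hcard
  refine ⟨rr, e, ?_⟩
  have h3 := hrr e
  have h4 : sdet e (Vh c K L D rr) = ((Vh c K L D rr).submatrix id e.symm).det := by
    unfold sdet
    rw [← Matrix.det_submatrix_equiv_self e ((Vh c K L D rr).submatrix id e.symm),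
      Matrix.submatrix_submatrix]
    congr 2
    funext x
    simp
  have h5 : (Vh c K L D rr).submatrix id e.symm = (Matrix.of (fun i j => Sum.elim
      (fun y : Col K L D => J c y.1 (X ^ (y.2 : ℕ)) (node i) i.2) (fun t => if i = rr t then 1 else 0)
        (e.symm j)) : Matrix (Row N) (Row N) ℚ) := by
    funext i j
    simp only [Matrix.submatrix_apply, id_eq, Matrix.of_apply, Vh]
    rcases e.symm j with y | t
    · rw [VP_inl]; rfl
    · rw [VP_inr]; rfl
  rw [h4, h5]
  exact h3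

end MP_a3a416_nt.SJ5
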